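import Pool.Agent.AD.T.NCDefs
import Pool.Agent.AD.T.Defs
import Pool.Agent.H7.Bir.Open
import Pool.Agent.H7.Qup.Defs
import Pool.Agent.H14.KB.KobFinal
import Pool.Agent.H62.Qe.Defs

/-!
# SDA RDefs: symmetric differentials on the complement of hypersurface sections, and the conclusion
-/

set_option autoImplicit false

open MvPolynomial

noncomputable section

namespace Pool.Agent.SDA

open Pool.Agent.H36.BP (EN fs)
open Pool.Agent.H14.PP (Tan)
open Pool.Agent.H17 (PN VanishesAt)
open Pool.Agent.H62.FC (Homog)
open Pool.Agent.H62.SA (locVar OnBd)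
open Pool.Agent.H62.Qe (IsEtaleOver)
open Pool.Agent.H7.Bir (GGLOpen)
open Pool.Agent.H7.Qup (IsDominantMap)
open Pool.Agent.H17LG.Variety (FunField IsLogGeneralType)
open Pool.Agent.H17EF (coneE)
open Pool.Agent.H14.KB (KobayashiHyperbolicModulo)
open Pool.Agent.AD (SymDiff)

variable {N k : ℕ}

/-- The cone over the complement in the variety of `P` of the hypersurfaces `{H i = 0}`. -/
def openCone (P : Ideal (MvPolynomial (Fin (N + 1)) ℂ)) (H : Fin k → MvPolynomial (Fin (N + 1)) ℂ) : Set (EN N) :=
  {x | x ∈ coneE P ∧ ∀ i, eval x.ofLp (H i) ≠ 0}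

/-- The logarithmic length of the tangent vector `v` at the point `x`: the sum of its Fubini–Study length and the absolute values of the complex numbers
`dH_i (v) / H_i (x) - e_i ⟨x, v⟩ / |x|²`, whose real parts are the derivatives along `v` of the functions `log (|H_i| / |x| ^ e_i)`. -/
def logLength (H : Fin k → MvPolynomial (Fin (N + 1)) ℂ) (e : Fin k → ℕ) (x v : EN N) : ℝ :=
  fs x v + ∑ i, ‖fderiv ℂ (fun y : EN N => eval y.ofLp (H i)) x v / eval x.ofLp (H i) - (e i : ℂ) * (inner ℂ x v / (‖x‖ : ℂ) ^ 2)‖

/-- For every `ε > 0` the value of the symmetric differential `θ` on a tangent vector `v` of the complement of the hypersurfaces `{H i = 0}` is at most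
`(ε |v|_log + C |v|) ^ m`, where `|v|` is the Fubini–Study length.  If the curves `{H i = 0}` are smooth and cross normally, then this means that `θ` has
at most logarithmic poles and vanishes on the static vectors, that is, on the logarithmic tangent vectors at the points of the boundary whose image in
the tangent space is `0`. -/
def VanishesOnStatic {P : Ideal (MvPolynomial (Fin (N + 1)) ℂ)} {H : Fin k → MvPolynomial (Fin (N + 1)) ℂ} (e : Fin k → ℕ) {m : ℕ}
    (θ : SymDiff (openCone P H) m) : Prop :=
  ∀ ε : ℝ, 0 < ε → ∃ C : ℝ, ∀ x ∈ openCone P H, ∀ v, Tan (openCone P H) x v → ‖θ.toFun x v‖ ≤ (ε * logLength H e x v + C * fs x v) ^ m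

/-- The conclusion, for the quasi-projective surface `U = locVar P G`: the properties of the Green–Griffiths–Lang conjecture (`GGLOpen`) hold for `U`
and for all quasi-projective surfaces which dominate `U`, or virtually dominate `U`. -/
structure IsHyperbolicOpen (P : Ideal (MvPolynomial (Fin (N + 1)) ℂ)) [P.IsPrime] {s : ℕ} (G : Fin s → MvPolynomial (Fin (N + 1)) ℂ) : Prop where
  /-- `U` has the properties of the conjecture, with some exceptional set `Ξ` -/
  four : ∃ Ξ : Set (PN N), GGLOpen P G Ξ
  /-- every quasi-projective surface `V = locVar R F` with a dominant regular map to `U` has the properties of the conjecture -/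
  dominating : ∀ (M t : ℕ) (R : Ideal (MvPolynomial (Fin (M + 1)) ℂ)) [R.IsPrime] (F : Fin t → MvPolynomial (Fin (M + 1)) ℂ) (p : PN M → PN N),
    Homog R → (∀ i, ∃ n, (F i).IsHomogeneous n) → (∃ z : Fin 2 → FunField R, IsTranscendenceBasis ℂ z) → IsDominantMap P R G F p →
    ∃ Ξ : Set (PN M), GGLOpen R F Ξ
  /-- every quasi-projective surface `V = locVar R F` of log general type with a finite étale covering `V' = locVar R' F'` (given by a regular
  map `q` of the closures with `q⁻¹ (V) = V'`) and a dominant regular map from `V'` to `U` has the properties of the conjecture -/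
  virtual : ∀ (M L t t' : ℕ) (R' : Ideal (MvPolynomial (Fin (M + 1)) ℂ)) [R'.IsPrime] (R : Ideal (MvPolynomial (Fin (L + 1)) ℂ)) [R.IsPrime]
    (F : Fin t → MvPolynomial (Fin (L + 1)) ℂ) (F' : Fin t' → MvPolynomial (Fin (M + 1)) ℂ) (q : PN M → PN L) (p : PN M → PN N),
    Homog R' → Homog R → (∀ i, ∃ n, (F i).IsHomogeneous n) → (∀ i, ∃ n, (F' i).IsHomogeneous n) →
    (∃ z : Fin 2 → FunField R', IsTranscendenceBasis ℂ z) → (∃ z : Fin 2 → FunField R, IsTranscendenceBasis ℂ z) →
    IsDominantMap P R' G F' p → IsEtaleOver R R' F F' q → IsLogGeneralType (OnBd R F (k := 2)) → ∃ Ξ : Set (PN L), GGLOpen R F Ξ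
  /-- the Kobayashi metric of `U` is bounded below by a power of `|Q|`, for a form `Q` which is not `0` on `U` -/
  kobayashi : ∃ (Q : MvPolynomial (Fin (N + 1)) ℂ) (D : ℕ), Q.IsHomogeneous D ∧ (∃ x ∈ locVar P G, ¬ VanishesAt Q x) ∧
    KobayashiHyperbolicModulo (locVar P G) Q D

end Pool.Agent.SDA
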