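import Pool.Agent.SDA.Defs
import Pool.Agent.SDA.RDefs
import Pool.Agent.H36.LB.SameL
import Pool.Agent.H36.LB.ProperL
import Pool.Agent.H13.CV.Strong
import Pool.Agent.H17EF.Closed
import Pool.Agent.H22.WL.Proj
import Pool.Agent.H14.V.Up
import Pool.Agent.H36.BP.CirA

/-!
# SDA E4: from the curves of order two on the cone to the four properties and the bound for the Kobayashi metric
-/

set_option autoImplicit false

open Topology Filter Metric MvPolynomial

noncomputable section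

namespace Pool.Agent.SDA

open Pool.Agent.H36.BP (EN fs OrdTwo circle_approx)
open Pool.Agent.H17 (PN VanishesAt HolomorphicInto ZariskiClosedIn)
open Pool.Agent.H62.FC (Homog)
open Pool.Agent.H62.SA (locVar OnBd IsProperMap)
open Pool.Agent.H7.Bir (GGLOpen)
open Pool.Agent.H17LG.Variety (FunField IsLogGeneralType)
open Pool.Agent.H17EF (projVar coneE LE)
open Pool.Agent.H14.KB (KobayashiHyperbolicModulo)
open Pool.Agent.H13.SM (conTan)
open Pool.Agent.H13.OT (OrderTwo)
open Pool.Agent.H14.V (IsLift average_toLp)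
open Pool.Agent.H22.WL (vanishesAt_lift)

/-- from the averages to the characteristic function -/
theorem ordTwo_of_average {N : ℕ} {H : ℂ → EN N} (hH : Differentiable ℂ H) (h0 : ∀ z, H z ≠ 0) {A : ℝ}
    (hA : ∀ r : ℝ, 0 < r → Real.circleAverage (fun z => Real.log ‖H z‖) 0 r ≤ A * (1 + r ^ 2)) : OrdTwo H := by
  have hn : ∀ z, 0 < ‖H z‖ := fun z => norm_pos_iff.2 (h0 z)
  have hlc : Continuous fun z => Real.log ‖H z‖ := hH.continuous.norm.log fun z => (hn z).ne'
  refine ⟨A + 2 + |Real.log ‖H 0‖|, fun r hr => ?_⟩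
  obtain ⟨u, hu, huR⟩ := circle_approx hr (fun z => Real.log ‖H z‖) hlc.continuousOn one_pos
  have hexp : ∀ z, ‖Complex.exp (-u z - 1) • H z‖ = Real.exp (-(u z).re - 1 + Real.log ‖H z‖) := by
    intro z
    rw [norm_smul, Complex.norm_exp, Real.exp_add, Real.exp_log (hn z)]
    simp
  have hup : ∀ z ∈ ball (0 : ℂ) r, ‖Complex.exp (-u z - 1) • H z‖ ≤ 1 := by
    intro z hz
    have hd : DiffContOnCl ℂ (fun z => Complex.exp (-u z - 1) • H z) (ball (0 : ℂ) r) :=
      ((hu.neg.sub_const _).cexp.smul hH).diffContOnCl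
    refine Complex.norm_le_of_forall_mem_frontier_norm_le isBounded_ball hd (fun y hy => ?_)
      (subset_closure hz)
    rw [frontier_ball _ hr.ne'] at hy
    rw [hexp y, Real.exp_le_one_iff]
    have h1 := (abs_le.1 (huR y hy)).1
    linarith
  have hmean : (u 0).re ≤ A * (1 + r ^ 2) + 1 := by
    have h1 : Real.circleAverage (fun z => (u z).re) 0 r = (u 0).re := by
      have h2 : CircleIntegrable u 0 r := hu.continuous.continuousOn.circleIntegrable'
      have h3 := Complex.reCLM.circleAverage_comp_comm h2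
      have h4 : Real.circleAverage u 0 r = u 0 := hu.diffContOnCl.circleAverage
      rw [h4] at h3
      exact h3
    have h5 : Real.circleAverage (fun z => (u z).re) 0 r ≤ Real.circleAverage (fun z => Real.log ‖H z‖ + 1) 0 r := by
      refine Real.circleAverage_mono (Complex.continuous_re.comp hu.continuous).continuousOn.circleIntegrable'
        (hlc.add continuous_const).continuousOn.circleIntegrable' fun z hz => ?_
      rw [abs_of_pos hr] at hz
      have h6 := (abs_le.1 (huR z hz)).2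
      show (u z).re ≤ Real.log ‖H z‖ + 1
      linarith
    have h7 : Real.circleAverage (fun z => Real.log ‖H z‖ + 1) 0 r = Real.circleAverage (fun z => Real.log ‖H z‖) 0 r + 1 := by
      have h8 := Real.circleAverage_add (c := 0) (R := r) hlc.continuousOn.circleIntegrable'
        (continuous_const (y := (1 : ℝ))).continuousOn.circleIntegrable'
      have h9 : Real.circleAverage (fun _ : ℂ => (1 : ℝ)) 0 r = 1 := Real.circleAverage_const _ _ _
      rw [h9] at h8
      exact h8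
    linarith [hA r hr]
  refine ⟨fun z => Complex.exp (-u z - 1) • H z, ?_, hup, ?_, fun z _ => Or.inr ?_⟩
  · exact ((hu.neg.sub_const _).cexp.smul hH).differentiableOn
  · show _ ≤ ‖Complex.exp (-u 0 - 1) • H 0‖
    rw [hexp 0, Real.exp_le_exp]
    have h1 := neg_abs_le (Real.log ‖H 0‖)
    have h2 : 0 ≤ |Real.log ‖H 0‖| := abs_nonneg _
    have h3 : 0 ≤ r ^ 2 := sq_nonneg r
    nlinarith [mul_nonneg h2 h3]
  · refine ⟨(Complex.exp (-u z - 1))⁻¹, inv_ne_zero (Complex.exp_ne_zero _), ?_⟩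
    rw [smul_smul, inv_mul_cancel₀ (Complex.exp_ne_zero _), one_smul]

variable {N k : ℕ} {P : Ideal (MvPolynomial (Fin (N + 1)) ℂ)} {H : Fin k → MvPolynomial (Fin (N + 1)) ℂ} {e : Fin k → ℕ}

/-- the complement of a hypersurface section is proper over an affine variety -/
theorem isProperMap_section {H₀ : MvPolynomial (Fin (N + 1)) ℂ} {d : ℕ} (hH₀ : H₀.IsHomogeneous d) :
    IsProperMap P (fun _ : Fin 1 => H₀) (fun _ : Fin 1 => (Fin.cons H₀ fun j => X j ^ d : Fin (N + 1 + 1) → MvPolynomial (Fin (N + 1)) ℂ))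
      fun _ => d where
  hom m j := by
    refine Fin.cases ?_ (fun j => ?_) j
    · simpa using hH₀
    · simpa using isHomogeneous_X_pow (R := ℂ) j d
  zero m := by simp
  rel m n j := by
    have h : m = n := Subsingleton.elim _ _
    subst h
    simp
  noZero x _ := by
    obtain ⟨j, hj⟩ : ∃ j, x.rep j ≠ 0 := by
      by_contra hcon
      push Not at hcon
      exact x.rep_nonzero (funext hcon)
    refine ⟨0, j.succ, fun h => ?_⟩
    have h1 : eval x.rep (X j ^ d : MvPolynomial (Fin (N + 1)) ℂ) = 0 := by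
      have h2 : eval x.rep ((Fin.cons H₀ fun j => X j ^ d : Fin (N + 1 + 1) → MvPolynomial (Fin (N + 1)) ℂ) j.succ) = 0 := h
      rwa [Fin.cons_succ] at h2
    rw [map_pow, eval_X] at h1
    exact hj (eq_zero_of_pow_eq_zero h1)

/-- MODULE E4: from the curves of order two on the cone to the four properties and the bound for the Kobayashi metric (`Ξ` is the zero set of `Q` in
`U`; `H36.LB.lim_main`, `limModPN_of_proper` with the forms `X j ^ (∑ e i)`, `H13.CV.strongly_of_brodyL`; order two: `SY/F1G`) -/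
theorem four_of_orderTwo [hPp : P.IsPrime] {z : Fin 2 → FunField P} (hP : Homog P) (hz : IsTranscendenceBasis ℂ z)
    (hsm : ∀ y : Fin (N + 1) → ℂ, y ≠ 0 → (∀ Q ∈ P, eval y Q = 0) → Module.finrank ℂ (conTan P y) ≤ 3)
    (hk : 1 ≤ k) (hH : ∀ i, (H i).IsHomogeneous (e i)) (he : ∀ i, 1 ≤ e i) (hHP : ∀ i, H i ∉ P)
    (hgt : IsLogGeneralType (K := FunField P) (k := 2) (OnBd P fun _ : Fin 1 => ∏ i, H i))
    {Q : MvPolynomial (Fin (N + 1)) ℂ} {D : ℕ} (hQ : Q.IsHomogeneous D) (hQP : Q ∉ P)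
    (h : ∀ F : ℂ → EN N, Differentiable ℂ F → (∀ z, F z ∈ openCone P H) → OrdTwo F →
      (∀ z, eval (F z).ofLp Q = 0) ∨ ∀ z w, ∃ c : ℂ, F z = c • F w) :
    (∃ Ξ : Set (PN N), GGLOpen P (fun _ : Fin 1 => ∏ i, H i) Ξ) ∧
      ∃ (Q : MvPolynomial (Fin (N + 1)) ℂ) (D : ℕ), Q.IsHomogeneous D ∧ (∃ x ∈ locVar P fun _ : Fin 1 => ∏ i, H i, ¬ VanishesAt Q x) ∧
        KobayashiHyperbolicModulo (locVar P fun _ : Fin 1 => ∏ i, H i) Q D := by
  classical
  set H₀ : MvPolynomial (Fin (N + 1)) ℂ := ∏ i, H i with hH₀def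
  have hH₀ : H₀.IsHomogeneous (∑ i, e i) := IsHomogeneous.prod _ _ _ fun i _ => hH i
  have hH₀P : H₀ ∉ P := by
    intro h
    obtain ⟨i, -, hi⟩ := (Ideal.IsPrime.prod_mem_iff (p := P)).1 h
    exact hHP i hi
  have hprop := isProperMap_section (P := P) hH₀
  have hG : ∀ m : Fin 1, ((fun _ : Fin 1 => H₀) m).IsHomogeneous ((fun _ : Fin 1 => ∑ i, e i) m) := fun _ => hH₀
  have hO := Pool.Agent.H36.LB.openPart_of_curveComplement hP hG (Pool.Agent.H36.LB.curveComplement_of_proper hprop)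
  set U : Set (PN N) := locVar P fun _ : Fin 1 => H₀ with hUdef
  set Ξ : Set (PN N) := {x | x ∈ U ∧ ∀ A ∈ ({Q} : Set (MvPolynomial (Fin (N + 1)) ℂ)), VanishesAt A x} with hΞdef
  have hcl : ZariskiClosedIn U Ξ := by
    refine ⟨{Q}, ?_, rfl⟩
    rintro A hA
    rw [Set.mem_singleton_iff.1 hA]
    exact ⟨D, hQ⟩
  have hXi : ∃ i, (X i : MvPolynomial (Fin (N + 1)) ℂ) ∉ P := Pool.Agent.H62.FC.exists_X_notMem (r := 2) (by norm_num) ⟨z, hz⟩
  have hne : Ξ ≠ U := by
    intro heq
    obtain ⟨x, hx, hxQ⟩ := Pool.Agent.H17EF.exists_point hP hXi (Q := H₀ * Q)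
      (fun h => (hPp.mem_or_mem h).elim hH₀P hQP) (hH₀.mul hQ)
    have hx1 : eval x.rep (H₀ * Q) ≠ 0 := hxQ
    rw [map_mul] at hx1
    have hxU : x ∈ U := ⟨fun R hR n hn => hx R hR n hn, 0, fun h => hx1 (by
      have h2 : eval x.rep H₀ = 0 := h
      rw [h2, zero_mul])⟩
    rw [← heq] at hxU
    have h3 : eval x.rep Q = 0 := hxU.2 Q rfl
    exact hx1 (by rw [h3, mul_zero])
  have hbr : ∀ f : ℂ → PN N, HolomorphicInto f Set.univ → OrderTwo f → (∀ z, f z ∈ U) → (∃ z w, f z ≠ f w) → ∀ z, f z ∈ Ξ := by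
    intro f hf hfo hfU hfn y
    refine ⟨hfU y, fun B hB => ?_⟩
    rw [Set.mem_singleton_iff.1 hB]
    obtain ⟨F₀, A, hF₀, hFf, hA⟩ := id hfo
    obtain ⟨A', hA'⟩ := average_toLp hF₀ (fun z => (hFf z).1) hA
    obtain ⟨F, hFdef⟩ : ∃ F : ℂ → EN N, F = fun z => WithLp.toLp 2 (F₀ z) := ⟨_, rfl⟩
    have hl : IsLift F f := by
      rw [hFdef]
      refine ⟨?_, fun z => hFf z⟩
      exact (LE N).differentiable.comp hF₀
    have hFX : ∀ z, F z ∈ coneE P := fun z => (hl.mem_iff hP z).1 (hfU z).1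
    have hFK : ∀ z, F z ∈ openCone P H := by
      intro z
      refine ⟨hFX z, fun i hi => ?_⟩
      obtain ⟨-, m, hm⟩ := hfU z
      apply hm
      show VanishesAt H₀ (f z)
      rw [vanishesAt_lift hl hH₀, hH₀def, map_prod]
      exact Finset.prod_eq_zero (Finset.mem_univ i) hi
    have hord : OrdTwo F := by
      refine ordTwo_of_average hl.1 (fun z => hl.ne_zero z) (A := A') ?_
      rw [hFdef]
      exact hA'
    rcases h F hl.1 hFK hord with h1 | h1
    · rw [vanishesAt_lift hl hQ]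
      exact h1 y
    · exfalso
      obtain ⟨a, b, hab⟩ := hfn
      apply hab
      obtain ⟨c, hc⟩ := h1 a b
      obtain ⟨ha, ha'⟩ := hl.2 a
      obtain ⟨hb, hb'⟩ := hl.2 b
      rw [ha', hb', Projectivization.mk_eq_mk_iff']
      refine ⟨c, ?_⟩
      rw [hc]
      rfl
  have hlim := Pool.Agent.H36.LB.limModPN_of_proper hP hprop hbr
  obtain ⟨hB, hPic, Q', D', hQ', hx', -, hK⟩ := Pool.Agent.H36.LB.lim_main hP hz hsm hG hO hgt hcl hne hlim
  refine ⟨⟨Ξ, hcl, hne, ?_, hPic, hB, ?_⟩, Q', D', hQ', hx', hK⟩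
  · intro w _ hw
    obtain rfl := Pool.Agent.H17EF.two_of_basis ⟨z, hz⟩ hw
    exact hgt
  · intro R _ hR hPR hRΞ w hw hz'
    exact Pool.Agent.H13.CV.strongly_of_brodyL P hP ⟨z, hz⟩ (fun m => ⟨_, hG m⟩) hcl hgt hB R hR hPR hRΞ w hw hz'

end Pool.Agent.SDA
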