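import Pool.Agent.SDA.RDefs
import Pool.Agent.H7.Qup.Main
import Pool.Agent.H62.Qe.Main

/-!
# SDA E5: surfaces which dominate or virtually dominate `U`

`hyperbolicOpen_of`: if the quasi-projective surface `U = locVar P G` has the properties of the Green–Griffiths–Lang conjecture, then so has every
quasi-projective surface with a dominant regular map to `U`, and every quasi-projective surface of log general type with a finite étale covering which
has a dominant regular map to `U`.
-/

set_option autoImplicit false

open Topology Filter Metric MvPolynomial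

noncomputable section

namespace Pool.Agent.SDA

open Pool.Agent.H17 (PN VanishesAt)
open Pool.Agent.H62.FC (Homog)
open Pool.Agent.H62.SA (locVar OnBd)
open Pool.Agent.H62.Qe (IsEtaleOver etaleOver_open)
open Pool.Agent.H7.Bir (GGLOpen)
open Pool.Agent.H7.Qup (IsDominantMap open_dominant)
open Pool.Agent.H17LG.Variety (FunField IsLogGeneralType)
open Pool.Agent.H14.KB (KobayashiHyperbolicModulo)

variable {N : ℕ} {P : Ideal (MvPolynomial (Fin (N + 1)) ℂ)}

/-- **Surfaces which dominate or virtually dominate `U`.** -/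
theorem hyperbolicOpen_of [P.IsPrime] (hP : Homog P) (hdim : ∃ z : Fin 2 → FunField P, IsTranscendenceBasis ℂ z) {s : ℕ}
    {G : Fin s → MvPolynomial (Fin (N + 1)) ℂ} (hG : ∀ i, ∃ n, (G i).IsHomogeneous n) (h : ∃ Ξ : Set (PN N), GGLOpen P G Ξ)
    (hkob : ∃ (Q : MvPolynomial (Fin (N + 1)) ℂ) (D : ℕ), Q.IsHomogeneous D ∧ (∃ x ∈ locVar P G, ¬ VanishesAt Q x) ∧
      KobayashiHyperbolicModulo (locVar P G) Q D) : IsHyperbolicOpen P G where
  four := by
    have _ := hP
    exact h
  dominating M t R _ F p hR hF hw hp := by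
    obtain ⟨Ξ, h⟩ := h
    exact open_dominant hR hdim hw hG hF hp h
  virtual M L t t' R' _ R _ F F' q p hR' hR hF hF' hw' hw hp hq hgt := by
    obtain ⟨Ξ, h⟩ := h
    obtain ⟨Ξ', h'⟩ := open_dominant hR' hdim hw' hG hF' hp h
    exact etaleOver_open hR hR' hw hw' hF hq hgt h'
  kobayashi := hkob

end Pool.Agent.SDA
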