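import Pool.Agent.SDA.E1
import Pool.Agent.AD.Cone
import Pool.Agent.AD.T.Sym

/-!
# SDA E2: the symmetric differentials of the statement are logarithmic forms
-/

set_option autoImplicit false

open Topology Filter Metric MvPolynomial

noncomputable section

namespace Pool.Agent.SDA

open Pool.Agent.H36.BP (EN fs wd)
open Pool.Agent.H14.PP (IsCone Tan CurveAt IsOpenPart)
open Pool.Agent.H62.FC (Homog)
open Pool.Agent.H17LG.Variety (FunField)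
open Pool.Agent.H17EF (coneE)
open Pool.Agent.H13.SM (conTan)
open Pool.Agent.H22.W (tan_mem tan_smul tan_curve)
open Pool.Agent.AD (SymDiff Chart Charts Vd tan_chart charts_coneE isCone_coneE)

variable {N k : ℕ}

/-- a tangent vector at a point of an open part is tangent to the open part -/
theorem E2_tan {X K : Set (EN N)} (hK : IsOpenPart X K) {x v : EN N} (hx : x ∈ K) (h : Tan X x v) : Tan K x v := by
  obtain ⟨F, ⟨hF, hFX⟩, h0, h1⟩ := h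
  refine ⟨F, ⟨hF, ?_⟩, h0, h1⟩
  have h2 : Tendsto F (𝓝 0) (𝓝 x) := by
    rw [← h0]
    exact hF.continuousAt
  filter_upwards [h2.eventually (hK.rel_open x hx), hFX] with z hz hzX using hz hzX

theorem E2_tan' {X K : Set (EN N)} (hK : IsOpenPart X K) {x v : EN N} (h : Tan K x v) : Tan X x v := by
  obtain ⟨F, ⟨hF, hFX⟩, h0, h1⟩ := h
  exact ⟨F, ⟨hF, hFX.mono fun z hz => hK.subset hz⟩, h0, h1⟩

/-- invariance -/
theorem E2_inv {X K : Set (EN N)} (hX : IsCone X) (hK : IsOpenPart X K) {m : ℕ} (θ : SymDiff K m) {x v : EN N} (hx : x ∈ K) (h : Tan X x v)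
    {c : ℂ} (hc : c ≠ 0) (a : ℂ) : θ.toFun (c • x) (c • v + a • x) = θ.toFun x v := by
  have h1 : Tan K (c • x) (c • v) := E2_tan hK (hK.smul_mem x hx c hc) (tan_smul hX h hc)
  have h2 : a • x = (a / c) • (c • x) := by rw [smul_smul, div_mul_cancel₀ _ hc]
  rw [h2, θ.add_smul _ _ h1, θ.scale _ _ (E2_tan hK hx h) c hc]

/-- the differential in a chart of `X` -/
theorem E2_eq {X K : Set (EN N)} {d : ℕ} (hX : IsCone X) (hK : IsOpenPart X K) {m : ℕ} (θ : SymDiff K m) (χ : Chart d X) {x v : EN N}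
    (hx : x ∈ K) (h : Tan X x v) (hU : x ∈ χ.U) :
    χ.q x ∈ ball (0 : Vd d) 2 ∧ χ.σ (χ.q x) ∈ K ∧ θ.toFun x v = θ.toFun (χ.σ (χ.q x)) (fderiv ℂ χ.σ (χ.q x) (fderiv ℂ χ.q x v)) := by
  obtain ⟨hb, c, a, hc, h1, h2⟩ := tan_chart hX χ h hU
  have h3 : χ.σ (χ.q x) ∈ K := by
    have := hK.smul_mem x hx c⁻¹ (inv_ne_zero hc)
    rwa [h1, smul_smul, inv_mul_cancel₀ hc, one_smul] at this
  refine ⟨hb, h3, ?_⟩
  have ht : Tan X (χ.σ (χ.q x)) (fderiv ℂ χ.σ (χ.q x) (fderiv ℂ χ.q x v)) := E2_tan' hK (χ.tan hK hb h3 _)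
  have h4 := E2_inv hX hK θ h3 ht hc (a * c)
  rw [← h4]
  congr 1
  conv_lhs => rw [h2]
  congr 1
  conv_lhs => rw [h1]
  rw [smul_smul]

theorem E2_cont {X K : Set (EN N)} {d : ℕ} (hX : IsCone X) (hch : Charts d X) (hK : IsOpenPart X K) {m : ℕ} (θ : SymDiff K m) :
    ContinuousOn (fun p : EN N × EN N => θ.toFun p.1 p.2) {p | p.1 ∈ K ∧ Tan X p.1 p.2} := by
  rintro ⟨x₀, v₀⟩ ⟨hx₀, h₀⟩
  have h₀' : Tan X x₀ v₀ := h₀
  obtain ⟨χ, hU, hq0⟩ := hch x₀ (tan_mem h₀')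
  have hq := χ.q_an x₀ hU
  obtain ⟨hp, hσ, h5⟩ := E2_eq hX hK θ χ hx₀ h₀' hU
  have h1 : Tendsto (fun y : EN N × EN N => χ.q y.1) (𝓝 (x₀, v₀)) (𝓝 (χ.q x₀)) :=
    hq.continuousAt.tendsto.comp continuousAt_fst.tendsto
  have h2 : Tendsto (fun y : EN N × EN N => fderiv ℂ χ.q y.1) (𝓝 (x₀, v₀)) (𝓝 (fderiv ℂ χ.q x₀)) :=
    hq.fderiv.continuousAt.tendsto.comp continuousAt_fst.tendsto
  have hcb : Continuous fun p : (EN N →L[ℂ] (Vd d)) × EN N => p.1 p.2 := isBoundedBilinearMap_apply.continuous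
  have h3 : Tendsto (fun y : EN N × EN N => fderiv ℂ χ.q y.1 y.2) (𝓝 (x₀, v₀)) (𝓝 (fderiv ℂ χ.q x₀ v₀)) :=
    (hcb.tendsto (fderiv ℂ χ.q x₀, v₀)).comp (h2.prodMk_nhds continuousAt_snd.tendsto)
  have han : AnalyticAt ℂ (fun y : Vd d × Vd d => θ.toFun (χ.σ y.1) (fderiv ℂ χ.σ y.1 y.2)) (χ.q x₀, fderiv ℂ χ.q x₀ v₀) := by
    refine θ.analytic d χ.σ _ _ (χ.σ_an _ hp) ?_
    have h6 : Tendsto χ.σ (𝓝 (χ.q x₀)) (𝓝 (χ.σ (χ.q x₀))) := (χ.σ_an _ hp).continuousAt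
    filter_upwards [isOpen_ball.mem_nhds hp, h6.eventually (hK.rel_open _ hσ)] with y hy hy' using hy' (χ.σ_mem y hy).1
  have h4 : Tendsto (fun y : EN N × EN N => (fun y : Vd d × Vd d => θ.toFun (χ.σ y.1) (fderiv ℂ χ.σ y.1 y.2)) (χ.q y.1, fderiv ℂ χ.q y.1 y.2))
      (𝓝 (x₀, v₀)) (𝓝 ((fun y : Vd d × Vd d => θ.toFun (χ.σ y.1) (fderiv ℂ χ.σ y.1 y.2)) (χ.q x₀, fderiv ℂ χ.q x₀ v₀))) :=
    han.continuousAt.tendsto.comp (h1.prodMk_nhds h3)
  show Tendsto (fun p : EN N × EN N => θ.toFun p.1 p.2) (𝓝[{p | p.1 ∈ K ∧ Tan X p.1 p.2}] (x₀, v₀)) (𝓝 (θ.toFun x₀ v₀))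
  rw [h5]
  refine (h4.mono_left nhdsWithin_le_nhds).congr' ?_
  have h6 : ∀ᶠ y : EN N × EN N in 𝓝 (x₀, v₀), y.1 ∈ χ.U := continuousAt_fst.eventually (χ.isOpen_U.mem_nhds hU)
  filter_upwards [nhdsWithin_le_nhds h6, self_mem_nhdsWithin] with y hy1 hy2
  exact (E2_eq hX hK θ χ hy2.1 hy2.2 hy1).2.2.symm

variable {P : Ideal (MvPolynomial (Fin (N + 1)) ℂ)} {H : Fin k → MvPolynomial (Fin (N + 1)) ℂ} {e : Fin k → ℕ}

/-- MODULE E2: the symmetric differentials of the statement are `LogForm`s -/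
theorem logForm [P.IsPrime] {z : Fin 2 → FunField P} (hP : Homog P) (hz : IsTranscendenceBasis ℂ z)
    (hsm : ∀ y : Fin (N + 1) → ℂ, y ≠ 0 → (∀ Q ∈ P, eval y Q = 0) → Module.finrank ℂ (conTan P y) ≤ 3)
    (hk : 1 ≤ k) (hH : ∀ i, (H i).IsHomogeneous (e i)) (he : ∀ i, 1 ≤ e i) {m : ℕ} (hm : 1 ≤ m) (θ : SymDiff (openCone P H) m)
    (hθ : VanishesOnStatic e θ) :
    LogForm (coneE P) (openCone P H) (fun i (x : EN N) => eval x.ofLp (H i)) e m θ.toFun := by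
  have hX : IsCone (coneE P) := isCone_coneE hP
  have hK : IsOpenPart (coneE P) (openCone P H) := (affOpen hP hk hH he).isOpenPart hX
  have hch : Charts 2 (coneE P) := charts_coneE hP hz hsm
  refine ⟨hm, E2_cont hX hch hK θ, ?_, ?_, ?_, ?_⟩
  · intro x hx v h c a hc
    exact E2_inv hX hK θ hx h hc a
  · intro x hx v h c
    exact θ.smul x v (E2_tan hK hx h) c
  · intro F hF hFK z
    exact (θ.curve_an ⟨hF.analyticAt z, Eventually.of_forall hFK⟩).differentiableAt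
  · intro ε hε
    obtain ⟨C, hC⟩ := hθ ε hε
    refine ⟨|C|, abs_nonneg C, fun x hx v h => ?_⟩
    refine (hC x hx v (E2_tan hK hx h)).trans ?_
    have h0 : 0 ≤ fs x v := div_nonneg (Real.sqrt_nonneg _) (sq_nonneg _)
    have h1 : 0 ≤ logLength H e x v := add_nonneg h0 (Finset.sum_nonneg fun i _ => norm_nonneg _)
    have h2 : |ε * logLength H e x v + C * fs x v| ≤ ε * logLength H e x v + |C| * fs x v := by
      refine (abs_add_le _ _).trans ?_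
      rw [abs_mul, abs_mul, abs_of_pos hε, abs_of_nonneg h0, abs_of_nonneg h1]
    refine (le_abs_self _).trans ?_
    rw [abs_pow]
    exact pow_le_pow_left₀ (abs_nonneg _) h2 m

end Pool.Agent.SDA
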