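import Pool.Agent.SDA.X3
import Pool.Agent.SDA.E2
import Pool.Agent.E1.Chow
import Pool.Agent.H90.SG.Poly
import Pool.Agent.H36.BP.Main
import Pool.Agent.AD.P.Conv

/-!
# SDA X4: two coprime logarithmic symmetric differentials

The common null curves of two coprime logarithmic symmetric differentials lie in one algebraic curve.
-/

set_option autoImplicit false

open Topology Filter Metric MvPolynomial

noncomputable section

namespace Pool.Agent.SDA

open Pool.Agent.H36.BP (EN wd)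
open Pool.Agent.H14.PP (IsCone Tan IsOpenPart)
open Pool.Agent.H14.V (IsLift)
open Pool.Agent.H17 (PN VanishesAt HolomorphicInto)
open Pool.Agent.H17BP (Surface IsChart LocalEq)
open Pool.Agent.H62.FC (Homog)
open Pool.Agent.H17LG.Variety (FunField)
open Pool.Agent.H17EF (coneE projVar)
open Pool.Agent.H13.SM (conTan)
open Pool.Agent.H22.W (tan_smul tan_curve)
open Pool.Agent.AD (SymDiff TangentTo)
open Pool.Agent.AD.NC (complement)
open Pool.Agent.E1 (ComNull)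

variable {N k : ℕ} {P : Ideal (MvPolynomial (Fin (N + 1)) ℂ)} {H : Fin k → MvPolynomial (Fin (N + 1)) ℂ} {e : Fin k → ℕ}

/-- the open cone is an open part of the cone -/
theorem X4_openPart (hX : IsCone (coneE P)) (hH : ∀ i, (H i).IsHomogeneous (e i)) : IsOpenPart (coneE P) (openCone P H) where
  subset _ hx := hx.1
  smul_mem x hx c hc := by
    refine ⟨hX.smul_mem x hx.1 c hc, fun i => ?_⟩
    have h1 : (c • x).ofLp = c • x.ofLp := rfl
    rw [h1, Pool.Agent.H17EF.eval_smul_form (hH i) c x.ofLp]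
    exact mul_ne_zero (pow_ne_zero _ hc) (hx.2 i)
  rel_open x hx := by
    have h3 : ∀ᶠ y : EN N in 𝓝 x, ∀ i, eval y.ofLp (H i) ≠ 0 := by
      rw [eventually_all]
      exact fun i => (E1_an (H i) x).continuousAt.eventually_ne (hx.2 i)
    filter_upwards [h3] with y hy hyX
    exact ⟨hyX, hy⟩

/-- the points with a common null direction form a cone -/
theorem X4_comNull_smul {X K : Set (EN N)} (hX : IsCone X) (hK : IsOpenPart X K) {m₁ m₂ : ℕ} (θ₁ : SymDiff K m₁) (θ₂ : SymDiff K m₂) :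
    ∀ x ∈ ComNull θ₁ θ₂, ∀ c : ℂ, c ≠ 0 → c • x ∈ ComNull θ₁ θ₂ := by
  rintro x ⟨hx, v, hv, hne, h1, h2⟩ c hc
  have hvX : Tan X x v := E2_tan' hK hv
  refine ⟨hK.smul_mem x hx c hc, c • v, E2_tan hK (hK.smul_mem x hx c hc) (tan_smul hX hvX hc), fun a ha => ?_, ?_, ?_⟩
  · apply hne a
    have h3 : c⁻¹ • c • v = c⁻¹ • a • c • x := by rw [ha]
    rw [smul_smul, inv_mul_cancel₀ hc, one_smul, smul_comm a c x, smul_smul c⁻¹ c, inv_mul_cancel₀ hc, one_smul] at h3
    exact h3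
  · rw [θ₁.scale x v hv c hc, h1]
  · rw [θ₂.scale x v hv c hc, h2]

/-- two lifts of the same curve -/
theorem X4_lift {f : ℂ → PN N} {F G : ℂ → EN N} (hF : IsLift F f) (hG : IsLift G f) (z : ℂ) :
    ∃ c a : ℂ, c ≠ 0 ∧ F z = c • G z ∧ deriv F z = c • deriv G z + a • G z := by
  have hG0 : G z ≠ 0 := hG.ne_zero z
  obtain ⟨j, hj⟩ : ∃ j, (G z) j ≠ 0 := by
    by_contra hcon
    push Not at hcon
    exact hG0 (by ext i; exact hcon i)
  have hcoord : ∀ {E : ℂ → EN N}, Differentiable ℂ E → Differentiable ℂ fun w => E w j := fun {E} hE =>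
    (EuclideanSpace.proj (𝕜 := ℂ) j : EN N →L[ℂ] ℂ).differentiable.comp hE
  obtain ⟨u, hu⟩ : ∃ u : ℂ → ℂ, u = fun w => F w j / G w j := ⟨_, rfl⟩
  have hua : DifferentiableAt ℂ u z := by
    rw [hu]
    exact (hcoord hF.1 z).div (hcoord hG.1 z) hj
  have hrel : ∀ᶠ w in 𝓝 z, F w = u w • G w ∧ u w ≠ 0 := by
    filter_upwards [(hcoord hG.1 z).continuousAt.eventually_ne hj] with w h3
    obtain ⟨h4, h5⟩ := hF.2 w
    obtain ⟨h6, h7⟩ := hG.2 w
    rw [h5, Projectivization.mk_eq_mk_iff'] at h7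
    obtain ⟨a, ha⟩ := h7
    have ha' : ∀ i, a * G w i = F w i := fun i => congrFun ha i
    have hka' : u w = a := by
      rw [hu]
      simp only
      rw [← ha' j]
      field_simp
    refine ⟨?_, ?_⟩
    · rw [hka']
      ext i
      exact (ha' i).symm
    · rw [hka']
      rintro rfl
      apply h4
      funext i
      rw [← ha' i, zero_mul]
      rfl
  have hd : HasDerivAt F (u z • deriv G z + deriv u z • G z) z := by
    have h1 : HasDerivAt (fun w => u w • G w) (u z • deriv G z + deriv u z • G z) z :=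
      hua.hasDerivAt.smul (hG.1 z).hasDerivAt
    exact h1.congr_of_eventuallyEq (hrel.mono fun w hw => hw.1)
  have h0 := hrel.self_of_nhds
  exact ⟨u z, deriv u z, h0.2, h0.1, hd.deriv⟩

/-- a curve which is projectively stationary on an open set is constant -/
theorem X4_const {F : ℂ → EN N} {f : ℂ → PN N} (hF : IsLift F f) {z₀ : ℂ} (h0 : ∀ᶠ z in 𝓝 z₀, ∃ a : ℂ, deriv F z = a • F z) (z w : ℂ) :
    f z = f w := by
  have hne : ∀ z, F z ≠ 0 := fun z => hF.ne_zero z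
  have hcoord : ∀ {E : ℂ → EN N}, Differentiable ℂ E → ∀ j : Fin (N + 1), Differentiable ℂ fun w => E w j := fun {E} hE j =>
    (EuclideanSpace.proj (𝕜 := ℂ) j : EN N →L[ℂ] ℂ).differentiable.comp hE
  have hd : Differentiable ℂ (deriv F) := (hF.1.contDiff (n := 2)).differentiable_deriv_two
  -- the minors vanish
  have hmn : ∀ (i j : Fin (N + 1)) (z : ℂ), F z i * deriv F z j - F z j * deriv F z i = 0 := by
    intro i j
    have hdiff : Differentiable ℂ fun z => F z i * deriv F z j - F z j * deriv F z i :=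
      ((hcoord hF.1 i).mul (hcoord hd j)).sub ((hcoord hF.1 j).mul (hcoord hd i))
    have h2 : (fun z => F z i * deriv F z j - F z j * deriv F z i) =ᶠ[𝓝 z₀] fun _ => 0 := by
      filter_upwards [h0] with w hw
      obtain ⟨a, ha⟩ := hw
      rw [ha, PiLp.smul_apply, PiLp.smul_apply, smul_eq_mul, smul_eq_mul]
      ring
    have h3 : AnalyticOnNhd ℂ (fun z => F z i * deriv F z j - F z j * deriv F z i) Set.univ := fun w _ => hdiff.analyticAt w
    have h4 := h3.eq_of_eventuallyEq (g := fun _ => 0) (fun w _ => analyticAt_const) h2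
    exact fun z => congrFun h4 z
  have hwd : ∀ z, wd (F z) (deriv F z) = 0 := by
    intro z
    rw [Pool.Agent.H36.BP.wd_eq_zero (hne z)]
    obtain ⟨i, hi⟩ : ∃ i, F z i ≠ 0 := by
      by_contra hcon
      push Not at hcon
      exact hne z (by ext i; exact hcon i)
    refine ⟨deriv F z i / F z i, ?_⟩
    ext j
    rw [PiLp.smul_apply, smul_eq_mul, div_mul_eq_mul_div, eq_div_iff hi]
    linear_combination hmn i j z
  have hloc : IsLocallyConstant f := by
    refine (IsLocallyConstant.iff_eventually_eq f).2 fun x => ?_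
    have h1 := Pool.Agent.H36.BP.const_of_wedge (hF.1.analyticAt x) (hne x) (Eventually.of_forall hwd)
    filter_upwards [h1] with y hy
    obtain ⟨c, hc, hy⟩ := hy
    obtain ⟨a1, a2⟩ := hF.2 y
    obtain ⟨b1, b2⟩ := hF.2 x
    rw [a2, b2, Projectivization.mk_eq_mk_iff']
    refine ⟨c, ?_⟩
    rw [hy]
    rfl
  exact hloc.apply_eq_of_preconnectedSpace z w

/-- a nonconstant curve in the open part which is tangent to both differentials lies in every hypersurface through the points with a common null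
direction -/
theorem X4_vanishes {X : Set (EN N)} {K : Set (EN N)} (hX : IsCone X) (hK : IsOpenPart X K) {m₁ m₂ : ℕ}
    (θ₁ : SymDiff K m₁) (θ₂ : SymDiff K m₂) {R : MvPolynomial (Fin (N + 1)) ℂ} {d : ℕ} (hR : R.IsHomogeneous d)
    (hZ : ∀ x ∈ ComNull θ₁ θ₂, eval x.ofLp R = 0) {f : ℂ → PN N} {F G : ℂ → EN N} (hF : IsLift F f) (hG : IsLift G f)
    (hFK : ∀ z, F z ∈ K) (hne : ∃ z w, f z ≠ f w) (h₁ : ∀ z, θ₁.toFun (F z) (deriv F z) = 0)
    (h₂ : ∀ z, θ₂.toFun (G z) (deriv G z) = 0) (z : ℂ) : VanishesAt R (f z) := by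
  have hFX : ∀ z, F z ∈ X := fun z => hK.subset (hFK z)
  have hGX : ∀ z, G z ∈ X := fun z => by
    obtain ⟨c, a, hc, h3, -⟩ := X4_lift hG hF z
    rw [h3]
    exact hX.smul_mem _ (hFX z) c hc
  have hGK : ∀ z, G z ∈ K := fun z => by
    obtain ⟨c, a, hc, h3, -⟩ := X4_lift hG hF z
    rw [h3]
    exact hK.smul_mem _ (hFK z) c hc
  -- the second differential along the first lift
  have h₂' : ∀ z, θ₂.toFun (F z) (deriv F z) = 0 := fun z => by
    obtain ⟨c, a, hc, h3, h4⟩ := X4_lift hF hG z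
    rw [h3, h4, E2_inv hX hK θ₂ (hGK z) (tan_curve ⟨hG.1.analyticAt z, Eventually.of_forall hGX⟩) hc a, h₂ z]
  -- the values of the form
  have hRd : Differentiable ℂ fun z => eval (F z).ofLp R := fun z =>
    ((E1_an R (F z)).differentiableAt).comp z (hF.1 z)
  have hzero : eval (F z).ofLp R = 0 := by
    by_contra hz
    have h5 : ∀ᶠ w in 𝓝 z, eval (F w).ofLp R ≠ 0 := (hRd z).continuousAt.eventually_ne hz
    have h6 : ∀ᶠ w in 𝓝 z, ∃ a : ℂ, deriv F w = a • F w := by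
      filter_upwards [h5] with w hw
      by_contra h7
      refine hw (hZ _ ⟨hFK w, deriv F w, E2_tan hK (hFK w) (tan_curve ⟨hF.1.analyticAt w, Eventually.of_forall hFX⟩), fun a ha => h7 ⟨a, ha⟩, h₁ w, h₂' w⟩)
    obtain ⟨w₁, w₂, hw⟩ := hne
    exact hw (X4_const hF h6 w₁ w₂)
  obtain ⟨h5, h6⟩ := hF.2 z
  show eval (f z).rep R = 0
  rw [h6]
  obtain ⟨a, ha, hrep⟩ := Pool.Agent.H36.BP.rep_mk h5
  rw [hrep, Pool.Agent.H17EF.eval_smul_form hR a (F z).ofLp, hzero, mul_zero]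

/-- the exceptional set is thin -/
theorem X4_thin [P.IsPrime] {z : Fin 2 → FunField P} (hP : Homog P) (hz : IsTranscendenceBasis ℂ z)
    (hsm : ∀ y : Fin (N + 1) → ℂ, y ≠ 0 → (∀ Q ∈ P, eval y Q = 0) → Module.finrank ℂ (conTan P y) ≤ 3)
    (hH : ∀ i, (H i).IsHomogeneous (e i)) (hHP : ∀ i, H i ∉ P) {m₁ m₂ : ℕ}
    (θ₁ : SymDiff (openCone P H) m₁) (θ₂ : SymDiff (openCone P H) m₂)
    (hd : openCone P H ⊆ closure (openCone P H \ ComNull θ₁ θ₂)) {σ : ℂ × ℂ → EN N} {τ : EN N → ℂ × ℂ} (h : IsChart (coneE P) σ τ) :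
    ¬ ∀ᶠ p in 𝓝 (0 : ℂ × ℂ), σ p ∈ ComNull θ₁ θ₂ ∪ {x | x ∈ coneE P ∧ ∃ i, eval x.ofLp (H i) = 0} := by
  intro hall
  have hc : IsCone (coneE P) := Pool.Agent.AD.isCone_coneE hP
  have hK := X4_openPart hc hH
  have hQ : (∏ i, H i).IsHomogeneous (∑ i, e i) := IsHomogeneous.prod Finset.univ _ _ fun i _ => hH i
  have hQP : ∏ i, H i ∉ P := by
    intro h1
    obtain ⟨i, -, hi⟩ := (Ideal.IsPrime.prod_mem_iff (p := P)).1 h1
    exact hHP i hi
  have hfr := Pool.Agent.H90.SG.thin_coneE hP hz hsm hQ hQP h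
  have e1 := hall.eventually_nhds
  have hσt : Tendsto σ (𝓝 0) (𝓝 (σ 0)) := h.σ_an.continuousAt
  have e3 := hσt.eventually h.right.eventually_nhds
  have e4 := hσt.eventually h.τ_an.eventually_analyticAt
  obtain ⟨p, hp, hp1, hp2, hp3, hp4, hp5⟩ := (hfr.and_eventually (e1.and (h.σ_mem.and (e3.and (e4.and h.left))))).exists
  have hpO : σ p ∈ openCone P H := ⟨hp2, fun i hi => hp (by
    rw [map_prod]
    exact Finset.prod_eq_zero (Finset.mem_univ i) hi)⟩
  have hcl := mem_closure_iff_frequently.1 (hd hpO)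
  have hτ : Tendsto τ (𝓝 (σ p)) (𝓝 p) := by
    have h1 : Tendsto τ (𝓝 (σ p)) (𝓝 (τ (σ p))) := hp4.continuousAt
    rwa [hp5] at h1
  obtain ⟨y, hy, hy1, hy2⟩ := (hcl.and_eventually ((hτ.eventually hp1).and hp3)).exists
  obtain ⟨c, hc0, hyc⟩ := hy2 hy.1.1
  rcases hy1 with h1 | ⟨-, i, hi⟩
  · refine hy.2 ?_
    rw [hyc]
    exact X4_comNull_smul hc hK θ₁ θ₂ _ h1 c hc0
  · refine hy.1.2 i ?_
    have h2 : y.ofLp = c • (σ (τ y)).ofLp := congrArg (fun v : EN N => v.ofLp) hyc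
    rw [h2, Pool.Agent.H17EF.eval_smul_form (hH i), hi, mul_zero]

/-- MODULE X4: two coprime logarithmic symmetric differentials (`localEq_log`, `E1` `exists_form_of_analytic`, `X4_vanishes`) -/
theorem exists_R_log [P.IsPrime] {z : Fin 2 → FunField P} (hP : Homog P) (hz : IsTranscendenceBasis ℂ z)
    (hsm : ∀ y : Fin (N + 1) → ℂ, y ≠ 0 → (∀ Q ∈ P, eval y Q = 0) → Module.finrank ℂ (conTan P y) ≤ 3)
    (hH : ∀ i, (H i).IsHomogeneous (e i)) (hHP : ∀ i, H i ∉ P) {m₁ m₂ : ℕ} (h₁ : 1 ≤ m₁) (h₂ : 1 ≤ m₂)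
    (θ₁ : SymDiff (openCone P H) m₁) (θ₂ : SymDiff (openCone P H) m₂) (hθ₁ : VanishesOnStatic e θ₁) (hθ₂ : VanishesOnStatic e θ₂)
    (hd : openCone P H ⊆ closure (openCone P H \ ComNull θ₁ θ₂)) :
    ∃ (R : MvPolynomial (Fin (N + 1)) ℂ) (d : ℕ), R.IsHomogeneous d ∧ R ∉ P ∧ ∀ f : ℂ → PN N, HolomorphicInto f Set.univ →
      (∀ z, f z ∈ complement P H) → (∃ z w, f z ≠ f w) → TangentTo θ₁ f → TangentTo θ₂ f → ∀ z, VanishesAt R (f z) := by
  have hX : Surface (coneE P) := Pool.Agent.H90.SG.surface_coneE hP hz hsm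
  have hc : IsCone (coneE P) := Pool.Agent.AD.isCone_coneE hP
  have hK := X4_openPart hc hH
  obtain ⟨R, d, hR, hRP, hRZ⟩ := Pool.Agent.E1.exists_form_of_analytic hz hX
    (Z := ComNull θ₁ θ₂ ∪ {x | x ∈ coneE P ∧ ∃ i, eval x.ofLp (H i) = 0})
    (fun x hx => hx.elim (fun h => h.1.1) fun h => h.1)
    (fun x hx c hc0 => hx.elim (fun h => Or.inl (X4_comNull_smul hc hK θ₁ θ₂ x h c hc0)) fun h => Or.inr
      ⟨hc.smul_mem x h.1 c hc0, h.2.imp fun i hi => by
        have h2 : (c • x).ofLp = c • x.ofLp := rfl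
        rw [h2, Pool.Agent.H17EF.eval_smul_form (hH i), hi, mul_zero]⟩)
    (fun x hx => by
      obtain ⟨σ, τ, hσ, h0⟩ := hX.chart x hx
      obtain ⟨g, hg⟩ := localEq_log hX hH h₁ h₂ θ₁ θ₂ hθ₁ hθ₂ hσ
      refine ⟨σ, τ, g, hσ, h0, hg, fun h3 => X4_thin hP hz hsm hH hHP θ₁ θ₂ hd hσ ?_⟩
      filter_upwards [hg.2, h3] with p hp1 hp2 using hp1.2 hp2)
  refine ⟨R, d, hR, hRP, fun f hf hfU hne h1 h2 => ?_⟩
  obtain ⟨F, hF, hF1⟩ := h1
  obtain ⟨G, hG, hG1⟩ := h2
  have hFK : ∀ z, F z ∈ openCone P H := fun z => by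
    refine ⟨(hF.mem_iff hP z).1 (hfU z).1, fun i hi => (hfU z).2 i ?_⟩
    obtain ⟨h5, h6⟩ := hF.2 z
    show eval (f z).rep (H i) = 0
    rw [h6]
    obtain ⟨a, ha, hrep⟩ := Pool.Agent.H36.BP.rep_mk h5
    rw [hrep, Pool.Agent.H17EF.eval_smul_form (hH i) a (F z).ofLp, hi, mul_zero]
  exact X4_vanishes hc hK θ₁ θ₂ hR (fun x hx => hRZ x (Or.inl hx)) hF hG hFK hne hF1 hG1

end Pool.Agent.SDA
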