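import Pool.Agent.SDA.EI
import Pool.Agent.H36.BPL.Final
import Pool.Agent.H14.V.MainV

/-!
# SDA EP: the metric on the complement of a hypersurface section of a smooth projective surface, of log general type
-/

set_option autoImplicit false

open Topology Filter Metric MvPolynomial

noncomputable section

namespace Pool.Agent.SDA

open Pool.Agent.H36.BP (EN fs wd Sub)
open Pool.Agent.H17BP (Pr Surface IsForm NoZeros Eqs IsChart cone eval_smul_form)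
open Pool.Agent.H36.BPL (OpenPart PoleLE AffProper coneK analyticAt_form mem_coneK_iff mem_cone_notMem coneK_smul openPart_coneK affMap
  affProper_coneK openCone_eq eval_prod_ne)
open Pool.Agent.H14.PP (IsCone)
open Pool.Agent.H14.KB (rhoS)
open Pool.Agent.H62.FC (Homog)
open Pool.Agent.H17LG.Variety (FunField OnBoundary IsLogGeneralType)
open Pool.Agent.H13.SM (conTan)
open Pool.Agent.H17EF (coneE LE)
open Pool.Agent.SY (Ent)

variable {N : ℕ} {P : Ideal (MvPolynomial (Fin (N + 1)) ℂ)}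

/-- the model -/
theorem EP_model [hPp : P.IsPrime] {z : Fin 2 → FunField P} (hP : Homog P) (hz : IsTranscendenceBasis ℂ z)
    (hsm : ∀ y : Fin (N + 1) → ℂ, y ≠ 0 → (∀ Q ∈ P, eval y Q = 0) → Module.finrank ℂ (conTan P y) ≤ 3)
    {e : ℕ} {H₀ : MvPolynomial (Fin (N + 1)) ℂ} (hH₀ : H₀.IsHomogeneous e) (hH₀P : H₀ ∉ P)
    (hgt : IsLogGeneralType (K := FunField P) (k := 2) (OnBoundary P fun _ : Fin 1 => H₀))
    {R : MvPolynomial (Fin (N + 1)) ℂ} {d : ℕ} (hR : R.IsHomogeneous d) (hRP : R ∉ P) :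
    ∃ (m : ℕ) (Om : (Fin (N + 1) → ℂ) → (Fin (N + 1) → ℂ) → (Fin (N + 1) → ℂ) → ℂ) (Q : MvPolynomial (Fin (N + 1)) ℂ) (D : ℕ),
      Q.IsHomogeneous D ∧ Q ∉ P ∧ (∀ x : Fin (N + 1) → ℂ, eval x R = 0 → eval x Q = 0) ∧
      (∀ x : Fin (N + 1) → ℂ, eval x H₀ = 0 → eval x Q = 0) ∧
      ModelL (cone P) (coneK P fun _ : Fin 1 => H₀) {x | x ∈ cone P ∧ eval x Q = 0} m 1 Om (fun (_ : Unit) x => eval x Q) D := by
  have hX : Surface (cone P) := Pool.Agent.H13.SM.surface_cone hP hz fun y hy => hsm y hy.1 hy.2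
  obtain ⟨M, Ω, D₀, Q₀, hM, hQ₀, hQ₀P, hΩ, hnz, hpole⟩ :=
    Pool.Agent.H68.KR.exists_formG_of_smooth P hP hz hH₀ hsm hgt
  rw [openCone_eq] at hΩ hnz hpole
  obtain ⟨l, hlP⟩ : ∃ l, (X l : MvPolynomial (Fin (N + 1)) ℂ) ∉ P := by
    obtain ⟨l, hl⟩ := Pool.Agent.H92.GT.Proj.exists_coordFun_ne_zero P z hz
    exact ⟨l, Pool.Agent.H17R.coordFun_ne_zero_iff.1 hl⟩
  set H : Fin 1 → MvPolynomial (Fin (N + 1)) ℂ := fun _ => H₀ with hHdef
  have hHh : ∀ i, (H i).IsHomogeneous ((fun _ : Fin 1 => e) i) := fun _ => hH₀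
  have hprod : (∏ i, H i) = H₀ := by simp [hHdef]
  have hsum : (∑ _i : Fin 1, e) = e := by simp
  set Q : MvPolynomial (Fin (N + 1)) ℂ := H₀ * Q₀ * (R * X l) with hQdef
  have hQhom : Q.IsHomogeneous (e + D₀ + (d + 1)) := (hH₀.mul hQ₀).mul (hR.mul (isHomogeneous_X ℂ l))
  have hQP : Q ∉ P := by
    intro h
    rcases hPp.mem_or_mem h with h | h
    · rcases hPp.mem_or_mem h with h | h
      · exact hH₀P h
      · exact hQ₀P h
    · rcases hPp.mem_or_mem h with h | h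
      · exact hRP h
      · exact hlP h
  have hform := Pool.Agent.H36.BPL.isForm_pow_mul (k := e + 1) (d := e) (by omega) hΩ (H := fun x => eval x H₀) (analyticAt_form _)
    (fun c x => eval_smul_form hH₀ c x) (coneK_smul hHh hX.smul)
  have h1 : 1 * (e + 1) - e = 1 := by omega
  rw [h1] at hform
  have hnot : ∀ x ∈ cone P, x ∉ coneK P H → eval x H₀ = 0 := by
    intro x hx hxK
    have h2 := (mem_cone_notMem hx).1 hxK
    rwa [hprod] at h2
  have hin : ∀ x ∈ coneK P H, eval x H₀ ≠ 0 := by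
    intro x hx
    have h2 := (mem_coneK_iff.1 hx).2
    rwa [hprod] at h2
  refine ⟨M * (e + 1), fun x v w => eval x H₀ * Ω x v w ^ (e + 1), Q, e + D₀ + (d + 1), hQhom, hQP, ?_, ?_,
    ⟨hX, openPart_coneK hHh hX.smul, ⟨N + 1, affMap H (∑ m, (fun _ : Fin 1 => e) m), affProper_coneK hHh⟩, ?_,
      Nat.mul_pos hM (Nat.succ_pos _), le_rfl, hform, ?_, ?_, ⟨by omega, ?_, ?_, ?_, ?_⟩, ?_⟩⟩
  · intro x hx
    have h2 : eval x (R * X l) = 0 := by rw [map_mul, hx, zero_mul]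
    rw [hQdef, map_mul, h2, mul_zero]
  · intro x hx
    rw [hQdef, map_mul, map_mul, hx, zero_mul, zero_mul]
  · intro x hx hxK
    refine ⟨hx, ?_⟩
    rw [hQdef, map_mul, map_mul, hnot x hx hxK, zero_mul, zero_mul]
  · intro x hx hxT v hv w hw hi
    refine mul_ne_zero (hin x hx) (pow_ne_zero _ (hnz x hx (fun h => hxT ⟨hx.1, ?_⟩) v hv w hw hi))
    rw [hQdef, map_mul, map_mul, h.2, mul_zero, zero_mul]
  · exact PoleLE.pow_mul hM (Nat.succ_pos e) hpole (H := fun x => eval x H₀) (analyticAt_form _) fun x hx hxK => hnot x hx hxK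
  · intro _ x
    exact analyticAt_form Q x
  · intro _ c x
    exact eval_smul_form hQhom c x
  · intro x
    exact ⟨fun h => ⟨h.1, fun _ => h.2⟩, fun h => ⟨h.1, h.2 ()⟩⟩
  · intro x hx
    exact ⟨(), Eventually.of_forall fun y hy h => ⟨hy, h⟩⟩
  · intro σ τ h
    exact (Pool.Agent.H13.SM.frequently_ne_zero hP hz (fun y hy => hsm y hy.1 hy.2) h hQhom hQP).mono fun p hp hpB => hp hpB.2

/-- the Euclidean norm is at most a multiple of the norm of the supremum -/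
theorem EP_norm (x : EN N) : ‖x‖ ≤ ‖((LE N : (Fin (N + 1) → ℂ) ≃L[ℂ] EN N) : (Fin (N + 1) → ℂ) →L[ℂ] EN N)‖ * ‖(LE N).symm x‖ := by
  have h := ((LE N : (Fin (N + 1) → ℂ) ≃L[ℂ] EN N) : (Fin (N + 1) → ℂ) →L[ℂ] EN N).le_opNorm ((LE N).symm x)
  simpa using h

theorem EP_norm' (x : EN N) : ‖(LE N).symm x‖ ≤ ‖x‖ := by
  rw [pi_norm_le_iff_of_nonneg (norm_nonneg _)]
  intro i
  exact PiLp.norm_apply_le x i

theorem EP_sub_mono {u : ℂ → ℝ} {z : ℂ} {c c' : ℝ} (h : Sub u z c) (hc : c' ≤ c) : Sub u z c' :=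
  ⟨h.1, fun t ht => h.2 t (lt_of_lt_of_le ht hc)⟩

/-- MODULE K9 (1), file EP.lean: the metric on the complement of a hypersurface section of a smooth projective surface, of log general type
(compare `SY/EiP.lean`, `H36/BPL/Start.lean`, `H36/BPL/Final.lean`).  `R` is a given form. -/
theorem enU_surface [P.IsPrime] {z : Fin 2 → FunField P} (hP : Homog P) (hz : IsTranscendenceBasis ℂ z)
    (hsm : ∀ y : Fin (N + 1) → ℂ, y ≠ 0 → (∀ Q ∈ P, eval y Q = 0) → Module.finrank ℂ (conTan P y) ≤ 3)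
    {e : ℕ} {H₀ : MvPolynomial (Fin (N + 1)) ℂ} (hH₀ : H₀.IsHomogeneous e) (hH₀P : H₀ ∉ P)
    (hgt : IsLogGeneralType (K := FunField P) (k := 2) (OnBoundary P fun _ : Fin 1 => H₀))
    {R : MvPolynomial (Fin (N + 1)) ℂ} {d : ℕ} (hR : R.IsHomogeneous d) (hRP : R ∉ P) :
    ∃ (Q : MvPolynomial (Fin (N + 1)) ℂ) (D M : ℕ) (c₀ C δ : ℝ) (g : (ℂ → EN N) → ℂ → ℝ), Q.IsHomogeneous D ∧ Q ∉ P ∧
      (∀ x : EN N, eval x.ofLp R = 0 → eval x.ofLp Q = 0) ∧ (∀ x : EN N, eval x.ofLp H₀ = 0 → eval x.ofLp Q = 0) ∧ 1 ≤ M ∧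
      EnU (coneE P) {x | x ∈ coneE P ∧ eval x.ofLp H₀ ≠ 0} {x | x ∈ coneE P ∧ eval x.ofLp Q = 0} (fun x => ‖x‖)
        (fun x => ‖eval x.ofLp Q‖ / ‖x‖ ^ D) M c₀ C δ g := by
  obtain ⟨m, Om, Q, D, hQ, hQP, hRQ, hHQ, hmod⟩ := EP_model hP hz hsm hH₀ hH₀P hgt hR hRP
  obtain ⟨M, c₀, C, δ, g₀, hM, E⟩ := enU_of_model hmod (LE N)
  set L := LE N with hL
  set K : ℝ := max 1 ‖(L : (Fin (N + 1) → ℂ) →L[ℂ] EN N)‖ with hK
  have hK1 : 1 ≤ K := le_max_left _ _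
  have hKL : ‖(L : (Fin (N + 1) → ℂ) →L[ℂ] EN N)‖ ≤ K := le_max_right _ _
  have hC := E.C_pos
  have hδ := E.δ_pos
  set T₀ : Set (Fin (N + 1) → ℂ) := {x | x ∈ cone P ∧ eval x Q = 0} with hT₀
  set T : Set (EN N) := {x | x ∈ coneE P ∧ eval x.ofLp Q = 0} with hT
  set U₀ : Set (Fin (N + 1) → ℂ) := coneK P fun _ : Fin 1 => H₀ with hU₀
  set U : Set (EN N) := {x | x ∈ coneE P ∧ eval x.ofLp H₀ ≠ 0} with hU
  have hTT : ∀ x : EN N, x ∈ T ↔ L.symm x ∈ T₀ := fun x => Iff.rfl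
  have hXX : ∀ x : EN N, x ∈ coneE P ↔ L.symm x ∈ cone P := fun x => Iff.rfl
  have hUU : ∀ x : EN N, x ∈ U ↔ L.symm x ∈ U₀ := fun x => ⟨fun h => ⟨h.1, fun _ => h.2⟩, fun h => ⟨h.1, h.2 0⟩⟩
  have hent : ∀ F : ℂ → EN N, EntU (coneE P) U T F → EntU (cone P) U₀ T₀ (fun w => L.symm (F w)) := by
    intro F hF
    refine ⟨⟨L.symm.differentiable.comp hF.ent.diff, fun z => (hXX _).1 (hF.ent.mem z), ?_⟩, fun z => (hUU _).1 (hF.memK z)⟩
    obtain ⟨z, hz⟩ := hF.ent.out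
    exact ⟨z, fun h => hz ((hTT _).2 h)⟩
  have hKD : 0 < K ^ D := by positivity
  have hzero : ∀ x ∈ coneE P, x ≠ 0 := by
    intro x hx h
    have := (hXX _).1 hx
    exact this.1 (by rw [h, map_zero])
  -- the two distances
  have hQn : ∀ x : EN N, ‖fun (_ : Unit) => eval (L.symm x) Q‖ = ‖eval x.ofLp Q‖ := by
    intro x
    rw [pi_norm_const]
    rfl
  have hρle : ∀ x ∈ coneE P, ‖eval x.ofLp Q‖ / ‖x‖ ^ D ≤ rhoS (fun (_ : Unit) x => eval x Q) D (L.symm x) := by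
    intro x hx
    have hx0 := hzero x hx
    have hL0 : L.symm x ≠ 0 := fun h => hx0 (by simpa using h)
    have hn1 : 0 < ‖x‖ := norm_pos_iff.2 hx0
    have hn2 : 0 < ‖L.symm x‖ := norm_pos_iff.2 hL0
    have hn3 : ‖L.symm x‖ ≤ ‖x‖ := EP_norm' x
    unfold rhoS
    rw [hQn]
    gcongr
  have hρge : ∀ x ∈ coneE P, rhoS (fun (_ : Unit) x => eval x Q) D (L.symm x) ≤ K ^ D * (‖eval x.ofLp Q‖ / ‖x‖ ^ D) := by
    intro x hx
    have hx0 := hzero x hx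
    have hL0 : L.symm x ≠ 0 := fun h => hx0 (by simpa using h)
    have hn1 : 0 < ‖x‖ := norm_pos_iff.2 hx0
    have hn2 : 0 < ‖L.symm x‖ := norm_pos_iff.2 hL0
    have hn3 : ‖x‖ ≤ K * ‖L.symm x‖ := (EP_norm x).trans (mul_le_mul_of_nonneg_right hKL (norm_nonneg _))
    unfold rhoS
    rw [hQn, div_le_iff₀ (pow_pos hn2 D)]
    have h2 : ‖x‖ ^ D ≤ K ^ D * ‖L.symm x‖ ^ D := by
      rw [← mul_pow]
      exact pow_le_pow_left₀ hn1.le hn3 D
    have h3 : 0 < ‖x‖ ^ D := pow_pos hn1 D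
    calc ‖eval x.ofLp Q‖ = ‖eval x.ofLp Q‖ / ‖x‖ ^ D * ‖x‖ ^ D := by field_simp
      _ ≤ ‖eval x.ofLp Q‖ / ‖x‖ ^ D * (K ^ D * ‖L.symm x‖ ^ D) := by
          exact mul_le_mul_of_nonneg_left h2 (by positivity)
      _ = K ^ D * (‖eval x.ofLp Q‖ / ‖x‖ ^ D) * ‖L.symm x‖ ^ D := by ring
  have hnorm : ∀ F : ℂ → EN N, (fun w => g₀ (fun w => L.symm (F w)) w * ‖L (L.symm (F w))‖ ^ (-c₀)) =
        fun w => g₀ (fun w => L.symm (F w)) w * ‖F w‖ ^ (-c₀) := by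
    intro F
    funext w
    rw [ContinuousLinearEquiv.apply_symm_apply]
  have hCK : C ≤ K * C := by nlinarith
  refine ⟨Q, D, M, c₀, K * C, δ / K ^ D, fun F z => g₀ (fun w => L.symm (F w)) z, hQ, hQP, fun x hx => hRQ _ hx, fun x hx => hHQ _ hx, hM, ?_⟩
  refine ⟨E.c₀_pos, by positivity, by positivity, ?_, ?_, ?_, ?_, ?_, ?_, ?_, ?_⟩
  · intro F hF z
    exact E.nonneg _ (hent F hF) z
  · intro F hF z a ha
    exact E.usc _ (hent F hF) z a ha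
  · intro F hF a b ha z
    exact E.aff _ (hent F hF) a b ha z
  · intro F hF h hh h0 z
    have h1 := E.unit _ (hent F hF) h hh h0 z
    rw [← h1]
    show g₀ (fun w => L.symm (h w • F w)) z = g₀ (fun w => h w • L.symm (F w)) z
    simp only [map_smul]
  · intro F hF z hz
    have h1 := E.sub _ (hent F hF) z hz
    have h3 : Sub (fun w => g₀ (fun w => L.symm (F w)) w * ‖L (L.symm (F w))‖ ^ (-c₀)) z
        (-(C * g₀ (fun w => L.symm (F w)) z ^ 2)) := h1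
    rw [hnorm] at h3
    refine EP_sub_mono h3 ?_
    have h4 := mul_le_mul_of_nonneg_right hCK (sq_nonneg (g₀ (fun w => L.symm (F w)) z))
    linarith
  · intro F hF z hz hρ
    have h5 : rhoS (fun (_ : Unit) x => eval x Q) D (L.symm (F z)) < δ := by
      refine (hρge _ (hF.ent.mem z)).trans_lt ?_
      rw [lt_div_iff₀ hKD] at hρ
      linarith
    have h1 := E.near _ (hent F hF) z hz h5
    have h3 : Sub (fun w => g₀ (fun w => L.symm (F w)) w * ‖L (L.symm (F w))‖ ^ (-c₀)) z 0 := h1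
    rw [hnorm] at h3
    exact h3
  · intro F hF z
    obtain ⟨a, ha⟩ := E.lower _ (hent F hF) z
    refine ⟨a, ?_⟩
    have hd : deriv (fun w => L.symm (F w)) z = L.symm (deriv F z) := by
      exact (((L.symm : EN N →L[ℂ] (Fin (N + 1) → ℂ)).hasFDerivAt).comp_hasDerivAt z (hF.ent.diff z).hasDerivAt).deriv
    rw [hd] at ha
    have hn3 : ‖L.symm (F z)‖ ≤ ‖F z‖ := EP_norm' (F z)
    have hρ := hρle _ (hF.ent.mem z)
    have hρ0 : 0 ≤ ‖eval (F z).ofLp Q‖ / ‖F z‖ ^ D := by positivity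
    have hρ1 : 0 ≤ rhoS (fun (_ : Unit) x => eval x Q) D (L.symm (F z)) := Pool.Agent.H14.KB.rhoS_nonneg _ _ _
    have hρ2 : 0 ≤ rhoS (fun (_ : Unit) x => eval x Q) D (L.symm (F z)) ^ M := pow_nonneg hρ1 M
    have hv : ‖deriv F z - a • F z‖ ≤ K * ‖L.symm (deriv F z) - a • L.symm (F z)‖ := by
      have h1 := EP_norm (deriv F z - a • F z)
      rw [map_sub, map_smul] at h1
      exact h1.trans (mul_le_mul_of_nonneg_right hKL (norm_nonneg _))
    have hg : 0 ≤ g₀ (fun w => L.symm (F w)) z := E.nonneg _ (hent F hF) z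
    calc (‖eval (F z).ofLp Q‖ / ‖F z‖ ^ D) ^ M * ‖deriv F z - a • F z‖
        ≤ (rhoS (fun (_ : Unit) x => eval x Q) D (L.symm (F z))) ^ M * (K * ‖L.symm (deriv F z) - a • L.symm (F z)‖) := by
          gcongr
      _ = K * ((rhoS (fun (_ : Unit) x => eval x Q) D (L.symm (F z))) ^ M * ‖L.symm (deriv F z) - a • L.symm (F z)‖) := by ring
      _ ≤ K * (C * ‖L.symm (F z)‖ * g₀ (fun w => L.symm (F w)) z) := by gcongr
      _ ≤ K * (C * ‖F z‖ * g₀ (fun w => L.symm (F w)) z) := by gcongr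
      _ = K * C * ‖F z‖ * g₀ (fun w => L.symm (F w)) z := by ring
  · intro l hl r A ε hr hε F H hF hA hB hc hH
    obtain ⟨h, hh, hlim⟩ := hc
    have h1 := E.lim l hl r A ε hr hε (fun n w => L.symm (F n w)) (fun w => L.symm (H w)) (hF.mono fun n hn => hent _ hn) hA hB
      ⟨h, hh, ?_⟩ (fun z hz => (hXX _).1 (hH z hz))
    · obtain ⟨⟨z, hz, hzT⟩, y, hy, w, hw, hyw⟩ := h1
      refine ⟨⟨z, hz, fun h => hzT ((hTT _).1 h)⟩, y, hy, w, hw, ?_⟩
      rintro ⟨c, hc0, hc⟩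
      refine hyw ⟨c, hc0, ?_⟩
      show L.symm (H y) = c • L.symm (H w)
      rw [hc, map_smul]
    · have h2 : (fun (n : ℕ) (z : ℂ) => h n z • L.symm (F n z)) = fun n z => L.symm (h n z • F n z) := by
        funext n z
        exact (map_smul L.symm _ _).symm
      show TendstoLocallyUniformlyOn (fun (n : ℕ) (z : ℂ) => h n z • L.symm (F n z)) (fun w => L.symm (H w)) l (ball 0 r)
      rw [h2]
      exact (L.symm : EN N →L[ℂ] (Fin (N + 1) → ℂ)).uniformContinuous.comp_tendstoLocallyUniformlyOn hlim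

/-- MODULE K9 (2), file EP.lean: the form which is used (from `enU_surface`, `energyK_of_enU`, `H36.BPL.affProper_coneK`) -/
theorem energyK_surface [hPp : P.IsPrime] {z : Fin 2 → FunField P} (hP : Homog P) (hz : IsTranscendenceBasis ℂ z)
    (hsm : ∀ y : Fin (N + 1) → ℂ, y ≠ 0 → (∀ Q ∈ P, eval y Q = 0) → Module.finrank ℂ (conTan P y) ≤ 3)
    {k : ℕ} {H : Fin k → MvPolynomial (Fin (N + 1)) ℂ} {e : Fin k → ℕ} (hH : ∀ i, (H i).IsHomogeneous (e i)) (he : ∀ i, 1 ≤ e i)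
    (hk : 1 ≤ k) (hHP : ∀ i, H i ∉ P)
    (hgt : IsLogGeneralType (K := FunField P) (k := 2) (OnBoundary P fun _ : Fin 1 => ∏ i, H i))
    {R : MvPolynomial (Fin (N + 1)) ℂ} {d : ℕ} (hR : R.IsHomogeneous d) (hRP : R ∉ P) :
    ∃ (Q : MvPolynomial (Fin (N + 1)) ℂ) (D M : ℕ) (c₀ C : ℝ) (g : (ℂ → EN N) → ℂ → ℝ), Q.IsHomogeneous D ∧ Q ∉ P ∧
      (∀ x : EN N, eval x.ofLp R = 0 → eval x.ofLp Q = 0) ∧ (∀ (i : Fin k) (x : EN N), eval x.ofLp (H i) = 0 → eval x.ofLp Q = 0) ∧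
      1 ≤ M ∧
      EnergyK (coneE P) {x | x ∈ coneE P ∧ ∀ i, eval x.ofLp (H i) ≠ 0} {x | x ∈ coneE P ∧ eval x.ofLp Q = 0} (fun x => ‖x‖)
        (fun x => ‖eval x.ofLp Q‖ / ‖x‖ ^ D) M c₀ C g := by
  have hX : Surface (cone P) := Pool.Agent.H13.SM.surface_cone hP hz fun y hy => hsm y hy.1 hy.2
  have hXc : IsCone (coneE P) := Pool.Agent.H36.BP.isCone_transport (LE N) hX
  have hH₀ : (∏ i, H i).IsHomogeneous (∑ i, e i) := IsHomogeneous.prod _ _ _ fun i _ => hH i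
  have hH₀P : (∏ i, H i) ∉ P := by
    intro h
    obtain ⟨i, -, hi⟩ := (Ideal.IsPrime.prod_mem_iff (p := P)).1 h
    exact hHP i hi
  obtain ⟨Q, D, M, c₀, C, δ, g, hQ, hQP, hRQ, hHQ, hM, E⟩ := enU_surface hP hz hsm hH₀ hH₀P hgt hR hRP
  have hUeq : {x : EN N | x ∈ coneE P ∧ eval x.ofLp (∏ i, H i) ≠ 0} = {x : EN N | x ∈ coneE P ∧ ∀ i, eval x.ofLp (H i) ≠ 0} := by
    ext x
    exact and_congr_right fun _ => eval_prod_ne
  have hUK : {x : EN N | x ∈ coneE P ∧ ∀ i, eval x.ofLp (H i) ≠ 0} = ((LE N).symm ⁻¹' coneK P H : Set (EN N)) := by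
    ext x
    exact Iff.rfl
  have hΦ := Pool.Agent.H36.BPL.affProper_transport (LE N) (affProper_coneK (P := P) hH)
  rw [← hUK] at hΦ
  rw [hUeq] at E
  refine ⟨Q, D, M, c₀, C, g, hQ, hQP, hRQ, ?_, hM, ?_⟩
  · intro i x hx
    refine hHQ x ?_
    rw [map_prod]
    exact Finset.prod_eq_zero (Finset.mem_univ i) hx
  · refine energyK_of_enU hXc (fun x hx => hx.1) ?_ ?_ hΦ E
    · intro x hx c hc
      exact coneK_smul (P := P) hH hX.smul _ hx c hc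
    · intro x hx hxK
      refine ⟨hx, hHQ x ?_⟩
      by_contra hne
      exact hxK ⟨hx, eval_prod_ne.1 hne⟩

end Pool.Agent.SDA
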