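import Pool.Agent.SDA.RDefs
import Pool.Agent.E1.Defs

/-!
# SDA RDefs2: the condition on the entire curves which are tangent to the symmetric differentials
-/

set_option autoImplicit false

open MvPolynomial

namespace Pool.Agent.SDA

open Pool.Agent.H17 (PN VanishesAt HolomorphicInto)
open Pool.Agent.H13.OT (OrderTwo)
open Pool.Agent.AD (SymDiff TangentTo)
open Pool.Agent.AD.NC (complement)
open Pool.Agent.E1 (ComNull)

variable {N k : ℕ}

/-- The entire curves in `U` which are tangent to all symmetric differentials `θ j` are few: those which are not constant and have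
`T_f (r) = O (r ^ 2)` lie in one curve `{R = 0}`, or two of the `θ j` have no common null direction at the points of a dense subset of `U`. -/
inductive FewTangent (P : Ideal (MvPolynomial (Fin (N + 1)) ℂ)) (H : Fin k → MvPolynomial (Fin (N + 1)) ℂ) {s : ℕ} {m : Fin s → ℕ}
    (θ : ∀ j, SymDiff (openCone P H) (m j)) : Prop
  | curve (R : MvPolynomial (Fin (N + 1)) ℂ) (d : ℕ) (hR : R.IsHomogeneous d) (hRP : R ∉ P)
      (h : ∀ f : ℂ → PN N, HolomorphicInto f Set.univ → OrderTwo f → (∀ z, f z ∈ complement P H) → (∃ z w, f z ≠ f w) →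
        (∀ j, TangentTo (θ j) f) → ∀ z, VanishesAt R (f z))
  | coprime (i j : Fin s) (h : openCone P H ⊆ closure (openCone P H \ ComNull (θ i) (θ j)))

end Pool.Agent.SDA
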