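import Pool.Agent.TN.Osg

/-!
# SDA X1: Riemann's extension theorem for functions which are `O (h)`

`u` is bounded near `x` and holomorphic on every line: at a zero of `h` on a line either `h` vanishes on the line near this point, and so does `u`, or
the zero is isolated on the line and `u` is continuous there.  Osgood's lemma `osgood_pi` gives the rest.
-/

set_option autoImplicit false

open Topology Filter Metric

namespace Pool.Agent.SDA

/-- the one-dimensional case -/
private theorem line_of_bound {g v : ℂ → ℂ} (hg : AnalyticAt ℂ g 0) (hv : ∀ᶠ t in 𝓝 (0 : ℂ), g t ≠ 0 → DifferentiableAt ℂ v t)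
    {C : ℝ} (hb : ∀ᶠ t in 𝓝 (0 : ℂ), ‖v t‖ ≤ C * ‖g t‖) : DifferentiableAt ℂ v 0 := by
  by_cases h0 : g 0 = 0
  · have hv0 : v 0 = 0 := by
      have := hb.self_of_nhds
      rw [h0, norm_zero, mul_zero] at this
      exact norm_le_zero_iff.1 this
    rcases hg.eventually_eq_zero_or_eventually_ne_zero with h | h
    · have : v =ᶠ[𝓝 0] fun _ => 0 := by
        filter_upwards [h, hb] with t ht hbt
        rw [ht, norm_zero, mul_zero] at hbt
        exact norm_le_zero_iff.1 hbt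
      exact this.differentiableAt_iff.2 (differentiableAt_const _)
    · refine (Complex.analyticAt_of_differentiable_on_punctured_nhds_of_continuousAt ?_ ?_).differentiableAt
      · filter_upwards [h, hv.filter_mono nhdsWithin_le_nhds] with t ht hvt
        exact hvt ht
      · have hc : Tendsto (fun t => C * ‖g t‖) (𝓝 0) (𝓝 0) := by
          have := (hg.continuousAt.norm.const_mul C)
          have h2 : Tendsto (fun t => C * ‖g t‖) (𝓝 0) (𝓝 (C * ‖g 0‖)) := this
          rwa [h0, norm_zero, mul_zero] at h2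
        have := squeeze_zero_norm' hb hc
        show Tendsto v (𝓝 0) (𝓝 (v 0))
        rwa [hv0]
  · exact hv.self_of_nhds h0

/-- Riemann's extension theorem, for functions which are `O (h)` -/
theorem analyticAt_of_bound {E : Type} [NormedAddCommGroup E] [NormedSpace ℂ E] [FiniteDimensional ℂ E] {h u : E → ℂ} {x : E}
    (hh : AnalyticAt ℂ h x) (hu : ∀ᶠ y in 𝓝 x, h y ≠ 0 → AnalyticAt ℂ u y) {C : ℝ} (hb : ∀ᶠ y in 𝓝 x, ‖u y‖ ≤ C * ‖h y‖) :
    AnalyticAt ℂ u x := by
  classical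
  set φ : E ≃L[ℂ] (Fin (Module.finrank ℂ E) → ℂ) := (Module.finBasis ℂ E).equivFunL with hφ
  -- a bound for `h`
  have hbd : ∀ᶠ y in 𝓝 x, ‖h y‖ ≤ ‖h x‖ + 1 :=
    (hh.continuousAt.norm.eventually_le_const (by linarith))
  have hall : ∀ᶠ y in 𝓝 x, AnalyticAt ℂ h y ∧ (h y ≠ 0 → AnalyticAt ℂ u y) ∧ ‖u y‖ ≤ C * ‖h y‖ ∧ ‖h y‖ ≤ ‖h x‖ + 1 := by
    filter_upwards [hh.eventually_analyticAt, hu, hb, hbd] with y h1 h2 h3 h4
    exact ⟨h1, h2, h3, h4⟩
  have hall' : ∀ᶠ w in 𝓝 (φ x), ∀ᶠ w' in 𝓝 w, AnalyticAt ℂ h (φ.symm w') ∧ (h (φ.symm w') ≠ 0 → AnalyticAt ℂ u (φ.symm w')) ∧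
      ‖u (φ.symm w')‖ ≤ C * ‖h (φ.symm w')‖ ∧ ‖h (φ.symm w')‖ ≤ ‖h x‖ + 1 := by
    rw [eventually_eventually_nhds]
    have ht : Tendsto φ.symm (𝓝 (φ x)) (𝓝 x) := by
      have := φ.symm.continuous.tendsto (φ x)
      rwa [φ.symm_apply_apply] at this
    exact ht.eventually hall
  obtain ⟨r, hr, hball⟩ := Metric.eventually_nhds_iff_ball.1 hall'
  have hC : ∀ w ∈ ball (φ x) r, ‖u (φ.symm w)‖ ≤ |C| * (‖h x‖ + 1) := by
    intro w hw
    obtain ⟨_, _, h3, h4⟩ := (hball w hw).self_of_nhds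
    calc ‖u (φ.symm w)‖ ≤ C * ‖h (φ.symm w)‖ := h3
      _ ≤ |C| * ‖h (φ.symm w)‖ := by gcongr; exact le_abs_self C
      _ ≤ |C| * (‖h x‖ + 1) := by gcongr
  have key : AnalyticAt ℂ (fun w => u (φ.symm w)) (φ x) := by
    refine Pool.Agent.TN.osgood_pi hr hC ?_
    intro w hw l
    have hcont : Tendsto (fun t : ℂ => w + t • (Pi.single l (1 : ℂ) : Fin (Module.finrank ℂ E) → ℂ)) (𝓝 0) (𝓝 w) := by
      have : Continuous (fun t : ℂ => w + t • (Pi.single l (1 : ℂ) : Fin (Module.finrank ℂ E) → ℂ)) := by fun_prop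
      have h1 := this.tendsto 0
      simpa using h1
    have hev := hcont.eventually (hball w hw)
    have hlin : ∀ t : ℂ, AnalyticAt ℂ (fun t : ℂ => φ.symm (w + t • (Pi.single l (1 : ℂ) : Fin (Module.finrank ℂ E) → ℂ))) t := by
      intro t
      have h1 : AnalyticAt ℂ (fun t : ℂ => w + t • (Pi.single l (1 : ℂ) : Fin (Module.finrank ℂ E) → ℂ)) t := by fun_prop
      exact (φ.symm.toContinuousLinearMap.analyticAt _).comp h1
    refine line_of_bound (g := fun t => h (φ.symm (w + t • (Pi.single l (1 : ℂ) : Fin (Module.finrank ℂ E) → ℂ)))) (C := C) ?_ ?_ ?_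
    · have h1 := hev.self_of_nhds.1
      exact AnalyticAt.comp (g := h) (by simpa using h1) (hlin 0)
    · filter_upwards [hev] with t ht hne
      have h1 := ht.2.1 hne
      exact (AnalyticAt.comp (g := u) (f := fun t => φ.symm (w + t • (Pi.single l (1 : ℂ) : Fin (Module.finrank ℂ E) → ℂ))) h1
        (hlin t)).differentiableAt
    · filter_upwards [hev] with t ht
      exact ht.2.2.1
  have h2 : AnalyticAt ℂ ((fun w => u (φ.symm w)) ∘ φ) x :=
    AnalyticAt.comp key (φ.toContinuousLinearMap.analyticAt x)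
  have e : ((fun w => u (φ.symm w)) ∘ φ) = u := by
    funext y
    simp
  rwa [e] at h2

end Pool.Agent.SDA
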