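import Pool.Agent.SDA.E2
import Pool.Agent.SDA.X1
import Pool.Agent.E1.ResX
import Pool.Agent.SDA.RDefs
import Pool.Agent.E1.Defs
import Pool.Agent.E2.Loc
import Pool.Agent.H62.BU.Main
import Pool.Agent.H17BP.ChLem
import Pool.Agent.H14.PP.CurveBasic

/-!
# SDA X3: the local equation of the common null directions of two logarithmic symmetric differentials

`h` is the product of the equations of the boundary; `h ^ (m + 1) * θ` is holomorphic in a chart, since the logarithmic length is `O (1 / h)`.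
-/

set_option autoImplicit false

open Topology Filter Metric MvPolynomial

noncomputable section

namespace Pool.Agent.SDA

open Pool.Agent.H36.BP (EN fs wd wd_cont fs_nonneg)
open Pool.Agent.H14.PP (IsCone Tan IsOpenPart)
open Pool.Agent.H17BP (Surface IsChart LocalEq)
open Pool.Agent.H17EF (coneE)
open Pool.Agent.AD (SymDiff)
open Pool.Agent.E1 (ComNull)

variable {N k : ℕ} {P : Ideal (MvPolynomial (Fin (N + 1)) ℂ)} {H : Fin k → MvPolynomial (Fin (N + 1)) ℂ} {e : Fin k → ℕ}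

/-- the open cone is an open part of the cone -/
theorem X3_openPart (hX : ∀ x ∈ coneE P, ∀ c : ℂ, c ≠ 0 → c • x ∈ coneE P) (hH : ∀ i, (H i).IsHomogeneous (e i)) :
    IsOpenPart (coneE P) (openCone P H) where
  subset _ hx := hx.1
  smul_mem x hx c hc := by
    refine ⟨hX x hx.1 c hc, fun i => ?_⟩
    have h1 : (c • x).ofLp = c • x.ofLp := rfl
    rw [h1, Pool.Agent.H17EF.eval_smul_form (hH i) c x.ofLp]
    exact mul_ne_zero (pow_ne_zero _ hc) (hx.2 i)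
  rel_open x hx := by
    have h3 : ∀ᶠ y : EN N in 𝓝 x, ∀ i, eval y.ofLp (H i) ≠ 0 := by
      rw [eventually_all]
      exact fun i => (E1_an (H i) x).continuousAt.eventually_ne (hx.2 i)
    filter_upwards [h3] with y hy hyX
    exact ⟨hyX, hy⟩

/-- a symmetric differential in a chart -/
theorem X3_analytic {X : Set (EN N)} {m : ℕ} (θ : SymDiff X m) {σ : ℂ × ℂ → EN N} {p : ℂ × ℂ} (w : ℂ × ℂ) (hσ : AnalyticAt ℂ σ p)
    (hX : ∀ᶠ q in 𝓝 p, σ q ∈ X) :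
    AnalyticAt ℂ (fun y : (ℂ × ℂ) × (ℂ × ℂ) => θ.toFun (σ y.1) (fderiv ℂ σ y.1 y.2)) (p, w) := by
  set E : (Fin 2 → ℂ) ≃L[ℂ] ℂ × ℂ := ContinuousLinearEquiv.finTwoArrow ℂ ℂ with hE
  have h1 : AnalyticAt ℂ (fun q : Fin 2 → ℂ => σ (E q)) (E.symm p) := by
    refine AnalyticAt.comp (g := σ) (f := fun q : Fin 2 → ℂ => E q) ?_ (E.toContinuousLinearMap.analyticAt _)
    rw [E.apply_symm_apply]
    exact hσ
  have h2 : ∀ᶠ y in 𝓝 (E.symm p), σ (E y) ∈ X := by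
    have h3 : Tendsto (fun y : Fin 2 → ℂ => E y) (𝓝 (E.symm p)) (𝓝 p) := by
      have := E.continuous.tendsto (E.symm p)
      rwa [E.apply_symm_apply] at this
    exact h3.eventually hX
  have h3 := θ.analytic 2 (fun q : Fin 2 → ℂ => σ (E q)) (E.symm p) (E.symm w) h1 h2
  have h4 : AnalyticAt ℂ (fun y : (ℂ × ℂ) × (ℂ × ℂ) => (E.symm y.1, E.symm y.2)) (p, w) := by
    have h5 : AnalyticAt ℂ (fun y : (ℂ × ℂ) × (ℂ × ℂ) => E.symm y.1) (p, w) :=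
      AnalyticAt.comp (g := fun q : ℂ × ℂ => E.symm q) (E.symm.toContinuousLinearMap.analyticAt _) analyticAt_fst
    have h6 : AnalyticAt ℂ (fun y : (ℂ × ℂ) × (ℂ × ℂ) => E.symm y.2) (p, w) :=
      AnalyticAt.comp (g := fun q : ℂ × ℂ => E.symm q) (E.symm.toContinuousLinearMap.analyticAt _) analyticAt_snd
    exact h5.prod h6
  have h5 := AnalyticAt.comp (g := fun y : (Fin 2 → ℂ) × (Fin 2 → ℂ) => θ.toFun (σ (E y.1)) (fderiv ℂ (fun q : Fin 2 → ℂ => σ (E q)) y.1 y.2))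
    (f := fun y : (ℂ × ℂ) × (ℂ × ℂ) => (E.symm y.1, E.symm y.2)) (x := (p, w)) h3 h4
  refine h5.congr (Eventually.of_forall fun y => ?_)
  show θ.toFun (σ (E (E.symm y.1))) (fderiv ℂ (fun q : Fin 2 → ℂ => σ (E q)) (E.symm y.1) (E.symm y.2)) = _
  have h6 : fderiv ℂ (fun q : Fin 2 → ℂ => σ (E q)) (E.symm y.1) = (fderiv ℂ σ (E (E.symm y.1))).comp (E : (Fin 2 → ℂ) →L[ℂ] ℂ × ℂ) :=
    E.comp_right_fderiv
  rw [h6, E.apply_symm_apply]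
  show θ.toFun (σ y.1) (fderiv ℂ σ y.1 (E (E.symm y.2))) = _
  rw [E.apply_symm_apply]

/-- the differential of a chart -/
theorem X3_cont {σ : ℂ × ℂ → EN N} (hσ : AnalyticAt ℂ σ 0) (v : ℂ × ℂ) :
    ContinuousAt (fun y : (ℂ × ℂ) × (ℂ × ℂ) => fderiv ℂ σ y.1 y.2) (0, v) := by
  have h1 : ContinuousAt (fun y : (ℂ × ℂ) × (ℂ × ℂ) => fderiv ℂ σ y.1) (0, v) :=
    ContinuousAt.comp (g := fderiv ℂ σ) (f := Prod.fst) (x := ((0 : ℂ × ℂ), v)) hσ.fderiv.continuousAt continuousAt_fst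
  have hcb : Continuous fun p : (ℂ × ℂ →L[ℂ] EN N) × (ℂ × ℂ) => p.1 p.2 := isBoundedBilinearMap_apply.continuous
  exact ContinuousAt.comp (g := fun p : (ℂ × ℂ →L[ℂ] EN N) × (ℂ × ℂ) => p.1 p.2)
    (f := fun y : (ℂ × ℂ) × (ℂ × ℂ) => (fderiv ℂ σ y.1, y.2)) hcb.continuousAt (h1.prodMk continuousAt_snd)

/-- the product of the equations of the boundary times the logarithmic length is bounded -/
theorem X3_log (H : Fin k → MvPolynomial (Fin (N + 1)) ℂ) (e : Fin k → ℕ) {σ : ℂ × ℂ → EN N} (hσ : AnalyticAt ℂ σ 0) (hne : σ 0 ≠ 0)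
    (v : ℂ × ℂ) : ∃ B : ℝ, 0 ≤ B ∧ ∀ᶠ y in 𝓝 ((0 : ℂ × ℂ), v), ‖∏ i, eval (σ y.1).ofLp (H i)‖ * fs (σ y.1) (fderiv ℂ σ y.1 y.2) ≤ B ∧
      ((∏ i, eval (σ y.1).ofLp (H i)) ≠ 0 → ‖∏ i, eval (σ y.1).ofLp (H i)‖ * logLength H e (σ y.1) (fderiv ℂ σ y.1 y.2) ≤ B) := by
  have hs : ContinuousAt (fun y : (ℂ × ℂ) × (ℂ × ℂ) => σ y.1) (0, v) :=
    ContinuousAt.comp (g := σ) (f := Prod.fst) (x := ((0 : ℂ × ℂ), v)) hσ.continuousAt continuousAt_fst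
  have hD := X3_cont hσ v
  have hev : ∀ Q : MvPolynomial (Fin (N + 1)) ℂ, ContinuousAt (fun y : (ℂ × ℂ) × (ℂ × ℂ) => eval (σ y.1).ofLp Q) (0, v) := fun Q =>
    ContinuousAt.comp (g := fun x : EN N => eval x.ofLp Q) (f := fun y : (ℂ × ℂ) × (ℂ × ℂ) => σ y.1) (x := ((0 : ℂ × ℂ), v))
      (E1_an Q _).continuousAt hs
  have hn0 : ‖σ (((0 : ℂ × ℂ), v) : (ℂ × ℂ) × (ℂ × ℂ)).1‖ ^ 2 ≠ 0 := pow_ne_zero _ (norm_ne_zero_iff.2 hne)
  have hh : ContinuousAt (fun y : (ℂ × ℂ) × (ℂ × ℂ) => ∏ i, eval (σ y.1).ofLp (H i)) (0, v) := by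
    have := tendsto_finsetProd (s := Finset.univ) (f := fun (i : Fin k) (y : (ℂ × ℂ) × (ℂ × ℂ)) => eval (σ y.1).ofLp (H i))
      (a := fun i => eval (σ (((0 : ℂ × ℂ), v) : (ℂ × ℂ) × (ℂ × ℂ)).1).ofLp (H i)) (x := 𝓝 ((0 : ℂ × ℂ), v)) fun i _ => hev (H i)
    exact this
  have hfs : ContinuousAt (fun y : (ℂ × ℂ) × (ℂ × ℂ) => fs (σ y.1) (fderiv ℂ σ y.1 y.2)) (0, v) := by
    have h1 : ContinuousAt (fun y : (ℂ × ℂ) × (ℂ × ℂ) => wd (σ y.1) (fderiv ℂ σ y.1 y.2)) (0, v) :=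
      ContinuousAt.comp (g := fun p : EN N × EN N => wd p.1 p.2) (f := fun y : (ℂ × ℂ) × (ℂ × ℂ) => (σ y.1, fderiv ℂ σ y.1 y.2))
        (x := ((0 : ℂ × ℂ), v)) wd_cont.continuousAt (hs.prodMk hD)
    exact h1.div (hs.norm.pow 2) hn0
  have hin : ContinuousAt (fun y : (ℂ × ℂ) × (ℂ × ℂ) => (inner ℂ (σ y.1) (fderiv ℂ σ y.1 y.2) / (‖σ y.1‖ : ℂ) ^ 2 : ℂ)) (0, v) := by
    refine (hs.inner hD).div ((Complex.continuous_ofReal.continuousAt.comp hs.norm).pow 2) ?_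
    have h1 : ((‖σ (((0 : ℂ × ℂ), v) : (ℂ × ℂ) × (ℂ × ℂ)).1‖ : ℝ) : ℂ) ≠ 0 := Complex.ofReal_ne_zero.2 (norm_ne_zero_iff.2 hne)
    exact pow_ne_zero _ h1
  have hdf : ∀ i : Fin k, ContinuousAt (fun y : (ℂ × ℂ) × (ℂ × ℂ) =>
      fderiv ℂ (fun x : EN N => eval x.ofLp (H i)) (σ y.1) (fderiv ℂ σ y.1 y.2)) (0, v) := by
    intro i
    have h1 : ContinuousAt (fun y : (ℂ × ℂ) × (ℂ × ℂ) => fderiv ℂ (fun x : EN N => eval x.ofLp (H i)) (σ y.1)) (0, v) :=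
      ContinuousAt.comp (g := fderiv ℂ (fun x : EN N => eval x.ofLp (H i))) (f := fun y : (ℂ × ℂ) × (ℂ × ℂ) => σ y.1)
        (x := ((0 : ℂ × ℂ), v)) (E1_an (H i) _).fderiv.continuousAt hs
    have hcb : Continuous fun p : (EN N →L[ℂ] ℂ) × EN N => p.1 p.2 := isBoundedBilinearMap_apply.continuous
    exact ContinuousAt.comp (g := fun p : (EN N →L[ℂ] ℂ) × EN N => p.1 p.2)
      (f := fun y : (ℂ × ℂ) × (ℂ × ℂ) => (fderiv ℂ (fun x : EN N => eval x.ofLp (H i)) (σ y.1), fderiv ℂ σ y.1 y.2)) hcb.continuousAt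
      (h1.prodMk hD)
  obtain ⟨G, hG⟩ : ∃ G : Fin k → (ℂ × ℂ) × (ℂ × ℂ) → ℂ, G = fun i y => (∏ j ∈ Finset.univ.erase i, eval (σ y.1).ofLp (H j)) *
      fderiv ℂ (fun x : EN N => eval x.ofLp (H i)) (σ y.1) (fderiv ℂ σ y.1 y.2) -
      (∏ j, eval (σ y.1).ofLp (H j)) * ((e i : ℂ) * (inner ℂ (σ y.1) (fderiv ℂ σ y.1 y.2) / (‖σ y.1‖ : ℂ) ^ 2)) := ⟨_, rfl⟩
  have hGc : ∀ i, ContinuousAt (G i) (0, v) := by
    intro i
    rw [hG]
    have h1 : ContinuousAt (fun y : (ℂ × ℂ) × (ℂ × ℂ) => ∏ j ∈ Finset.univ.erase i, eval (σ y.1).ofLp (H j)) (0, v) := by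
      have := tendsto_finsetProd (s := Finset.univ.erase i) (f := fun (j : Fin k) (y : (ℂ × ℂ) × (ℂ × ℂ)) => eval (σ y.1).ofLp (H j))
        (a := fun j => eval (σ (((0 : ℂ × ℂ), v) : (ℂ × ℂ) × (ℂ × ℂ)).1).ofLp (H j)) (x := 𝓝 ((0 : ℂ × ℂ), v)) fun j _ => hev (H j)
      exact this
    exact (h1.mul (hdf i)).sub (hh.mul (continuousAt_const.mul hin))
  have hGb : ∀ᶠ y in 𝓝 ((0 : ℂ × ℂ), v), ∀ i, ‖G i y‖ ≤ ‖G i (0, v)‖ + 1 := by
    rw [eventually_all]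
    exact fun i => (hGc i).norm.eventually_le_const (by linarith)
  have hfb : ∀ᶠ y in 𝓝 ((0 : ℂ × ℂ), v), ‖∏ i, eval (σ y.1).ofLp (H i)‖ * fs (σ y.1) (fderiv ℂ σ y.1 y.2) ≤
      ‖∏ i, eval (σ (0 : ℂ × ℂ)).ofLp (H i)‖ * fs (σ 0) (fderiv ℂ σ 0 v) + 1 :=
    (hh.norm.mul hfs).eventually_le_const (by
      show ‖∏ i, eval (σ (0 : ℂ × ℂ)).ofLp (H i)‖ * fs (σ 0) (fderiv ℂ σ 0 v) < _
      linarith)
  obtain ⟨A, hA⟩ : ∃ A : ℝ, A = ‖∏ i, eval (σ (0 : ℂ × ℂ)).ofLp (H i)‖ * fs (σ 0) (fderiv ℂ σ 0 v) + 1 := ⟨_, rfl⟩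
  have hA0 : 0 ≤ A := by
    rw [hA]
    have := mul_nonneg (norm_nonneg (∏ i, eval (σ (0 : ℂ × ℂ)).ofLp (H i))) (fs_nonneg (σ 0) (fderiv ℂ σ 0 v))
    linarith
  have hS0 : 0 ≤ ∑ i, (‖G i (0, v)‖ + 1) := Finset.sum_nonneg fun i _ => by
    have := norm_nonneg (G i (0, v))
    linarith
  refine ⟨A + ∑ i, (‖G i (0, v)‖ + 1), add_nonneg hA0 hS0, ?_⟩
  filter_upwards [hGb, hfb] with y h1 h2
  rw [← hA] at h2
  refine ⟨by linarith, fun h0 => ?_⟩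
  unfold logLength
  rw [mul_add, Finset.mul_sum]
  refine add_le_add h2 (Finset.sum_le_sum fun i _ => ?_)
  refine le_trans (le_of_eq ?_) (h1 i)
  rw [← norm_mul]
  congr 1
  rw [hG]
  have hi : eval (σ y.1).ofLp (H i) ≠ 0 := fun hi => h0 (Finset.prod_eq_zero (Finset.mem_univ i) hi)
  have hp : (∏ j, eval (σ y.1).ofLp (H j)) = eval (σ y.1).ofLp (H i) * ∏ j ∈ Finset.univ.erase i, eval (σ y.1).ofLp (H j) :=
    (Finset.mul_prod_erase _ _ (Finset.mem_univ i)).symm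
  simp only
  rw [mul_sub]
  congr 1
  rw [hp]
  field_simp

/-- `h ^ (m + 1) * θ` is holomorphic -/
theorem X3_an (hX : Surface (coneE P)) (hH : ∀ i, (H i).IsHomogeneous (e i)) {m : ℕ} (θ : SymDiff (openCone P H) m)
    (hθ : VanishesOnStatic e θ) {σ : ℂ × ℂ → EN N} {τ : EN N → ℂ × ℂ} (hσ : IsChart (coneE P) σ τ) (v : ℂ × ℂ) :
    AnalyticAt ℂ (fun y : (ℂ × ℂ) × (ℂ × ℂ) => (∏ i, eval (σ y.1).ofLp (H i)) ^ (m + 1) * θ.toFun (σ y.1) (fderiv ℂ σ y.1 y.2)) (0, v) := by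
  have hK := X3_openPart (H := H) (e := e) hX.smul hH
  have hev : ∀ p : ℂ × ℂ, AnalyticAt ℂ σ p → AnalyticAt ℂ (fun p => ∏ i, eval (σ p).ofLp (H i)) p := fun p hp =>
    Finset.analyticAt_fun_prod _ fun i _ => AnalyticAt.comp (g := fun x : EN N => eval x.ofLp (H i)) (f := σ) (E1_an (H i) _) hp
  have h0 : AnalyticAt ℂ (fun y : (ℂ × ℂ) × (ℂ × ℂ) => ∏ i, eval (σ y.1).ofLp (H i)) (0, v) :=
    AnalyticAt.comp (g := fun p : ℂ × ℂ => ∏ i, eval (σ p).ofLp (H i)) (f := Prod.fst) (x := ((0 : ℂ × ℂ), v)) (hev 0 hσ.σ_an) analyticAt_fst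
  have hfst : Tendsto (Prod.fst : (ℂ × ℂ) × (ℂ × ℂ) → ℂ × ℂ) (𝓝 ((0 : ℂ × ℂ), v)) (𝓝 0) := continuousAt_fst
  obtain ⟨B, hB, hlog⟩ := X3_log H e hσ.σ_an hσ.ne v
  obtain ⟨C, hC⟩ := hθ 1 one_pos
  refine analyticAt_of_bound (h := fun y : (ℂ × ℂ) × (ℂ × ℂ) => ∏ i, eval (σ y.1).ofLp (H i)) (C := (B + |C| * B) ^ m) h0 ?_ ?_
  · filter_upwards [hfst.eventually hσ.σ_an.eventually_analyticAt, hfst.eventually hσ.σ_mem.eventually_nhds] with y h1 h2 hy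
    have h3 := hev y.1 h1
    have h4 : ∀ᶠ q in 𝓝 y.1, σ q ∈ openCone P H := by
      filter_upwards [h2, h3.continuousAt.eventually_ne hy] with q hq hq0
      exact ⟨hq, fun i hi => hq0 (Finset.prod_eq_zero (Finset.mem_univ i) hi)⟩
    have h5 : AnalyticAt ℂ (fun y : (ℂ × ℂ) × (ℂ × ℂ) => ∏ i, eval (σ y.1).ofLp (H i)) y :=
      AnalyticAt.comp (g := fun p : ℂ × ℂ => ∏ i, eval (σ p).ofLp (H i)) (f := Prod.fst) (x := y) h3 analyticAt_fst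
    exact (h5.pow (m + 1)).mul (X3_analytic θ y.2 h1 h4)
  · filter_upwards [hlog, hfst.eventually hσ.σ_an.eventually_analyticAt, hfst.eventually hσ.σ_mem.eventually_nhds] with y h1 h2 h3
    by_cases hy : (∏ i, eval (σ y.1).ofLp (H i)) = 0
    · rw [hy, zero_pow (Nat.succ_ne_zero m), zero_mul, norm_zero, mul_zero]
    have h4 : ∀ᶠ q in 𝓝 y.1, σ q ∈ openCone P H := by
      filter_upwards [h3, (hev y.1 h2).continuousAt.eventually_ne hy] with q hq hq0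
      exact ⟨hq, fun i hi => hq0 (Finset.prod_eq_zero (Finset.mem_univ i) hi)⟩
    have h5 := hC (σ y.1) h4.self_of_nhds (fderiv ℂ σ y.1 y.2) (Pool.Agent.E2.tan_fderiv_chart h2 h4 y.2)
    have h6 := h1.2 hy
    have h7 := h1.1
    obtain ⟨t, ht⟩ : ∃ t : ℝ, t = ‖∏ i, eval (σ y.1).ofLp (H i)‖ := ⟨_, rfl⟩
    obtain ⟨L, hL⟩ : ∃ L : ℝ, L = logLength H e (σ y.1) (fderiv ℂ σ y.1 y.2) := ⟨_, rfl⟩
    obtain ⟨f, hf⟩ : ∃ f : ℝ, f = fs (σ y.1) (fderiv ℂ σ y.1 y.2) := ⟨_, rfl⟩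
    rw [norm_mul, norm_pow]
    rw [← ht, ← hL] at h6
    rw [← ht, ← hf] at h7
    rw [← hL, ← hf] at h5
    rw [← ht]
    have ht0 : 0 ≤ t := ht ▸ norm_nonneg _
    have hf0 : 0 ≤ f := hf ▸ fs_nonneg _ _
    have hL0 : 0 ≤ L := by
      rw [hL]
      unfold logLength
      exact add_nonneg (fs_nonneg _ _) (Finset.sum_nonneg fun i _ => norm_nonneg _)
    have h8 : |t * (1 * L + C * f)| ≤ B + |C| * B := by
      have h9 : |t * (1 * L + C * f)| ≤ t * L + |C| * (t * f) := by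
        rw [one_mul, mul_add, show t * (C * f) = C * (t * f) by ring]
        refine (abs_add_le _ _).trans ?_
        rw [abs_mul C, abs_of_nonneg (mul_nonneg ht0 hL0), abs_of_nonneg (mul_nonneg ht0 hf0)]
      exact h9.trans (add_le_add h6 (mul_le_mul_of_nonneg_left h7 (abs_nonneg C)))
    calc t ^ (m + 1) * ‖θ.toFun (σ y.1) (fderiv ℂ σ y.1 y.2)‖ ≤ t ^ (m + 1) * (1 * L + C * f) ^ m :=
          mul_le_mul_of_nonneg_left h5 (pow_nonneg ht0 _)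
      _ = (t * (1 * L + C * f)) ^ m * t := by rw [mul_pow]; ring
      _ ≤ |t * (1 * L + C * f)| ^ m * t := by
          refine mul_le_mul_of_nonneg_right ?_ ht0
          rw [← abs_pow]
          exact le_abs_self _
      _ ≤ (B + |C| * B) ^ m * t := mul_le_mul_of_nonneg_right (pow_le_pow_left₀ (abs_nonneg _) h8 m) ht0

/-- MODULE X3: the local equation -/
theorem localEq_log (hX : Surface (coneE P)) (hH : ∀ i, (H i).IsHomogeneous (e i)) {m₁ m₂ : ℕ} (h₁ : 1 ≤ m₁) (h₂ : 1 ≤ m₂)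
    (θ₁ : SymDiff (openCone P H) m₁) (θ₂ : SymDiff (openCone P H) m₂) (hθ₁ : VanishesOnStatic e θ₁) (hθ₂ : VanishesOnStatic e θ₂)
    {σ : ℂ × ℂ → EN N} {τ : EN N → ℂ × ℂ} (hσ : IsChart (coneE P) σ τ) :
    ∃ g : ℂ × ℂ → ℂ, LocalEq (ComNull θ₁ θ₂ ∪ {x | x ∈ coneE P ∧ ∃ i, eval x.ofLp (H i) = 0}) σ g := by
  have hK := X3_openPart (H := H) (e := e) hX.smul hH
  have hev : AnalyticAt ℂ (fun p => ∏ i, eval (σ p).ofLp (H i)) 0 :=
    Finset.analyticAt_fun_prod _ fun i _ => AnalyticAt.comp (g := fun x : EN N => eval x.ofLp (H i)) (f := σ) (E1_an (H i) _) hσ.σ_an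
  -- near `0` the points off the boundary have a neighbourhood in the open cone
  have hnb : ∀ᶠ p in 𝓝 (0 : ℂ × ℂ), AnalyticAt ℂ σ p ∧ ((∏ i, eval (σ p).ofLp (H i)) ≠ 0 → ∀ᶠ q in 𝓝 p, σ q ∈ openCone P H) := by
    filter_upwards [hσ.σ_an.eventually_analyticAt, hσ.σ_mem.eventually_nhds, hev.eventually_analyticAt] with p h1 h2 h3
    refine ⟨h1, fun hp => ?_⟩
    filter_upwards [h2, h3.continuousAt.eventually_ne hp] with q hq hq0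
    exact ⟨hq, fun i hi => hq0 (Finset.prod_eq_zero (Finset.mem_univ i) hi)⟩
  have hs : ∀ {m : ℕ} (θ : SymDiff (openCone P H) m), ∀ᶠ p in 𝓝 (0 : ℂ × ℂ), ∀ (c : ℂ) (v : ℂ × ℂ),
      (∏ i, eval (σ p).ofLp (H i)) ^ (m + 1) * θ.toFun (σ p) (fderiv ℂ σ p (c • v)) =
      c ^ m * ((∏ i, eval (σ p).ofLp (H i)) ^ (m + 1) * θ.toFun (σ p) (fderiv ℂ σ p v)) := by
    intro m θ
    filter_upwards [hnb] with p hp c v
    by_cases h0 : (∏ i, eval (σ p).ofLp (H i)) = 0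
    · rw [h0, zero_pow (Nat.succ_ne_zero m), zero_mul, zero_mul, mul_zero]
    · rw [map_smul, θ.smul _ _ (Pool.Agent.E2.tan_fderiv_chart hp.1 (hp.2 h0) v)]
      ring
  obtain ⟨g₀, hg₀, hg⟩ := Pool.Agent.E1.localEq_common h₁ h₂
    (a := fun y : (ℂ × ℂ) × (ℂ × ℂ) => (∏ i, eval (σ y.1).ofLp (H i)) ^ (m₁ + 1) * θ₁.toFun (σ y.1) (fderiv ℂ σ y.1 y.2))
    (b := fun y : (ℂ × ℂ) × (ℂ × ℂ) => (∏ i, eval (σ y.1).ofLp (H i)) ^ (m₂ + 1) * θ₂.toFun (σ y.1) (fderiv ℂ σ y.1 y.2))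
    (fun v => X3_an hX hH θ₁ hθ₁ hσ v) (fun v => X3_an hX hH θ₂ hθ₂ hσ v) (hs θ₁) (hs θ₂)
  refine ⟨fun p => (∏ i, eval (σ p).ofLp (H i)) * g₀ p, hev.mul hg₀, ?_⟩
  filter_upwards [hg, hnb, Pool.Agent.E2.tan_chart hX hσ, hσ.near] with p hp hn ht hc
  by_cases h0 : (∏ i, eval (σ p).ofLp (H i)) = 0
  · simp only [h0, zero_mul, iff_true]
    obtain ⟨i, _, hi⟩ := Finset.prod_eq_zero_iff.1 h0
    exact Or.inr ⟨ht.1, i, hi⟩
  have hKp : ∀ᶠ q in 𝓝 p, σ q ∈ openCone P H := hn.2 h0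
  have hb : σ p ∉ {x : EN N | x ∈ coneE P ∧ ∃ i, eval x.ofLp (H i) = 0} := by
    rintro ⟨_, i, hi⟩
    exact hKp.self_of_nhds.2 i hi
  rw [mul_eq_zero, or_iff_right h0, hp]
  constructor
  · rintro (⟨hx, w, hw, hne, e1, e2⟩ | h)
    · obtain ⟨v, a, hv⟩ := ht.2 w (E2_tan' hK hw)
      have hTv := Pool.Agent.E2.tan_fderiv_chart hn.1 hKp v
      refine ⟨v, ?_, ?_, ?_⟩
      · rintro rfl
        apply hne a
        rw [hv, map_zero, zero_add]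
      · show _ * _ = _
        rw [hv, θ₁.add_smul _ _ hTv] at e1
        rw [e1, mul_zero]
      · show _ * _ = _
        rw [hv, θ₂.add_smul _ _ hTv] at e2
        rw [e2, mul_zero]
    · exact absurd h hb
  · rintro ⟨v, hv0, e1, e2⟩
    refine Or.inl ⟨hKp.self_of_nhds, fderiv ℂ σ p v, Pool.Agent.E2.tan_fderiv_chart hn.1 hKp v, fun a ha => hv0 ?_, ?_, ?_⟩
    · have h3 : fderiv ℂ (fun x => σ (p + x)) 0 v = a • σ (p + 0) := by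
        rw [fderiv_comp_add_left, add_zero]
        exact ha
      exact (Pool.Agent.H62.BU.toChart hc).indep h3
    · exact (mul_eq_zero.1 e1).resolve_left (pow_ne_zero _ h0)
    · exact (mul_eq_zero.1 e2).resolve_left (pow_ne_zero _ h0)

end Pool.Agent.SDA
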