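import Pool.Agent.SDA.Defs
import Pool.Agent.H36.BP.SubB
import Pool.Agent.H36.BP.SubC

/-!
# SDA F0: small lemmas on the class
-/

set_option autoImplicit false

open Topology Filter Metric

noncomputable section

namespace Pool.Agent.SDA

open Pool.Agent.H36.BP (EN fs wd Sub OrdTwo)
open Pool.Agent.H14.PP (IsCone Tan CurveAt)
open Pool.Agent.SY (Ent Energy)

variable {N : ℕ} {ι : Type} [Fintype ι] {X K T : Set (EN N)} {P : ι → EN N → ℂ} {d : ι → ℕ} {rho : EN N → ℝ} {M : ℕ} {c₀ C : ℝ}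
  {g : (ℂ → EN N) → ℂ → ℝ} {n : EN N → EN N → ℝ}

/-- a product of an upper semicontinuous and a continuous function -/
theorem F1_usc {u f : ℂ → ℝ} (hu : ∀ z a, u z < a → ∀ᶠ w in 𝓝 z, u w < a) (hf : Continuous f)
    (hf0 : ∀ z, 0 < f z) (S : Set ℂ) : UpperSemicontinuousOn (fun z => u z * f z) S := by
  intro z _ b hb
  have hb' : u z * f z < b := hb
  obtain ⟨a, ha1, ha2⟩ : ∃ a, u z < a ∧ a * f z < b := by
    have h1 : u z < b / f z := by rwa [lt_div_iff₀ (hf0 z)]
    obtain ⟨a, h2, h3⟩ := exists_between h1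
    exact ⟨a, h2, by rwa [lt_div_iff₀ (hf0 z)] at h3⟩
  have h2 : ∀ᶠ w in 𝓝 z, a * f w < b := ((hf.continuousAt.const_mul a).tendsto).eventually (gt_mem_nhds ha2)
  refine Filter.Eventually.filter_mono nhdsWithin_le_nhds ?_
  filter_upwards [hu z a ha1, h2] with w h3 h4
  exact lt_of_le_of_lt (mul_le_mul_of_nonneg_right (le_of_lt h3) (hf0 w).le) h4

theorem F1_KX (S : Setup X K T P d rho M c₀ C g n) : K ⊆ X := fun x hx => ((S.aff.mem x).1 hx).1

theorem F1_tan_zero {x : EN N} (hx : x ∈ X) : Tan X x 0 :=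
  ⟨fun _ => x, ⟨analyticAt_const, Filter.Eventually.of_forall fun _ => hx⟩, rfl, by simp⟩

theorem F1_tan {F : ℂ → EN N} (hF : Differentiable ℂ F) (hX : ∀ z, F z ∈ X) (z : ℂ) : Tan X (F z) (deriv F z) := by
  refine ⟨fun w => F (w + z), ⟨?_, Filter.Eventually.of_forall fun w => hX _⟩, by simp, ?_⟩
  · exact (hF.comp (differentiable_id.add_const z)).analyticAt 0
  · rw [deriv_comp_add_const]
    simp

/-- multiples of the point have length zero -/
theorem F1_n_self (S : Setup X K T P d rho M c₀ C g n) {x : EN N} (hx : x ∈ K) (a : ℂ) : n x (a • x) = 0 := by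
  have hX : x ∈ X := F1_KX S hx
  have h1 := S.gauge.inv x hx 0 (F1_tan_zero hX) 1 a one_ne_zero
  have h2 := S.gauge.hom x hx 0 (F1_tan_zero hX) 0
  rw [one_smul, smul_zero, zero_add] at h1
  rw [norm_zero, zero_mul, zero_smul] at h2
  rw [h1, h2]

/-- translations -/
theorem F1_ent {F : ℂ → EN N} (hF : Ent K T F) (z : ℂ) : Ent K T (fun w => F (1 * w + z)) := by
  refine ⟨hF.diff.comp ((differentiable_id.const_mul 1).add_const z), fun w => hF.mem _, ?_⟩
  obtain ⟨w, hw⟩ := hF.out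
  refine ⟨w - z, ?_⟩
  rwa [one_mul, sub_add_cancel]

/-- the metric is positive somewhere -/
theorem F1_pos (S : Setup X K T P d rho M c₀ C g n) {F : ℂ → EN N} (hF : Cl K T P n F) : ∃ z, 0 < g F z := by
  obtain ⟨z, hz⟩ := hF.1.out
  refine ⟨z, ?_⟩
  have hX := F1_KX S (hF.1.mem z)
  have hr : 0 < rho (F z) := lt_of_le_of_ne (S.rho0 _ hX) fun h => hz ((S.rhoT _ hX).1 h.symm)
  obtain ⟨a, ha⟩ := S.en.lower F hF.1 z
  rcases (S.en.nonneg F hF.1 z).lt_or_eq with h | h
  · exact h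
  · exfalso
    rw [← h, mul_zero] at ha
    have h1 : ‖deriv F z - a • F z‖ = 0 := by
      have h2 : 0 < rho (F z) ^ M := pow_pos hr M
      have h3 := norm_nonneg (deriv F z - a • F z)
      by_contra h4
      have h5 : 0 < ‖deriv F z - a • F z‖ := lt_of_le_of_ne h3 (Ne.symm h4)
      exact absurd ha (not_le.2 (mul_pos h2 h5))
    have h2 : deriv F z = a • F z := sub_eq_zero.1 (norm_eq_zero.1 h1)
    have h3 := hF.2.2 z
    rw [h2, F1_n_self S (hF.1.mem z)] at h3
    exact zero_ne_one h3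

/-- a curve of the class is not constant -/
theorem F1_unbounded (S : Setup X K T P d rho M c₀ C g n) {F : ℂ → EN N} (hF : Cl K T P n F) (B : ℝ) : ∃ z, B < ‖F z‖ := by
  by_contra h
  have h' : ∀ z, ‖F z‖ ≤ B := fun z => not_lt.1 fun h1 => h ⟨z, h1⟩
  have hb : Bornology.IsBounded (Set.range F) := by
    rw [isBounded_iff_forall_norm_le]
    refine ⟨B, ?_⟩
    rintro _ ⟨z, rfl⟩
    exact h' z
  have h1 : ∀ z w, F z = F w := fun z w => hF.1.diff.apply_eq_apply_of_bounded hb z w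
  have h2 : F = fun _ => F 0 := funext fun z => h1 z 0
  have h3 : deriv F 0 = 0 := by
    rw [h2]
    simp
  have h4 := hF.2.2 0
  rw [h3, ← zero_smul ℂ (F 0), F1_n_self S (hF.1.mem 0)] at h4
  exact zero_ne_one h4

end Pool.Agent.SDA
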