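import Pool.Agent.SDA.Defs
import Pool.Agent.SY.ChM
import Pool.Agent.H73.CR.KA

/-!
# SDA Ha: Harnack's inequality

`harnack`: a function `v ≤ exp a |F|^(-c₀)` on a disc, subharmonic for the logarithm, which is not small at one point bounds `log |F|` on the
concentric disc of half the radius (harmonic majorant of `c₀ log |F|`, maximum principle, Harnack twice).
-/

set_option autoImplicit false

open Topology Filter Metric

noncomputable section

namespace Pool.Agent.SDA

open Pool.Agent.H36.BP (EN Sub Sub.mul Sub.congr Sub.of_holo Sub.exp_sq max_principle circle_approx)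

variable {N : ℕ} {c₀ : ℝ}

private theorem ha_usc {S : Set ℂ} {f h : ℂ → ℝ} (hf : UpperSemicontinuousOn f S)
    (hh : ContinuousOn h S) (hpos : ∀ z ∈ S, 0 < h z) :
    UpperSemicontinuousOn (fun z => f z * h z) S := by
  intro x hx y hy
  have hx0 := hpos x hx
  have h1 : f x < y / h x := (lt_div_iff₀ hx0).2 hy
  obtain ⟨a, ha1, ha2⟩ := exists_between h1
  have h2 : a * h x < y := (lt_div_iff₀ hx0).1 ha2
  have h3 : ∀ᶠ z in 𝓝[S] x, a * h z < y :=
    ((continuousWithinAt_const.mul (hh x hx)).tendsto).eventually (gt_mem_nhds h2)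
  filter_upwards [hf x hx a ha1, h3, self_mem_nhdsWithin] with z hz1 hz2 hz3
  exact (mul_lt_mul_of_pos_right hz1 (hpos z hz3)).trans hz2

/-- approximation on an arbitrary circle -/
private theorem ha_approx {c : ℂ} {R : ℝ} (hR : 0 < R) (φ : ℂ → ℝ) (hφ : Continuous φ) {ε : ℝ} (hε : 0 < ε) :
    ∃ g : ℂ → ℂ, Differentiable ℂ g ∧ ∀ z ∈ sphere c R, |(g z).re - φ z| ≤ ε := by
  obtain ⟨g, hg, h⟩ := circle_approx hR (fun z => φ (z + c)) (hφ.comp (continuous_id.add continuous_const)).continuousOn hε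
  refine ⟨fun z => g (z - c), hg.comp (differentiable_id.sub_const c), fun z hz => ?_⟩
  have h1 : z - c ∈ sphere (0 : ℂ) R := by
    rw [mem_sphere_zero_iff_norm]
    rw [mem_sphere, dist_eq_norm] at hz
    exact hz
  have h2 := h (z - c) h1
  simpa using h2

/-- Harnack on a disc, both directions -/
private theorem ha_harnack {c : ℂ} {R : ℝ} (hR : 0 < R) {g : ℂ → ℂ} (hg : Differentiable ℂ g)
    (h0 : ∀ z ∈ ball c R, 0 ≤ (g z).re) {z : ℂ} (hz : z ∈ ball c R) :
    (R - ‖z - c‖) / (R + ‖z - c‖) * (g c).re ≤ (g z).re ∧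
      (g z).re ≤ (R + ‖z - c‖) / (R - ‖z - c‖) * (g c).re := by
  have hRc : (R : ℂ) ≠ 0 := by exact_mod_cast hR.ne'
  have hzn : ‖z - c‖ < R := by
    rw [mem_ball, dist_eq_norm] at hz
    exact hz
  have h1 : (z - c) / R ∈ ball (0 : ℂ) 1 := by
    rw [mem_ball_zero_iff, norm_div, Complex.norm_real, Real.norm_eq_abs, abs_of_pos hR, div_lt_one hR]
    exact hzn
  have h2 := Pool.Agent.CR.harnack_re (L := fun w => g (c + R * w))
    (hg.comp ((differentiable_const c).add ((differentiable_const (R : ℂ)).mul differentiable_id))).differentiableOn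
    (fun w hw => h0 _ (by
      rw [mem_ball, dist_eq_norm, add_sub_cancel_left, norm_mul, Complex.norm_real, Real.norm_eq_abs, abs_of_pos hR]
      rw [mem_ball_zero_iff] at hw
      nlinarith)) h1
  have h3 : c + (R : ℂ) * ((z - c) / R) = z := by
    rw [mul_div_cancel₀ _ hRc]
    ring
  have h4 : ‖(z - c) / (R : ℂ)‖ = ‖z - c‖ / R := by
    rw [norm_div, Complex.norm_real, Real.norm_eq_abs, abs_of_pos hR]
  simp only [h3, mul_zero, add_zero, h4] at h2
  have h5 : (1 - ‖z - c‖ / R) / (1 + ‖z - c‖ / R) = (R - ‖z - c‖) / (R + ‖z - c‖) := by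
    have h6 : 0 < R + ‖z - c‖ := by positivity
    field_simp
  have h6 : (1 + ‖z - c‖ / R) / (1 - ‖z - c‖ / R) = (R + ‖z - c‖) / (R - ‖z - c‖) := by
    have h7 : R - ‖z - c‖ ≠ 0 := by linarith
    have h8 : 1 - ‖z - c‖ / R ≠ 0 := by
      intro h
      apply h7
      field_simp at h
      linarith
    field_simp
  rw [h5, h6] at h2
  exact h2

theorem harnack {c z₀ : ℂ} {R a b : ℝ} (hc₀ : 0 < c₀) (hz₀ : z₀ ∈ ball c R) {F : ℂ → EN N} (hF : Differentiable ℂ F)
    (hF1 : ∀ z, 1 ≤ ‖F z‖) {v : ℂ → ℝ} (hv : UpperSemicontinuousOn v (closedBall c R)) (hv0 : ∀ z ∈ closedBall c R, 0 ≤ v z)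
    (hs : ∀ z ∈ ball c R, 0 < v z → Sub v z 0) (hva : ∀ z ∈ closedBall c R, v z ≤ Real.exp a * ‖F z‖ ^ (-c₀))
    (hb : Real.exp (-b) ≤ v z₀) :
    ∀ z ∈ closedBall c (R / 2), c₀ * Real.log ‖F z‖ ≤ 3 * ((R + ‖z₀ - c‖) / (R - ‖z₀ - c‖)) * (a + b) := by
  have hR : 0 < R := pos_of_mem_ball hz₀
  have hne : ∀ z, 0 < ‖F z‖ := fun z => lt_of_lt_of_le one_pos (hF1 z)
  have hcont : Continuous F := hF.continuous
  have hr : ‖z₀ - c‖ < R := by
    rw [mem_ball, dist_eq_norm] at hz₀
    exact hz₀
  set q : ℝ := (R + ‖z₀ - c‖) / (R - ‖z₀ - c‖) with hq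
  have hq0 : 0 < q := div_pos (by positivity) (by linarith)
  -- the estimate with an error
  have key : ∀ η : ℝ, 0 < η → ∀ z ∈ closedBall c (R / 2), c₀ * Real.log ‖F z‖ ≤ 3 * q * (a + b + 3 * η) + η := by
    intro η hη z hz
    obtain ⟨g, hg, hgφ⟩ := ha_approx (c := c) hR (fun z => c₀ * Real.log ‖F z‖)
      (continuous_const.mul (hcont.norm.log fun z => (hne z).ne')) hη
    -- (1) inside
    have hup : ∀ w ∈ closedBall c R, c₀ * Real.log ‖F w‖ ≤ (g w).re + η := by
      intro w hw
      have hexp : ∀ z, ‖Complex.exp (-(g z / c₀)) • F z‖ =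
          Real.exp (-((g z).re / c₀) + Real.log ‖F z‖) := by
        intro z
        have h1 : (-(g z / (c₀ : ℂ))).re = -((g z).re / c₀) := by
          rw [Complex.neg_re, Complex.div_ofReal_re]
        rw [norm_smul, Complex.norm_exp, h1, Real.exp_add, Real.exp_log (hne z)]
      have hd : DiffContOnCl ℂ (fun z => Complex.exp (-(g z / c₀)) • F z) (ball c R) :=
        ((hg.div_const _).neg.cexp.smul hF).diffContOnCl
      have h1 := Complex.norm_le_of_forall_mem_frontier_norm_le (C := Real.exp (η / c₀)) isBounded_ball hd (fun w hw => ?_)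
        (by rw [closure_ball _ hR.ne']; exact hw)
      · rw [hexp w, Real.exp_le_exp] at h1
        have h2 : Real.log ‖F w‖ ≤ ((g w).re + η) / c₀ := by
          rw [add_div]
          linarith
        rw [le_div_iff₀ hc₀] at h2
        linarith
      · rw [frontier_ball _ hR.ne'] at hw
        rw [hexp w, Real.exp_le_exp]
        have h1 := (abs_le.1 (hgφ w hw)).1
        have h3 : Real.log ‖F w‖ ≤ (η + (g w).re) / c₀ := by
          rw [le_div_iff₀ hc₀]
          linarith
        rw [add_div] at h3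
        linarith
    -- (2) positivity
    have hpos : ∀ w ∈ ball c R, 0 ≤ (g w + (η : ℂ)).re := by
      intro w hw
      rw [Complex.add_re, Complex.ofReal_re]
      exact (mul_nonneg hc₀.le (Real.log_nonneg (hF1 w))).trans (hup w (ball_subset_closedBall hw))
    -- (3) the maximum principle
    have hκ : 0 < η / R ^ 2 := by positivity
    have hA : 0 ≤ Real.exp (a + 2 * η) := (Real.exp_pos _).le
    have hgc : Continuous g := hg.continuous
    have hcx : Continuous (fun z : ℂ => ‖Complex.exp (g z)‖ * Real.exp (η / R ^ 2 * ‖z - c‖ ^ 2)) := by fun_prop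
    have hmp := max_principle (isCompact_closedBall c R) isOpen_ball ball_subset_closedBall
      (u := fun z => v z * (‖Complex.exp (g z)‖ * Real.exp (η / R ^ 2 * ‖z - c‖ ^ 2)))
      (ha_usc hv hcx.continuousOn (fun z _ => mul_pos (norm_pos_iff.2 (Complex.exp_ne_zero _)) (Real.exp_pos _)))
      (fun z hz hz0 => ?_) hA (fun z hz => ?_) z₀ (ball_subset_closedBall hz₀)
    · have h1 : Real.exp (-b) * (Real.exp ((g z₀).re) * 1) ≤ Real.exp (a + 2 * η) := by
        refine le_trans ?_ hmp
        refine mul_le_mul hb ?_ (by positivity) (hv0 z₀ (ball_subset_closedBall hz₀))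
        rw [Complex.norm_exp]
        exact mul_le_mul_of_nonneg_left (Real.one_le_exp (by positivity)) (Real.exp_pos _).le
      rw [mul_one, ← Real.exp_add, Real.exp_le_exp] at h1
      -- (5) Harnack twice
      have h2 := (ha_harnack hR (hg.add_const (η : ℂ)) hpos hz₀).1
      have hzb : z ∈ ball c R := by
        refine closedBall_subset_ball (by linarith) hz
      have h3 := (ha_harnack hR (hg.add_const (η : ℂ)) hpos hzb).2
      have hzn : ‖z - c‖ ≤ R / 2 := by
        rw [mem_closedBall, dist_eq_norm] at hz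
        exact hz
      rw [Complex.add_re, Complex.add_re, Complex.ofReal_re] at h2 h3
      have hu0 : 0 ≤ (g c).re + η := by
        have := hpos c (mem_ball_self hR)
        rwa [Complex.add_re, Complex.ofReal_re] at this
      have h4 : (g c).re + η ≤ q * (a + b + 3 * η) := by
        have h5 : (R - ‖z₀ - c‖) / (R + ‖z₀ - c‖) = q⁻¹ := by rw [hq, inv_div]
        rw [h5] at h2
        have h6 : (g c).re + η ≤ q * ((g z₀).re + η) := by
          rw [inv_mul_le_iff₀ hq0] at h2
          exact h2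
        refine h6.trans (mul_le_mul_of_nonneg_left (by linarith) hq0.le)
      have h5 : (R + ‖z - c‖) / (R - ‖z - c‖) ≤ 3 := by
        rw [div_le_iff₀ (by linarith)]
        linarith
      have h6 : (g z).re + η ≤ 3 * (q * (a + b + 3 * η)) :=
        h3.trans ((mul_le_mul_of_nonneg_right h5 hu0).trans (mul_le_mul_of_nonneg_left h4 (by norm_num)))
      have h7 := hup z (ball_subset_closedBall hzb)
      linarith
    · have hpos' : 0 < ‖Complex.exp (g z)‖ * Real.exp (η / R ^ 2 * ‖z - c‖ ^ 2) :=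
        mul_pos (norm_pos_iff.2 (Complex.exp_ne_zero _)) (Real.exp_pos _)
      have hm0 : 0 < v z := by
        by_contra h3
        exact absurd hz0 (not_lt.2 (mul_nonpos_of_nonpos_of_nonneg (not_lt.1 h3) hpos'.le))
      have hs1 := hs z hz hm0
      have hs2 : Sub (fun z => ‖Complex.exp (g z)‖) z 0 :=
        Sub.of_holo ((hg.analyticAt z).cexp) (Complex.exp_ne_zero _)
      have hs3 : Sub (fun w => Real.exp (η / R ^ 2 * ‖w - c‖ ^ 2)) z
          (η / R ^ 2 * ‖deriv (fun w : ℂ => w - c) z‖ ^ 2) := Sub.exp_sq (analyticAt_id.sub analyticAt_const) _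
      have hs4 := hs1.mul (hs2.mul hs3)
      refine ⟨_, ?_, hs4⟩
      have h3 : deriv (fun w : ℂ => w - c) z = 1 := by
        rw [deriv_sub_const]
        exact deriv_id z
      rw [h3, norm_one, one_pow, mul_one, zero_add, zero_add]
      exact hκ
    · have hz1 : z ∈ sphere c R := by
        rw [← closedBall_sdiff_ball]
        exact hz
      have hzn : ‖z - c‖ = R := by
        rw [mem_sphere, dist_eq_norm] at hz1
        exact hz1
      have h1 := (abs_le.1 (hgφ z hz1)).2
      have h2 := hva z hz.1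
      have h3 : η / R ^ 2 * ‖z - c‖ ^ 2 = η := by
        rw [hzn]
        field_simp
      rw [h3, Complex.norm_exp]
      calc v z * (Real.exp (g z).re * Real.exp η)
          ≤ (Real.exp a * ‖F z‖ ^ (-c₀)) * (Real.exp (g z).re * Real.exp η) :=
            mul_le_mul_of_nonneg_right h2 (by positivity)
        _ ≤ Real.exp (a + 2 * η) := by
            rw [Real.rpow_def_of_pos (hne z), ← Real.exp_add, ← Real.exp_add, ← Real.exp_add, Real.exp_le_exp]
            linarith
  intro z hz
  have h1 : ∀ η : ℝ, 0 < η → c₀ * Real.log ‖F z‖ ≤ 3 * q * (a + b) + (9 * q + 1) * η := by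
    intro η hη
    refine (key η hη z hz).trans (le_of_eq ?_)
    ring
  refine le_of_forall_pos_le_add fun ε hε => ?_
  have h2 := h1 (ε / (9 * q + 1)) (by positivity)
  rwa [mul_div_cancel₀ _ (by positivity : (9 * q + 1) ≠ 0)] at h2

end Pool.Agent.SDA
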