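import Pool.Agent.SDA.Defs
import Pool.Agent.H36.BP.SubB
import Pool.Agent.H36.BP.SubC

/-!
# SDA La: the functions `lam`

`sub_phi`: with `α w = ⟨x₀, F w⟩ / |x₀|²`, `|F w| ≥ |α w| |x₀|`, so `κ + lam (F w) ≥ Re t w`, `t` holomorphic, with equality at `z`, `t' = - ell`.
-/

set_option autoImplicit false

open Topology Filter Metric

noncomputable section

namespace Pool.Agent.SDA

open Pool.Agent.H36.BP (EN fs wd Sub OrdTwo)
open Pool.Agent.H14.PP (IsCone Tan)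

variable {N : ℕ} {ι : Type} [Fintype ι] {X K T : Set (EN N)} {P : ι → EN N → ℂ} {d : ι → ℕ}

omit [Fintype ι] in
/-- `|P i x| ≤ C |x| ^ d i` -/
theorem La.bound (h : AffOpen X K P d) (i : ι) : ∃ C : ℝ, 1 ≤ C ∧ ∀ x : EN N, x ≠ 0 → ‖P i x‖ ≤ C * ‖x‖ ^ d i := by
  have hc : Continuous (P i) := continuous_iff_continuousAt.2 fun x => (h.an i x).continuousAt
  obtain ⟨C, hC⟩ := (isCompact_sphere (0 : EN N) 1).bddAbove_image hc.norm.continuousOn
  refine ⟨max C 1, le_max_right _ _, fun x hx => ?_⟩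
  have h0 : ‖x‖ ≠ 0 := norm_ne_zero_iff.2 hx
  have h0c : (‖x‖ : ℂ) ≠ 0 := by exact_mod_cast h0
  have h1 : ((‖x‖ : ℂ))⁻¹ • x ∈ sphere (0 : EN N) 1 := by
    rw [mem_sphere_iff_norm, sub_zero, norm_smul, norm_inv, Complex.norm_real, norm_norm, inv_mul_cancel₀ h0]
  have h2 : ‖P i (((‖x‖ : ℂ))⁻¹ • x)‖ ≤ max C 1 := (hC ⟨_, h1, rfl⟩).trans (le_max_left _ _)
  have h3 : P i x = (‖x‖ : ℂ) ^ d i * P i (((‖x‖ : ℂ))⁻¹ • x) := by
    rw [← h.smul, smul_smul, mul_inv_cancel₀ h0c, one_smul]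
  rw [h3, norm_mul, norm_pow, Complex.norm_real, norm_norm, mul_comm]
  exact mul_le_mul_of_nonneg_right h2 (by positivity)

/-- MODULE La (1) -/
theorem exists_lam_bound (hX : IsCone X) (h : AffOpen X K P d) : ∃ κ : ℝ, 1 ≤ κ ∧ ∀ i, ∀ x ∈ K, 1 ≤ κ + lam P d i x := by
  choose C hC1 hC using La.bound h
  have hl : ∀ i, 0 ≤ Real.log (C i) := fun i => Real.log_nonneg (hC1 i)
  refine ⟨1 + ∑ i, Real.log (C i), by linarith [Finset.sum_nonneg (s := Finset.univ) fun i _ => hl i], fun i x hx => ?_⟩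
  have hx' := (h.mem x).1 hx
  have h0 : x ≠ 0 := fun h0 => hX.zero_notMem (h0 ▸ hx'.1)
  have hn : 0 < ‖x‖ := norm_pos_iff.2 h0
  have hP : 0 < ‖P i x‖ := norm_pos_iff.2 (hx'.2 i)
  have h1 : Real.log (C i) ≤ ∑ i, Real.log (C i) := Finset.single_le_sum (f := fun i => Real.log (C i)) (fun i _ => hl i) (Finset.mem_univ i)
  have h2 : Real.log ‖P i x‖ ≤ Real.log (C i) + d i * Real.log ‖x‖ := by
    have h3 := Real.log_le_log hP (hC i x h0)
    have hCp : (0 : ℝ) < C i := lt_of_lt_of_le one_pos (hC1 i)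
    rwa [Real.log_mul hCp.ne' (by positivity), Real.log_pow] at h3
  unfold lam
  linarith

/-- MODULE La (2) -/
theorem sum_lam (hX : IsCone X) (h : AffOpen X K P d) {x : EN N} (hx : x ∈ K) (h1 : ∏ i, P i x = 1) :
    ∑ i, lam P d i x = (∑ i, (d i : ℝ)) * Real.log ‖x‖ := by
  have hx' := (h.mem x).1 hx
  have h2 : ∑ i, Real.log ‖P i x‖ = 0 := by
    rw [← Real.log_prod fun i _ => norm_ne_zero_iff.2 (hx'.2 i), ← norm_prod, h1, norm_one, Real.log_one]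
  unfold lam
  rw [Finset.sum_sub_distrib, h2, sub_zero, Finset.sum_mul]

/-- the exponential of the square of the real part of a holomorphic function -/
theorem La.sub_exp_re {m : ℂ → ℂ} {z₀ : ℂ} (hm : AnalyticAt ℂ m z₀) :
    Sub (fun z => Real.exp ((m z).re ^ 2)) z₀ (1 / 2 * ‖deriv m z₀‖ ^ 2) := by
  have h1 := Pool.Agent.H36.BP.Sub.exp_sq hm (1 / 2)
  have h2 : AnalyticAt ℂ (fun z => Complex.exp (((1 / 2 : ℝ) : ℂ) * (m z) ^ 2)) z₀ := (analyticAt_const.mul (hm.pow 2)).cexp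
  have h3 := Pool.Agent.H36.BP.Sub.of_holo h2 (Complex.exp_ne_zero _)
  have h4 := h1.mul h3
  rw [add_zero] at h4
  refine h4.congr (Eventually.of_forall fun z => ?_)
  show Real.exp (1 / 2 * ‖m z‖ ^ 2) * ‖Complex.exp (((1 / 2 : ℝ) : ℂ) * (m z) ^ 2)‖ = Real.exp ((m z).re ^ 2)
  rw [Complex.norm_exp, ← Real.exp_add, Complex.sq_norm, Complex.normSq_apply]
  congr 1
  rw [Complex.re_ofReal_mul, sq, sq, Complex.mul_re]
  ring

/-- finite products -/
theorem La.sub_sum {κ : Type} (s : Finset κ) {u : κ → ℂ → ℝ} {c : κ → ℝ} {z₀ : ℂ} (h : ∀ i ∈ s, Sub (fun z => Real.exp (u i z)) z₀ (c i)) :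
    Sub (fun z => Real.exp (∑ i ∈ s, u i z)) z₀ (∑ i ∈ s, c i) := by
  classical
  induction s using Finset.induction_on with
  | empty =>
    have h1 := Pool.Agent.H36.BP.Sub.const one_pos z₀
    simpa using h1
  | insert a s ha ih =>
    have h1 := h a (Finset.mem_insert_self a s)
    have h2 := ih fun i hi => h i (Finset.mem_insert_of_mem hi)
    have h3 := h1.mul h2
    rw [Finset.sum_insert ha]
    refine h3.congr (Eventually.of_forall fun z => ?_)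
    show Real.exp (u a z) * Real.exp (∑ i ∈ s, u i z) = Real.exp (∑ i ∈ insert a s, u i z)
    rw [Finset.sum_insert ha, Real.exp_add]

omit [Fintype ι] in
/-- the linear term -/
theorem La.sub_lin (hX : IsCone X) (h : AffOpen X K P d) (i : ι) {κ R : ℝ} (hR : 0 ≤ R) {F : ℂ → EN N} {z : ℂ}
    (hF : AnalyticAt ℂ F z) (hFK : ∀ᶠ w in 𝓝 z, F w ∈ K) :
    Sub (fun w => Real.exp (R * (κ + lam P d i (F w)))) z (R * (d i : ℝ) * fs (F z) (deriv F z) ^ 2 / 2) := by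
  have hz := (h.mem _).1 hFK.self_of_nhds
  have h0 : F z ≠ 0 := fun h0 => hX.zero_notMem (h0 ▸ hz.1)
  have hP : AnalyticAt ℂ (fun w => P i (F w)) z := (h.an i (F z)).comp hF
  have h1 := Pool.Agent.H36.BP.Sub.norm_rpow hF h0 (R * d i)
  have h2 := (Pool.Agent.H36.BP.Sub.of_holo (hP.inv (hz.2 i)) (inv_ne_zero (hz.2 i))).rpow hR
  have h3 := (h1.mul h2).const_mul (Real.exp_pos (R * κ))
  rw [mul_zero, add_zero] at h3
  refine h3.congr ?_
  filter_upwards [hFK] with w hw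
  have hw' := (h.mem _).1 hw
  have hw0 : F w ≠ 0 := fun h0 => hX.zero_notMem (h0 ▸ hw'.1)
  have hn : 0 < ‖F w‖ := norm_pos_iff.2 hw0
  have hPn : 0 < ‖P i (F w)‖ := norm_pos_iff.2 (hw'.2 i)
  show Real.exp (R * κ) * (‖F w‖ ^ (R * (d i : ℝ)) * ‖(P i (F w))⁻¹‖ ^ R) = _
  rw [norm_inv, Real.inv_rpow hPn.le, ← Real.rpow_neg hPn.le, Real.rpow_def_of_pos hn, Real.rpow_def_of_pos hPn, ← Real.exp_add, ← Real.exp_add]
  congr 1
  unfold lam
  ring

omit [Fintype ι] in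
/-- the quadratic term -/
theorem La.sub_sq (hX : IsCone X) (h : AffOpen X K P d) (i : ι) {κ : ℝ} (hκ : ∀ x ∈ K, 1 ≤ κ + lam P d i x) {F : ℂ → EN N} {z : ℂ}
    (hF : AnalyticAt ℂ F z) (hFK : ∀ᶠ w in 𝓝 z, F w ∈ K) :
    Sub (fun w => Real.exp ((κ + lam P d i (F w)) ^ 2)) z (1 / 2 * ‖ell P d i (F z) (deriv F z)‖ ^ 2) := by
  have hzK := hFK.self_of_nhds
  have hz := (h.mem _).1 hzK
  have h0 : F z ≠ 0 := fun h0 => hX.zero_notMem (h0 ▸ hz.1)
  have hn : 0 < ‖F z‖ := norm_pos_iff.2 h0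
  have hnc : ((‖F z‖ : ℂ)) ^ 2 ≠ 0 := by
    have : (‖F z‖ : ℂ) ≠ 0 := by exact_mod_cast hn.ne'
    exact pow_ne_zero 2 this
  have hPan : AnalyticAt ℂ (fun w => P i (F w)) z := (h.an i (F z)).comp hF
  obtain ⟨α, hα⟩ : ∃ α : ℂ → ℂ, α = fun w => inner ℂ (F z) (F w) / (‖F z‖ : ℂ) ^ 2 := ⟨_, rfl⟩
  obtain ⟨β, hβ⟩ : ∃ β : ℂ → ℂ, β = fun w => P i (F w) / P i (F z) := ⟨_, rfl⟩
  have hαan : AnalyticAt ℂ α z := by
    rw [hα]
    exact (((innerSL ℂ (F z)).analyticAt (F z)).comp hF).div analyticAt_const hnc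
  have hβan : AnalyticAt ℂ β z := by
    rw [hβ]
    exact hPan.div analyticAt_const (hz.2 i)
  have hα1 : α z = 1 := by
    rw [hα]
    show inner ℂ (F z) (F z) / (‖F z‖ : ℂ) ^ 2 = 1
    rw [inner_self_eq_norm_sq_to_K]
    exact div_self hnc
  have hβ1 : β z = 1 := by
    rw [hβ]
    exact div_self (hz.2 i)
  have hαd : deriv α z = inner ℂ (F z) (deriv F z) / (‖F z‖ : ℂ) ^ 2 := by
    have h1 : HasDerivAt (fun w => (innerSL ℂ (F z)) (F w)) ((innerSL ℂ (F z)) (deriv F z)) z :=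
      (innerSL ℂ (F z)).hasFDerivAt.comp_hasDerivAt z hF.differentiableAt.hasDerivAt
    have h2 := h1.div_const ((‖F z‖ : ℂ) ^ 2)
    rw [hα]
    exact h2.deriv
  have hβd : deriv β z = fderiv ℂ (P i) (F z) (deriv F z) / P i (F z) := by
    have h1 : HasDerivAt (fun w => P i (F w)) (fderiv ℂ (P i) (F z) (deriv F z)) z :=
      (h.an i (F z)).differentiableAt.hasFDerivAt.comp_hasDerivAt z hF.differentiableAt.hasDerivAt
    have h2 := h1.div_const (P i (F z))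
    rw [hβ]
    exact h2.deriv
  have hsα : α z ∈ Complex.slitPlane := by rw [hα1]; exact Complex.one_mem_slitPlane
  have hsβ : β z ∈ Complex.slitPlane := by rw [hβ1]; exact Complex.one_mem_slitPlane
  obtain ⟨t, ht⟩ : ∃ t : ℂ → ℂ, t = fun w => ((κ + lam P d i (F z) : ℝ) : ℂ) + ((d i : ℂ) * Complex.log (α w) - Complex.log (β w)) := ⟨_, rfl⟩
  have htan : AnalyticAt ℂ t z := by
    rw [ht]
    exact analyticAt_const.add ((analyticAt_const.mul (hαan.clog hsα)).sub (hβan.clog hsβ))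
  have htd : deriv t z = - ell P d i (F z) (deriv F z) := by
    have h1 : HasDerivAt (fun w => Complex.log (α w)) (deriv α z / α z) z := hαan.differentiableAt.hasDerivAt.clog hsα
    have h2 : HasDerivAt (fun w => Complex.log (β w)) (deriv β z / β z) z := hβan.differentiableAt.hasDerivAt.clog hsβ
    have h3 := ((h1.const_mul (d i : ℂ)).sub h2).const_add (((κ + lam P d i (F z) : ℝ) : ℂ))
    have h4 : deriv t z = (d i : ℂ) * (deriv α z / α z) - deriv β z / β z := by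
      rw [ht]
      exact h3.deriv
    rw [h4, hα1, hβ1, div_one, div_one, hαd, hβd]
    unfold ell
    ring
  have htz : (t z).re = κ + lam P d i (F z) := by
    rw [ht]
    show (((κ + lam P d i (F z) : ℝ) : ℂ) + ((d i : ℂ) * Complex.log (α z) - Complex.log (β z))).re = _
    rw [hα1, hβ1, Complex.log_one, mul_zero, sub_zero, add_zero, Complex.ofReal_re]
  have hs := La.sub_exp_re htan
  rw [htd, norm_neg] at hs
  refine hs.mono ?_ ?_
  · show Real.exp ((t z).re ^ 2) = Real.exp ((κ + lam P d i (F z)) ^ 2)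
    rw [htz]
  have hpos : ∀ᶠ w in 𝓝 z, 0 < (t w).re := by
    have h1 : Tendsto (fun w => (t w).re) (𝓝 z) (𝓝 (t z).re) := (Complex.continuous_re.continuousAt.comp htan.continuousAt).tendsto
    have h2 : 0 < (t z).re := by
      rw [htz]
      linarith [hκ _ hzK]
    exact h1.eventually_const_lt h2
  have hαne : ∀ᶠ w in 𝓝 z, α w ≠ 0 := by
    have h1 := hαan.continuousAt.tendsto
    rw [hα1] at h1
    exact h1.eventually_ne one_ne_zero
  filter_upwards [hpos, hαne, hFK] with w hw1 hw2 hw3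
  have hw' := (h.mem _).1 hw3
  have hw0 : F w ≠ 0 := fun h0 => hX.zero_notMem (h0 ▸ hw'.1)
  have hnw : 0 < ‖F w‖ := norm_pos_iff.2 hw0
  have hPw : 0 < ‖P i (F w)‖ := norm_pos_iff.2 (hw'.2 i)
  have hPz : 0 < ‖P i (F z)‖ := norm_pos_iff.2 (hz.2 i)
  -- Cauchy-Schwarz
  have hcs : ‖α w‖ * ‖F z‖ ≤ ‖F w‖ := by
    rw [hα]
    show ‖inner ℂ (F z) (F w) / (‖F z‖ : ℂ) ^ 2‖ * ‖F z‖ ≤ ‖F w‖
    rw [norm_div, norm_pow, Complex.norm_real, norm_norm]
    have h1 : ‖(inner ℂ (F z) (F w) : ℂ)‖ ≤ ‖F z‖ * ‖F w‖ := norm_inner_le_norm _ _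
    have h2 : ‖(inner ℂ (F z) (F w) : ℂ)‖ / ‖F z‖ ^ 2 * ‖F z‖ = ‖(inner ℂ (F z) (F w) : ℂ)‖ / ‖F z‖ := by
      field_simp
    rw [h2, div_le_iff₀ hn]
    linarith
  have hαw : 0 < ‖α w‖ := norm_pos_iff.2 hw2
  have hlog : Real.log ‖α w‖ + Real.log ‖F z‖ ≤ Real.log ‖F w‖ := by
    rw [← Real.log_mul hαw.ne' hn.ne']
    exact Real.log_le_log (mul_pos hαw hn) hcs
  have hβw : Real.log ‖β w‖ = Real.log ‖P i (F w)‖ - Real.log ‖P i (F z)‖ := by
    rw [hβ]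
    show Real.log ‖P i (F w) / P i (F z)‖ = _
    rw [norm_div, Real.log_div hPw.ne' hPz.ne']
  have hre : (t w).re = κ + lam P d i (F z) + ((d i : ℝ) * Real.log ‖α w‖ - Real.log ‖β w‖) := by
    rw [ht]
    show (((κ + lam P d i (F z) : ℝ) : ℂ) + ((d i : ℂ) * Complex.log (α w) - Complex.log (β w))).re = _
    rw [Complex.add_re, Complex.ofReal_re, Complex.sub_re, Complex.log_re, ← Complex.ofReal_natCast, Complex.re_ofReal_mul, Complex.log_re]
  have hle : (t w).re ≤ κ + lam P d i (F w) := by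
    rw [hre, hβw]
    have h1 := mul_le_mul_of_nonneg_left hlog (Nat.cast_nonneg (α := ℝ) (d i))
    unfold lam
    linarith
  show Real.exp ((t w).re ^ 2) ≤ Real.exp ((κ + lam P d i (F w)) ^ 2)
  exact Real.exp_le_exp.2 (pow_le_pow_left₀ hw1.le hle 2)

/-- MODULE La (3): `Lap (lam ^ 2) ≥ 2 |grad lam| ^ 2`, `Lap lam = 2 d fs ^ 2` -/
theorem sub_phi (hX : IsCone X) (h : AffOpen X K P d) {κ R : ℝ} (hκ : ∀ i, ∀ x ∈ K, 1 ≤ κ + lam P d i x) (hR : 0 ≤ R) {F : ℂ → EN N} {z : ℂ}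
    (hF : AnalyticAt ℂ F z) (hFK : ∀ᶠ w in 𝓝 z, F w ∈ K) :
    Sub (fun w => Real.exp (∑ i, ((κ + lam P d i (F w)) ^ 2 + R * (κ + lam P d i (F w))))) z
      (1 / 2 * ∑ i, ‖ell P d i (F z) (deriv F z)‖ ^ 2 + R * (∑ i, (d i : ℝ)) * fs (F z) (deriv F z) ^ 2 / 2) := by
  have h1 : ∀ i ∈ (Finset.univ : Finset ι), Sub (fun w => Real.exp ((κ + lam P d i (F w)) ^ 2 + R * (κ + lam P d i (F w)))) z
      (1 / 2 * ‖ell P d i (F z) (deriv F z)‖ ^ 2 + R * (d i : ℝ) * fs (F z) (deriv F z) ^ 2 / 2) := by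
    intro i _
    refine ((La.sub_sq hX h i (hκ i) hF hFK).mul (La.sub_lin hX h i (κ := κ) hR hF hFK)).congr (Eventually.of_forall fun w => ?_)
    exact (Real.exp_add _ _).symm
  have h2 := La.sub_sum Finset.univ h1
  refine h2.anti (le_of_eq ?_)
  rw [Finset.sum_add_distrib, Finset.mul_sum, Finset.mul_sum, Finset.sum_mul, Finset.sum_div]

end Pool.Agent.SDA
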