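import Pool.Agent.SDA.Defs

/-!
# SDA Th: the part of the surface away from the curve

Where `rho ≥ δ`, the surface is compact and contained in `K`, the logarithmic length is at most a constant times the Fubini-Study length.
-/

set_option autoImplicit false

open Topology Filter Metric

noncomputable section

namespace Pool.Agent.SDA

open Pool.Agent.H36.BP (EN fs wd Sub OrdTwo)
open Pool.Agent.H14.PP (IsCone Tan)
open Pool.Agent.SY (Ent Energy)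

variable {N : ℕ} {ι : Type} [Fintype ι] {X K T : Set (EN N)} {P : ι → EN N → ℂ} {d : ι → ℕ} {rho : EN N → ℝ} {M : ℕ} {c₀ C : ℝ}
  {g : (ℂ → EN N) → ℂ → ℝ} {n : EN N → EN N → ℝ}

/-- the component of `v` orthogonal to `x` -/
def Th.pr (x v : EN N) : EN N := v - (inner ℂ x v / (‖x‖ : ℂ) ^ 2) • x

theorem Th.inner_pr {x : EN N} (hx : x ≠ 0) (v : EN N) : inner ℂ x (Th.pr x v) = 0 := by
  have h : ((‖x‖ : ℂ)) ^ 2 ≠ 0 := pow_ne_zero 2 (by simpa using hx)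
  rw [Th.pr, inner_sub_right, inner_smul_right, inner_self_eq_norm_sq_to_K]
  exact sub_eq_zero.2 (div_mul_cancel₀ _ h).symm

theorem Th.decomp (x v : EN N) (a : ℂ) : v - a • x = (inner ℂ x v / (‖x‖ : ℂ) ^ 2 - a) • x + Th.pr x v := by
  rw [Th.pr, sub_smul]
  abel

theorem Th.pyth {x : EN N} (hx : x ≠ 0) (v : EN N) (a : ℂ) :
    ‖v - a • x‖ ^ 2 = ‖inner ℂ x v / (‖x‖ : ℂ) ^ 2 - a‖ ^ 2 * ‖x‖ ^ 2 + ‖Th.pr x v‖ ^ 2 := by
  rw [Th.decomp x v a]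
  have h := norm_add_sq_eq_norm_sq_add_norm_sq_of_inner_eq_zero ((inner ℂ x v / (‖x‖ : ℂ) ^ 2 - a) • x) (Th.pr x v)
    (by rw [inner_smul_left, Th.inner_pr hx, mul_zero])
  rw [← sq, ← sq, ← sq, norm_smul, mul_pow] at h
  exact h

theorem Th.pr_le {x : EN N} (hx : x ≠ 0) (v : EN N) (a : ℂ) : ‖Th.pr x v‖ ≤ ‖v - a • x‖ := by
  refine le_of_sq_le_sq ?_ (norm_nonneg _)
  rw [Th.pyth hx v a]
  nlinarith [mul_nonneg (sq_nonneg ‖inner ℂ x v / (‖x‖ : ℂ) ^ 2 - a‖) (sq_nonneg ‖x‖)]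

theorem Th.fs_eq {x : EN N} (hx : x ≠ 0) (v : EN N) : fs x v = ‖Th.pr x v‖ / ‖x‖ := by
  have hx0 : 0 < ‖x‖ := norm_pos_iff.2 hx
  have h := Th.pyth hx v 0
  rw [zero_smul, sub_zero, sub_zero, norm_div, norm_pow, Complex.norm_real, norm_norm] at h
  have h2 : ‖x‖ ^ 2 * ‖v‖ ^ 2 - ‖inner ℂ x v‖ ^ 2 = (‖x‖ * ‖Th.pr x v‖) ^ 2 := by
    rw [h]
    field_simp
    ring
  rw [fs, wd, h2, Real.sqrt_sq (by positivity)]
  field_simp

/-- the part of the unit sphere where `rho ≥ δ` -/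
theorem Th.compact (S : Setup X K T P d rho M c₀ C g n) (δ : ℝ) : IsCompact {x : EN N | x ∈ X ∧ ‖x‖ = 1 ∧ δ ≤ rho x} := by
  have h1 : IsClosed (X ∩ sphere (0 : EN N) 1) := by
    have h : X ∩ sphere (0 : EN N) 1 = insert 0 X ∩ sphere (0 : EN N) 1 := by
      ext x
      constructor
      · rintro ⟨h1, h2⟩
        exact ⟨Set.mem_insert_of_mem _ h1, h2⟩
      · rintro ⟨h1, h2⟩
        rcases h1 with h1 | h1
        · rw [h1, mem_sphere_iff_norm, sub_zero, norm_zero] at h2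
          norm_num at h2
        · exact ⟨h1, h2⟩
    rw [h]
    exact S.cone.closed.inter isClosed_sphere
  have h2 : IsCompact (X ∩ sphere (0 : EN N) 1) := (isCompact_sphere (0 : EN N) 1).of_isClosed_subset h1 Set.inter_subset_right
  have h3 : IsClosed ((X ∩ sphere (0 : EN N) 1) ∩ rho ⁻¹' Set.Ici δ) :=
    (S.rhoc.mono Set.inter_subset_left).preimage_isClosed_of_isClosed h1 isClosed_Ici
  have h4 := h2.of_isClosed_subset h3 Set.inter_subset_left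
  convert h4 using 1
  ext x
  constructor
  · rintro ⟨a, b, c⟩
    exact ⟨⟨a, by rw [mem_sphere_iff_norm, sub_zero]; exact b⟩, c⟩
  · rintro ⟨⟨a, b⟩, c⟩
    exact ⟨a, by rw [mem_sphere_iff_norm, sub_zero] at b; exact b, c⟩

theorem Th.mem_K (S : Setup X K T P d rho M c₀ C g n) {δ : ℝ} (hδ : 0 < δ) {x : EN N} (hx : x ∈ X) (h : δ ≤ rho x) : x ∈ K := by
  by_contra hK
  have h1 := S.KT x hx hK
  have h2 := (S.rhoT x hx).2 h1
  linarith

/-- the unit vector of `x` -/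
theorem Th.unit (S : Setup X K T P d rho M c₀ C g n) {δ : ℝ} {x : EN N} (hx : x ∈ X) (h : δ ≤ rho x) :
    x ≠ 0 ∧ ((‖x‖ : ℂ))⁻¹ • x ∈ {x : EN N | x ∈ X ∧ ‖x‖ = 1 ∧ δ ≤ rho x} := by
  have h0 : x ≠ 0 := fun h0 => S.cone.zero_notMem (h0 ▸ hx)
  have h1 : ((‖x‖ : ℂ))⁻¹ ≠ 0 := inv_ne_zero (by simpa using h0)
  refine ⟨h0, S.cone.smul_mem x hx _ h1, ?_, ?_⟩
  · rw [norm_smul, norm_inv, Complex.norm_real, norm_norm, inv_mul_cancel₀ (norm_ne_zero_iff.2 h0)]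
  · rw [S.rhos x hx _ h1]
    exact h

omit [Fintype ι] in
/-- the derivative of a homogeneous function -/
theorem Th.euler (h : AffOpen X K P d) (i : ι) (x : EN N) : fderiv ℂ (P i) x x = (d i : ℂ) * P i x := by
  have h1 : HasDerivAt (fun t : ℂ => P i (t • x)) (fderiv ℂ (P i) ((1 : ℂ) • x) ((1 : ℂ) • x)) 1 := by
    have h2 : HasFDerivAt (P i) (fderiv ℂ (P i) ((1 : ℂ) • x)) ((1 : ℂ) • x) := (h.an i _).differentiableAt.hasFDerivAt
    have h3 : HasDerivAt (fun t : ℂ => t • x) ((1 : ℂ) • x) 1 := (hasDerivAt_id (1 : ℂ)).smul_const x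
    exact h2.comp_hasDerivAt (1 : ℂ) h3
  have h4 : HasDerivAt (fun t : ℂ => P i (t • x)) ((d i : ℂ) * P i x) 1 := by
    have h5 : HasDerivAt (fun t : ℂ => t ^ d i * P i x) (((d i : ℂ) * (1 : ℂ) ^ (d i - 1)) * P i x) 1 := (hasDerivAt_pow (d i) (1 : ℂ)).mul_const (P i x)
    rw [one_pow, mul_one] at h5
    exact h5.congr_of_eventuallyEq (Eventually.of_forall fun t => h.smul i t x)
  have h6 := h1.unique h4
  rwa [one_smul] at h6

omit [Fintype ι] in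
theorem Th.fderiv_smul (h : AffOpen X K P d) (i : ι) {c : ℂ} (x v : EN N) :
    fderiv ℂ (P i) (c • x) (c • v) = c ^ d i * fderiv ℂ (P i) x v := by
  have h1 : HasFDerivAt (fun y : EN N => P i (c • y)) ((fderiv ℂ (P i) (c • x)).comp (c • ContinuousLinearMap.id ℂ (EN N))) x := by
    have h2 : HasFDerivAt (P i) (fderiv ℂ (P i) (c • x)) (c • x) := (h.an i _).differentiableAt.hasFDerivAt
    exact h2.comp x ((hasFDerivAt_id x).const_smul c)
  have h3 : HasFDerivAt (fun y : EN N => P i (c • y)) (c ^ d i • fderiv ℂ (P i) x) x := by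
    have h4 : HasFDerivAt (P i) (fderiv ℂ (P i) x) x := (h.an i x).differentiableAt.hasFDerivAt
    exact (h4.const_smul (c ^ d i)).congr_of_eventuallyEq (Eventually.of_forall fun y => h.smul i c y)
  have h5 := h1.unique h3
  have h6 := congrArg (fun L : EN N →L[ℂ] ℂ => L v) h5
  simpa using h6

/-- the logarithmic length where `rho ≥ δ` -/
theorem Th.lg_le (S : Setup X K T P d rho M c₀ C g n) {δ : ℝ} (hδ : 0 < δ) :
    ∃ B : ℝ, 0 ≤ B ∧ ∀ x ∈ X, δ ≤ rho x → ∀ v, Lg P d x v ≤ B * fs x v := by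
  have hc := Th.compact S δ
  have hb : ∀ i, ∃ b : ℝ, ∀ x ∈ {x : EN N | x ∈ X ∧ ‖x‖ = 1 ∧ δ ≤ rho x}, ‖‖fderiv ℂ (P i) x‖ / ‖P i x‖‖ ≤ b := fun i => by
    refine hc.exists_bound_of_continuousOn ?_
    have h1 : Continuous (P i) := continuous_iff_continuousAt.2 fun x => (S.aff.an i x).continuousAt
    have h2 : Continuous (fderiv ℂ (P i)) := continuous_iff_continuousAt.2 fun x => (S.aff.an i x).fderiv.continuousAt
    refine (h2.norm.continuousOn).div h1.norm.continuousOn fun x hx => ?_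
    have h3 := (S.aff.mem x).1 (Th.mem_K S hδ hx.1 hx.2.2)
    exact norm_ne_zero_iff.2 (h3.2 i)
  choose b hb using hb
  refine ⟨1 + ∑ i, max (b i) 0, add_nonneg one_pos.le (Finset.sum_nonneg fun i _ => le_max_right _ _), fun x hx h v => ?_⟩
  obtain ⟨h0, h1⟩ := Th.unit S hx h
  have hx0 : 0 < ‖x‖ := norm_pos_iff.2 h0
  have hc0 : (‖x‖ : ℂ) ≠ 0 := by simpa using h0
  rw [Lg, add_mul, one_mul, Finset.sum_mul]
  refine add_le_add le_rfl (Finset.sum_le_sum fun i _ => ?_)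
  have hP : P i x ≠ 0 := ((S.aff.mem x).1 (Th.mem_K S hδ hx h)).2 i
  -- the term is the derivative along the orthogonal component
  have e1 : fderiv ℂ (P i) x v / P i x - (d i : ℂ) * (inner ℂ x v / (‖x‖ : ℂ) ^ 2) = fderiv ℂ (P i) x (Th.pr x v) / P i x := by
    rw [Th.pr, map_sub, map_smul, Th.euler S.aff, smul_eq_mul]
    field_simp
  have e2 : fderiv ℂ (P i) x (Th.pr x v) = (‖x‖ : ℂ) ^ d i * fderiv ℂ (P i) (((‖x‖ : ℂ))⁻¹ • x) (((‖x‖ : ℂ))⁻¹ • Th.pr x v) := by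
    rw [← Th.fderiv_smul S.aff i, smul_smul, smul_smul, mul_inv_cancel₀ hc0, one_smul, one_smul]
  have e3 : P i x = (‖x‖ : ℂ) ^ d i * P i (((‖x‖ : ℂ))⁻¹ • x) := by
    rw [← S.aff.smul i, smul_smul, mul_inv_cancel₀ hc0, one_smul]
  have e4 : P i (((‖x‖ : ℂ))⁻¹ • x) ≠ 0 := fun h => hP (by rw [e3, h, mul_zero])
  rw [e1, e2, e3, mul_div_mul_left _ _ (pow_ne_zero _ hc0), norm_div, Th.fs_eq h0]
  have h2 := hb i _ h1
  rw [norm_div, norm_norm, norm_norm] at h2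
  have h3 := (fderiv ℂ (P i) (((‖x‖ : ℂ))⁻¹ • x)).le_opNorm (((‖x‖ : ℂ))⁻¹ • Th.pr x v)
  have h4 : ‖((‖x‖ : ℂ))⁻¹ • Th.pr x v‖ = ‖Th.pr x v‖ / ‖x‖ := by
    rw [norm_smul, norm_inv, Complex.norm_real, norm_norm, div_eq_inv_mul]
  rw [h4] at h3
  have h5 : 0 ≤ ‖Th.pr x v‖ / ‖x‖ := by positivity
  have h6 : 0 < ‖P i (((‖x‖ : ℂ))⁻¹ • x)‖ := norm_pos_iff.2 e4
  calc ‖fderiv ℂ (P i) (((‖x‖ : ℂ))⁻¹ • x) (((‖x‖ : ℂ))⁻¹ • Th.pr x v)‖ / ‖P i (((‖x‖ : ℂ))⁻¹ • x)‖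
      ≤ (‖fderiv ℂ (P i) (((‖x‖ : ℂ))⁻¹ • x)‖ * (‖Th.pr x v‖ / ‖x‖)) / ‖P i (((‖x‖ : ℂ))⁻¹ • x)‖ := by gcongr
    _ = ‖fderiv ℂ (P i) (((‖x‖ : ℂ))⁻¹ • x)‖ / ‖P i (((‖x‖ : ℂ))⁻¹ • x)‖ * (‖Th.pr x v‖ / ‖x‖) := by ring
    _ ≤ max (b i) 0 * (‖Th.pr x v‖ / ‖x‖) := mul_le_mul_of_nonneg_right (h2.trans (le_max_left _ _)) h5

/-- the normalised vectors where `rho ≥ δ` -/
theorem Th.log_le (S : Setup X K T P d rho M c₀ C g n) {δ : ℝ} (hδ : 0 < δ) :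
    ∃ C₂ : ℝ, ∀ x ∈ K, ∏ i, P i x = 1 → δ ≤ rho x → Real.log ‖x‖ ≤ C₂ := by
  have hc := Th.compact S δ
  have h1 : ∀ i, Continuous (P i) := fun i => continuous_iff_continuousAt.2 fun x => (S.aff.an i x).continuousAt
  have h2 : Continuous fun x => ‖∏ i, P i x‖ := (continuous_finsetProd _ fun i _ => h1 i).norm
  obtain ⟨c, hc0, hcb⟩ := hc.exists_forall_le' (a := 0) h2.continuousOn (fun x hx => by
    have h3 := (S.aff.mem x).1 (Th.mem_K S hδ hx.1 hx.2.2)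
    exact norm_pos_iff.2 (Finset.prod_ne_zero_iff.2 fun i _ => h3.2 i))
  refine ⟨|Real.log c|, fun x hx hP h => ?_⟩
  have hX : x ∈ X := ((S.aff.mem x).1 hx).1
  obtain ⟨h0, h3⟩ := Th.unit S hX h
  have hx0 : 0 < ‖x‖ := norm_pos_iff.2 h0
  have h4 := hcb _ h3
  simp only [S.aff.smul] at h4
  rw [Finset.prod_mul_distrib, hP, mul_one, Finset.prod_pow_eq_pow_sum, norm_pow, norm_inv, Complex.norm_real, norm_norm] at h4
  by_cases hl : Real.log ‖x‖ ≤ 0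
  · exact hl.trans (abs_nonneg _)
  · rw [not_le] at hl
    have h5 := Real.log_le_log hc0 h4
    rw [Real.log_pow, Real.log_inv] at h5
    have h6 : (1 : ℝ) ≤ ((∑ i, d i : ℕ) : ℝ) := by
      obtain ⟨i⟩ := S.aff.ne
      have h7 := Finset.single_le_sum (f := d) (fun j _ => Nat.zero_le _) (Finset.mem_univ i)
      exact_mod_cast (S.aff.pos i).trans h7
    have h7 := neg_abs_le (Real.log c)
    nlinarith

/-- MODULE Th: where `rho ≥ δ`: `F z` is in a compact part of the surface, `Lg ≤ C fs` there, so `fs ≥ c` by `growth`, and `lower` -/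
theorem thick (S : Setup X K T P d rho M c₀ C g n) {δ : ℝ} (hδ : 0 < δ) :
    ∃ d₁ C₂ : ℝ, 0 < d₁ ∧ (∀ F, Ent K T F → ∀ z, δ ≤ rho (F z) → 1 ≤ n (F z) (deriv F z) → d₁ ≤ g F z) ∧
      ∀ x ∈ K, ∏ i, P i x = 1 → δ ≤ rho x → Real.log ‖x‖ ≤ C₂ := by
  obtain ⟨B, hB, hL⟩ := Th.lg_le S hδ
  obtain ⟨C₂, hC₂⟩ := Th.log_le S hδ
  obtain ⟨C₁, hC₁, hG⟩ := S.gauge.growth 1 one_pos
  have hC := S.en.C_pos
  have hE : 0 < B + C₁ + 1 := by linarith
  refine ⟨δ ^ M / (C * (B + C₁ + 1)), C₂, div_pos (pow_pos hδ M) (mul_pos hC hE), fun F hF z hz hn => ?_, hC₂⟩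
  have hK := hF.mem z
  have hX : F z ∈ X := ((S.aff.mem _).1 hK).1
  obtain ⟨h0, -⟩ := Th.unit S hX hz
  have hx0 : 0 < ‖F z‖ := norm_pos_iff.2 h0
  -- the derivative is a tangent vector
  have hT : Tan X (F z) (deriv F z) := by
    refine ⟨fun w => F (z + w), ⟨?_, Eventually.of_forall fun w => ((S.aff.mem _).1 (hF.mem _)).1⟩, by simp, ?_⟩
    · have h1 : Differentiable ℂ fun w => F (z + w) := hF.diff.comp ((differentiable_const z).add differentiable_id)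
      exact h1.analyticAt 0
    · rw [deriv_comp_const_add, add_zero]
  have h1 := hG _ hK _ hT
  have h2 := hL _ hX hz (deriv F z)
  have h3 : 1 ≤ (B + C₁ + 1) * fs (F z) (deriv F z) := by
    have h4 : 0 ≤ fs (F z) (deriv F z) := by
      rw [Th.fs_eq h0]
      positivity
    nlinarith
  obtain ⟨a, ha⟩ := S.en.lower F hF z
  have h4 := Th.pr_le h0 (deriv F z) a
  have h5 : δ ^ M ≤ rho (F z) ^ M := pow_le_pow_left₀ hδ.le hz M
  have h6 : δ ^ M * ‖Th.pr (F z) (deriv F z)‖ ≤ C * ‖F z‖ * g F z :=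
    (mul_le_mul h5 h4 (norm_nonneg _) (pow_nonneg (hδ.le.trans hz) M)).trans ha
  have h7 : δ ^ M * fs (F z) (deriv F z) ≤ C * g F z := by
    rw [Th.fs_eq h0, ← mul_div_assoc, div_le_iff₀ hx0]
    calc δ ^ M * ‖Th.pr (F z) (deriv F z)‖ ≤ C * ‖F z‖ * g F z := h6
      _ = C * g F z * ‖F z‖ := by ring
  rw [div_le_iff₀ (mul_pos hC hE)]
  have h8 : 0 < δ ^ M := pow_pos hδ M
  calc δ ^ M = δ ^ M * 1 := (mul_one _).symm
    _ ≤ δ ^ M * ((B + C₁ + 1) * fs (F z) (deriv F z)) := mul_le_mul_of_nonneg_left h3 h8.le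
    _ = (B + C₁ + 1) * (δ ^ M * fs (F z) (deriv F z)) := by ring
    _ ≤ (B + C₁ + 1) * (C * g F z) := mul_le_mul_of_nonneg_left h7 hE.le
    _ = g F z * (C * (B + C₁ + 1)) := by ring

end Pool.Agent.SDA
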