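import Pool.Agent.SDA.Defs
import Pool.Agent.H13.LU.Logs

/-!
# SDA Nn: the normalised lift, the length along curves
-/

set_option autoImplicit false

open Topology Filter Metric

noncomputable section

namespace Pool.Agent.SDA

open Pool.Agent.H36.BP (EN fs wd Sub OrdTwo)
open Pool.Agent.H14.PP (IsCone Tan CurveAt)
open Pool.Agent.SY (Ent Energy)

variable {N : ℕ} {ι : Type} [Fintype ι] {X K T : Set (EN N)} {P : ι → EN N → ℂ} {d : ι → ℕ}
  {n : EN N → EN N → ℝ}

/-- the derivative of an entire curve is a tangent vector -/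
private theorem Nn_tan {F : ℂ → EN N} (hF : Differentiable ℂ F) (hX : ∀ z, F z ∈ X) (z : ℂ) : Tan X (F z) (deriv F z) := by
  refine ⟨fun w => F (w + z), ⟨?_, Filter.Eventually.of_forall fun w => hX _⟩, by simp, ?_⟩
  · exact (hF.comp (differentiable_id.add_const z)).analyticAt 0
  · rw [deriv_comp_add_const]
    simp

/-- MODULE Nn (1): the normalised lift.  `∏ P i (F z)` is entire without zeros and homogeneous of degree `∑ d i ≥ 1` in `F`. -/
theorem exists_norm (h : AffOpen X K P d) {F : ℂ → EN N} (hF : Differentiable ℂ F) (hK : ∀ z, F z ∈ K) :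
    ∃ u : ℂ → ℂ, Differentiable ℂ u ∧ (∀ z, u z ≠ 0) ∧ Nm P (fun z => u z • F z) := by
  have hG : Differentiable ℂ fun z => ∏ i, P i (F z) := by
    have h1 : ∀ i ∈ (Finset.univ : Finset ι), Differentiable ℂ fun z => P i (F z) := fun i _ z =>
      ((h.an i (F z)).differentiableAt).comp z (hF z)
    exact Differentiable.fun_finsetProd h1
  have hG0 : ∀ z, ∏ i, P i (F z) ≠ 0 := fun z => Finset.prod_ne_zero_iff.2 fun i _ => ((h.mem (F z)).1 (hK z)).2 i
  obtain ⟨L, hL, hLe⟩ := Pool.Agent.H13.LU.exists_log isOpen_univ convex_univ Set.univ_nonempty hG.differentiableOn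
    fun w _ => hG0 w
  have hLd : Differentiable ℂ L := differentiableOn_univ.1 hL
  have hne : Nonempty ι := h.ne
  have hD : 0 < ∑ i, d i := Finset.sum_pos (fun i _ => h.pos i) Finset.univ_nonempty
  have hD0 : ((∑ i, d i : ℕ) : ℂ) ≠ 0 := Nat.cast_ne_zero.2 hD.ne'
  refine ⟨fun z => Complex.exp (-(L z) / ((∑ i, d i : ℕ) : ℂ)), (hLd.neg.div_const _).cexp, fun z => Complex.exp_ne_zero _, fun z => ?_⟩
  have h1 : ∀ i, P i (Complex.exp (-(L z) / ((∑ i, d i : ℕ) : ℂ)) • F z) =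
      Complex.exp (-(L z) / ((∑ i, d i : ℕ) : ℂ)) ^ d i * P i (F z) := fun i => h.smul i _ _
  change ∏ i, P i (Complex.exp (-(L z) / ((∑ i, d i : ℕ) : ℂ)) • F z) = 1
  rw [Finset.prod_congr rfl fun i _ => h1 i, Finset.prod_mul_distrib, Finset.prod_pow_eq_pow_sum, ← Complex.exp_nat_mul,
    ← hLe z (Set.mem_univ z), ← Complex.exp_add]
  have h2 : ((∑ i, d i : ℕ) : ℂ) * (-(L z) / ((∑ i, d i : ℕ) : ℂ)) + L z = 0 := by
    rw [mul_div_cancel₀ _ hD0]
    ring
  rw [h2, Complex.exp_zero]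

/-- MODULE Nn (2): the length does not depend on the lift -/
theorem n_unit (hX : IsCone X) (h : AffOpen X K P d) (hn : Gauge X K P d n) {F : ℂ → EN N} (hF : Differentiable ℂ F) (hK : ∀ z, F z ∈ K) {u : ℂ → ℂ}
    (hu : Differentiable ℂ u) (h0 : ∀ z, u z ≠ 0) (z : ℂ) :
    n (u z • F z) (deriv (fun w => u w • F w) z) = n (F z) (deriv F z) := by
  have hd : deriv (fun w => u w • F w) z = u z • deriv F z + deriv u z • F z :=
    ((hu z).hasDerivAt.smul (hF z).hasDerivAt).deriv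
  rw [hd]
  exact hn.inv (F z) (hK z) (deriv F z) (Nn_tan hF (fun w => ((h.mem _).1 (hK w)).1) z) (u z) (deriv u z) (h0 z)

/-- MODULE Nn (3): affine changes of the parameter -/
theorem n_aff (hn : Gauge X K P d n) (hKX : K ⊆ X) {F : ℂ → EN N} (hF : Differentiable ℂ F) (hK : ∀ z, F z ∈ K) (a b z : ℂ) :
    n (F (a * z + b)) (deriv (fun w => F (a * w + b)) z) = ‖a‖ * n (F (a * z + b)) (deriv F (a * z + b)) := by
  have h1 : HasDerivAt (fun w : ℂ => a * w + b) a z := by
    have h2 := ((hasDerivAt_id z).const_mul a).add_const b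
    rw [mul_one] at h2
    exact h2
  have hd : deriv (fun w => F (a * w + b)) z = a • deriv F (a * z + b) :=
    (HasDerivAt.scomp z (hF (a * z + b)).hasDerivAt h1).deriv
  rw [hd]
  exact hn.hom _ (hK _) _ (Nn_tan hF (fun w => hKX (hK w)) _) a

/-- MODULE Nn (4): normalised vectors are bounded below (`|P i x| ≤ C |x| ^ d i` by compactness of the sphere) -/
theorem norm_lower (h : AffOpen X K P d) : ∃ c : ℝ, 0 < c ∧ c ≤ 1 ∧ ∀ x : EN N, ∏ i, P i x = 1 → c ≤ ‖x‖ := by
  have hc : Continuous fun x : EN N => ∏ i, P i x :=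
    continuous_finsetProd _ fun i _ => continuous_iff_continuousAt.2 fun x => (h.an i x).continuousAt
  have h0 : ∏ i, P i (0 : EN N) = 0 := by
    obtain ⟨i⟩ := h.ne
    refine Finset.prod_eq_zero (Finset.mem_univ i) ?_
    have h1 := h.smul i 0 (0 : EN N)
    rw [smul_zero, zero_pow (Nat.one_le_iff_ne_zero.1 (h.pos i)), zero_mul] at h1
    exact h1
  have h1 : ∀ᶠ x in 𝓝 (0 : EN N), ∏ i, P i x ≠ 1 := by
    have h2 : Tendsto (fun x : EN N => ∏ i, P i x) (𝓝 0) (𝓝 (∏ i, P i (0 : EN N))) := hc.continuousAt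
    rw [h0] at h2
    exact h2.eventually_ne zero_ne_one
  obtain ⟨r, hr, hb⟩ := Metric.eventually_nhds_iff.1 h1
  refine ⟨min r 1, lt_min hr one_pos, min_le_right _ _, fun x hx => ?_⟩
  by_contra hcon
  have h3 : ‖x‖ < r := (not_le.1 hcon).trans_le (min_le_left _ _)
  exact hb (by rwa [dist_zero_right]) hx

/-- MODULE Nn (5): continuity of the length along converging curves in `K` -/
theorem n_tendsto (hn : Gauge X K P d n) (hKX : K ⊆ X) {l : Filter ℕ} {F : ℕ → ℂ → EN N} {H : ℂ → EN N}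
    (hF : ∀ᶠ k in l, Differentiable ℂ (F k) ∧ ∀ z, F k z ∈ K) (hH : Differentiable ℂ H) (hHK : ∀ z, H z ∈ K)
    (hc : TendstoLocallyUniformlyOn F H l Set.univ) (z : ℂ) :
    Tendsto (fun k => n (F k z) (deriv (F k) z)) l (𝓝 (n (H z) (deriv H z))) := by
  have h1 : Tendsto (fun k => F k z) l (𝓝 (H z)) := hc.tendsto_at (Set.mem_univ z)
  have h2 : TendstoLocallyUniformlyOn (deriv ∘ F) (deriv H) l Set.univ :=
    hc.deriv (hF.mono fun k hk => hk.1.differentiableOn) isOpen_univ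
  have h3 : Tendsto (fun k => deriv (F k) z) l (𝓝 (deriv H z)) := h2.tendsto_at (Set.mem_univ z)
  have h4 := hn.cont (H z, deriv H z) ⟨hHK z, Nn_tan hH (fun w => hKX (hHK w)) z⟩
  have h5 : Tendsto (fun k => (F k z, deriv (F k) z)) l
      (𝓝[{p : EN N × EN N | p.1 ∈ K ∧ Tan X p.1 p.2}] (H z, deriv H z)) := by
    refine tendsto_nhdsWithin_iff.2 ⟨h1.prodMk_nhds h3, ?_⟩
    filter_upwards [hF] with k hk
    exact ⟨hk.2 z, Nn_tan hk.1 (fun w => hKX (hk.2 w)) z⟩
  exact h4.tendsto.comp h5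

end Pool.Agent.SDA
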