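import Pool.Agent.SDA.Defs

/-!
# SDA Q3b: sums of roots of absolute values of polynomials are constant or tame
-/

set_option autoImplicit false

open Topology Filter Metric

noncomputable section

namespace Pool.Agent.SDA

private theorem ne_zero_ev : ∀ᶠ z : ℂ in cocompact ℂ, z ≠ 0 := by
  have h := (tendsto_norm_cocompact_atTop (E := ℂ)).eventually (eventually_gt_atTop 0)
  filter_upwards [h] with z hz
  exact norm_pos_iff.1 hz

private theorem tendsto_lead (p : Polynomial ℂ) :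
    Tendsto (fun z : ℂ => ‖p.eval z‖ / ‖z‖ ^ p.natDegree) (cocompact ℂ) (𝓝 ‖p.leadingCoeff‖) := by
  have h1 : Tendsto (fun z : ℂ => z⁻¹) (cocompact ℂ) (𝓝 0) := by
    rw [← Metric.cobounded_eq_cocompact]
    exact tendsto_inv₀_cobounded
  have h2 : Tendsto (fun z : ℂ => ‖(p.reverse).eval z⁻¹‖) (cocompact ℂ) (𝓝 ‖(p.reverse).eval 0‖) :=
    ((p.reverse.continuous.tendsto 0).comp h1).norm
  rw [← Polynomial.coeff_zero_eq_eval_zero, Polynomial.coeff_zero_reverse] at h2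
  refine h2.congr' ?_
  filter_upwards [ne_zero_ev] with z hz
  have hpos : (0 : ℝ) < ‖z‖ ^ p.natDegree := pow_pos (norm_pos_iff.2 hz) _
  rw [eq_div_iff hpos.ne', ← norm_pow, ← norm_mul]
  congr 1
  have := invertibleOfNonzero hz
  have h3 := Polynomial.eval₂_reverse_mul_pow (RingHom.id ℂ) z p
  rw [invOf_eq_inv] at h3
  simpa [Polynomial.eval₂_eq_eval_map] using h3

/-- one summand, divided by a power of `|z|` -/
private theorem tendsto_term (p : Polynomial ℂ) {m : ℕ} {κ : ℝ} (hκ : (p.natDegree : ℝ) * (m : ℝ)⁻¹ ≤ κ) :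
    ∃ L : ℝ, 0 ≤ L ∧ ((p.natDegree : ℝ) * (m : ℝ)⁻¹ = κ → p ≠ 0 → 0 < L) ∧
      Tendsto (fun z : ℂ => ‖p.eval z‖ ^ ((m : ℝ)⁻¹) / ‖z‖ ^ κ) (cocompact ℂ) (𝓝 L) := by
  have h1 : Tendsto (fun z : ℂ => (‖p.eval z‖ / ‖z‖ ^ p.natDegree) ^ ((m : ℝ)⁻¹)) (cocompact ℂ) (𝓝 (‖p.leadingCoeff‖ ^ ((m : ℝ)⁻¹))) :=
    (tendsto_lead p).rpow_const (Or.inr (by positivity))
  have e : ∀ᶠ z : ℂ in cocompact ℂ, (‖p.eval z‖ / ‖z‖ ^ p.natDegree) ^ ((m : ℝ)⁻¹) * ‖z‖ ^ ((p.natDegree : ℝ) * (m : ℝ)⁻¹ - κ) =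
      ‖p.eval z‖ ^ ((m : ℝ)⁻¹) / ‖z‖ ^ κ := by
    filter_upwards [ne_zero_ev] with z hz
    have hz' : (0 : ℝ) < ‖z‖ := norm_pos_iff.2 hz
    rw [Real.div_rpow (norm_nonneg _) (by positivity), ← Real.rpow_natCast, ← Real.rpow_mul hz'.le, Real.rpow_sub hz']
    have h2 : (0 : ℝ) < ‖z‖ ^ ((p.natDegree : ℝ) * (m : ℝ)⁻¹) := Real.rpow_pos_of_pos hz' _
    field_simp
  rcases hκ.eq_or_lt with h | h
  · refine ⟨‖p.leadingCoeff‖ ^ ((m : ℝ)⁻¹), by positivity, fun _ hp => ?_, ?_⟩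
    · exact Real.rpow_pos_of_pos (norm_pos_iff.2 (Polynomial.leadingCoeff_ne_zero.2 hp)) _
    · refine h1.congr' ?_
      filter_upwards [e] with z hz
      rw [← hz, h, sub_self, Real.rpow_zero, mul_one]
  · refine ⟨0, le_rfl, fun h' => absurd h' h.ne, ?_⟩
    have h2 : Tendsto (fun z : ℂ => ‖z‖ ^ ((p.natDegree : ℝ) * (m : ℝ)⁻¹ - κ)) (cocompact ℂ) (𝓝 0) := by
      have h3 := (tendsto_rpow_neg_atTop (y := κ - (p.natDegree : ℝ) * (m : ℝ)⁻¹) (by linarith)).comp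
        (tendsto_norm_cocompact_atTop (E := ℂ))
      refine h3.congr fun z => ?_
      simp only [Function.comp_apply, neg_sub]
    have h4 := h1.mul h2
    rw [mul_zero] at h4
    exact h4.congr' e

private theorem eval_le (p : Polynomial ℂ) {K : ℕ} (hK : p.natDegree ≤ K) (z : ℂ) :
    ‖p.eval z‖ ≤ (∑ i ∈ Finset.range (p.natDegree + 1), ‖p.coeff i‖) * (1 + ‖z‖) ^ K := by
  rw [Polynomial.eval_eq_sum_range, Finset.sum_mul]
  refine (norm_sum_le _ _).trans (Finset.sum_le_sum fun i hi => ?_)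
  rw [norm_mul, norm_pow]
  refine mul_le_mul_of_nonneg_left ?_ (norm_nonneg _)
  have h1 : ‖z‖ ^ i ≤ (1 + ‖z‖) ^ i := pow_le_pow_left₀ (norm_nonneg _) (by linarith) _
  have h2 : (1 + ‖z‖) ^ i ≤ (1 + ‖z‖) ^ K :=
    pow_le_pow_right₀ (by linarith [norm_nonneg z]) ((Nat.lt_succ_iff.1 (Finset.mem_range.1 hi)).trans hK)
  exact h1.trans h2

private theorem rpow_inv_le {x : ℝ} (hx : 0 ≤ x) {m : ℕ} (hm : 1 ≤ m) : x ^ ((m : ℝ)⁻¹) ≤ 1 + x := by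
  have hm' : (1 : ℝ) ≤ m := by exact_mod_cast hm
  have h1 : (m : ℝ)⁻¹ ≤ 1 := inv_le_one_of_one_le₀ hm'
  have h0 : 0 ≤ (m : ℝ)⁻¹ := by positivity
  rcases le_total x 1 with h | h
  · have := Real.rpow_le_one hx h h0
    linarith
  · have := Real.rpow_le_rpow_of_exponent_le h h1
    rw [Real.rpow_one] at this
    linarith

/-- the ratio -/
private theorem tame_of_asymp {μ : ℂ → ℝ} {κ c₀ : ℝ} (hκ : 0 < κ) (hc : 0 < c₀)
    (h : Tendsto (fun z : ℂ => μ z / ‖z‖ ^ κ) (cocompact ℂ) (𝓝 c₀)) : Tendsto μ (cocompact ℂ) atTop ∧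
      ∀ R ε : ℝ, 0 < ε → ∀ᶠ z in cocompact ℂ, ∀ w : ℂ, ‖w‖ ≤ R → |μ (z + w / (μ z : ℂ)) / μ z - 1| ≤ ε := by
  have hn := tendsto_norm_cocompact_atTop (E := ℂ)
  have hz : Tendsto (fun z : ℂ => ‖z‖ ^ κ) (cocompact ℂ) atTop := (tendsto_rpow_atTop hκ).comp hn
  have hμ : Tendsto μ (cocompact ℂ) atTop := by
    refine (hz.atTop_mul_pos hc h).congr' ?_
    filter_upwards [ne_zero_ev] with z hz
    have : (0 : ℝ) < ‖z‖ ^ κ := Real.rpow_pos_of_pos (norm_pos_iff.2 hz) _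
    field_simp
  refine ⟨hμ, fun R ε hε => ?_⟩
  set l : Filter (ℂ × ℂ) := cocompact ℂ ×ˢ 𝓟 (closedBall (0 : ℂ) R) with hl
  have f1 : Tendsto (fun x : ℂ × ℂ => x.1) l (cocompact ℂ) := tendsto_fst
  have h1 : Tendsto (fun x : ℂ × ℂ => μ x.1) l atTop := hμ.comp f1
  have h2 : Tendsto (fun x : ℂ × ℂ => ‖x.1‖) l atTop := hn.comp f1
  have b2 : ∀ᶠ x : ℂ × ℂ in l, ‖x.2‖ ≤ R := by
    rw [hl, eventually_prod_principal_iff]
    exact Eventually.of_forall fun z w hw => by simpa using hw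
  have h3 : Tendsto (fun x : ℂ × ℂ => ‖x.1 + x.2 / (μ x.1 : ℂ)‖ / ‖x.1‖) l (𝓝 1) := by
    rw [tendsto_iff_norm_sub_tendsto_zero]
    have h5 : Tendsto (fun x : ℂ × ℂ => R / μ x.1 / ‖x.1‖) l (𝓝 0) := ((tendsto_const_nhds (x := R)).div_atTop h1).div_atTop h2
    refine squeeze_zero' (Eventually.of_forall fun x => norm_nonneg _) ?_ h5
    filter_upwards [b2, h1.eventually (eventually_gt_atTop 0), h2.eventually (eventually_gt_atTop 0)] with x hx hm hx1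
    rw [Real.norm_eq_abs, div_sub_one hx1.ne', abs_div, abs_of_pos hx1]
    gcongr
    refine (abs_norm_sub_norm_le _ _).trans ?_
    rw [add_sub_cancel_left, norm_div, Complex.norm_real, Real.norm_eq_abs, abs_of_pos hm]
    gcongr
  have h4 : Tendsto (fun x : ℂ × ℂ => x.1 + x.2 / (μ x.1 : ℂ)) l (cocompact ℂ) := by
    rw [← Metric.cobounded_eq_cocompact, ← comap_norm_atTop, tendsto_comap_iff]
    refine (h2.atTop_mul_pos one_pos h3).congr' ?_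
    filter_upwards [h2.eventually (eventually_gt_atTop 0)] with x hx
    simp only [Function.comp_apply]
    field_simp
  have h5 : Tendsto (fun x : ℂ × ℂ => (μ (x.1 + x.2 / (μ x.1 : ℂ)) / ‖x.1 + x.2 / (μ x.1 : ℂ)‖ ^ κ) / (μ x.1 / ‖x.1‖ ^ κ) *
      (‖x.1 + x.2 / (μ x.1 : ℂ)‖ / ‖x.1‖) ^ κ) l (𝓝 (c₀ / c₀ * 1 ^ κ)) :=
    ((h.comp h4).div (h.comp f1) hc.ne').mul (h3.rpow_const (Or.inr hκ.le))
  rw [div_self hc.ne', Real.one_rpow, mul_one] at h5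
  have h6 := h5.eventually (Metric.closedBall_mem_nhds (1 : ℝ) hε)
  have h7 : ∀ᶠ x : ℂ × ℂ in l, |μ (x.1 + x.2 / (μ x.1 : ℂ)) / μ x.1 - 1| ≤ ε := by
    filter_upwards [h6, h1.eventually (eventually_gt_atTop 0), f1.eventually ne_zero_ev, h4.eventually ne_zero_ev] with x hx hm hx1 hx2
    rw [Real.dist_eq] at hx
    have p1 : (0 : ℝ) < ‖x.1‖ := norm_pos_iff.2 hx1
    have p2 : (0 : ℝ) < ‖x.1 + x.2 / (μ x.1 : ℂ)‖ := norm_pos_iff.2 hx2
    rw [Real.div_rpow p2.le p1.le] at hx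
    have q1 : (0 : ℝ) < ‖x.1‖ ^ κ := Real.rpow_pos_of_pos p1 _
    have q2 : (0 : ℝ) < ‖x.1 + x.2 / (μ x.1 : ℂ)‖ ^ κ := Real.rpow_pos_of_pos p2 _
    have e : (μ (x.1 + x.2 / (μ x.1 : ℂ)) / ‖x.1 + x.2 / (μ x.1 : ℂ)‖ ^ κ) / (μ x.1 / ‖x.1‖ ^ κ) *
        (‖x.1 + x.2 / (μ x.1 : ℂ)‖ ^ κ / ‖x.1‖ ^ κ) = μ (x.1 + x.2 / (μ x.1 : ℂ)) / μ x.1 := by
      generalize μ (x.1 + x.2 / (μ x.1 : ℂ)) = A at *
      generalize ‖x.1 + x.2 / (μ x.1 : ℂ)‖ ^ κ = B at *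
      generalize ‖x.1‖ ^ κ = D at *
      field_simp
    rwa [e] at hx
  rw [hl, eventually_prod_principal_iff] at h7
  filter_upwards [h7] with z hz w hw
  exact hz w (by simpa using hw)

variable {J : Type} [Fintype J] {m : J → ℕ}

/-- MODULE Q3 (2) -/
theorem tame_poly (p : J → Polynomial ℂ) (hm : ∀ j, 1 ≤ m j) {b : ℝ} (hb : 0 ≤ b) :
    (∃ c : ℝ, ∀ z : ℂ, b + ∑ j, ‖(p j).eval z‖ ^ ((m j : ℝ)⁻¹) = c) ∨ Tame fun z => b + ∑ j, ‖(p j).eval z‖ ^ ((m j : ℝ)⁻¹) := by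
  by_cases h0 : ∀ j, (p j).natDegree = 0
  · refine Or.inl ⟨b + ∑ j, ‖(p j).coeff 0‖ ^ ((m j : ℝ)⁻¹), fun z => ?_⟩
    congr 1
    refine Finset.sum_congr rfl fun j _ => ?_
    rw [Polynomial.eq_C_of_natDegree_eq_zero (h0 j)]
    simp
  · right
    push Not at h0
    obtain ⟨j₀, hj₀⟩ := h0
    obtain ⟨j₁, -, hj₁⟩ := Finset.exists_max_image Finset.univ (fun j => ((p j).natDegree : ℝ) * (m j : ℝ)⁻¹) ⟨j₀, Finset.mem_univ _⟩
    set κ : ℝ := ((p j₁).natDegree : ℝ) * (m j₁ : ℝ)⁻¹ with hκd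
    have mpos : ∀ j, (0 : ℝ) < m j := fun j => by exact_mod_cast (hm j)
    have hκ : 0 < κ := by
      refine lt_of_lt_of_le ?_ (hj₁ j₀ (Finset.mem_univ _))
      have h1 : (0 : ℝ) < (p j₀).natDegree := by exact_mod_cast Nat.pos_of_ne_zero hj₀
      have := mpos j₀
      positivity
    choose L hL0 hLp hLt using fun j => tendsto_term (p j) (m := m j) (hj₁ j (Finset.mem_univ _))
    have hp1 : p j₁ ≠ 0 := by
      intro h
      rw [hκd, h, Polynomial.natDegree_zero] at hκ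
      simp at hκ
    have hc : 0 < ∑ j, L j :=
      Finset.sum_pos' (fun j _ => hL0 j) ⟨j₁, Finset.mem_univ _, hLp j₁ rfl hp1⟩
    have hz : Tendsto (fun z : ℂ => ‖z‖ ^ κ) (cocompact ℂ) atTop := (tendsto_rpow_atTop hκ).comp (tendsto_norm_cocompact_atTop (E := ℂ))
    have ht : Tendsto (fun z : ℂ => (b + ∑ j, ‖(p j).eval z‖ ^ ((m j : ℝ)⁻¹)) / ‖z‖ ^ κ) (cocompact ℂ) (𝓝 (∑ j, L j)) := by
      have h1 : Tendsto (fun z : ℂ => b / ‖z‖ ^ κ) (cocompact ℂ) (𝓝 0) := tendsto_const_nhds.div_atTop hz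
      have h2 := h1.add (tendsto_finsetSum Finset.univ fun j _ => hLt j)
      rw [zero_add] at h2
      refine h2.congr fun z => ?_
      rw [add_div, Finset.sum_div]
    obtain ⟨t1, t3⟩ := tame_of_asymp hκ hc ht
    refine ⟨t1, ⟨b + ∑ j, (1 + ∑ i ∈ Finset.range ((p j).natDegree + 1), ‖(p j).coeff i‖), ∑ j, (p j).natDegree, fun z => ?_⟩, t3⟩
    have hz1 : 1 ≤ (1 + ‖z‖) ^ (∑ j, (p j).natDegree) := one_le_pow₀ (by linarith [norm_nonneg z])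
    rw [add_mul, Finset.sum_mul]
    refine add_le_add (le_mul_of_one_le_right hb hz1) (Finset.sum_le_sum fun j _ => ?_)
    have h1 := rpow_inv_le (norm_nonneg ((p j).eval z)) (hm j)
    have h2 := eval_le (p j) (K := ∑ j, (p j).natDegree) (Finset.single_le_sum (f := fun j => (p j).natDegree) (fun _ _ => Nat.zero_le _) (Finset.mem_univ j)) z
    rw [add_mul, one_mul]
    exact h1.trans (add_le_add hz1 h2)

end Pool.Agent.SDA
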