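import Pool.Agent.SDA.Nn
import Pool.Agent.SDA.Ha
import Pool.Agent.H36.BP.SubA

/-!
# SDA Oo: order two and the growth of the normalised lift
-/

set_option autoImplicit false

open Topology Filter Metric

noncomputable section

namespace Pool.Agent.SDA

open Pool.Agent.H36.BP (EN fs wd Sub OrdTwo)
open Pool.Agent.H14.PP (IsCone Tan)

variable {N : ℕ} {ι : Type} [Fintype ι] {X K T : Set (EN N)} {P : ι → EN N → ℂ} {d : ι → ℕ}

/-- the product of the equations on a lift `G` with zeros -/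
private theorem oo_prod (h : AffOpen X K P d) {x y : EN N} (hx : ∏ i, P i x = 1) (hy1 : ‖y‖ ≤ 1) (hxy : y = 0 ∨ ∃ c : ℂ, c ≠ 0 ∧ x = c • y) :
    ‖∏ i, P i y‖ ≤ ‖x‖ ^ (-((∑ i, d i : ℕ) : ℝ)) ∧ (y ≠ 0 → ‖∏ i, P i y‖ = (‖y‖ / ‖x‖) ^ (∑ i, d i : ℕ)) := by
  obtain ⟨i₀⟩ := h.ne
  rcases hxy with hy | ⟨c, hc, hxy⟩
  · refine ⟨?_, fun h0 => absurd hy h0⟩
    have h0 : P i₀ y = 0 := by
      have := h.smul i₀ 0 y
      rw [zero_smul, zero_pow (Nat.one_le_iff_ne_zero.mp (h.pos i₀)), zero_mul] at this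
      rw [hy, this]
    rw [Finset.prod_eq_zero (Finset.mem_univ i₀) h0, norm_zero]
    positivity
  · have h1 : c ^ (∑ i, d i) * ∏ i, P i y = 1 := by
      rw [← Finset.prod_pow_eq_pow_sum, ← Finset.prod_mul_distrib, ← hx]
      exact Finset.prod_congr rfl fun i _ => by rw [hxy, h.smul]
    have h2 : ‖c‖ ^ (∑ i, d i) * ‖∏ i, P i y‖ = 1 := by rw [← norm_pow, ← norm_mul, h1, norm_one]
    have hc0 : 0 < ‖c‖ := norm_pos_iff.mpr hc
    have h3 : ‖∏ i, P i y‖ = (‖c‖ ^ (∑ i, d i))⁻¹ := eq_inv_of_mul_eq_one_right h2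
    have hx0 : x ≠ 0 := by
      intro h0
      have h4 : P i₀ x = 0 := by
        have := h.smul i₀ 0 x
        rw [zero_smul, zero_pow (Nat.one_le_iff_ne_zero.mp (h.pos i₀)), zero_mul] at this
        rw [h0, this]
      rw [Finset.prod_eq_zero (Finset.mem_univ i₀) h4] at hx
      exact zero_ne_one hx
    have hxn : 0 < ‖x‖ := norm_pos_iff.mpr hx0
    have h4 : ‖x‖ = ‖c‖ * ‖y‖ := by rw [hxy, norm_smul]
    refine ⟨?_, fun hy0 => ?_⟩
    · rw [h3, Real.rpow_neg hxn.le, Real.rpow_natCast]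
      apply inv_anti₀ (pow_pos hxn _)
      apply pow_le_pow_left₀ hxn.le
      rw [h4]
      exact mul_le_of_le_one_right hc0.le hy1
    · have hyn : 0 < ‖y‖ := norm_pos_iff.mpr hy0
      rw [h3, h4, ← inv_pow]
      congr 1
      field_simp

/-- order two, growth of the normalised lift -/
theorem growth_of_ordTwo (hX : IsCone X) (h : AffOpen X K P d) {F : ℂ → EN N} (hF : Differentiable ℂ F) (hK : ∀ z, F z ∈ K) (hN : Nm P F)
    (ho : OrdTwo F) : ∃ A : ℝ, 0 ≤ A ∧ ∀ z, Real.log ‖F z‖ ≤ A * (1 + ‖z‖ ^ 2) := by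
  obtain ⟨C₀, ho⟩ := ho
  obtain ⟨c₁, hc₁, hc₁1, hlow⟩ := norm_lower h
  set D : ℕ := ∑ i, d i with hDdef
  have hD : 0 < D := by
    obtain ⟨i₀⟩ := h.ne
    exact lt_of_lt_of_le (h.pos i₀) (Finset.single_le_sum (fun i _ => Nat.zero_le (d i)) (Finset.mem_univ i₀))
  have hDR : (0 : ℝ) < D := by exact_mod_cast hD
  have hlF : ∀ z, c₁ ≤ ‖F z‖ := fun z => hlow _ (hN z)
  have hFp : ∀ z, 0 < ‖F z‖ := fun z => lt_of_lt_of_le hc₁ (hlF z)
  refine ⟨3 * (|Real.log c₁| + 33 * |C₀| + |Real.log ‖F 0‖|), by positivity, fun z => ?_⟩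
  have hz := norm_nonneg z
  set r : ℝ := 4 * (‖z‖ + 1) with hr
  have hr0 : 0 < r := by positivity
  obtain ⟨G, hG1, hG2, hG3, hG4⟩ := ho r hr0
  set R : ℝ := r / 2 with hR
  have hR0 : 0 < R := by positivity
  have hsub : closedBall (0 : ℂ) R ⊆ ball 0 r := closedBall_subset_ball (by rw [hR]; linarith)
  have hPd : ∀ i, Differentiable ℂ (P i) := fun i x => (h.an i x).differentiableAt
  have hq : DifferentiableOn ℂ (fun w => ∏ i, P i (G w)) (ball 0 r) := by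
    have : ∀ i ∈ (Finset.univ : Finset ι), DifferentiableOn ℂ (fun w => P i (G w)) (ball 0 r) := fun i _ =>
      (hPd i).comp_differentiableOn hG1
    simpa using DifferentiableOn.fun_finsetProd this
  have hrel : ∀ w ∈ ball (0 : ℂ) r, ‖∏ i, P i (G w)‖ ≤ ‖F w‖ ^ (-(D : ℝ)) ∧
      (G w ≠ 0 → ‖∏ i, P i (G w)‖ = (‖G w‖ / ‖F w‖) ^ D) := fun w hw =>
    oo_prod h (hN w) (hG2 w hw) (hG4 w hw)
  have hG0 : G 0 ≠ 0 := by
    intro h0
    rw [h0, norm_zero] at hG3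
    exact absurd hG3 (not_le.mpr (Real.exp_pos _))
  have h0r : (0 : ℂ) ∈ ball (0 : ℂ) r := mem_ball_self hr0
  have hF' : ∀ w, ‖((c₁⁻¹ : ℝ) : ℂ) • F w‖ = c₁⁻¹ * ‖F w‖ := fun w => by
    rw [norm_smul, Complex.norm_real, Real.norm_of_nonneg (inv_nonneg.mpr hc₁.le)]
  have hH := harnack (c := 0) (z₀ := 0) (R := R) (a := D * |Real.log c₁|) (b := D * (C₀ * (1 + r ^ 2) + Real.log ‖F 0‖)) (c₀ := (D : ℝ)) hDR
    (mem_ball_self hR0) (F := fun w => ((c₁⁻¹ : ℝ) : ℂ) • F w) (hF.fun_const_smul _)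
    (fun w => by
      rw [hF', inv_mul_eq_div, one_le_div hc₁]
      exact hlF w)
    (v := fun w => ‖∏ i, P i (G w)‖) ((hq.continuousOn.mono hsub).norm.upperSemicontinuousOn) (fun w _ => norm_nonneg _)
    (fun w hw hw0 => Sub.of_holo (hq.analyticAt (isOpen_ball.mem_nhds (hsub (ball_subset_closedBall hw)))) (norm_pos_iff.mp hw0))
    (fun w hw => by
      rw [hF', Real.mul_rpow (inv_nonneg.mpr hc₁.le) (norm_nonneg _), ← mul_assoc]
      refine (hrel w (hsub hw)).1.trans ?_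
      refine le_mul_of_one_le_left (Real.rpow_nonneg (norm_nonneg _) _) ?_
      have h1 : c₁⁻¹ ^ (-(D : ℝ)) = Real.exp (D * Real.log c₁) := by
        rw [Real.rpow_def_of_pos (inv_pos.mpr hc₁), Real.log_inv]
        congr 1; ring
      rw [h1, ← Real.exp_add]
      apply Real.one_le_exp
      have := neg_abs_le (Real.log c₁)
      nlinarith)
    (by
      rw [(hrel 0 h0r).2 hG0]
      have h1 : Real.exp (-(C₀ * (1 + r ^ 2)) - Real.log ‖F 0‖) ≤ ‖G 0‖ / ‖F 0‖ := by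
        rw [Real.exp_sub, Real.exp_log (hFp 0)]
        exact div_le_div_of_nonneg_right hG3 (hFp 0).le
      calc Real.exp (-(D * (C₀ * (1 + r ^ 2) + Real.log ‖F 0‖))) = Real.exp (-(C₀ * (1 + r ^ 2)) - Real.log ‖F 0‖) ^ D := by
            rw [← Real.exp_nat_mul]; congr 1; ring
        _ ≤ _ := pow_le_pow_left₀ (Real.exp_pos _).le h1 _)
    z (by
      rw [mem_closedBall, dist_zero_right, hR, hr]
      linarith)
  rw [hF', sub_zero, norm_zero, add_zero, sub_zero, div_self hR0.ne', mul_one, ← mul_add,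
    Real.log_mul (inv_ne_zero hc₁.ne') (hFp z).ne', Real.log_inv] at hH
  have hH2 : -Real.log c₁ + Real.log ‖F z‖ ≤ 3 * (|Real.log c₁| + (C₀ * (1 + r ^ 2) + Real.log ‖F 0‖)) := by
    have : (D : ℝ) * (-Real.log c₁ + Real.log ‖F z‖) ≤ D * (3 * (|Real.log c₁| + (C₀ * (1 + r ^ 2) + Real.log ‖F 0‖))) := by linarith
    exact le_of_mul_le_mul_left this hDR
  have hlc : Real.log c₁ ≤ 0 := Real.log_nonpos hc₁.le hc₁1
  have h5 : C₀ * (1 + r ^ 2) ≤ 33 * |C₀| * (1 + ‖z‖ ^ 2) := by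
    have h6 : 1 + r ^ 2 ≤ 33 * (1 + ‖z‖ ^ 2) := by
      rw [hr]; nlinarith [sq_nonneg (‖z‖ - 1)]
    calc C₀ * (1 + r ^ 2) ≤ |C₀| * (1 + r ^ 2) := mul_le_mul_of_nonneg_right (le_abs_self _) (by positivity)
      _ ≤ |C₀| * (33 * (1 + ‖z‖ ^ 2)) := mul_le_mul_of_nonneg_left h6 (abs_nonneg _)
      _ = _ := by ring
  have h7 : |Real.log c₁| ≤ |Real.log c₁| * (1 + ‖z‖ ^ 2) := le_mul_of_one_le_right (abs_nonneg _) (by nlinarith [sq_nonneg ‖z‖])
  have h8 : Real.log ‖F 0‖ ≤ |Real.log ‖F 0‖| * (1 + ‖z‖ ^ 2) :=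
    (le_abs_self _).trans (le_mul_of_one_le_right (abs_nonneg _) (by nlinarith [sq_nonneg ‖z‖]))
  calc Real.log ‖F z‖ ≤ 3 * (|Real.log c₁| + (C₀ * (1 + r ^ 2) + Real.log ‖F 0‖)) := by linarith
    _ ≤ 3 * (|Real.log c₁| * (1 + ‖z‖ ^ 2) + (33 * |C₀| * (1 + ‖z‖ ^ 2) + |Real.log ‖F 0‖| * (1 + ‖z‖ ^ 2))) := by linarith
    _ = _ := by ring

/-- growth of a lift without zeros gives order two -/
theorem ordTwo_of_growth {F : ℂ → EN N} (hF : Differentiable ℂ F) {c A : ℝ} (hc : 0 < c) (hl : ∀ z, c ≤ ‖F z‖)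
    (hg : ∀ z, Real.log ‖F z‖ ≤ A * (1 + ‖z‖ ^ 2)) : OrdTwo F := by
  have hFp : ∀ z, 0 < ‖F z‖ := fun z => lt_of_lt_of_le hc (hl z)
  refine ⟨|A| + |Real.log c|, fun r hr => ?_⟩
  set E : ℝ := Real.exp (-(|A| * (1 + r ^ 2))) with hE
  have hE0 : 0 < E := Real.exp_pos _
  refine ⟨fun z => (E : ℂ) • F z, (hF.fun_const_smul _).differentiableOn, fun z hz => ?_, ?_, fun z _ => Or.inr ⟨(E : ℂ)⁻¹, ?_, ?_⟩⟩
  · rw [norm_smul, Complex.norm_real, Real.norm_of_nonneg hE0.le]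
    have h1 : ‖z‖ ^ 2 ≤ r ^ 2 := pow_le_pow_left₀ (norm_nonneg _) (by
      have := mem_ball_zero_iff.mp hz
      exact this.le) 2
    have h2 : Real.log ‖F z‖ ≤ |A| * (1 + r ^ 2) := by
      refine (hg z).trans ?_
      calc A * (1 + ‖z‖ ^ 2) ≤ |A| * (1 + ‖z‖ ^ 2) := mul_le_mul_of_nonneg_right (le_abs_self _) (by positivity)
        _ ≤ _ := mul_le_mul_of_nonneg_left (by linarith) (abs_nonneg _)
    calc E * ‖F z‖ = Real.exp (-(|A| * (1 + r ^ 2)) + Real.log ‖F z‖) := by rw [Real.exp_add, Real.exp_log (hFp z)]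
      _ ≤ 1 := by
        rw [Real.exp_le_one_iff]
        linarith
  · rw [norm_smul, Complex.norm_real, Real.norm_of_nonneg hE0.le]
    have h1 : Real.exp (-(|Real.log c| * (1 + r ^ 2))) ≤ ‖F 0‖ := by
      refine le_trans ?_ (hl 0)
      rw [← Real.le_log_iff_exp_le hc]
      have h2 := neg_abs_le (Real.log c)
      have h3 : |Real.log c| ≤ |Real.log c| * (1 + r ^ 2) := le_mul_of_one_le_right (abs_nonneg _) (by nlinarith [sq_nonneg r])
      linarith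
    calc Real.exp (-((|A| + |Real.log c|) * (1 + r ^ 2))) = E * Real.exp (-(|Real.log c| * (1 + r ^ 2))) := by
          rw [hE, ← Real.exp_add]; congr 1; ring
      _ ≤ _ := mul_le_mul_of_nonneg_left h1 hE0.le
  · exact inv_ne_zero (by exact_mod_cast hE0.ne')
  · simp only
    rw [smul_smul, inv_mul_cancel₀ (by exact_mod_cast hE0.ne'), one_smul]

end Pool.Agent.SDA
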