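import Pool.Agent.SDA.Defs
import Pool.Agent.SDA.Nn
import Pool.Agent.SDA.Ha
import Pool.Agent.SDA.Oo
import Pool.Agent.SY.ChM
import Pool.Agent.H17.Montel

/-!
# SDA Cc: compactness

Normalised entire curves in `K` with bounded `g` and `g F 0 ≥ δ`: the values at `0` are bounded (`char_fun`, `bdy`), so by Harnack's inequality
they are bounded on the discs, and they converge locally uniformly in the affine cone.
-/

set_option autoImplicit false

open Topology Filter Metric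

noncomputable section

namespace Pool.Agent.SDA

open Pool.Agent.H36.BP (EN fs wd Sub OrdTwo)
open Pool.Agent.H17BP (Pr)
open Pool.Agent.H14.PP (IsCone Tan)
open Pool.Agent.SY (Ent Energy)

variable {N : ℕ} {ι : Type} [Fintype ι] {X K T : Set (EN N)} {P : ι → EN N → ℂ} {d : ι → ℕ} {rho : EN N → ℝ} {M : ℕ} {c₀ C : ℝ}
  {g : (ℂ → EN N) → ℂ → ℝ} {n : EN N → EN N → ℝ}

private theorem Cc_closed (hX : IsCone X) {x : EN N} (hx : x ≠ 0) (hc : x ∈ closure X) : x ∈ X := by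
  have h1 : closure X ⊆ insert 0 X := closure_minimal (Set.subset_insert 0 X) hX.closed
  exact (Set.mem_insert_iff.1 (h1 hc)).resolve_left hx

private theorem Cc_cont (h : AffOpen X K P d) : Continuous fun x : EN N => ∏ i, P i x :=
  continuous_finsetProd _ fun i _ => continuous_iff_continuousAt.2 fun x => (h.an i x).continuousAt

private theorem Cc_smul (h : AffOpen X K P d) (c : ℂ) (x : EN N) : ∏ i, P i (c • x) = c ^ (∑ i, d i) * ∏ i, P i x := by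
  rw [← Finset.prod_pow_eq_pow_sum, ← Finset.prod_mul_distrib]
  exact Finset.prod_congr rfl fun i _ => h.smul i c x

private theorem Cc_deg (h : AffOpen X K P d) : 1 ≤ ∑ i, d i := by
  obtain ⟨i⟩ := h.ne
  exact (h.pos i).trans (Finset.single_le_sum (f := d) (fun _ _ => Nat.zero_le _) (Finset.mem_univ i))

/-- the limit of normalised vectors in `K` -/
private theorem Cc_mem (hX : IsCone X) (h : AffOpen X K P d) {l : Filter ℕ} [l.NeBot] {x : ℕ → EN N} {y : EN N}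
    (hx : ∀ k, x k ∈ X) (h1 : ∀ k, ∏ i, P i (x k) = 1) (hy : Tendsto x l (𝓝 y)) : y ∈ K ∧ ∏ i, P i y = 1 := by
  have h2 : ∏ i, P i y = 1 := by
    have h3 := ((Cc_cont h).tendsto y).comp hy
    refine tendsto_nhds_unique h3 (tendsto_const_nhds.congr fun k => ?_)
    exact (h1 k).symm
  have h4 : ∀ i, P i y ≠ 0 := fun i hi => by
    rw [Finset.prod_eq_zero (Finset.mem_univ i) hi] at h2
    exact zero_ne_one h2
  have h5 : y ≠ 0 := by
    rintro rfl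
    obtain ⟨i⟩ := h.ne
    refine h4 i ?_
    have h6 := h.smul i 0 0
    rw [zero_pow (by have := h.pos i; omega), zero_mul, smul_zero] at h6
    exact h6
  refine ⟨(h.mem y).2 ⟨Cc_closed hX h5 (mem_closure_of_tendsto hy (Eventually.of_forall hx)), h4⟩, h2⟩

/-- upper semicontinuity of a product with a positive continuous function -/
private theorem Cc_usc {S : Set ℂ} {f h : ℂ → ℝ} (hf : UpperSemicontinuousOn f S)
    (hh : ContinuousOn h S) (hpos : ∀ z ∈ S, 0 < h z) :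
    UpperSemicontinuousOn (fun z => f z * h z) S := by
  intro x hx y hy
  have hx0 := hpos x hx
  have h1 : f x < y / h x := (lt_div_iff₀ hx0).2 hy
  obtain ⟨a, ha1, ha2⟩ := exists_between h1
  have h2 : a * h x < y := (lt_div_iff₀ hx0).1 ha2
  have h3 : ∀ᶠ z in 𝓝[S] x, a * h z < y :=
    ((continuousWithinAt_const.mul (hh x hx)).tendsto).eventually (gt_mem_nhds h2)
  filter_upwards [hf x hx a ha1, h3, self_mem_nhdsWithin] with z hz1 hz2 hz3
  exact (mul_lt_mul_of_pos_right hz1 (hpos z hz3)).trans hz2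

/-- step 1: the values at `0` are bounded -/
private theorem Cc_zero (S : Setup X K T P d rho M c₀ C g n) (𝒰 : Ultrafilter ℕ) (F : ℕ → ℂ → EN N)
    (hF : ∀ k, Ent K T (F k)) (hN : ∀ k, Nm P (F k)) {A δ : ℝ} (hδ : 0 < δ) (hA : ∀ k : ℕ, ∀ z ∈ ball (0 : ℂ) (k + 1), g (F k) z ≤ A)
    (h0 : ∀ k, δ ≤ g (F k) 0) (h𝒰 : (𝒰 : Filter ℕ) ≤ atTop) : ∃ B : ℝ, 0 < B ∧ ∀ᶠ k in (𝒰 : Filter ℕ), ‖F k 0‖ ≤ B := by
  have hKX : ∀ x ∈ K, x ∈ X := fun x hx => ((S.aff.mem x).1 hx).1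
  have hne : ∀ x ∈ X, x ≠ 0 := fun x hx h => S.cone.zero_notMem (h ▸ hx)
  have hFX : ∀ k z, F k z ∈ X := fun k z => hKX _ ((hF k).mem z)
  have hE := S.en.toEnergy
  obtain ⟨c', hc'0, hc'⟩ : ∃ c' : ℝ, 0 < c' ∧ ∀ k : ℕ, 1 ≤ k → ∃ u : ℂ → ℂ, Differentiable ℂ u ∧
      (∀ z ∈ ball (0 : ℂ) 1, ‖Complex.exp (u z) • F k z‖ ≤ 1) ∧ c' ≤ ‖Complex.exp (u 0) • F k 0‖ := by
    refine ⟨Real.exp (-(1 + Real.log (A / δ * Real.exp 1 * Real.exp ((C * A ^ 2 + 1) * 1 ^ 2))) / c₀), Real.exp_pos _, fun k hk => ?_⟩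
    have hsub : closedBall (0 : ℂ) 1 ⊆ ball 0 ((k : ℝ) + 1) := by
      apply closedBall_subset_ball
      have : (1 : ℝ) ≤ k := by exact_mod_cast hk
      linarith
    exact Pool.Agent.SY.char_fun hE.c₀_pos hE.C_pos.le one_pos hδ (hF k).diff (fun z => hne _ (hFX k z))
      (fun z _ a ha => nhdsWithin_le_nhds (hE.usc _ (hF k) z a ha)) (fun z hz => hA k z (hsub hz)) (h0 k)
      (fun z _ hz => hE.sub _ (hF k) z hz)
  have hch : ∀ k : ℕ, ∃ u : ℂ → ℂ, 1 ≤ k → Differentiable ℂ u ∧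
      (∀ z ∈ ball (0 : ℂ) 1, ‖Complex.exp (u z) • F k z‖ ≤ 1) ∧ c' ≤ ‖Complex.exp (u 0) • F k 0‖ := by
    intro k
    by_cases hk : 1 ≤ k
    · obtain ⟨u, hu⟩ := hc' k hk
      exact ⟨u, fun _ => hu⟩
    · exact ⟨0, fun h => absurd h hk⟩
  choose u hu using hch
  have hev : ∀ᶠ k in (𝒰 : Filter ℕ), 1 ≤ k := h𝒰 (eventually_ge_atTop 1)
  obtain ⟨h, hd, hc⟩ := Pool.Agent.H17.montel_ultrafilter 𝒰 (F := fun k z => Complex.exp (u k z) • F k z) (a := 0) (r := 1) (B := 1)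
    (by
      filter_upwards [hev] with k hk
      exact ((hu k hk).1.cexp.smul (hF k).diff).differentiableOn)
    (by
      filter_upwards [hev] with k hk
      exact (hu k hk).2.1)
  have hm0 : (0 : ℂ) ∈ ball (0 : ℂ) 1 := mem_ball_self one_pos
  have hpt : ∀ z ∈ ball (0 : ℂ) 1, Tendsto (fun k => Complex.exp (u k z) • F k z) (𝒰 : Filter ℕ) (𝓝 (h z)) := fun z hz => hc.tendsto_at hz
  have hh0 : h 0 ≠ 0 := by
    intro h1
    have h2 : c' ≤ ‖h 0‖ := by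
      refine ge_of_tendsto (hpt 0 hm0).norm ?_
      filter_upwards [hev] with k hk
      exact (hu k hk).2.2
    rw [h1, norm_zero] at h2
    linarith
  have hcont : ContinuousAt h 0 := (hd.differentiableAt (isOpen_ball.mem_nhds hm0)).continuousAt
  obtain ⟨s, hs, hsb⟩ := Metric.eventually_nhds_iff_ball.1 ((hcont.eventually_ne hh0).and (isOpen_ball.mem_nhds hm0))
  have hK0 : h 0 ∈ K := by
    refine S.en.bdy (𝒰 : Filter ℕ) inferInstance (min s 1) A δ (lt_min hs one_pos) hδ F h (Eventually.of_forall hF) ?_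
      (Eventually.of_forall h0) ⟨fun k z => Complex.exp (u k z), ?_, ?_⟩ ?_
    · refine Eventually.of_forall fun k z hz => hA k z ?_
      refine ball_subset_ball ?_ hz
      have : (0 : ℝ) ≤ k := Nat.cast_nonneg k
      exact (min_le_right _ _).trans (by linarith)
    · filter_upwards [hev] with k hk
      exact ⟨(hu k hk).1.cexp.differentiableOn, fun z _ => Complex.exp_ne_zero _⟩
    · exact hc.mono fun w hw => (hsb w (ball_subset_ball (min_le_left _ _) hw)).2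
    · intro z hz
      obtain ⟨h1, h2⟩ := hsb z (ball_subset_ball (min_le_left _ _) hz)
      refine Cc_closed S.cone h1 (mem_closure_of_tendsto (hpt z h2) (Eventually.of_forall fun k => ?_))
      exact S.cone.smul_mem _ (hFX k z) _ (Complex.exp_ne_zero _)
  have hp : ∏ i, P i (h 0) ≠ 0 := Finset.prod_ne_zero_iff.2 fun i _ => ((S.aff.mem _).1 hK0).2 i
  have hp0 : 0 < ‖∏ i, P i (h 0)‖ := norm_pos_iff.2 hp
  have hD := Cc_deg S.aff
  have hlim : Tendsto (fun k => ‖Complex.exp (u k 0)‖ ^ (∑ i, d i)) (𝒰 : Filter ℕ) (𝓝 ‖∏ i, P i (h 0)‖) := by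
    have h1 := (((Cc_cont S.aff).tendsto (h 0)).comp (hpt 0 hm0)).norm
    refine h1.congr fun k => ?_
    show ‖∏ i, P i (Complex.exp (u k 0) • F k 0)‖ = _
    rw [Cc_smul S.aff, hN k 0, mul_one, norm_pow]
  refine ⟨max 1 (2 / ‖∏ i, P i (h 0)‖), lt_max_of_lt_left one_pos, ?_⟩
  have hhalf : ‖∏ i, P i (h 0)‖ / 2 < ‖∏ i, P i (h 0)‖ := by linarith
  filter_upwards [hev, hlim.eventually (lt_mem_nhds hhalf)] with k hk hk2
  by_contra hcon
  push Not at hcon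
  set B : ℝ := max 1 (2 / ‖∏ i, P i (h 0)‖) with hB
  have hB1 : 1 ≤ B := le_max_left _ _
  have hB2 : 2 / ‖∏ i, P i (h 0)‖ ≤ B := le_max_right _ _
  have hB0 : 0 < B := by linarith
  have h1 : ‖Complex.exp (u k 0)‖ * ‖F k 0‖ ≤ 1 := by
    rw [← norm_smul]
    exact (hu k hk).2.1 0 hm0
  have h2 : ‖Complex.exp (u k 0)‖ ≤ 1 / B := by
    rw [le_div_iff₀ hB0]
    refine le_trans ?_ h1
    exact mul_le_mul_of_nonneg_left hcon.le (norm_nonneg _)
  have h3 : ‖Complex.exp (u k 0)‖ ≤ 1 := h2.trans (by rw [div_le_one hB0]; exact hB1)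
  have h4 : ‖Complex.exp (u k 0)‖ ^ (∑ i, d i) ≤ ‖Complex.exp (u k 0)‖ :=
    pow_le_of_le_one (norm_nonneg _) h3 (by omega)
  have h5 : 1 / B ≤ ‖∏ i, P i (h 0)‖ / 2 := by
    rw [div_le_iff₀ hB0]
    have h6 := mul_le_mul_of_nonneg_left hB2 (by positivity : (0 : ℝ) ≤ ‖∏ i, P i (h 0)‖ / 2)
    have h7 : ‖∏ i, P i (h 0)‖ / 2 * (2 / ‖∏ i, P i (h 0)‖) = 1 := by
      field_simp
    linarith
  linarith

/-- step 2: the growth -/
private theorem Cc_growth (S : Setup X K T P d rho M c₀ C g n) {A δ B c : ℝ} (hδ : 0 < δ) (hB : 0 < B) (hc : 0 < c)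
    (hlow : ∀ x : EN N, ∏ i, P i x = 1 → c ≤ ‖x‖) {F : ℂ → EN N}
    (hF : Ent K T F) (hN : Nm P F) {R : ℝ} (hR : 0 < R) (hA : ∀ z ∈ closedBall (0 : ℂ) R, g F z ≤ A)
    (h0 : δ ≤ g F 0) (hB0 : ‖F 0‖ ≤ B) : ∀ z ∈ closedBall (0 : ℂ) (R / 2),
      c₀ * Real.log ‖F z‖ ≤ 3 * (Real.log A + (C * A ^ 2 + 1) * R ^ 2 + (c₀ * Real.log (B / c) - Real.log δ)) + c₀ * Real.log c := by
  have hE := S.en.toEnergy
  have hc₀ := hE.c₀_pos
  have hC := hE.C_pos
  have hm0 : (0 : ℂ) ∈ closedBall (0 : ℂ) R := mem_closedBall_self hR.le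
  have hA0 : 0 < A := hδ.trans_le (h0.trans (hA 0 hm0))
  have hlow' : ∀ z, c ≤ ‖F z‖ := fun z => hlow _ (hN z)
  have hpos : ∀ z, 0 < ‖F z‖ := fun z => hc.trans_le (hlow' z)
  have hne : ∀ z, F z ≠ 0 := fun z => norm_pos_iff.1 (hpos z)
  have hcc : (c : ℂ) ≠ 0 := by exact_mod_cast hc.ne'
  have hnF : ∀ z, ‖(c : ℂ)⁻¹ • F z‖ = c⁻¹ * ‖F z‖ := fun z => by
    rw [norm_smul, norm_inv, Complex.norm_real, Real.norm_of_nonneg hc.le]
  have hpw : ∀ z, ‖(c : ℂ)⁻¹ • F z‖ ^ (-c₀) = c ^ c₀ * ‖F z‖ ^ (-c₀) := fun z => by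
    rw [hnF, Real.mul_rpow (inv_nonneg.2 hc.le) (norm_nonneg _), Real.inv_rpow hc.le, Real.rpow_neg hc.le, inv_inv]
  set κ : ℝ := C * A ^ 2 + 1 with hκ
  have hcp : 0 < c ^ c₀ := Real.rpow_pos_of_pos hc _
  have hcontF : Continuous F := hF.diff.continuous
  have hrc : Continuous fun z => ‖F z‖ ^ (-c₀) :=
    hcontF.norm.rpow_const fun z => Or.inl (hpos z).ne'
  have hdF : Differentiable ℂ (fun z => (c : ℂ)⁻¹ • F z) := hF.diff.const_smul ((c : ℂ)⁻¹)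
  have key := harnack (c := 0) (z₀ := 0) (R := R) (a := Real.log A + κ * R ^ 2) (b := c₀ * Real.log (B / c) - Real.log δ) hc₀
    (mem_ball_self hR) (F := fun z => (c : ℂ)⁻¹ • F z) hdF
    (fun z => by
      rw [hnF, inv_mul_eq_div, one_le_div hc]
      exact hlow' z)
    (v := fun z => g F z * (c ^ c₀ * ‖F z‖ ^ (-c₀) * Real.exp (κ * ‖z‖ ^ 2)))
    (by
      refine Cc_usc (fun z _ a ha => nhdsWithin_le_nhds (hE.usc _ hF z a ha)) ?_ ?_
      · exact (((continuous_const.mul hrc).mul (Real.continuous_exp.comp (continuous_const.mul (continuous_norm.pow 2))))).continuousOn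
      · intro z _
        exact mul_pos (mul_pos hcp (Real.rpow_pos_of_pos (hpos z) _)) (Real.exp_pos _))
    (fun z _ => mul_nonneg (hE.nonneg _ hF z) (mul_nonneg (mul_nonneg hcp.le (Real.rpow_nonneg (norm_nonneg _) _)) (Real.exp_pos _).le))
    (by
      intro z hz hz0
      have hq : 0 < c ^ c₀ * ‖F z‖ ^ (-c₀) * Real.exp (κ * ‖z‖ ^ 2) :=
        mul_pos (mul_pos hcp (Real.rpow_pos_of_pos (hpos z) _)) (Real.exp_pos _)
      have hg0 : 0 < g F z := by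
        by_contra h3
        exact absurd hz0 (not_lt.2 (mul_nonpos_of_nonpos_of_nonneg (not_lt.1 h3) hq.le))
      have hs1 := (hE.sub _ hF z hg0).const_mul hcp
      have hs2 : Sub (fun w : ℂ => Real.exp (κ * ‖w‖ ^ 2)) z (κ * ‖deriv (fun w : ℂ => w) z‖ ^ 2) := Sub.exp_sq analyticAt_id _
      have h3 : deriv (fun w : ℂ => w) z = 1 := deriv_id z
      rw [h3, norm_one, one_pow, mul_one] at hs2
      have hs3 := (hs1.mul hs2).anti (d := 0) (by
        have h4 := hA z (ball_subset_closedBall hz)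
        have h5 : g F z ^ 2 ≤ A ^ 2 := by nlinarith
        nlinarith)
      refine hs3.congr (Eventually.of_forall fun w => ?_)
      show c ^ c₀ * (g F w * ‖F w‖ ^ (-c₀)) * Real.exp (κ * ‖w‖ ^ 2) = g F w * (c ^ c₀ * ‖F w‖ ^ (-c₀) * Real.exp (κ * ‖w‖ ^ 2))
      ring)
    (by
      intro z hz
      show g F z * (c ^ c₀ * ‖F z‖ ^ (-c₀) * Real.exp (κ * ‖z‖ ^ 2)) ≤ _
      rw [hpw, Real.exp_add, Real.exp_log hA0]
      have h1 : g F z ≤ A := hA z hz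
      have h2 : ‖z‖ ≤ R := by simpa using hz
      have h3 : Real.exp (κ * ‖z‖ ^ 2) ≤ Real.exp (κ * R ^ 2) := by
        rw [Real.exp_le_exp]
        have h4 : ‖z‖ ^ 2 ≤ R ^ 2 := pow_le_pow_left₀ (norm_nonneg _) h2 2
        have h5 : 0 ≤ κ := by positivity
        exact mul_le_mul_of_nonneg_left h4 h5
      have h4 : 0 ≤ c ^ c₀ * ‖F z‖ ^ (-c₀) := mul_nonneg hcp.le (Real.rpow_nonneg (norm_nonneg _) _)
      calc g F z * (c ^ c₀ * ‖F z‖ ^ (-c₀) * Real.exp (κ * ‖z‖ ^ 2)) ≤ A * (c ^ c₀ * ‖F z‖ ^ (-c₀) * Real.exp (κ * R ^ 2)) :=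
            mul_le_mul h1 (mul_le_mul_of_nonneg_left h3 h4) (mul_nonneg h4 (Real.exp_pos _).le) hA0.le
        _ = A * Real.exp (κ * R ^ 2) * (c ^ c₀ * ‖F z‖ ^ (-c₀)) := by ring)
    (by
      show Real.exp (-(c₀ * Real.log (B / c) - Real.log δ)) ≤ g F 0 * (c ^ c₀ * ‖F 0‖ ^ (-c₀) * Real.exp (κ * ‖(0 : ℂ)‖ ^ 2))
      rw [norm_zero, zero_pow two_ne_zero, mul_zero, Real.exp_zero, mul_one]
      have h1 : Real.exp (-(c₀ * Real.log (B / c) - Real.log δ)) = δ * (c ^ c₀ * B ^ (-c₀)) := by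
        rw [neg_sub, Real.exp_sub, Real.exp_log hδ, Real.log_div hB.ne' hc.ne', mul_sub, Real.exp_sub, Real.rpow_def_of_pos hc,
          Real.rpow_def_of_pos hB, mul_neg, Real.exp_neg]
        rw [mul_comm (Real.log c), mul_comm (Real.log B)]
        field_simp
      rw [h1]
      have h2 : B ^ (-c₀) ≤ ‖F 0‖ ^ (-c₀) := Real.rpow_le_rpow_of_nonpos (hpos 0) hB0 (by linarith)
      refine mul_le_mul h0 (mul_le_mul_of_nonneg_left h2 hcp.le) ?_ (hδ.le.trans h0)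
      exact mul_nonneg hcp.le (Real.rpow_nonneg hB.le _))
  intro z hz
  have h1 := key z hz
  rw [sub_self, norm_zero, add_zero, sub_zero, div_self hR.ne', mul_one, hnF, Real.log_mul (inv_ne_zero hc.ne') (hpos z).ne', Real.log_inv] at h1
  linarith

/-- compactness of the normalised entire curves in `K` -/
theorem compactness (S : Setup X K T P d rho M c₀ C g n) (𝒰 : Ultrafilter ℕ) (h𝒰 : (𝒰 : Filter ℕ) ≤ atTop) (F : ℕ → ℂ → EN N)
    (hF : ∀ k, Ent K T (F k)) (hN : ∀ k, Nm P (F k)) {A δ : ℝ} (hδ : 0 < δ) (hA : ∀ k : ℕ, ∀ z ∈ ball (0 : ℂ) (k + 1), g (F k) z ≤ A)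
    (h0 : ∀ k, δ ≤ g (F k) 0) :
    ∃ H : ℂ → EN N, Ent K T H ∧ Nm P H ∧ OrdTwo H ∧ (∃ z w, ∀ c : ℂ, H z ≠ c • H w) ∧ TendstoLocallyUniformlyOn F H 𝒰 Set.univ := by
  have hKX : ∀ x ∈ K, x ∈ X := fun x hx => ((S.aff.mem x).1 hx).1
  have hne : ∀ x ∈ X, x ≠ 0 := fun x hx h => S.cone.zero_notMem (h ▸ hx)
  have hFX : ∀ k z, F k z ∈ X := fun k z => hKX _ ((hF k).mem z)
  have hE := S.en.toEnergy
  have hc₀ := hE.c₀_pos
  have hC := hE.C_pos
  obtain ⟨B, hB, hBev⟩ := Cc_zero S 𝒰 F hF hN hδ hA h0 h𝒰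
  obtain ⟨c, hc, -, hlow⟩ := norm_lower S.aff
  obtain ⟨G, hG⟩ : ∃ G : ℝ → ℝ, G = fun r => (3 * (Real.log A + (C * A ^ 2 + 1) * r ^ 2 + (c₀ * Real.log (B / c) - Real.log δ)) +
    c₀ * Real.log c) / c₀ := ⟨_, rfl⟩
  have hgr : ∀ R : ℕ, ∀ᶠ k in (𝒰 : Filter ℕ), ∀ z ∈ closedBall (0 : ℂ) (R + 1), Real.log ‖F k z‖ ≤ G (2 * (R + 1)) := by
    intro R
    have hev : ∀ᶠ k in (𝒰 : Filter ℕ), 2 * (R + 1) ≤ k := h𝒰 (eventually_ge_atTop _)
    filter_upwards [hBev, hev] with k hk1 hk2 z hz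
    have hk3 : (2 * ((R : ℝ) + 1)) ≤ k := by exact_mod_cast hk2
    have hsub : closedBall (0 : ℂ) (2 * ((R : ℝ) + 1)) ⊆ ball 0 ((k : ℝ) + 1) := closedBall_subset_ball (by linarith)
    have h1 := Cc_growth S hδ hB hc hlow (hF k) (hN k) (R := 2 * ((R : ℝ) + 1)) (by positivity) (fun w hw => hA k w (hsub hw)) (h0 k) hk1 z
      (by rwa [mul_div_cancel_left₀ _ (two_ne_zero' ℝ)])
    rw [hG]
    show _ ≤ _ / c₀
    rw [le_div_iff₀ hc₀, mul_comm]
    exact h1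
  have hpos : ∀ k z, 0 < ‖F k z‖ := fun k z => hc.trans_le (hlow _ (hN k z))
  have hmont : ∀ R : ℕ, ∃ h : ℂ → EN N, DifferentiableOn ℂ h (ball 0 (R + 1)) ∧
      TendstoLocallyUniformlyOn F h (𝒰 : Filter ℕ) (ball 0 (R + 1)) := by
    intro R
    refine Pool.Agent.H17.montel_ultrafilter 𝒰 (B := Real.exp (G (2 * (R + 1)))) ?_ ?_
    · exact Eventually.of_forall fun k => (hF k).diff.differentiableOn
    · filter_upwards [hgr R] with k hk z hz
      rw [← Real.log_le_iff_le_exp (hpos k z)]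
      exact hk z (ball_subset_closedBall hz)
  choose h hd hcv using hmont
  have hmem : ∀ z : ℂ, z ∈ ball (0 : ℂ) ((⌈‖z‖⌉₊ : ℕ) + 1) := by
    intro z
    rw [mem_ball_zero_iff]
    have := Nat.le_ceil ‖z‖
    linarith
  obtain ⟨H, hH⟩ : ∃ H : ℂ → EN N, H = fun z => h ⌈‖z‖⌉₊ z := ⟨_, rfl⟩
  have hHt : ∀ z, Tendsto (fun k => F k z) (𝒰 : Filter ℕ) (𝓝 (H z)) := by
    intro z
    rw [hH]
    exact (hcv _).tendsto_at (hmem z)
  have hHR : ∀ R : ℕ, ∀ z ∈ ball (0 : ℂ) (R + 1), H z = h R z := fun R z hz =>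
    tendsto_nhds_unique (hHt z) ((hcv R).tendsto_at hz)
  have hHc : TendstoLocallyUniformlyOn F H (𝒰 : Filter ℕ) Set.univ := by
    intro u hu z _
    have hz := hmem z
    obtain ⟨t, ht, hev⟩ := hcv _ u hu z hz
    have ht' : t ∈ 𝓝 z := by
      rwa [isOpen_ball.nhdsWithin_eq hz] at ht
    refine ⟨t ∩ ball 0 ((⌈‖z‖⌉₊ : ℕ) + 1), ?_, ?_⟩
    · rw [nhdsWithin_univ]
      exact inter_mem ht' (isOpen_ball.mem_nhds hz)
    · filter_upwards [hev] with k hk y hy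
      rw [hHR _ y hy.2]
      exact hk y hy.1
  have hHd : Differentiable ℂ H := by
    intro z
    have hz := hmem z
    have h1 := (hd _).differentiableAt (isOpen_ball.mem_nhds hz)
    refine h1.congr_of_eventuallyEq ?_
    filter_upwards [isOpen_ball.mem_nhds hz] with y hy
    exact hHR _ y hy
  have hHK : ∀ z, H z ∈ K ∧ ∏ i, P i (H z) = 1 := fun z =>
    Cc_mem S.cone S.aff (fun k => hFX k z) (fun k => hN k z) (hHt z)
  obtain ⟨⟨p, hp, hpT⟩, ⟨a, ha, b, hb, hab⟩⟩ := hE.lim (𝒰 : Filter ℕ) inferInstance 1 A δ one_pos hδ F H (Eventually.of_forall hF)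
    (Eventually.of_forall fun k z hz => hA k z (ball_subset_ball (by
      have : (0 : ℝ) ≤ k := Nat.cast_nonneg k
      linarith) hz))
    (Eventually.of_forall h0)
    ⟨fun _ _ => 1, Eventually.of_forall fun k => ⟨differentiableOn_const _, fun z _ => one_ne_zero⟩, by
      simp only [one_smul]
      exact hHc.mono (Set.subset_univ _)⟩
    (fun z _ => (hHK z).1)
  refine ⟨H, ⟨hHd, fun z => (hHK z).1, ⟨p, hpT⟩⟩, fun z => (hHK z).2, ?_, ⟨a, b, fun e he => hab ?_⟩, hHc⟩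
  · have hHl : ∀ z, c ≤ ‖H z‖ := fun z => hlow _ (hHK z).2
    obtain ⟨c1, hc1⟩ : ∃ c1 : ℝ, c1 = (3 * (Real.log A + (c₀ * Real.log (B / c) - Real.log δ)) + c₀ * Real.log c) / c₀ := ⟨_, rfl⟩
    obtain ⟨c2, hc2⟩ : ∃ c2 : ℝ, c2 = 3 * (C * A ^ 2 + 1) / c₀ := ⟨_, rfl⟩
    have hGe : ∀ r, G r = c1 + c2 * r ^ 2 := by
      intro r
      rw [hG, hc1, hc2]
      field_simp
      ring
    have hc20 : 0 ≤ c2 := by
      rw [hc2]
      positivity
    refine ordTwo_of_growth hHd hc hHl (A := |c1| + 32 * c2) fun z => ?_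
    have h1 : Tendsto (fun k => Real.log ‖F k z‖) (𝒰 : Filter ℕ) (𝓝 (Real.log ‖H z‖)) :=
      ((hHt z).norm).log (hc.trans_le (hHl z)).ne'
    have h2 : Real.log ‖H z‖ ≤ G (2 * (((⌈‖z‖⌉₊ : ℕ) : ℝ) + 1)) := by
      refine le_of_tendsto h1 ?_
      filter_upwards [hgr ⌈‖z‖⌉₊] with k hk
      exact hk z (ball_subset_closedBall (hmem z))
    rw [hGe] at h2
    have h3 : ((⌈‖z‖⌉₊ : ℕ) : ℝ) < ‖z‖ + 1 := Nat.ceil_lt_add_one (norm_nonneg _)
    have h4 : (0 : ℝ) ≤ ((⌈‖z‖⌉₊ : ℕ) : ℝ) := Nat.cast_nonneg _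
    have h5 : (2 * (((⌈‖z‖⌉₊ : ℕ) : ℝ) + 1)) ^ 2 ≤ 32 * (1 + ‖z‖ ^ 2) := by
      nlinarith [norm_nonneg z, sq_nonneg (‖z‖ - 2)]
    have h6 := mul_le_mul_of_nonneg_left h5 hc20
    have h7 := le_abs_self c1
    have h8 : |c1| ≤ |c1| * (1 + ‖z‖ ^ 2) := le_mul_of_one_le_right (abs_nonneg _) (by nlinarith [sq_nonneg ‖z‖])
    linarith
  · refine ⟨e, ?_, he⟩
    rintro rfl
    rw [zero_smul] at he
    exact hne _ (hKX _ (hHK a).1) he

end Pool.Agent.SDA
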