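import Pool.Agent.SDA.F0
import Pool.Agent.SDA.Nn
import Pool.Agent.SDA.Cc
import Pool.Agent.SY.A

/-!
# SDA Ab: the local bound of the metric
-/

set_option autoImplicit false

open Topology Filter Metric

noncomputable section

namespace Pool.Agent.SDA

open Pool.Agent.H36.BP (EN fs wd Sub OrdTwo)
open Pool.Agent.H14.PP (IsCone Tan CurveAt)
open Pool.Agent.SY (Ent Energy)

variable {N : ℕ} {ι : Type} [Fintype ι] {X K T : Set (EN N)} {P : ι → EN N → ℂ} {d : ι → ℕ} {rho : EN N → ℝ} {M : ℕ} {c₀ C : ℝ}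
  {g : (ℂ → EN N) → ℂ → ℝ} {n : EN N → EN N → ℝ}

/-- product of a nonnegative upper semicontinuous function and a nonnegative continuous function -/
theorem Ab_usc_mul {α : Type*} [TopologicalSpace α] {S : Set α} {u k : α → ℝ} (hu : UpperSemicontinuousOn u S)
    (hk : ContinuousOn k S) (hu0 : ∀ x ∈ S, 0 ≤ u x) (hk0 : ∀ x ∈ S, 0 ≤ k x) :
    UpperSemicontinuousOn (fun x => u x * k x) S := by
  intro x hx y hy
  have ht : Tendsto (fun ε : ℝ => (u x + ε) * (k x + ε)) (𝓝[>] 0) (𝓝 ((u x + 0) * (k x + 0))) := by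
    apply tendsto_nhdsWithin_of_tendsto_nhds
    have hc : Continuous (fun ε : ℝ => (u x + ε) * (k x + ε)) := by fun_prop
    exact hc.tendsto 0
  have hy' : (u x + 0) * (k x + 0) < y := by simpa using hy
  obtain ⟨ε, hε1, hε2⟩ := ((ht.eventually_lt_const hy').and self_mem_nhdsWithin).exists
  have hε : (0 : ℝ) < ε := hε2
  have h1 : ∀ᶠ x' in 𝓝[S] x, u x' < u x + ε := hu x hx _ (by linarith)
  have h2 : ∀ᶠ x' in 𝓝[S] x, k x' < k x + ε := (hk x hx).eventually_lt_const (by linarith)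
  filter_upwards [h1, h2, self_mem_nhdsWithin] with x' h1' h2' hx'
  refine lt_of_le_of_lt ?_ hε1
  exact mul_le_mul h1'.le h2'.le (hk0 x' hx') (by linarith [hu0 x hx])

/-- Zalcman's rescaling near `0` -/
theorem Ab_rescale {nu : EN N → ℝ} (E : Energy K T nu rho M c₀ C g) {F : ℂ → EN N} (hF : Ent K T F) (k : ℕ)
    (hz : 4 * ((k : ℝ) + 1) < g F 0) :
    ∃ (a : ℝ) (b : ℂ), 4 * ((k : ℝ) + 1) < a ∧ ‖b‖ ≤ 1 / 2 ∧ g (fun w => F (((a⁻¹ : ℝ) : ℂ) * w + b)) 0 = 1 ∧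
      ∀ z ∈ ball (0 : ℂ) (k + 1), g (fun w => F (((a⁻¹ : ℝ) : ℂ) * w + b)) z ≤ 2 := by
  have hn : (0 : ℝ) ≤ k := Nat.cast_nonneg k
  obtain ⟨u, hu⟩ : ∃ u : ℂ → ℝ, u = fun z => g F z * (1 / 2 - ‖z‖) := ⟨_, rfl⟩
  have husc : UpperSemicontinuousOn u (closedBall (0 : ℂ) (1 / 2)) := by
    rw [hu]
    refine Ab_usc_mul ?_ (by fun_prop) (fun x _ => E.nonneg F hF _) ?_
    · intro x _ y hy
      exact mem_nhdsWithin_of_mem_nhds (E.usc F hF x y hy)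
    · intro x hx
      have : ‖x‖ ≤ 1 / 2 := by simpa using hx
      linarith
  obtain ⟨z₀, hz₀, hmax⟩ := husc.exists_isMaxOn ⟨0, by simp⟩ (isCompact_closedBall _ _)
  have hz₀n : ‖z₀‖ ≤ 1 / 2 := by simpa using hz₀
  have h0 : u 0 ≤ u z₀ := hmax (by simp : (0 : ℂ) ∈ closedBall (0 : ℂ) (1 / 2))
  have hu0 : u 0 = g F 0 / 2 := by simp only [hu, norm_zero]; ring
  have hm : 2 * ((k : ℝ) + 1) < u z₀ := by rw [hu0] at h0; linarith
  obtain ⟨e, hd⟩ : ∃ e : ℝ, e = 1 / 2 - ‖z₀‖ := ⟨_, rfl⟩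
  have hd0 : 0 ≤ e := by rw [hd]; linarith
  have hd1 : e ≤ 1 / 2 := by rw [hd]; linarith [norm_nonneg z₀]
  obtain ⟨a, ha⟩ : ∃ a : ℝ, a = g F z₀ := ⟨_, rfl⟩
  have ha0 : 0 ≤ a := by rw [ha]; exact E.nonneg F hF _
  have huz : u z₀ = a * e := by rw [hu, ha, hd]
  have hmd : 2 * ((k : ℝ) + 1) < a * e := by rw [← huz]; exact hm
  have hpos : 0 < a * e := by linarith
  have hapos : 0 < a := by
    rcases ha0.lt_or_eq with h | h
    · exact h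
    · rw [← h] at hpos; simp at hpos
  have hdpos : 0 < e := by
    rcases hd0.lt_or_eq with h | h
    · exact h
    · rw [← h] at hpos; simp at hpos
  have hbig : 4 * ((k : ℝ) + 1) < a := by
    have h1 : a * e ≤ a * (1 / 2) := mul_le_mul_of_nonneg_left hd1 hapos.le
    linarith
  have hac : (((a⁻¹ : ℝ)) : ℂ) ≠ 0 := by exact_mod_cast inv_ne_zero hapos.ne'
  have haff : ∀ z, g (fun w => F (((a⁻¹ : ℝ) : ℂ) * w + z₀)) z = a⁻¹ * g F (((a⁻¹ : ℝ) : ℂ) * z + z₀) := by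
    intro z
    rw [E.aff F hF _ _ hac z, Complex.norm_real, Real.norm_of_nonneg (by positivity)]
  refine ⟨a, z₀, hbig, hz₀n, ?_, ?_⟩
  · rw [haff, mul_zero, zero_add, ← ha]
    exact inv_mul_cancel₀ hapos.ne'
  · intro ζ hζ
    have hζn : ‖ζ‖ < k + 1 := by simpa using hζ
    obtain ⟨y, hy⟩ : ∃ y : ℂ, y = z₀ + ((a⁻¹ : ℝ) : ℂ) * ζ := ⟨_, rfl⟩
    have h1 : ‖y‖ ≤ ‖z₀‖ + a⁻¹ * ‖ζ‖ := by
      rw [hy]
      calc ‖z₀ + ((a⁻¹ : ℝ) : ℂ) * ζ‖ ≤ ‖z₀‖ + ‖((a⁻¹ : ℝ) : ℂ) * ζ‖ := norm_add_le _ _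
        _ = ‖z₀‖ + a⁻¹ * ‖ζ‖ := by
          rw [norm_mul, Complex.norm_real, Real.norm_of_nonneg (by positivity)]
    have h2 : a⁻¹ * ‖ζ‖ ≤ e / 2 := by
      rw [inv_mul_le_iff₀ hapos]
      linarith
    have h3 : ‖z₀‖ = 1 / 2 - e := by rw [hd]; ring
    have h4 : ‖y‖ ≤ 1 / 2 - e / 2 := by linarith
    have hyb : y ∈ closedBall (0 : ℂ) (1 / 2) := by
      rw [mem_closedBall_zero_iff]
      linarith
    have h5 : u y ≤ u z₀ := hmax hyb
    have h6 : u y = g F y * (1 / 2 - ‖y‖) := by rw [hu]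
    rw [h6, huz] at h5
    have h7 : 0 ≤ g F y := E.nonneg F hF _
    have h8 : g F y * (e / 2) ≤ a * e := le_trans (mul_le_mul_of_nonneg_left (by linarith) h7) h5
    have h9 : g F y ≤ 2 * a := by
      by_contra hc
      push Not at hc
      have : 2 * a * (e / 2) < g F y * (e / 2) := mul_lt_mul_of_pos_right hc (by linarith)
      linarith
    rw [haff, inv_mul_le_iff₀ hapos]
    have h10 : ((a⁻¹ : ℝ) : ℂ) * ζ + z₀ = y := by rw [hy]; ring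
    rw [h10]
    linarith

theorem Ab_smul_mem (h : AffOpen X K P d) (hX : IsCone X) {x : EN N} (hx : x ∈ K) {c : ℂ} (hc : c ≠ 0) : c • x ∈ K := by
  rw [h.mem] at hx ⊢
  refine ⟨hX.smul_mem _ hx.1 c hc, fun i => ?_⟩
  rw [h.smul]
  exact mul_ne_zero (pow_ne_zero _ hc) (hx.2 i)

/-- MODULE Ab: the local bound, (1) of the note -/
theorem bound_local (S : Setup X K T P d rho M c₀ C g n) :
    ∃ C₁ : ℝ, 0 < C₁ ∧ ∀ F, Ent K T F → (∀ z ∈ ball (0 : ℂ) 1, n (F z) (deriv F z) ≤ 1) → g F 0 ≤ C₁ := by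
  by_contra hcon
  push Not at hcon
  have hKX : K ⊆ X := F1_KX S
  have hbig : ∀ k : ℕ, ∃ F : ℂ → EN N, Ent K T F ∧ (∀ z ∈ ball (0 : ℂ) 1, n (F z) (deriv F z) ≤ 1) ∧ 4 * ((k : ℝ) + 1) < g F 0 :=
    fun k => hcon _ (by positivity)
  choose F hF hFn hg using hbig
  have hresc := fun k => Ab_rescale S.en.toEnergy (hF k) k (hg k)
  choose a b ha hb h1 h2 using hresc
  have ha0 : ∀ k, 0 < a k := fun k => lt_trans (by positivity) (ha k)
  have hac : ∀ k, ((((a k)⁻¹ : ℝ)) : ℂ) ≠ 0 := fun k => by exact_mod_cast inv_ne_zero (ha0 k).ne'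
  obtain ⟨G, hG⟩ : ∃ G : ℕ → ℂ → EN N, G = fun k w => F k ((((a k)⁻¹ : ℝ) : ℂ) * w + b k) := ⟨_, rfl⟩
  have hGE : ∀ k, Ent K T (G k) := by
    intro k
    rw [hG]
    exact (hF k).comp_affine (hac k) (b k)
  have hGn : ∀ k : ℕ, ∀ ζ ∈ ball (0 : ℂ) ((k : ℝ) + 1), n (G k ζ) (deriv (G k) ζ) ≤ (a k)⁻¹ := by
    intro k ζ hζ
    have hζn : ‖ζ‖ < k + 1 := by simpa using hζ
    have h3 := n_aff S.gauge hKX (hF k).diff (hF k).mem (((a k)⁻¹ : ℝ) : ℂ) (b k) ζ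
    rw [hG]
    show n (F k ((((a k)⁻¹ : ℝ) : ℂ) * ζ + b k)) _ ≤ _
    rw [h3, Complex.norm_real, Real.norm_of_nonneg (inv_nonneg.mpr (ha0 k).le)]
    have h4 : (((a k)⁻¹ : ℝ) : ℂ) * ζ + b k ∈ ball (0 : ℂ) 1 := by
      rw [mem_ball_zero_iff]
      have h5 : ‖(((a k)⁻¹ : ℝ) : ℂ) * ζ‖ ≤ 1 / 4 := by
        rw [norm_mul, Complex.norm_real, Real.norm_of_nonneg (inv_nonneg.mpr (ha0 k).le), inv_mul_le_iff₀ (ha0 k)]
        have := ha k
        linarith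
      calc ‖(((a k)⁻¹ : ℝ) : ℂ) * ζ + b k‖ ≤ ‖(((a k)⁻¹ : ℝ) : ℂ) * ζ‖ + ‖b k‖ := norm_add_le _ _
        _ < 1 := by linarith [hb k]
    have h6 := hFn k _ h4
    have h7 := mul_le_mul_of_nonneg_left h6 (inv_nonneg.mpr (ha0 k).le)
    rwa [mul_one] at h7
  -- the normalised lifts
  have hnorm := fun k => exists_norm S.aff (hGE k).diff (hGE k).mem
  choose u hu hu0 huN using hnorm
  obtain ⟨L, hL⟩ : ∃ L : ℕ → ℂ → EN N, L = fun k w => u k w • G k w := ⟨_, rfl⟩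
  have hLE : ∀ k, Ent K T (L k) := by
    intro k
    rw [hL]
    refine ⟨(hu k).smul (hGE k).diff, fun z => Ab_smul_mem S.aff S.cone ((hGE k).mem z) (hu0 k z), ?_⟩
    obtain ⟨z, hz⟩ := (hGE k).out
    refine ⟨z, fun h => hz ?_⟩
    have h3 := S.Ts _ h (u k z)⁻¹ (inv_ne_zero (hu0 k z))
    rwa [smul_smul, inv_mul_cancel₀ (hu0 k z), one_smul] at h3
  have hLN : ∀ k, Nm P (L k) := by
    intro k
    rw [hL]
    exact huN k
  have hLg : ∀ k z, g (L k) z = g (G k) z := by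
    intro k z
    rw [hL]
    exact S.en.unit _ (hGE k) (u k) (hu k) (hu0 k) z
  have hLn : ∀ k z, n (L k z) (deriv (L k) z) = n (G k z) (deriv (G k) z) := by
    intro k z
    rw [hL]
    exact n_unit S.cone S.aff S.gauge (hGE k).diff (hGE k).mem (hu k) (hu0 k) z
  have h0' : ∀ k, (1 : ℝ) ≤ g (L k) 0 := by
    intro k
    rw [hLg, hG]
    exact (h1 k).ge
  have hA' : ∀ k : ℕ, ∀ z ∈ ball (0 : ℂ) (k + 1), g (L k) z ≤ 2 := by
    intro k z hz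
    rw [hLg, hG]
    exact h2 k z hz
  obtain ⟨𝒰, h𝒰⟩ : ∃ 𝒰 : Ultrafilter ℕ, 𝒰 = hyperfilter ℕ := ⟨_, rfl⟩
  have hle : (𝒰 : Filter ℕ) ≤ atTop := by rw [h𝒰]; exact Nat.hyperfilter_le_atTop
  have hainv : Tendsto (fun k => (a k)⁻¹) 𝒰 (𝓝 0) := by
    have hρ : Tendsto (fun k : ℕ => (k : ℝ) + 1) 𝒰 atTop :=
      (tendsto_atTop_add_const_right _ _ tendsto_natCast_atTop_atTop).mono_left hle
    have h3 : Tendsto a 𝒰 atTop := by
      refine tendsto_atTop_mono (fun k => ?_) hρ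
      have := ha k
      have h4 : (0 : ℝ) ≤ k := Nat.cast_nonneg k
      linarith
    exact tendsto_inv_atTop_zero.comp h3
  obtain ⟨H, hH, -, hord, ⟨z₁, w₁, hne⟩, hlim⟩ := compactness S 𝒰 hle L hLE hLN one_pos hA' h0'
  have hn0 : ∀ z, n (H z) (deriv H z) = 0 := by
    intro z
    have h3 : Tendsto (fun k => n (L k z) (deriv (L k) z)) 𝒰 (𝓝 (n (H z) (deriv H z))) :=
      n_tendsto S.gauge hKX (Eventually.of_forall fun k => ⟨(hLE k).diff, (hLE k).mem⟩) hH.diff hH.mem hlim z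
    have h4 : Tendsto (fun k => n (L k z) (deriv (L k) z)) 𝒰 (𝓝 0) := by
      refine tendsto_of_tendsto_of_tendsto_of_le_of_le' tendsto_const_nhds hainv ?_ ?_
      · exact Eventually.of_forall fun k => S.gauge.nonneg _ ((hLE k).mem z) _
          (F1_tan (hLE k).diff (fun w => hKX ((hLE k).mem w)) z)
      · obtain ⟨k₀, hk₀⟩ := exists_nat_gt ‖z‖
        have h5 : ∀ᶠ k : ℕ in 𝒰, k₀ ≤ k := hle (eventually_ge_atTop k₀)
        filter_upwards [h5] with k hk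
        rw [hLn]
        refine hGn k z ?_
        rw [mem_ball_zero_iff]
        have : (k₀ : ℝ) ≤ k := by exact_mod_cast hk
        linarith
    exact tendsto_nhds_unique h3 h4
  rcases S.null H hH.diff hH.mem hord hn0 with h | h
  · obtain ⟨z, hz⟩ := hH.out
    exact hz (h z)
  · obtain ⟨c, hc⟩ := h z₁ w₁
    exact hne c hc

end Pool.Agent.SDA
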