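import Pool.Agent.SG2.NegD
import Pool.Agent.SDA.RDefs2

/-!
# SDA CDefs: short forms of the definitions for the common statement on surfaces and open surfaces
-/

set_option autoImplicit false

open Topology Filter MvPolynomial

noncomputable section

namespace Pool.Agent.SDA.C

open Pool.Agent.H36.BP (EN fs)
open Pool.Agent.H14.PP (Tan)
open Pool.Agent.H17BP (Pr IsForm NoZeros IsChart)
open Pool.Agent.H17EF (coneE)
open Pool.Agent.SG (MinusTwo)
open Pool.Agent.SG2 (zers RatCurve)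
open Pool.Agent.AD (SymDiff)

variable {N k : ℕ}

/-! ## surfaces with `(-2)`-curves -/

/-- the derivative of `σ` at `p` along `v` -/
def dir (σ : ℂ × ℂ → EN N) (p v : ℂ × ℂ) : EN N := fderiv ℂ σ p v

/-- The curve `zers P Q` is smooth at `x`, given in the chart `σ` by `p.1 = 0`, with the reduced equation `Q k`, and `Ω` vanishes to order at most `μ`. -/
def SmoothPt (P : Ideal (MvPolynomial (Fin (N + 1)) ℂ)) (Ω : EN N → EN N → EN N → ℂ) {κ : Type} (Q : κ → MvPolynomial (Fin (N + 1)) ℂ) (μ : ℕ)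
    (x : EN N) : Prop :=
  ∃ (k : κ) (σ : ℂ × ℂ → EN N) (τ : EN N → ℂ × ℂ), IsChart (coneE P) σ τ ∧ σ 0 = x ∧
    (∃ R : ℂ × ℂ → ℂ, AnalyticAt ℂ R 0 ∧ R 0 ≠ 0 ∧ ∀ᶠ p in 𝓝 (0 : ℂ × ℂ), eval (σ p).ofLp (Q k) = p.1 * R p) ∧
    (∀ᶠ p in 𝓝 (0 : ℂ × ℂ), p.1 = 0 → ∀ i, eval (σ p).ofLp (Q i) = 0) ∧
    ∃ B : ℝ, ∀ᶠ p in 𝓝 (0 : ℂ × ℂ), ‖p.1‖ ^ μ ≤ B * ‖Ω (σ p) (dir σ p (1, 0)) (dir σ p (0, 1))‖

/-- Two smooth rational curves with self-intersection `-2` meet transversally at `x` (given by the local models `MinusTwo`). -/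
def Crossing (X : Set (EN N)) (x : EN N) : Prop :=
  ∃ (σ₁ : ℂ × ℂ → EN N) (τ₁ : EN N → ℂ × ℂ) (Φ₁ G₁ : ℂ × ℂ → EN N) (d₁ : ℕ) (σ₂ : ℂ × ℂ → EN N) (τ₂ : EN N → ℂ × ℂ) (Φ₂ G₂ : ℂ × ℂ → EN N) (d₂ : ℕ),
    MinusTwo X σ₁ τ₁ Φ₁ G₁ d₁ ∧ MinusTwo X σ₂ τ₂ Φ₂ G₂ d₂ ∧ Pr (σ₁ 0) x ∧ Pr (σ₂ 0) x ∧
      LinearIndependent ℂ ![x, dir σ₁ 0 (0, 1), dir σ₂ 0 (0, 1)]

/-- A surface with a section `Ω` of `m K - j H` whose zeros lie in the curve `zers P Q`; this curve is covered by rational curves and contains the rational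
curves of degree `d`, `j d ≤ μ`; at each of its points it is smooth and `Ω` vanishes to order at most `μ < m` (`SmoothPt`), or two curves with
self-intersection `-2` cross. -/
structure NegSurf (P : Ideal (MvPolynomial (Fin (N + 1)) ℂ)) (m j : ℕ) (Ω : EN N → EN N → EN N → ℂ) {κ : Type}
    (Q : κ → MvPolynomial (Fin (N + 1)) ℂ) (e μ : ℕ) : Prop where
  one_j : 1 ≤ j
  lt : μ < m
  pos : 1 ≤ e
  form : IsForm (coneE P) m j Ω
  hom : ∀ k, (Q k).IsHomogeneous e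
  noZeros : NoZeros (coneE P) (zers P Q) Ω
  loc : ∀ x ∈ zers P Q, SmoothPt P Ω Q μ x ∨ Crossing (coneE P) x
  cover : ∀ x ∈ zers P Q, ∃ (d : ℕ) (K K' : ℂ → EN N) (z : ℂ), 1 ≤ d ∧ RatCurve (coneE P) d K K' ∧ Pr (K z) x
  rat : ∀ (d : ℕ) (K K' : ℂ → EN N), 1 ≤ d → j * d ≤ μ → RatCurve (coneE P) d K K' → ∀ z, K z ∈ zers P Q

theorem NegSurf.neg {P : Ideal (MvPolynomial (Fin (N + 1)) ℂ)} {m j : ℕ} {Ω : EN N → EN N → EN N → ℂ} {κ : Type}
    {Q : κ → MvPolynomial (Fin (N + 1)) ℂ} {e μ : ℕ} (h : NegSurf P m j Ω Q e μ) : Pool.Agent.SG2.NegSurf P m j Ω Q e μ where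
  one_j := h.one_j
  lt := h.lt
  pos := h.pos
  form := h.form
  hom := h.hom
  noZeros := h.noZeros
  loc := h.loc
  cover := h.cover
  rat := h.rat

/-! ## symmetric differentials on open surfaces -/

/-- the Fubini–Study length of the tangent vector `v` at the point `x` -/
def len (x v : Fin (N + 1) → ℂ) : ℝ :=
  Real.sqrt ((∑ i, ‖x i‖ ^ 2) * (∑ i, ‖v i‖ ^ 2) - ‖∑ i, star (x i) * v i‖ ^ 2) / ∑ i, ‖x i‖ ^ 2

/-- `dh (v) / h (x) - e ⟨x, v⟩ / |x|²`, the derivative at `x` of `log (|h| ^ 2 / |x| ^ (2 e))` along the vector `v` of type `(1, 0)`. -/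
def dlog (h : MvPolynomial (Fin (N + 1)) ℂ) (e : ℕ) (x v : Fin (N + 1) → ℂ) : ℂ :=
  (∑ i, eval x (pderiv i h) * v i) / eval x h - e * ((∑ i, star (x i) * v i) / ∑ i, star (x i) * x i)

/-- The logarithmic length of the tangent vector `v` at the point `x`. -/
def logLength (H : Fin k → MvPolynomial (Fin (N + 1)) ℂ) (e : Fin k → ℕ) (x v : Fin (N + 1) → ℂ) : ℝ := len x v + ∑ i, ‖dlog (H i) (e i) x v‖

theorem inner_eq (x v : EN N) : inner ℂ x v = ∑ i, star (x.ofLp i) * v.ofLp i := by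
  rw [PiLp.inner_apply]
  exact Finset.sum_congr rfl fun i _ => by rw [RCLike.inner_apply, mul_comm]; rfl

theorem len_eq (x v : EN N) : len x.ofLp v.ofLp = fs x v := by
  unfold len fs Pool.Agent.H36.BP.wd
  rw [← inner_eq, EuclideanSpace.norm_sq_eq x, EuclideanSpace.norm_sq_eq v]

theorem logLength_eq (H : Fin k → MvPolynomial (Fin (N + 1)) ℂ) (e : Fin k → ℕ) (x v : EN N) :
    logLength H e x.ofLp v.ofLp = Pool.Agent.SDA.logLength H e x v := by
  have h1 : ∀ h : MvPolynomial (Fin (N + 1)) ℂ, fderiv ℂ (fun y : EN N => eval y.ofLp h) x v = ∑ i, eval x.ofLp (pderiv i h) * v.ofLp i := by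
    intro h
    have h2 : HasFDerivAt (fun y : EN N => eval y.ofLp h) _ x :=
      (Pool.Agent.H13.SM.Inv_hasFDerivAt_eval h x.ofLp).comp x (PiLp.hasFDerivAt_ofLp (𝕜 := ℂ) 2 x)
    rw [h2.fderiv]
    simp
  have h4 : ((‖x‖ : ℂ)) ^ 2 = ∑ i, star (x.ofLp i) * x.ofLp i := by
    rw [← inner_eq, inner_self_eq_norm_sq_to_K]
    rfl
  unfold logLength Pool.Agent.SDA.logLength dlog
  rw [← inner_eq, ← h4, len_eq]
  simp only [h1]

/-- For every `ε > 0` the value of the symmetric differential `θ` on a tangent vector `v` of the complement of the hypersurfaces `{H i = 0}` is at most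
`(ε |v|_log + C |v|) ^ m`, where `|v|` is the Fubini–Study length.  If the curves `{H i = 0}` are smooth and cross normally, then this means that `θ` has
at most logarithmic poles and vanishes on the static vectors, that is, on the logarithmic tangent vectors at the points of the boundary whose image in
the tangent space is `0`. -/
def VanishesOnStatic {P : Ideal (MvPolynomial (Fin (N + 1)) ℂ)} {H : Fin k → MvPolynomial (Fin (N + 1)) ℂ} (e : Fin k → ℕ) {m : ℕ}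
    (θ : SymDiff (openCone P H) m) : Prop :=
  ∀ ε : ℝ, 0 < ε → ∃ C : ℝ, ∀ x ∈ openCone P H, ∀ v, Tan (openCone P H) x v →
    ‖θ.toFun x v‖ ≤ (ε * logLength H e x.ofLp v.ofLp + C * len x.ofLp v.ofLp) ^ m

theorem VanishesOnStatic.van {P : Ideal (MvPolynomial (Fin (N + 1)) ℂ)} {H : Fin k → MvPolynomial (Fin (N + 1)) ℂ} {e : Fin k → ℕ} {m : ℕ}
    {θ : SymDiff (openCone P H) m} (h : VanishesOnStatic e θ) : Pool.Agent.SDA.VanishesOnStatic e θ := by
  intro ε hε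
  obtain ⟨C, hC⟩ := h ε hε
  refine ⟨C, fun x hx v hv => ?_⟩
  rw [← logLength_eq, ← len_eq]
  exact hC x hx v hv

end Pool.Agent.SDA.C
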