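import Pool.Agent.SDA.Td

/-!
# SDA Co: the good points are everywhere
-/

set_option autoImplicit false

open Topology Filter Metric

noncomputable section

namespace Pool.Agent.SDA

open Pool.Agent.H36.BP (EN fs wd Sub OrdTwo)
open Pool.Agent.H14.PP (IsCone Tan)
open Pool.Agent.SY (Ent Energy)

variable {N : ℕ} {ι : Type} [Fintype ι] {X K T : Set (EN N)} {P : ι → EN N → ℂ} {d : ι → ℕ} {rho : EN N → ℝ} {M : ℕ} {c₀ C : ℝ}
  {g : (ℂ → EN N) → ℂ → ℝ} {n : EN N → EN N → ℝ}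

/-- `rho` is continuous along an entire curve in `K` -/
theorem rho_comp (S : Setup X K T P d rho M c₀ C g n) {F : ℂ → EN N} (hF : Ent K T F) : Continuous fun z => rho (F z) :=
  S.rhoc.comp_continuous hF.diff.continuous fun z => ((S.aff.mem _).1 (hF.mem z)).1

/-- MODULE Co: the good points are everywhere -/
theorem cover (S : Setup X K T P d rho M c₀ C g n) {δ : ℝ} (hδ : 0 < δ) (hnear : Near K T (fun x => ‖x‖) rho c₀ g δ) :
    ∃ R₁ : ℝ, 0 < R₁ ∧ ∀ F, Cl K T P n F → (∃ p, δ ≤ rho (F p)) → ∀ z, ∃ p, ‖p - z‖ ≤ R₁ ∧ δ ≤ rho (F p) := by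
  obtain ⟨R₁, hR₁, h⟩ := tangent S hδ hnear
  refine ⟨R₁, hR₁, fun F hF hne z => ?_⟩
  have hcl : IsClosed {p : ℂ | δ ≤ rho (F p)} := isClosed_le continuous_const (rho_comp S hF.1)
  obtain ⟨p, hp, hd⟩ := hcl.exists_infDist_eq_dist hne z
  refine ⟨p, h F hF z p hp fun w hw => ?_, hp⟩
  by_contra hc
  have h1 : infDist z {p : ℂ | δ ≤ rho (F p)} ≤ dist z w := infDist_le_dist_of_mem (not_lt.1 hc)
  rw [hd, dist_comm z p, dist_comm z w, dist_eq_norm, dist_eq_norm] at h1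
  exact absurd hw (not_lt.2 h1)

end Pool.Agent.SDA
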