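import Pool.Agent.SY.DefB
import Pool.Agent.H36.BPL.Defs
import Pool.Agent.H36.BP.OrdDefs
import Pool.Agent.H14.PP.Defs

/-!
# SDA Defs: affine log surfaces

`X` is the cone of a smooth closed surface, `K` the cone of an open part of it, `T` the cone of a curve, `T ⊇ X ∖ K`.
-/

set_option autoImplicit false

open Topology Filter Metric

noncomputable section

namespace Pool.Agent.SDA

open Pool.Agent.H36.BP (EN fs wd Sub OrdTwo)
open Pool.Agent.H17BP (Pr Surface IsForm NoZeros Eqs IsChart)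
open Pool.Agent.H14.PP (IsCone Tan)
open Pool.Agent.H36.BPL (OpenPart PoleLE)
open Pool.Agent.SY (Ent Energy)

/-! ## the metric -/

/-- The metric has no curvature error where `rho < δ`. -/
def Near {V : Type} [NormedAddCommGroup V] [NormedSpace ℂ V] (K T : Set V) (nu rho : V → ℝ) (c₀ : ℝ) (g : (ℂ → V) → ℂ → ℝ) (δ : ℝ) : Prop :=
  ∀ F, Ent K T F → ∀ z, rho (F z) < δ → 0 < g F z → Sub (fun w => g F w * nu (F w) ^ (-c₀)) z 0

/-- A metric along the entire curves in the open part `K` of the closed cone `X`. -/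
structure EnergyK {V : Type} [NormedAddCommGroup V] [NormedSpace ℂ V] (X K T : Set V) (nu rho : V → ℝ) (M : ℕ) (c₀ C : ℝ)
    (g : (ℂ → V) → ℂ → ℝ) : Prop extends Energy K T nu rho M c₀ C g where
  near : ∃ δ : ℝ, 0 < δ ∧ Near K T nu rho c₀ g δ
  bdy : ∀ (l : Filter ℕ), l.NeBot → ∀ (r A ε : ℝ), 0 < r → 0 < ε → ∀ (F : ℕ → ℂ → V) (H : ℂ → V), (∀ᶠ n in l, Ent K T (F n)) →
    (∀ᶠ n in l, ∀ z ∈ ball (0 : ℂ) r, g (F n) z ≤ A) → (∀ᶠ n in l, ε ≤ g (F n) 0) →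
    (∃ h : ℕ → ℂ → ℂ, (∀ᶠ n in l, DifferentiableOn ℂ (h n) (ball 0 r) ∧ ∀ z ∈ ball (0 : ℂ) r, h n z ≠ 0) ∧
      TendstoLocallyUniformlyOn (fun n z => h n z • F n z) H l (ball 0 r)) →
    (∀ z ∈ ball (0 : ℂ) r, H z ∈ X) → H 0 ∈ K

/-- A closed surface `X`, an open part `K` of it, a curve `T ⊇ X ∖ K`, a section `Ω` of `m K - j H` on `K` without zeros outside `T` and with
poles of order at most `m - 1` along `X ∖ K`. -/
structure ModelE {V : Type} [NormedAddCommGroup V] [NormedSpace ℂ V] (X K T : Set V) (m j : ℕ) (Ω : V → V → V → ℂ) {κ : Type}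
    (Q : κ → V → ℂ) (D : ℕ) : Prop where
  surf : Surface X
  opn : OpenPart X K
  sub : ∀ x ∈ X, x ∉ K → x ∈ T
  one_m : 1 ≤ m
  one_j : 1 ≤ j
  form : IsForm K m j Ω
  noZeros : NoZeros K T Ω
  pole : PoleLE X K (m - 1) Ω
  eqs : Eqs X T Q D
  thin : ∀ σ τ, IsChart X σ τ → ∃ᶠ p in 𝓝 (0 : ℂ × ℂ), σ p ∉ T

/-! ## affine surfaces -/

variable {N : ℕ} {ι : Type} [Fintype ι]

/-- The logarithmic length of `v` at `x`, for the functions `P i`, homogeneous of degree `d i`. -/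
def Lg (P : ι → EN N → ℂ) (d : ι → ℕ) (x v : EN N) : ℝ :=
  fs x v + ∑ i, ‖fderiv ℂ (P i) x v / P i x - (d i : ℂ) * (inner ℂ x v / (‖x‖ : ℂ) ^ 2)‖

/-- `K` is the part of the cone `X` where the functions `P i` do not vanish. -/
structure AffOpen (X K : Set (EN N)) (P : ι → EN N → ℂ) (d : ι → ℕ) : Prop where
  an : ∀ i x, AnalyticAt ℂ (P i) x
  smul : ∀ i (c : ℂ) (x : EN N), P i (c • x) = c ^ d i * P i x
  pos : ∀ i, 1 ≤ d i
  ne : Nonempty ι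
  mem : ∀ x, x ∈ K ↔ x ∈ X ∧ ∀ i, P i x ≠ 0

/-- The lift `F` is normalised. -/
def Nm (P : ι → EN N → ℂ) (F : ℂ → EN N) : Prop := ∀ z, ∏ i, P i (F z) = 1

/-- A pseudo-length `n` on `K` which is bounded by the Fubini-Study length up to a small multiple of the logarithmic length. -/
structure Gauge (X K : Set (EN N)) (P : ι → EN N → ℂ) (d : ι → ℕ) (n : EN N → EN N → ℝ) : Prop where
  nonneg : ∀ x ∈ K, ∀ v, Tan X x v → 0 ≤ n x v
  cont : ContinuousOn (fun p : EN N × EN N => n p.1 p.2) {p | p.1 ∈ K ∧ Tan X p.1 p.2}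
  inv : ∀ x ∈ K, ∀ v, Tan X x v → ∀ c a : ℂ, c ≠ 0 → n (c • x) (c • v + a • x) = n x v
  hom : ∀ x ∈ K, ∀ v, Tan X x v → ∀ c : ℂ, n x (c • v) = ‖c‖ * n x v
  growth : ∀ ε : ℝ, 0 < ε → ∃ C : ℝ, 0 ≤ C ∧ ∀ x ∈ K, ∀ v, Tan X x v → n x v ≤ ε * Lg P d x v + C * fs x v

/-- The hypotheses of the function theory. -/
structure Setup (X K T : Set (EN N)) (P : ι → EN N → ℂ) (d : ι → ℕ) (rho : EN N → ℝ) (M : ℕ) (c₀ C : ℝ) (g : (ℂ → EN N) → ℂ → ℝ)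
    (n : EN N → EN N → ℝ) : Prop where
  cone : IsCone X
  aff : AffOpen X K P d
  gauge : Gauge X K P d n
  en : EnergyK X K T (fun x => ‖x‖) rho M c₀ C g
  TX : T ⊆ X
  Ts : ∀ x ∈ T, ∀ c : ℂ, c ≠ 0 → c • x ∈ T
  KT : ∀ x ∈ X, x ∉ K → x ∈ T
  rho0 : ∀ x ∈ X, 0 ≤ rho x
  rhoT : ∀ x ∈ X, (rho x = 0 ↔ x ∈ T)
  rhoc : ContinuousOn rho X
  rhos : ∀ x ∈ X, ∀ c : ℂ, c ≠ 0 → rho (c • x) = rho x
  Ti : ∀ F : ℂ → EN N, Differentiable ℂ F → (∀ z, F z ∈ X) → (∃ z, F z ∉ T) → ∀ z₀, ∀ᶠ z in 𝓝[≠] z₀, F z ∉ T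
  null : ∀ F : ℂ → EN N, Differentiable ℂ F → (∀ z, F z ∈ K) → OrdTwo F → (∀ z, n (F z) (deriv F z) = 0) →
    (∀ z, F z ∈ T) ∨ ∀ z w, ∃ c : ℂ, F z = c • F w

/-- The class: the normalised entire curves in `K`, not contained in `T`, of constant length one. -/
def Cl (K T : Set (EN N)) (P : ι → EN N → ℂ) (n : EN N → EN N → ℝ) (F : ℂ → EN N) : Prop :=
  Ent K T F ∧ Nm P F ∧ ∀ z, n (F z) (deriv F z) = 1

/-- `μ` tends to infinity, grows at most like a polynomial, and is almost constant on the discs of radius `R / μ`. -/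
def Tame (μ : ℂ → ℝ) : Prop :=
  Tendsto μ (cocompact ℂ) atTop ∧ (∃ (C : ℝ) (k : ℕ), ∀ z, μ z ≤ C * (1 + ‖z‖) ^ k) ∧
    ∀ R ε : ℝ, 0 < ε → ∀ᶠ z in cocompact ℂ, ∀ w : ℂ, ‖w‖ ≤ R → |μ (z + w / (μ z : ℂ)) / μ z - 1| ≤ ε

/-- A logarithmic symmetric differential of degree `m` on `K` which vanishes on the static vectors. -/
structure LogForm (X K : Set (EN N)) (P : ι → EN N → ℂ) (d : ι → ℕ) (m : ℕ) (w : EN N → EN N → ℂ) : Prop where
  one_m : 1 ≤ m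
  cont : ContinuousOn (fun p : EN N × EN N => w p.1 p.2) {p | p.1 ∈ K ∧ Tan X p.1 p.2}
  inv : ∀ x ∈ K, ∀ v, Tan X x v → ∀ c a : ℂ, c ≠ 0 → w (c • x) (c • v + a • x) = w x v
  hom : ∀ x ∈ K, ∀ v, Tan X x v → ∀ c : ℂ, w x (c • v) = c ^ m * w x v
  hol : ∀ F : ℂ → EN N, Differentiable ℂ F → (∀ z, F z ∈ K) → Differentiable ℂ (fun z => w (F z) (deriv F z))
  growth : ∀ ε : ℝ, 0 < ε → ∃ C : ℝ, 0 ≤ C ∧ ∀ x ∈ K, ∀ v, Tan X x v → ‖w x v‖ ≤ (ε * Lg P d x v + C * fs x v) ^ m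

/-- `log` of the inverse distance to `P i = 0` -/
def lam (P : ι → EN N → ℂ) (d : ι → ℕ) (i : ι) (x : EN N) : ℝ := d i * Real.log ‖x‖ - Real.log ‖P i x‖

/-- the derivative of `lam i` along a curve; `Lg` is `fs` plus the sum of the absolute values of these -/
def ell (P : ι → EN N → ℂ) (d : ι → ℕ) (i : ι) (x v : EN N) : ℂ :=
  fderiv ℂ (P i) x v / P i x - (d i : ℂ) * (inner ℂ x v / (‖x‖ : ℂ) ^ 2)

/-- the pseudo-length of a family of forms -/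
def nForms {J : Type} [Fintype J] (m : J → ℕ) (w : J → EN N → EN N → ℂ) (x v : EN N) : ℝ := ∑ j, ‖w j x v‖ ^ ((m j : ℝ)⁻¹)

end Pool.Agent.SDA
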