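import Pool.Agent.SDA.Defs
import Pool.Agent.SDA.RDefs

/-!
# SDA E1: the functions `H i` on the cone
-/

set_option autoImplicit false

open Topology Filter Metric MvPolynomial

noncomputable section

namespace Pool.Agent.SDA

open Pool.Agent.H36.BP (EN)
open Pool.Agent.H14.PP (IsOpenPart)
open Pool.Agent.H62.FC (Homog)
open Pool.Agent.H17EF (coneE)

variable {N k : ℕ} {P : Ideal (MvPolynomial (Fin (N + 1)) ℂ)} {H : Fin k → MvPolynomial (Fin (N + 1)) ℂ} {e : Fin k → ℕ}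

/-- polynomials are analytic on `EN N` -/
theorem E1_an (Q : MvPolynomial (Fin (N + 1)) ℂ) (x : EN N) : AnalyticAt ℂ (fun y : EN N => eval y.ofLp Q) x := by
  have h := AnalyticAt.aeval_mvPolynomial (𝕜 := ℂ) (f := fun y : EN N => y.ofLp) (z := x) (fun i =>
    (EuclideanSpace.proj (𝕜 := ℂ) i : EN N →L[ℂ] ℂ).analyticAt x) Q
  simpa [MvPolynomial.aeval_eq_eval] using h

/-- MODULE E1: the functions `H i` on the cone -/
theorem affOpen (_hP : Homog P) (hk : 1 ≤ k) (hH : ∀ i, (H i).IsHomogeneous (e i)) (he : ∀ i, 1 ≤ e i) :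
    AffOpen (coneE P) (openCone P H) (fun i (x : EN N) => eval x.ofLp (H i)) e where
  an i x := E1_an (H i) x
  smul i c x := Pool.Agent.H17.eval_smul_of_isHomogeneous (hH i) c x.ofLp
  pos := he
  ne := ⟨⟨0, hk⟩⟩
  mem _ := Iff.rfl

/-- a relatively open part of a cone -/
theorem AffOpen.isOpenPart {ι : Type} [Fintype ι] {X K : Set (EN N)} {Q : ι → EN N → ℂ} {d : ι → ℕ}
    (hX : Pool.Agent.H14.PP.IsCone X) (h : AffOpen X K Q d) : IsOpenPart X K where
  subset x hx := ((h.mem x).1 hx).1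
  smul_mem x hx c hc := by
    obtain ⟨h1, h2⟩ := (h.mem x).1 hx
    refine (h.mem _).2 ⟨hX.smul_mem x h1 c hc, fun i => ?_⟩
    rw [h.smul]
    exact mul_ne_zero (pow_ne_zero _ hc) (h2 i)
  rel_open x hx := by
    obtain ⟨h1, h2⟩ := (h.mem x).1 hx
    have h3 : ∀ᶠ y in 𝓝 x, ∀ i, Q i y ≠ 0 := by
      rw [eventually_all]
      exact fun i => (h.an i x).continuousAt.eventually_ne (h2 i)
    filter_upwards [h3] with y hy hyX
    exact (h.mem y).2 ⟨hyX, hy⟩

end Pool.Agent.SDA
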