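import Pool.Agent.SDA.Defs
import Pool.Agent.H36.BP.WdA

/-!
# SDA Q3a: the pseudo-length of a family of forms is a gauge
-/

set_option autoImplicit false

open Topology Filter Metric

noncomputable section

namespace Pool.Agent.SDA

open Pool.Agent.H36.BP (EN fs wd Sub OrdTwo)
open Pool.Agent.H14.PP (IsCone Tan)
open Pool.Agent.SY (Ent Energy)

variable {N : ℕ} {ι : Type} [Fintype ι] {X K T : Set (EN N)} {P : ι → EN N → ℂ} {d : ι → ℕ}

private theorem q3a_Lg_nonneg (x v : EN N) : 0 ≤ Lg P d x v :=
  add_nonneg (Pool.Agent.H36.BP.fs_nonneg x v) (Finset.sum_nonneg fun _ _ => norm_nonneg _)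

variable {J : Type} [Fintype J] {m : J → ℕ} {w : J → EN N → EN N → ℂ}

private theorem q3a_nonneg (x v : EN N) : 0 ≤ nForms m w x v :=
  Finset.sum_nonneg fun _ _ => Real.rpow_nonneg (norm_nonneg _) _

/-- MODULE Q3 (1) -/
theorem gauge_forms (hw : ∀ j, LogForm X K P d (m j) (w j)) : Gauge X K P d (nForms m w) where
  nonneg x _ v _ := q3a_nonneg x v
  cont := by
    unfold nForms
    refine continuousOn_finsetSum _ fun j _ => ?_
    refine ((hw j).cont.norm).rpow_const fun p _ => Or.inr ?_
    positivity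
  inv x hx v hv c a hc := by
    unfold nForms
    exact Finset.sum_congr rfl fun j _ => by rw [(hw j).inv x hx v hv c a hc]
  hom x hx v hv c := by
    unfold nForms
    rw [Finset.mul_sum]
    refine Finset.sum_congr rfl fun j _ => ?_
    rw [(hw j).hom x hx v hv c, norm_mul, norm_pow, Real.mul_rpow (pow_nonneg (norm_nonneg _) _) (norm_nonneg _),
      Real.pow_rpow_inv_natCast (norm_nonneg _) (by have := (hw j).one_m; omega)]
  growth ε hε := by
    have hc : (0 : ℝ) < (Fintype.card J : ℝ) + 1 := by positivity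
    have he : 0 < ε / ((Fintype.card J : ℝ) + 1) := div_pos hε hc
    choose C hC0 hC using fun j => (hw j).growth _ he
    refine ⟨∑ j, C j, Finset.sum_nonneg fun j _ => hC0 j, fun x hx v hv => ?_⟩
    have hL := q3a_Lg_nonneg (P := P) (d := d) x v
    have hfs := Pool.Agent.H36.BP.fs_nonneg x v
    calc nForms m w x v ≤ ∑ j, (ε / ((Fintype.card J : ℝ) + 1) * Lg P d x v + C j * fs x v) := by
          unfold nForms
          refine Finset.sum_le_sum fun j _ => ?_
          have h0 : 0 ≤ ε / ((Fintype.card J : ℝ) + 1) * Lg P d x v + C j * fs x v :=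
            add_nonneg (mul_nonneg he.le hL) (mul_nonneg (hC0 j) hfs)
          calc ‖w j x v‖ ^ ((m j : ℝ)⁻¹) ≤ ((ε / ((Fintype.card J : ℝ) + 1) * Lg P d x v + C j * fs x v) ^ m j) ^ ((m j : ℝ)⁻¹) :=
                Real.rpow_le_rpow (norm_nonneg _) (hC j x hx v hv) (by positivity)
            _ = _ := Real.pow_rpow_inv_natCast h0 (by have := (hw j).one_m; omega)
      _ = (Fintype.card J : ℝ) * (ε / ((Fintype.card J : ℝ) + 1)) * Lg P d x v + (∑ j, C j) * fs x v := by
          rw [Finset.sum_add_distrib, Finset.sum_const, Finset.sum_mul, Finset.card_univ, nsmul_eq_mul]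
          ring
      _ ≤ ε * Lg P d x v + (∑ j, C j) * fs x v := by
          have h1 : (Fintype.card J : ℝ) * (ε / ((Fintype.card J : ℝ) + 1)) ≤ ε := by
            rw [mul_div_assoc', div_le_iff₀ hc]
            nlinarith
          have := mul_le_mul_of_nonneg_right h1 hL
          linarith

end Pool.Agent.SDA
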