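import Pool.Agent.SDA.E1
import Pool.Agent.SDA.E2
import Pool.Agent.SDA.EP
import Pool.Agent.SDA.Q3a
import Pool.Agent.SY.F1G

/-!
# SDA E3: the hypotheses of the function theory hold for the complement of hypersurface sections of a smooth surface
-/

set_option autoImplicit false

open Topology Filter Metric MvPolynomial

noncomputable section

namespace Pool.Agent.SDA

open Pool.Agent.H36.BP (EN fs OrdTwo isCone_transport)
open Pool.Agent.H14.PP (IsCone Tan)
open Pool.Agent.H14.V (IsLift isLift_mk)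
open Pool.Agent.H17 (PN VanishesAt HolomorphicInto)
open Pool.Agent.H17BP (Surface)
open Pool.Agent.H62.FC (Homog)
open Pool.Agent.H62.SA (locVar OnBd)
open Pool.Agent.H17LG.Variety (FunField OnBoundary IsLogGeneralType)
open Pool.Agent.H17EF (projVar coneE LE)
open Pool.Agent.H13.SM (conTan cone)
open Pool.Agent.H13.OT (OrderTwo)
open Pool.Agent.H22.WL (evF evF_diff evF_smul vanishesAt_lift)
open Pool.Agent.AD (SymDiff TangentTo)

variable {N k : ℕ} {P : Ideal (MvPolynomial (Fin (N + 1)) ℂ)} {H : Fin k → MvPolynomial (Fin (N + 1)) ℂ} {e : Fin k → ℕ}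

/-- from the characteristic function to the averages -/
private theorem orderTwo_of_ordTwo {F : ℂ → EN N} {f : ℂ → PN N} (h : IsLift F f) (hF : OrdTwo F) : OrderTwo f := by
  have h1 : OrdTwo fun z => (LE N).symm (F z) := Pool.Agent.H17EF.ordTwo_symm hF
  have h2 : Differentiable ℂ fun z => (LE N).symm (F z) := (LE N).symm.differentiable.comp h.1
  have h3 : ∀ z, (LE N).symm (F z) ≠ 0 := fun z => (h.2 z).1
  have h4 : ∀ z, Pool.Agent.H17BP.HolP (fun z => (LE N).symm (F z)) z := by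
    intro z
    exact ⟨fun z => (LE N).symm (F z), h2.analyticAt z, h3 z, Eventually.of_forall fun w => ⟨1, one_ne_zero, by simp⟩⟩
  have h5 := Pool.Agent.H13.OT.OrdTwo.orderTwo h3 h4 h1
  have h6 : f = fun z => Projectivization.mk ℂ ((LE N).symm (F z)) (h3 z) := by
    funext z
    exact (h.2 z).2
  rw [h6]
  exact h5

private theorem onBoundary_eq [P.IsPrime] (D : MvPolynomial (Fin (N + 1)) ℂ) {r : ℕ} :
    OnBoundary P (fun _ : Fin 1 => D) (k := r) = OnBd P (fun _ : Fin 1 => D) := by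
  funext E
  refine propext ?_
  constructor
  · rintro ⟨j, hj, hj', m, hm⟩
    exact ⟨j, hj, hj', fun _ => hm⟩
  · rintro ⟨j, hj, hj', hm⟩
    exact ⟨j, hj, hj', 0, hm 0⟩

/-- **E3**: the hypotheses of the function theory -/
theorem exists_setup [P.IsPrime] {z : Fin 2 → FunField P} (hP : Homog P) (hz : IsTranscendenceBasis ℂ z)
    (hsm : ∀ y : Fin (N + 1) → ℂ, y ≠ 0 → (∀ Q ∈ P, eval y Q = 0) → Module.finrank ℂ (conTan P y) ≤ 3)
    (hk : 1 ≤ k) (hH : ∀ i, (H i).IsHomogeneous (e i)) (he : ∀ i, 1 ≤ e i) (hHP : ∀ i, H i ∉ P)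
    (hgt : IsLogGeneralType (K := FunField P) (k := 2) (OnBd P fun _ : Fin 1 => ∏ i, H i))
    {s : ℕ} {m : Fin s → ℕ} (hm : ∀ j, 1 ≤ m j) (θ : ∀ j, SymDiff (openCone P H) (m j)) (hθ : ∀ j, VanishesOnStatic e (θ j))
    {R : MvPolynomial (Fin (N + 1)) ℂ} {d : ℕ} (hR : R.IsHomogeneous d) (hRP : R ∉ P)
    (hnull : ∀ f : ℂ → PN N, HolomorphicInto f Set.univ → OrderTwo f → (∀ z, f z ∈ locVar P fun _ : Fin 1 => ∏ i, H i) →
      (∃ z w, f z ≠ f w) → (∀ j, TangentTo (θ j) f) → ∀ z, VanishesAt R (f z)) :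
    ∃ (Q : MvPolynomial (Fin (N + 1)) ℂ) (D M : ℕ) (c₀ C : ℝ) (g : (ℂ → EN N) → ℂ → ℝ), Q.IsHomogeneous D ∧ Q ∉ P ∧
      Setup (coneE P) (openCone P H) {x | x ∈ coneE P ∧ eval x.ofLp Q = 0} (fun i (x : EN N) => eval x.ofLp (H i)) e
        (fun x => ‖eval x.ofLp Q‖ / ‖x‖ ^ D) M c₀ C g (nForms m fun j => (θ j).toFun) := by
  have hS : Surface (cone P) := Pool.Agent.H13.SM.surface_cone hP hz fun y hy => hsm y hy.1 hy.2
  have hX : IsCone (coneE P) := isCone_transport (LE N) hS
  have hgt' : IsLogGeneralType (K := FunField P) (k := 2) (OnBoundary P fun _ : Fin 1 => ∏ i, H i) := by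
    rw [onBoundary_eq]
    exact hgt
  obtain ⟨Q, D, M, c₀, C, g, hQ, hQP, hRQ, hHQ, -, E⟩ := energyK_surface hP hz hsm hH he hk hHP hgt' hR hRP
  refine ⟨Q, D, M, c₀, C, g, hQ, hQP, ?_⟩
  obtain ⟨T, hT⟩ : ∃ T : Set (EN N), T = {x | x ∈ coneE P ∧ eval x.ofLp Q = 0} := ⟨_, rfl⟩
  rw [← hT] at E ⊢
  have hxne : ∀ x ∈ coneE P, ‖x‖ ≠ 0 := fun x hx => norm_ne_zero_iff.2 fun h => hX.zero_notMem (h ▸ hx)
  have hmemT : ∀ x, x ∈ T ↔ x ∈ coneE P ∧ eval x.ofLp Q = 0 := fun x => by rw [hT]; rfl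
  refine
    { cone := hX
      aff := affOpen hP hk hH he
      gauge := gauge_forms fun j => logForm hP hz hsm hk hH he (hm j) (θ j) (hθ j)
      en := E
      TX := fun x hx => ((hmemT x).1 hx).1
      Ts := ?_
      KT := ?_
      rho0 := fun x _ => by positivity
      rhoT := ?_
      rhoc := ?_
      rhos := ?_
      Ti := ?_
      null := ?_ }
  · intro x hx c hc
    rw [hmemT] at hx ⊢
    refine ⟨hX.smul_mem x hx.1 c hc, ?_⟩
    have h1 := evF_smul hQ c x
    unfold evF at h1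
    rw [h1, hx.2, mul_zero]
  · intro x hx hxK
    rw [hmemT]
    refine ⟨hx, ?_⟩
    by_contra h
    exact hxK ⟨hx, fun i hi => h (hHQ i x hi)⟩
  · intro x hx
    rw [hmemT]
    have h2 : ‖x‖ ^ D ≠ 0 := pow_ne_zero _ (hxne x hx)
    constructor
    · intro h
      rw [div_eq_zero_iff] at h
      rcases h with h | h
      · exact ⟨hx, norm_eq_zero.1 h⟩
      · exact absurd h h2
    · rintro ⟨-, h⟩
      simp only [h, norm_zero, zero_div]
  · refine ContinuousOn.div ?_ (continuous_norm.pow D).continuousOn fun x hx => pow_ne_zero _ (hxne x hx)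
    exact (evF_diff Q).continuous.norm.continuousOn
  · intro x _ c hc
    have h1 := evF_smul hQ c x
    unfold evF at h1
    simp only
    rw [h1, norm_mul, norm_pow, norm_smul, mul_pow]
    exact mul_div_mul_left _ _ (pow_ne_zero _ (norm_ne_zero_iff.2 hc))
  · intro F hF hFX hne z₀
    have h1 : Differentiable ℂ fun z => evF Q (F z) := (evF_diff Q).comp hF
    have h2 : AnalyticAt ℂ (fun z => evF Q (F z)) z₀ := h1.analyticAt z₀
    rcases h2.eventually_eq_zero_or_eventually_ne_zero with h3 | h3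
    · exfalso
      have h4 : AnalyticOnNhd ℂ (fun z => evF Q (F z)) Set.univ := fun z _ => h1.analyticAt z
      have h5 := h4.eqOn_zero_of_preconnected_of_eventuallyEq_zero isPreconnected_univ (Set.mem_univ z₀) h3
      obtain ⟨z, hz⟩ := hne
      apply hz
      rw [hmemT]
      exact ⟨hFX z, h5 (Set.mem_univ z)⟩
    · filter_upwards [h3] with z hz hzT
      rw [hmemT] at hzT
      exact hz hzT.2
  · intro F hF hFK hFo hF0
    have hFX : ∀ z, F z ∈ coneE P := fun z => (hFK z).1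
    have h0 : ∀ z, (F z).ofLp ≠ 0 := fun z => (hFX z).1
    have hl := isLift_mk hF h0
    by_cases hcon : ∃ z w, (fun z => Projectivization.mk ℂ (F z).ofLp (h0 z)) z ≠ (fun z => Projectivization.mk ℂ (F z).ofLp (h0 z)) w
    · left
      intro z
      have hzero : ∀ j z, (θ j).toFun (F z) (deriv F z) = 0 := by
        intro j z
        have h1 : ∑ j, ‖(θ j).toFun (F z) (deriv F z)‖ ^ ((m j : ℝ)⁻¹) = 0 := hF0 z
        have h2 := (Finset.sum_eq_zero_iff_of_nonneg fun j _ => Real.rpow_nonneg (norm_nonneg ((θ j).toFun (F z) (deriv F z))) _).1 h1 j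
          (Finset.mem_univ j)
        have h3 : ((m j : ℝ)⁻¹) ≠ 0 := by
          have : (m j : ℝ) ≠ 0 := by
            have := hm j
            positivity
          exact inv_ne_zero this
        exact norm_eq_zero.1 (((Real.rpow_eq_zero (norm_nonneg _) h3).1 h2))
      have hloc : ∀ z, (fun z => Projectivization.mk ℂ (F z).ofLp (h0 z)) z ∈ locVar P fun _ : Fin 1 => ∏ i, H i := by
        intro z
        refine ⟨(hl.mem_iff hP z).2 (hFX z), 0, ?_⟩
        have hd : (∏ i, H i).IsHomogeneous (∑ i, e i) := MvPolynomial.IsHomogeneous.prod _ _ _ fun i _ => hH i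
        rw [vanishesAt_lift hl hd, map_prod]
        exact Finset.prod_ne_zero_iff.2 fun i _ => (hFK z).2 i
      have h1 := hnull _ hl.holomorphicInto (orderTwo_of_ordTwo hl hFo) hloc hcon (fun j => ⟨F, hl, hzero j⟩) z
      rw [vanishesAt_lift hl hR] at h1
      rw [hmemT]
      exact ⟨hFX z, hRQ _ h1⟩
    · right
      push Not at hcon
      intro z w
      have h1 := hcon z w
      simp only at h1
      rw [Projectivization.mk_eq_mk_iff'] at h1
      obtain ⟨a, ha⟩ := h1
      exact ⟨a, WithLp.ofLp_injective 2 ha.symm⟩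

end Pool.Agent.SDA
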