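import Pool.Agent.SDA.KDefs
import Pool.Agent.H36.BPB.MtA

/-!
# SDA EA (K2): the metric of the nodal case on an open cone in `EN N`

Port of `SY/EiA.lean` to an open part `K` of the closed cone `X`.
-/

set_option autoImplicit false

open Topology Filter Metric

namespace Pool.Agent.SDA

open Pool.Agent.H36.BP (EN fs wd Sub mt Curve)
open Pool.Agent.H17BP (Pr)
open Pool.Agent.H14.PP (IsCone IsOpenPart)
open Pool.Agent.H36.BPB (MD)

private theorem EiAK_sub_mono {u : ℂ → ℝ} {z : ℂ} {c c' : ℝ} (h : Sub u z c) (hc : c' ≤ c) : Sub u z c' :=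
  ⟨h.1, fun t ht => h.2 t (lt_of_lt_of_le ht hc)⟩

private theorem EiAK_proj {N : ℕ} {x : EN N} (hx : x ≠ 0) (v : EN N) :
    ∃ a : ℂ, ‖v - a • x‖ = ‖x‖ * fs x v := by
  have hxx : (inner ℂ x x : ℂ) ≠ 0 := by
    rw [Ne, inner_self_eq_zero]
    exact hx
  have hxn : 0 < ‖x‖ := norm_pos_iff.mpr hx
  set a : ℂ := inner ℂ x v / inner ℂ x x with ha
  refine ⟨a, ?_⟩
  have ho : inner ℂ x (v - a • x) = (0 : ℂ) := by
    rw [inner_sub_right, inner_smul_right, ha]
    field_simp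
    ring
  have h1 : wd x (v - a • x) = ‖x‖ * ‖v - a • x‖ := by
    unfold wd
    rw [ho, norm_zero, ← mul_pow]
    rw [show (‖x‖ * ‖v - a • x‖) ^ 2 - (0 : ℝ) ^ 2 = (‖x‖ * ‖v - a • x‖) ^ 2 by ring]
    exact Real.sqrt_sq (by positivity)
  have h2 : wd x (v - a • x) = wd x v := by
    have h := Pool.Agent.H36.BP.wd_inv x v 1 (-a)
    rw [one_smul, one_smul, norm_one, neg_smul, ← sub_eq_add_neg] at h
    rw [h]
    ring
  rw [h2] at h1
  unfold fs
  rw [h1]
  field_simp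

private theorem EiAK_deriv {N : ℕ} {H : ℂ → EN N} {r : ℝ} (hr : 0 < r) (hd : DifferentiableOn ℂ H (ball 0 r)) (h0 : H 0 ≠ 0)
    (hp : ∀ z ∈ ball (0 : ℂ) r, Pr (H z) (H 0)) : ∃ a : ℂ, deriv H 0 = a • H 0 := by
  have hxx : (inner ℂ (H 0) (H 0) : ℂ) ≠ 0 := by
    rw [Ne, inner_self_eq_zero]
    exact h0
  have hD : HasDerivAt H (deriv H 0) 0 := (hd.differentiableAt (ball_mem_nhds 0 hr)).hasDerivAt
  have h1 : HasDerivAt (fun w => (innerSL ℂ (H 0)) (H w)) ((innerSL ℂ (H 0)) (deriv H 0)) 0 :=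
    (innerSL ℂ (H 0)).hasFDerivAt.comp_hasDerivAt 0 hD
  have h2 : HasDerivAt (fun w => ((innerSL ℂ (H 0)) (H w) / inner ℂ (H 0) (H 0)) • H 0)
      (((innerSL ℂ (H 0)) (deriv H 0) / inner ℂ (H 0) (H 0)) • H 0) 0 := (h1.div_const _).smul_const _
  have h3 : H =ᶠ[𝓝 0] fun w => ((innerSL ℂ (H 0)) (H w) / inner ℂ (H 0) (H 0)) • H 0 := by
    filter_upwards [ball_mem_nhds (0 : ℂ) hr] with w hw
    obtain ⟨c, _, hc⟩ := hp w hw
    rw [innerSL_apply_apply, hc, inner_smul_right]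
    congr 1
    field_simp
  have h4 := h2.congr_of_eventuallyEq h3
  exact ⟨_, hD.unique h4⟩

/-- K2: the metric of the nodal case on an open part `K` of a closed cone in `EN N`. -/
theorem enU_of_metric {N : ℕ} {X K T : Set (EN N)} (hX : IsCone X) (hK : IsOpenPart X K) {G : EN N → EN N → ℝ} {ρ : EN N → ℝ}
    {M : ℕ} {c₀ C δ : ℝ} (hM : MD K (K ∩ T) G ρ M c₀ C) (hδ : 0 < δ)
    (hn : ∀ (F : ℂ → EN N) (z₀ : ℂ), AnalyticAt ℂ F z₀ → (∀ᶠ z in 𝓝 z₀, F z ∈ K) → 0 < mt G F z₀ → ρ (F z₀) < δ →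
      Sub (fun z => mt G F z * ‖F z‖ ^ (-c₀)) z₀ 0) :
    ∃ C' : ℝ, EnU X K T (fun x => ‖x‖) ρ M c₀ C' δ (mt G) := by
  refine ⟨max C 1, ?_⟩
  have hC1 : 1 ≤ max C 1 := le_max_right _ _
  have hCC : C ≤ max C 1 := le_max_left _ _
  refine ⟨hM.c₀_pos, by linarith, hδ, ?_, ?_, ?_, ?_, ?_, ?_, ?_, ?_⟩
  · intro F hF z
    exact hM.nonneg _ (hF.memK z) _
  · intro F hF z a ha
    have h1 := Pool.Agent.H36.BPB.mt_usc hM isOpen_univ (F := F) ⟨hF.ent.diff.differentiableOn, fun z _ => hF.memK z⟩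
    have h2 := h1 z (Set.mem_univ z) a ha
    rwa [nhdsWithin_univ] at h2
  · intro F hF a b _ z
    have h1 := Pool.Agent.H36.BPB.mt_comp hM (F := F) (φ := fun w => a * w + b) (z := z) (hF.ent.diff _)
      (by fun_prop) (hF.memK _)
    have h2 : deriv (fun w : ℂ => a * w + b) z = a := by
      have h3 : HasDerivAt (fun w : ℂ => a * w + b) a z := by
        simpa using ((hasDerivAt_id z).const_mul a).add_const b
      exact h3.deriv
    rw [h2] at h1
    exact h1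
  · intro F hF h hh h0 z
    exact Pool.Agent.H36.BPB.mt_smul hM (hF.ent.diff z) (hh z) (hF.memK z) (h0 z)
  · intro F hF z hz
    have hA : AnalyticAt ℂ F z := hF.ent.diff.analyticAt z
    refine EiAK_sub_mono (hM.sub F z hA (Eventually.of_forall hF.memK) hz) ?_
    have := mul_le_mul_of_nonneg_right hCC (sq_nonneg (mt G F z))
    linarith
  · intro F hF z hz hρ
    exact hn F z (hF.ent.diff.analyticAt z) (Eventually.of_forall hF.memK) hz hρ
  · intro F hF z
    have hx : F z ≠ 0 := hM.ne _ (hF.memK z)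
    obtain ⟨a, ha⟩ := EiAK_proj hx (deriv F z)
    refine ⟨a, ?_⟩
    have h1 := hM.lower (F z) (hF.memK z) (deriv F z)
    have hg : 0 ≤ G (F z) (deriv F z) := hM.nonneg _ (hF.memK z) _
    rw [ha]
    show ρ (F z) ^ M * (‖F z‖ * fs (F z) (deriv F z)) ≤ max C 1 * ‖F z‖ * G (F z) (deriv F z)
    have h2 : ρ (F z) ^ M * (‖F z‖ * fs (F z) (deriv F z)) = ‖F z‖ * (ρ (F z) ^ M * fs (F z) (deriv F z)) := by ring
    rw [h2, mul_assoc]
    have h3 : ‖F z‖ * (ρ (F z) ^ M * fs (F z) (deriv F z)) ≤ ‖F z‖ * G (F z) (deriv F z) :=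
      mul_le_mul_of_nonneg_left h1 (norm_nonneg _)
    have h4 : 0 ≤ ‖F z‖ * G (F z) (deriv F z) := mul_nonneg (norm_nonneg _) hg
    nlinarith
  · intro l hl r A ε hr hε F H hF _ hB hc hH
    obtain ⟨h, hh, hlim⟩ := hc
    have := hl
    have hcur : ∀ᶠ n in l, Curve K (ball 0 r) (fun z => h n z • F n z) := by
      filter_upwards [hF, hh] with n hn hn2
      exact ⟨hn2.1.smul hn.ent.diff.differentiableOn, fun z hz => hK.smul_mem _ (hn.memK z) _ (hn2.2 z hz)⟩
    have hmem : (0 : ℂ) ∈ ball (0 : ℂ) r := mem_ball_self hr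
    have hge : ∀ᶠ n in l, ε ≤ mt G (fun z => h n z • F n z) 0 := by
      filter_upwards [hF, hh, hB] with n hn hn2 hn3
      rw [Pool.Agent.H36.BPB.mt_smul hM (hn.ent.diff 0) (hn2.1.differentiableAt (ball_mem_nhds 0 hr)) (hn.memK 0)
        (hn2.2 0 hmem)]
      exact hn3
    have hHd : DifferentiableOn ℂ H (ball 0 r) := hlim.differentiableOn (hcur.mono fun n hn => hn.1) isOpen_ball
    have hH00 : H 0 ≠ 0 := hX.ne_zero (hH 0 hmem)
    -- the value at `0` is in `K`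
    have hH0 : H 0 ∈ K := by
      by_contra hcon
      have h1 := hM.hur l hl (fun n z => h n z • F n z) H 0 r hr hcur hHd hlim hH00 hcon
      obtain ⟨s, hs, hs2⟩ := Metric.eventually_nhds_iff_ball.mp h1
      set s' : ℝ := min s r with hs'
      have hs'0 : 0 < s' := lt_min hs hr
      have h2 := hM.lim l hl (fun n z => h n z • F n z) H 0 s' hs'0
        (hcur.mono fun n hn => ⟨hn.1.mono (ball_subset_ball (min_le_right _ _)),
          fun z hz => hn.2 z (ball_subset_ball (min_le_right _ _) hz)⟩)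
        (hlim.mono (ball_subset_ball (min_le_right _ _))) hH00
        (fun z hz => hs2 z (ball_subset_ball (min_le_left _ _) hz)) ε hε
      obtain ⟨n, h3, h4⟩ := (h2.and hge).exists
      exact absurd h3 (not_lt.mpr h4)
    have hHε : ε ≤ mt G H 0 :=
      Pool.Agent.H36.BPB.mt_limit hM (F := fun n z => h n z • F n z) hr hcur hlim hH0 hge
    constructor
    · by_contra hcon
      push Not at hcon
      have hK0 : ∀ᶠ z in 𝓝 (0 : ℂ), H z ∈ K := by
        have h1 : ContinuousAt H 0 := hHd.continuousOn.continuousAt (ball_mem_nhds 0 hr)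
        filter_upwards [h1.eventually (hK.rel_open _ hH0), ball_mem_nhds (0 : ℂ) hr] with z hz hz2
        exact hz (hH z hz2)
      have h0 : mt G H 0 = 0 := hM.zero H 0 (hHd.analyticAt (ball_mem_nhds 0 hr)) (by
        filter_upwards [ball_mem_nhds (0 : ℂ) hr, hK0] with z hz hz2
        exact ⟨hz2, hz2, hcon z hz⟩)
      linarith
    · by_contra hcon
      push Not at hcon
      obtain ⟨a, ha⟩ := EiAK_deriv hr hHd hH00 (fun z hz => hcon z hz 0 hmem)
      have h0 := Pool.Agent.H36.BPB.mt_const hM hH0 ha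
      linarith

end Pool.Agent.SDA
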