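import Pool.Agent.SDA.KDefs
import Pool.Agent.SY.EiD
import Pool.Agent.SY.EiS

/-!
# SDA ED: the metric of the blow-up on the curves of the open surface

The lift of a curve in `K` is a curve in `total l X K`; the value does not depend on the lift; it is compatible with affine changes of the
parameter and with units (compare `SY/EiD.lean`).
-/

set_option autoImplicit false

open Topology Filter Metric

noncomputable section

namespace Pool.Agent.SDA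

open Pool.Agent.H36.BP (EN)
open Pool.Agent.H17BP (Surface)
open Pool.Agent.H62.BU (blow total Ker phi)
open Pool.Agent.SY (Ent IsLiftB down exists_liftB liftB_unique lift_ne)

variable {V : Type} [NormedAddCommGroup V] [NormedSpace ℂ V] {ι : Type} [Fintype ι] {l : ι → V →L[ℂ] ℂ} {X K T : Set V} {q : V}

/-- the components of the lift are multiples of `F` -/
theorem lift_mul (hX : Surface X) (hl : Ker l q) (hT : ∀ x ∈ T, ∀ c : ℂ, c ≠ 0 → c • x ∈ T) (hq : q ∈ T) {F : ℂ → V}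
    (hF : Ent X T F) {Φ : ℂ → ι → V} (h1 : IsLiftB l X T F Φ) (z : ℂ) (b : ι) : ∃ c : ℂ, Φ z b = c • F z := by
  obtain ⟨hΦ, h, hh, hphi⟩ := h1
  have hne : F z ≠ 0 := fun h0 => hX.zero (h0 ▸ hF.mem z)
  obtain ⟨e, -, he⟩ := exists_dual_vector ℂ (F z) (norm_pos_iff.mpr hne).ne'
  have he0 : e (F z) ≠ 0 := by
    intro h0
    rw [h0] at he
    exact (norm_pos_iff.mpr hne).ne' (Complex.ofReal_eq_zero.mp he.symm)
  have hFc : ContinuousAt F z := hF.diff.continuous.continuousAt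
  have hΦc : ContinuousAt (fun w => Φ w b) z := ((continuous_apply b).comp hΦ.diff.continuous).continuousAt
  have heF : ContinuousAt (fun w => e (F w)) z := e.continuous.continuousAt.comp hFc
  have h4 : ∀ᶠ w in 𝓝 z, e (F w) ≠ 0 := heF.eventually_ne he0
  have h3 : ∀ᶠ w in 𝓝[≠] z, Φ w b = (e (Φ w b) / e (F w)) • F w := by
    filter_upwards [lift_ne hX hl hT hq hF hh hphi z, h4.filter_mono nhdsWithin_le_nhds] with w h5 h6
    have h7 : l b (F w) • F w = h w • Φ w b := congrFun (hphi w) b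
    have h8 : Φ w b = ((h w)⁻¹ * l b (F w)) • F w := by
      rw [mul_smul, h7, smul_smul, inv_mul_cancel₀ h5, one_smul]
    rw [h8, map_smul, smul_eq_mul, mul_div_assoc, div_self h6, mul_one]
  have h9 : ContinuousAt (fun w => (e (Φ w b) / e (F w)) • F w) z :=
    ((e.continuous.continuousAt.comp hΦc).div heF he0).smul hFc
  refine ⟨e (Φ z b) / e (F z), ?_⟩
  have h10 : Tendsto (fun w => Φ w b) (𝓝[≠] z) (𝓝 ((e (Φ z b) / e (F z)) • F z)) :=
    (h9.mono_left nhdsWithin_le_nhds).congr' (h3.mono fun w hw => hw.symm)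
  exact tendsto_nhds_unique (hΦc.mono_left nhdsWithin_le_nhds) h10

/-- MODULE K4 (0): the lift of a curve in `K` is a curve in `total l X K` -/
theorem entU_lift (hX : Surface X) (hKX : K ⊆ X) (hKs : ∀ x ∈ K, ∀ c : ℂ, c ≠ 0 → c • x ∈ K) (hl : Ker l q)
    (hT : ∀ x ∈ T, ∀ c : ℂ, c ≠ 0 → c • x ∈ T) (hq : q ∈ T) {F : ℂ → V}
    (hF : EntU X K T F) {Φ : ℂ → ι → V} (h1 : IsLiftB l X T F Φ) : EntU (blow l X) (total l X K) (total l X T) Φ := by
  refine ⟨h1.1, fun z => ⟨h1.1.mem z, fun b hb => ?_⟩⟩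
  obtain ⟨c, hc⟩ := lift_mul hX hl hT hq hF.ent h1 z b
  rw [hc] at hb ⊢
  exact hKs _ (hF.memK z) c fun h0 => hb (by rw [h0, zero_smul])

/-- MODULE K4 (1): the value on any lift -/
theorem downU_eq {N' : ℕ} {L' : (ι → V) ≃L[ℂ] EN N'} {rho : (ι → V) → ℝ} {M : ℕ} {c₀ C δ : ℝ} {g : (ℂ → ι → V) → ℂ → ℝ}
    (hX : Surface X) (hKX : K ⊆ X) (hKs : ∀ x ∈ K, ∀ c : ℂ, c ≠ 0 → c • x ∈ K) (hl : Ker l q) (hTX : T ⊆ X)
    (hT : ∀ x ∈ T, ∀ c : ℂ, c ≠ 0 → c • x ∈ T) (hq : q ∈ T)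
    (E : EnU (blow l X) (total l X K) (total l X T) (fun y => ‖L' y‖) rho M c₀ C δ g) {F : ℂ → V} (hF : EntU X K T F) {Φ : ℂ → ι → V}
    (h1 : IsLiftB l X T F Φ) : down l X T g F = g Φ := by
  have hex : ∃ Φ, IsLiftB l X T F Φ := ⟨Φ, h1⟩
  have h2 : down l X T g F = g hex.choose := by
    unfold down
    rw [dif_pos hex]
  obtain ⟨u, hu, hu0, huΦ⟩ := liftB_unique hX hl hTX hT hq hF.ent hex.choose_spec h1
  rw [h2, show hex.choose = fun z => u z • Φ z from funext huΦ]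
  exact funext fun z => E.unit Φ (entU_lift hX hKX hKs hl hT hq hF h1) u hu hu0 z

theorem ent_aff {W : Type} [NormedAddCommGroup W] [NormedSpace ℂ W] {X T : Set W} {F : ℂ → W} (hF : Ent X T F) {a b : ℂ}
    (ha : a ≠ 0) : Ent X T (fun w => F (a * w + b)) := by
  refine ⟨hF.diff.comp ((differentiable_id.const_mul a).add_const b), fun z => hF.mem _, ?_⟩
  obtain ⟨z, hz⟩ := hF.out
  refine ⟨(z - b) / a, ?_⟩
  rwa [mul_div_cancel₀ _ ha, sub_add_cancel]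

theorem entU_aff {W : Type} [NormedAddCommGroup W] [NormedSpace ℂ W] {X K T : Set W} {F : ℂ → W} (hF : EntU X K T F) {a b : ℂ}
    (ha : a ≠ 0) : EntU X K T (fun w => F (a * w + b)) :=
  ⟨ent_aff hF.ent ha, fun _ => hF.memK _⟩

/-- MODULE K4 (2) -/
theorem downU_aff {N' : ℕ} {L' : (ι → V) ≃L[ℂ] EN N'} {rho : (ι → V) → ℝ} {M : ℕ} {c₀ C δ : ℝ} {g : (ℂ → ι → V) → ℂ → ℝ}
    (hX : Surface X) (hKX : K ⊆ X) (hKs : ∀ x ∈ K, ∀ c : ℂ, c ≠ 0 → c • x ∈ K) (hl : Ker l q) (hTX : T ⊆ X)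
    (hT : ∀ x ∈ T, ∀ c : ℂ, c ≠ 0 → c • x ∈ T) (hq : q ∈ T)
    (E : EnU (blow l X) (total l X K) (total l X T) (fun y => ‖L' y‖) rho M c₀ C δ g) {F : ℂ → V} (hF : EntU X K T F) {a b : ℂ}
    (ha : a ≠ 0) (z : ℂ) :
    down l X T g (fun w => F (a * w + b)) z = ‖a‖ * down l X T g F (a * z + b) := by
  obtain ⟨Φ, hΦ, h, hh, hhΦ⟩ := exists_liftB hX hl hTX hT hq hF.ent
  have h2 : IsLiftB l X T (fun w => F (a * w + b)) (fun w => Φ (a * w + b)) :=
    ⟨ent_aff hΦ ha, fun w => h (a * w + b), hh.comp ((differentiable_id.const_mul a).add_const b), fun w => hhΦ _⟩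
  rw [downU_eq hX hKX hKs hl hTX hT hq E (entU_aff hF ha) h2, downU_eq hX hKX hKs hl hTX hT hq E hF ⟨hΦ, h, hh, hhΦ⟩]
  exact E.aff Φ (entU_lift hX hKX hKs hl hT hq hF ⟨hΦ, h, hh, hhΦ⟩) a b ha z

/-- MODULE K4 (3) -/
theorem downU_unit {N' : ℕ} {L' : (ι → V) ≃L[ℂ] EN N'} {rho : (ι → V) → ℝ} {M : ℕ} {c₀ C δ : ℝ} {g : (ℂ → ι → V) → ℂ → ℝ}
    (hX : Surface X) (hKX : K ⊆ X) (hKs : ∀ x ∈ K, ∀ c : ℂ, c ≠ 0 → c • x ∈ K) (hl : Ker l q) (hTX : T ⊆ X)
    (hT : ∀ x ∈ T, ∀ c : ℂ, c ≠ 0 → c • x ∈ T) (hq : q ∈ T)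
    (E : EnU (blow l X) (total l X K) (total l X T) (fun y => ‖L' y‖) rho M c₀ C δ g) {F : ℂ → V} (hF : EntU X K T F) {h : ℂ → ℂ}
    (hh : Differentiable ℂ h) (h0 : ∀ z, h z ≠ 0) (z : ℂ) :
    down l X T g (fun w => h w • F w) z = down l X T g F z := by
  obtain ⟨Φ, hΦ, k, hk, hkΦ⟩ := exists_liftB hX hl hTX hT hq hF.ent
  have h1 : EntU X K T (fun w => h w • F w) := by
    refine ⟨⟨fun w => (hh w).smul (hF.ent.diff w), fun w => hX.smul _ (hF.ent.mem w) _ (h0 w), ?_⟩, fun w => hKs _ (hF.memK w) _ (h0 w)⟩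
    obtain ⟨w, hw⟩ := hF.ent.out
    refine ⟨w, fun hc => hw ?_⟩
    have h3 := hT _ hc (h w)⁻¹ (inv_ne_zero (h0 w))
    rwa [smul_smul, inv_mul_cancel₀ (h0 w), one_smul] at h3
  have h2 : IsLiftB l X T (fun w => h w • F w) Φ := by
    refine ⟨hΦ, fun w => h w ^ 2 * k w, fun w => ((hh w).pow 2).mul (hk w), fun w => ?_⟩
    rw [mul_smul, ← hkΦ w]
    funext b
    simp only [phi, Pi.smul_apply, map_smul, smul_eq_mul, smul_smul]
    congr 1
    ring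
  rw [downU_eq hX hKX hKs hl hTX hT hq E h1 h2, downU_eq hX hKX hKs hl hTX hT hq E hF ⟨hΦ, k, hk, hkΦ⟩]

end Pool.Agent.SDA
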