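import Pool.Agent.SDA.ED
import Pool.Agent.SY.EiM

/-!
# SDA EM: limits of entire curves in an open surface, the metric of the blow-up (copy of `SY/EiM.lean`)

Along an ultrafilter the lifts `Φ n` of the curves `F n`, normalised by units (`char_fun`), converge near `0` to a curve `Ψ` of the blow-up
(`montel_ultrafilter`).  The components of `Ψ z` are multiples of `H z` (`lift_prop`), so the property `lim` upstairs gives `H z ∉ T` for some `z`.
If all the `H z` are proportional, then they are not multiples of `q`, and `Ψ z` is proportional to `phi l (H z)`: `Ψ` is constant, a contradiction.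
-/

set_option autoImplicit false

open Topology Filter Metric

noncomputable section

namespace Pool.Agent.SDA

open Pool.Agent.H36.BP (EN fs wd Sub)
open Pool.Agent.H17BP (Pr Surface)
open Pool.Agent.H62.BU (blow total Ker phi)
open Pool.Agent.SY (Ent IsLiftB down exists_liftB lift_prop char_fun)

variable {V : Type} [NormedAddCommGroup V] [NormedSpace ℂ V] {ι : Type} [Fintype ι] {l : ι → V →L[ℂ] ℂ} {X K T : Set V} {q : V}

/-- MODULE K7: limits -/
theorem downU_lim [FiniteDimensional ℂ V] {N' : ℕ} {L' : (ι → V) ≃L[ℂ] EN N'} {rho : (ι → V) → ℝ} {M : ℕ} {c₀ C δ : ℝ}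
    {g : (ℂ → ι → V) → ℂ → ℝ}
    (hX : Surface X) (hKX : K ⊆ X) (hKs : ∀ x ∈ K, ∀ c : ℂ, c ≠ 0 → c • x ∈ K) (hl : Ker l q) (hTX : T ⊆ X)
    (hT : ∀ x ∈ T, ∀ c : ℂ, c ≠ 0 → c • x ∈ T) (hq : q ∈ T)
    (E : EnU (blow l X) (total l X K) (total l X T) (fun y => ‖L' y‖) rho M c₀ C δ g)
    (u : Filter ℕ) (hu : u.NeBot) (r A ε : ℝ) (hr : 0 < r) (hε : 0 < ε) (F : ℕ → ℂ → V) (H : ℂ → V) (hF : ∀ᶠ n in u, EntU X K T (F n))
    (hA : ∀ᶠ n in u, ∀ z ∈ ball (0 : ℂ) r, down l X T g (F n) z ≤ A) (hB : ∀ᶠ n in u, ε ≤ down l X T g (F n) 0)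
    (hc : ∃ h : ℕ → ℂ → ℂ, (∀ᶠ n in u, DifferentiableOn ℂ (h n) (ball 0 r) ∧ ∀ z ∈ ball (0 : ℂ) r, h n z ≠ 0) ∧
      TendstoLocallyUniformlyOn (fun n z => h n z • F n z) H u (ball 0 r))
    (hH : ∀ z ∈ ball (0 : ℂ) r, H z ∈ X) :
    (∃ z ∈ ball (0 : ℂ) r, H z ∉ T) ∧ ∃ z ∈ ball (0 : ℂ) r, ∃ w ∈ ball (0 : ℂ) r, ¬ Pr (H z) (H w) := by
  classical
  have : CompleteSpace V := FiniteDimensional.complete ℂ V
  have : CompleteSpace (ι → V) := FiniteDimensional.complete ℂ (ι → V)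
  have : ProperSpace (ι → V) := FiniteDimensional.proper ℂ (ι → V)
  have hX' := Pool.Agent.H62.BU.toSurface hX
  -- the lifts
  have hΦex : ∀ n, ∃ Φ : ℂ → ι → V, EntU X K T (F n) → IsLiftB l X T (F n) Φ := by
    intro n
    by_cases h : EntU X K T (F n)
    · obtain ⟨Φ, hΦ⟩ := exists_liftB hX hl hTX hT hq h.ent
      exact ⟨Φ, fun _ => hΦ⟩
    · exact ⟨fun _ => 0, fun h' => absurd h' h⟩
  choose Φ hΦ using hΦex
  have hup : ∀ n, EntU X K T (F n) → EntU (blow l X) (total l X K) (total l X T) (Φ n) :=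
    fun n h => entU_lift hX hKX hKs hl hT hq h (hΦ n h)
  -- the units
  have hr' : 0 < r / 2 := half_pos hr
  have hsub : closedBall (0 : ℂ) (r / 2) ⊆ ball 0 r := closedBall_subset_ball (half_lt_self hr)
  set c' : ℝ := Real.exp (-(1 + Real.log (A / ε * Real.exp 1 * Real.exp ((C * A ^ 2 + 1) * (r / 2) ^ 2))) / c₀) with hc'
  have hc'0 : 0 < c' := Real.exp_pos _
  have hvex : ∀ n, ∃ v : ℂ → ℂ, EntU X K T (F n) → (∀ z ∈ ball (0 : ℂ) r, down l X T g (F n) z ≤ A) → ε ≤ down l X T g (F n) 0 →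
      Differentiable ℂ v ∧ (∀ z ∈ ball (0 : ℂ) (r / 2), ‖Complex.exp (v z) • L' (Φ n z)‖ ≤ 1) ∧
      c' ≤ ‖Complex.exp (v 0) • L' (Φ n 0)‖ := by
    intro n
    by_cases h : EntU X K T (F n) ∧ (∀ z ∈ ball (0 : ℂ) r, down l X T g (F n) z ≤ A) ∧ ε ≤ down l X T g (F n) 0
    · obtain ⟨h1, h2, h3⟩ := h
      have h4 := hΦ n h1
      rw [downU_eq hX hKX hKs hl hTX hT hq E h1 h4] at h2 h3
      obtain ⟨v, hv⟩ := char_fun (N := N') (F := fun z => L' (Φ n z)) (m := g (Φ n)) E.c₀_pos E.C_pos.le hr' hε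
        ((L' : (ι → V) →L[ℂ] EN N').differentiable.comp h4.1.diff)
        (fun z h0 => (h4.1.mem z).2 (by simpa using congrArg L'.symm h0))
        (fun z _ a ha => nhdsWithin_le_nhds (E.usc _ (hup n h1) z a ha)) (fun z hz => h2 z (hsub hz)) h3
        (fun z _ hz => E.sub _ (hup n h1) z hz)
      exact ⟨v, fun _ _ _ => hv⟩
    · exact ⟨fun _ => 0, fun h1 h2 h3 => absurd ⟨h1, h2, h3⟩ h⟩
  choose v hv using hvex
  -- the limit upstairs
  set 𝒰 : Ultrafilter ℕ := Ultrafilter.of u with h𝒰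
  have h𝒰u : (𝒰 : Filter ℕ) ≤ u := Ultrafilter.of_le u
  have hev : ∀ᶠ n in (𝒰 : Filter ℕ), EntU X K T (F n) ∧ (∀ z ∈ ball (0 : ℂ) r, down l X T g (F n) z ≤ A) ∧
      ε ≤ down l X T g (F n) 0 := h𝒰u (hF.and (hA.and hB))
  have hd : ∀ᶠ n in (𝒰 : Filter ℕ), DifferentiableOn ℂ (fun z => Complex.exp (v n z) • Φ n z) (ball 0 (r / 2)) := by
    filter_upwards [hev] with n hn
    exact ((hv n hn.1 hn.2.1 hn.2.2).1.cexp.smul (hΦ n hn.1).1.diff).differentiableOn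
  have hbd : ∀ᶠ n in (𝒰 : Filter ℕ), ∀ z ∈ ball (0 : ℂ) (r / 2),
      ‖Complex.exp (v n z) • Φ n z‖ ≤ ‖(L'.symm : EN N' →L[ℂ] (ι → V))‖ := by
    filter_upwards [hev] with n hn z hz
    have h4 : Complex.exp (v n z) • Φ n z = (L'.symm : EN N' →L[ℂ] (ι → V)) (Complex.exp (v n z) • L' (Φ n z)) := by
      rw [map_smul]
      simp
    rw [h4]
    calc ‖(L'.symm : EN N' →L[ℂ] (ι → V)) (Complex.exp (v n z) • L' (Φ n z))‖
        ≤ ‖(L'.symm : EN N' →L[ℂ] (ι → V))‖ * ‖Complex.exp (v n z) • L' (Φ n z)‖ :=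
          (L'.symm : EN N' →L[ℂ] (ι → V)).le_opNorm _
      _ ≤ ‖(L'.symm : EN N' →L[ℂ] (ι → V))‖ * 1 :=
          mul_le_mul_of_nonneg_left ((hv n hn.1 hn.2.1 hn.2.2).2.1 z hz) (norm_nonneg _)
      _ = _ := mul_one _
  obtain ⟨Ψ, hΨd, hΨc⟩ := Pool.Agent.H17.montel_ultrafilter 𝒰 hd hbd
  have h0mem : (0 : ℂ) ∈ ball (0 : ℂ) (r / 2) := mem_ball_self hr'
  have hpt : ∀ z ∈ ball (0 : ℂ) (r / 2), Tendsto (fun n => Complex.exp (v n z) • Φ n z) (𝒰 : Filter ℕ) (𝓝 (Ψ z)) :=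
    fun z hz => hΨc.tendsto_at hz
  have hΨ0 : Ψ 0 ≠ 0 := by
    have h1 : Tendsto (fun n => ‖L' (Complex.exp (v n 0) • Φ n 0)‖) (𝒰 : Filter ℕ) (𝓝 ‖L' (Ψ 0)‖) :=
      ((L'.continuous.tendsto _).comp (hpt 0 h0mem)).norm
    have h2 : c' ≤ ‖L' (Ψ 0)‖ := by
      refine ge_of_tendsto h1 ?_
      filter_upwards [hev] with n hn
      rw [map_smul]
      exact (hv n hn.1 hn.2.1 hn.2.2).2.2
    intro h3
    rw [h3, map_zero, norm_zero] at h2
    linarith
  have hcont : ContinuousAt Ψ 0 := (hΨd.differentiableAt (isOpen_ball.mem_nhds h0mem)).continuousAt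
  obtain ⟨s, hs, hsb⟩ := Metric.eventually_nhds_iff_ball.1 ((hcont.eventually_ne hΨ0).and (isOpen_ball.mem_nhds h0mem))
  have hsr : ∀ z ∈ ball (0 : ℂ) s, z ∈ ball (0 : ℂ) r := fun z hz => hsub (ball_subset_closedBall (hsb z hz).2)
  have hmem : ∀ z ∈ ball (0 : ℂ) s, Ψ z ∈ blow l X := by
    intro z hz
    refine Pool.Agent.H62.BU.blow_closed _ ?_ (hsb z hz).1
    refine mem_closure_of_tendsto (hpt z (hsb z hz).2) ?_
    filter_upwards [hev] with n hn
    exact Pool.Agent.H62.BU.blow_smul _ ((hΦ n hn.1).1.mem z) _ (Complex.exp_ne_zero _)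
  obtain ⟨⟨p, hp, hpT⟩, ⟨a, ha, b, hb, hab⟩⟩ := E.lim (𝒰 : Filter ℕ) inferInstance s A ε hs hε Φ Ψ
    (hev.mono fun n hn => hup n hn.1)
    (by
      filter_upwards [hev] with n hn z hz
      rw [← downU_eq hX hKX hKs hl hTX hT hq E hn.1 (hΦ n hn.1)]
      exact hn.2.1 z (hsr z hz))
    (by
      filter_upwards [hev] with n hn
      rw [← downU_eq hX hKX hKs hl hTX hT hq E hn.1 (hΦ n hn.1)]
      exact hn.2.2)
    ⟨fun n z => Complex.exp (v n z), by
      filter_upwards [hev] with n hn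
      exact ⟨(hv n hn.1 hn.2.1 hn.2.2).1.cexp.differentiableOn, fun z _ => Complex.exp_ne_zero _⟩,
      hΨc.mono fun w hw => (hsb w hw).2⟩
    hmem
  -- the components of the limit
  obtain ⟨h, hh1, hh2⟩ := hc
  have hH0 : ∀ z ∈ ball (0 : ℂ) s, H z ≠ 0 := fun z hz h0 => hX.zero (h0 ▸ hH z (hsr z hz))
  have hcomp : ∀ z ∈ ball (0 : ℂ) s, ∀ b, ∃ c : ℂ, Ψ z b = c • H z := by
    intro z hz b
    have hHz := hH0 z hz
    obtain ⟨Λ, hΛ⟩ := exists_dual_vector ℂ (H z) (norm_ne_zero_iff.mpr hHz)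
    have hΛ0 : Λ (H z) ≠ 0 := by
      rw [hΛ.2]
      simpa using hHz
    have hlimH : Tendsto (fun n => h n z • F n z) (𝒰 : Filter ℕ) (𝓝 (H z)) := (hh2.tendsto_at (hsr z hz)).mono_left h𝒰u
    have hlimΨ : Tendsto (fun n => Complex.exp (v n z) • Φ n z b) (𝒰 : Filter ℕ) (𝓝 (Ψ z b)) :=
      ((continuous_apply b).tendsto _).comp (hpt z (hsb z hz).2)
    have h1 : Λ (Ψ z b) • H z = Λ (H z) • Ψ z b := by
      refine tendsto_nhds_unique_of_eventuallyEq (((Λ.continuous.tendsto _).comp hlimΨ).smul hlimH)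
        (((Λ.continuous.tendsto _).comp hlimH).smul hlimΨ) ?_
      filter_upwards [hev] with n hn
      have h2 := lift_prop hX hl hT hq hn.1.ent (hΦ n hn.1) Λ b z
      simp only [Function.comp_apply, map_smul, smul_eq_mul]
      calc (Complex.exp (v n z) * Λ (Φ n z b)) • h n z • F n z
          = (Complex.exp (v n z) * h n z) • (Λ (Φ n z b) • F n z) := by
            simp only [smul_smul]
            congr 1
            ring
        _ = (Complex.exp (v n z) * h n z) • (Λ (F n z) • Φ n z b) := by rw [h2]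
        _ = (h n z * Λ (F n z)) • Complex.exp (v n z) • Φ n z b := by
            simp only [smul_smul]
            congr 1
            ring
    refine ⟨(Λ (H z))⁻¹ * Λ (Ψ z b), ?_⟩
    rw [mul_smul, h1, smul_smul, inv_mul_cancel₀ hΛ0, one_smul]
  have hout : ∀ z ∈ ball (0 : ℂ) s, Ψ z ∉ total l X T → H z ∉ T := by
    intro z hz hz1 hz2
    apply hz1
    refine ⟨hmem z hz, fun b hb => ?_⟩
    obtain ⟨c, hc⟩ := hcomp z hz b
    have hc0 : c ≠ 0 := by
      rintro rfl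
      rw [zero_smul] at hc
      exact hb hc
    rw [hc]
    exact hT _ hz2 c hc0
  refine ⟨⟨p, hsr p hp, hout p hp hpT⟩, ?_⟩
  by_contra hcon
  push Not at hcon
  apply hab
  -- the limit is determined by the curve downstairs
  have key : ∀ z ∈ ball (0 : ℂ) s, Pr (Ψ z) (phi l (H z)) := by
    intro z hz
    have hHT : H z ∉ T := by
      intro h1
      obtain ⟨c, hc0, hc⟩ := hcon p (hsr p hp) z (hsr z hz)
      apply hout p hp hpT
      rw [hc]
      exact hT _ h1 c hc0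
    have hlb : ∃ b', l b' (H z) ≠ 0 := by
      by_contra hcon'
      push Not at hcon'
      obtain ⟨c, e⟩ := (hl (H z)).1 hcon'
      have hc : c ≠ 0 := by
        rintro rfl
        rw [zero_smul] at e
        exact hH0 z hz e
      exact hHT (e ▸ hT q hq c hc)
    obtain ⟨b', hb'⟩ := hlb
    obtain ⟨b, hb⟩ := Pool.Agent.H62.BU.exists_ne _ (hmem z hz)
    obtain ⟨c, hc⟩ := hcomp z hz b
    have hc0 : c ≠ 0 := by
      rintro rfl
      rw [zero_smul] at hc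
      exact hb hc
    have h1 : l b' (Ψ z b) ≠ 0 := by
      rw [hc, map_smul]
      exact smul_ne_zero hc0 hb'
    have h2 := Pool.Agent.H62.BU.eq_phi _ (hmem z hz) hb h1
    have h3 := Pool.Agent.H62.BU.ne_of_ne _ (hmem z hz) hb h1
    refine ⟨(l b (Ψ z b))⁻¹ * c ^ 2, mul_ne_zero (inv_ne_zero h3) (pow_ne_zero 2 hc0), ?_⟩
    calc Ψ z = (l b (Ψ z b))⁻¹ • phi l (Ψ z b) := h2
      _ = (l b (Ψ z b))⁻¹ • (c ^ 2 • phi l (H z)) := by rw [← Pool.Agent.H62.BU.phi_smul, ← hc]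
      _ = _ := by rw [smul_smul]
  obtain ⟨c, hc0, hc⟩ := hcon a (hsr a ha) b (hsr b hb)
  have h1 : Pr (phi l (H a)) (phi l (H b)) :=
    ⟨c ^ 2, pow_ne_zero 2 hc0, by rw [hc, Pool.Agent.H62.BU.phi_smul]⟩
  exact (key a ha).trans (h1.trans (key b hb).symm)

end Pool.Agent.SDA
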