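import Pool.Agent.SDA.ED
import Pool.Agent.SY.EiS
import Pool.Agent.H14.KB.Kob

/-!
# SDA ES: the curvature of the metric downstairs

`downU_sub` (compare `SY/EiS.lean`) and `downU_near`: the components of the lift are multiples of `F`, so the relative sizes of the equations
upstairs and downstairs are equal.
-/

set_option autoImplicit false

open Topology Filter Metric

noncomputable section

namespace Pool.Agent.SDA

open Pool.Agent.H36.BP (EN fs wd Sub)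
open Pool.Agent.H17BP (Pr Surface IsForm NoZeros NodalAt Eqs IsChart ResAt)
open Pool.Agent.H14.KB (rhoS)
open Pool.Agent.H62.BU (blow total Ker phi om)
open Pool.Agent.SY (Ent IsLiftB down exists_liftB sub_norm_pi lift_comp)

variable {V : Type} [NormedAddCommGroup V] [NormedSpace ℂ V] {ι : Type} [Fintype ι] {l : ι → V →L[ℂ] ℂ} {X K T : Set V} {q : V}

/-- multiplication of the curvature property upstairs by the norm of the multiplier -/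
theorem sub_down {N N' : ℕ} {L : V ≃L[ℂ] EN N} {L' : (ι → V) ≃L[ℂ] EN N'} (hL : ∀ y, ‖L' y‖ ^ 2 = ∑ b, ‖L (y b)‖ ^ 2)
    (hX : Surface X) (hl : Ker l q) (hT : ∀ x ∈ T, ∀ c : ℂ, c ≠ 0 → c • x ∈ T) (hq : q ∈ T) {F : ℂ → V} (hF : Ent X T F)
    {Φ : ℂ → ι → V} (hΦ : IsLiftB l X T F Φ) {c₀ a : ℝ} (hc₀ : 0 < c₀) {G : ℂ → ℝ} {z : ℂ}
    (h1 : Sub (fun w => G w * ‖L' (Φ w)‖ ^ (-c₀)) z a) : Sub (fun w => G w * ‖L (F w)‖ ^ (-c₀)) z a := by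
  obtain ⟨k, hka, hk0, hk⟩ := lift_comp L hX hl hT hq hF hΦ z
  have h2 := (sub_norm_pi hka hk0).rpow hc₀.le
  have h3 := h1.mul h2
  rw [mul_zero, add_zero] at h3
  refine h3.congr ?_
  have hpos : ∀ᶠ w in 𝓝 z, (WithLp.toLp 2 (fun b => k b w) : EuclideanSpace ℂ ι) ≠ 0 := by
    obtain ⟨b, hb⟩ := hk0
    filter_upwards [(hka b).continuousAt.eventually_ne hb] with w hw h0
    exact hw (congrArg (fun v : EuclideanSpace ℂ ι => v b) h0)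
  filter_upwards [hk, hpos] with w hw hw0
  set U : EuclideanSpace ℂ ι := WithLp.toLp 2 (fun b => k b w) with hU
  have hUn : 0 < ‖U‖ := norm_pos_iff.mpr hw0
  have hLF : 0 < ‖L (F w)‖ := by
    refine norm_pos_iff.mpr fun h0 => hX.zero ?_
    have h4 : F w = 0 := by simpa using congrArg L.symm h0
    exact h4 ▸ hF.mem w
  have h4 : ‖L' (Φ w)‖ = ‖U‖ * ‖L (F w)‖ := by
    have h5 : ‖L' (Φ w)‖ ^ 2 = (‖U‖ * ‖L (F w)‖) ^ 2 := by
      rw [hL, mul_pow, EuclideanSpace.norm_sq_eq, Finset.sum_mul]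
      refine Finset.sum_congr rfl fun b _ => ?_
      rw [hw b, map_smul, norm_smul, mul_pow]
    exact (pow_left_inj₀ (norm_nonneg _) (by positivity) two_ne_zero).mp h5
  rw [h4, Real.mul_rpow hUn.le hLF.le]
  have h6 : ‖U‖ ^ (-c₀) * ‖U‖ ^ c₀ = 1 := by
    rw [← Real.rpow_add hUn, neg_add_cancel, Real.rpow_zero]
  calc G w * (‖U‖ ^ (-c₀) * ‖L (F w)‖ ^ (-c₀)) * ‖U‖ ^ c₀ = G w * ‖L (F w)‖ ^ (-c₀) * (‖U‖ ^ (-c₀) * ‖U‖ ^ c₀) := by ring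
    _ = G w * ‖L (F w)‖ ^ (-c₀) := by rw [h6, mul_one]

/-- MODULE K5 (1): the curvature (compare `SY/EiS.lean`) -/
theorem downU_sub {N N' : ℕ} {L : V ≃L[ℂ] EN N} {L' : (ι → V) ≃L[ℂ] EN N'} (hL : ∀ y, ‖L' y‖ ^ 2 = ∑ b, ‖L (y b)‖ ^ 2)
    {rho : (ι → V) → ℝ} {M : ℕ} {c₀ C δ : ℝ} {g : (ℂ → ι → V) → ℂ → ℝ}
    (hX : Surface X) (hKX : K ⊆ X) (hKs : ∀ x ∈ K, ∀ c : ℂ, c ≠ 0 → c • x ∈ K) (hl : Ker l q) (hTX : T ⊆ X)
    (hT : ∀ x ∈ T, ∀ c : ℂ, c ≠ 0 → c • x ∈ T) (hq : q ∈ T)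
    (E : EnU (blow l X) (total l X K) (total l X T) (fun y => ‖L' y‖) rho M c₀ C δ g) {F : ℂ → V} (hF : EntU X K T F) (z : ℂ)
    (hz : 0 < down l X T g F z) :
    Sub (fun w => down l X T g F w * ‖L (F w)‖ ^ (-c₀)) z (-(C * down l X T g F z ^ 2)) := by
  obtain ⟨Φ, hΦ⟩ := exists_liftB hX hl hTX hT hq hF.ent
  rw [downU_eq hX hKX hKs hl hTX hT hq E hF hΦ] at hz ⊢
  exact sub_down hL hX hl hT hq hF.ent hΦ E.c₀_pos (E.sub Φ (entU_lift hX hKX hKs hl hT hq hF hΦ) z hz)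

/-- the relative size of the equations on a lift -/
theorem rhoS_lift (hX : Surface X) (hl : Ker l q) (hT : ∀ x ∈ T, ∀ c : ℂ, c ≠ 0 → c • x ∈ T) (hq : q ∈ T) {F : ℂ → V}
    (hF : Ent X T F) {Φ : ℂ → ι → V} (h1 : IsLiftB l X T F Φ) {κ : Type} [Fintype κ] {Q : κ → V → ℂ} {D : ℕ}
    (hQs : ∀ i (c : ℂ) x, Q i (c • x) = c ^ D * Q i x) (z : ℂ) :
    rhoS (fun (p : κ × ι) (y : ι → V) => Q p.1 (y p.2)) D (Φ z) ≤ rhoS Q D (F z) := by
  choose k hk using fun b => lift_mul hX hl hT hq hF h1 z b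
  have hF0 : 0 < ‖F z‖ := norm_pos_iff.mpr fun h0 => hX.zero (h0 ▸ hF.mem z)
  have hΦ : Φ z = fun b => k b • F z := funext hk
  have hne : (k : ι → ℂ) ≠ 0 := by
    rintro rfl
    apply (h1.1.mem z).2
    rw [hΦ]
    funext b
    simp
  have hk0 : 0 < ‖k‖ := norm_pos_iff.mpr hne
  have h2 : ‖Φ z‖ = ‖k‖ * ‖F z‖ := by
    rw [hΦ]
    apply le_antisymm
    · refine (pi_norm_le_iff_of_nonneg (by positivity)).mpr fun b => ?_
      rw [norm_smul]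
      exact mul_le_mul_of_nonneg_right (norm_le_pi_norm k b) (norm_nonneg _)
    · rw [← le_div_iff₀ hF0]
      refine (pi_norm_le_iff_of_nonneg (by positivity)).mpr fun b => ?_
      rw [le_div_iff₀ hF0, ← norm_smul]
      exact norm_le_pi_norm (fun b => k b • F z) b
  have h3 : ‖fun p : κ × ι => Q p.1 (Φ z p.2)‖ ≤ ‖k‖ ^ D * ‖fun i => Q i (F z)‖ := by
    refine (pi_norm_le_iff_of_nonneg (by positivity)).mpr fun p => ?_
    rw [hk p.2, hQs, norm_mul, norm_pow]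
    exact mul_le_mul (pow_le_pow_left₀ (norm_nonneg _) (norm_le_pi_norm k p.2) _)
      (norm_le_pi_norm (fun i => Q i (F z)) p.1) (norm_nonneg _) (by positivity)
  unfold rhoS
  rw [h2, div_le_div_iff₀ (by positivity) (by positivity), mul_pow]
  calc ‖fun p : κ × ι => Q p.1 (Φ z p.2)‖ * ‖F z‖ ^ D ≤ ‖k‖ ^ D * ‖fun i => Q i (F z)‖ * ‖F z‖ ^ D :=
        mul_le_mul_of_nonneg_right h3 (by positivity)
    _ = ‖fun i => Q i (F z)‖ * (‖k‖ ^ D * ‖F z‖ ^ D) := by ring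

/-- MODULE K5 (2): no error near the exceptional curve -/
theorem downU_near {N N' : ℕ} {L : V ≃L[ℂ] EN N} {L' : (ι → V) ≃L[ℂ] EN N'} (hL : ∀ y, ‖L' y‖ ^ 2 = ∑ b, ‖L (y b)‖ ^ 2)
    {κ : Type} [Fintype κ] {Q : κ → V → ℂ} {D : ℕ} {M : ℕ} {c₀ C δ : ℝ} {g : (ℂ → ι → V) → ℂ → ℝ}
    (hX : Surface X) (hKX : K ⊆ X) (hKs : ∀ x ∈ K, ∀ c : ℂ, c ≠ 0 → c • x ∈ K) (hl : Ker l q) (he : Eqs X T Q D) (hq : q ∈ T)
    (E : EnU (blow l X) (total l X K) (total l X T) (fun y => ‖L' y‖) (rhoS (fun (p : κ × ι) (y : ι → V) => Q p.1 (y p.2)) D) M c₀ C δ g)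
    {F : ℂ → V} (hF : EntU X K T F) (z : ℂ) (hz : 0 < down l X T g F z) (hρ : rhoS Q D (F z) < δ) :
    Sub (fun w => down l X T g F w * ‖L (F w)‖ ^ (-c₀)) z 0 := by
  have hTX := he.sub
  have hT : ∀ x ∈ T, ∀ c : ℂ, c ≠ 0 → c • x ∈ T := he.cone hX.smul
  obtain ⟨Φ, hΦ⟩ := exists_liftB hX hl hTX hT hq hF.ent
  rw [downU_eq hX hKX hKs hl hTX hT hq E hF hΦ] at hz ⊢
  exact sub_down hL hX hl hT hq hF.ent hΦ E.c₀_pos (E.near Φ (entU_lift hX hKX hKs hl hT hq hF hΦ) z hz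
    ((rhoS_lift hX hl hT hq hF.ent hΦ he.smul z).trans_lt hρ))

end Pool.Agent.SDA
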