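import Pool.Agent.SDA.Defs
import Pool.Agent.H36.BPL.Wrap

/-!
# SDA KDefs: the metric along entire curves in an open surface

`X` is the cone of a closed surface, `K` the cone of an open subset of it, `T` the cone of a curve which contains the complement of `K`.
`EntU X K T F`: `F` is an entire curve in `K`, not contained in `T`.  `rho` measures the distance to `T`; where `rho < δ` the metric has no
error term (`near`).
-/

set_option autoImplicit false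

open Topology Filter Metric

namespace Pool.Agent.SDA

open Pool.Agent.H36.BP (EN fs wd Sub mt)
open Pool.Agent.H17BP (Pr Surface IsForm NoZeros Eqs IsChart)
open Pool.Agent.H36.BPL (OpenPart PoleLE AffProper)
open Pool.Agent.SY (Ent)

/-- entire curves in the open cone `K ⊆ X`, not contained in `T` -/
structure EntU {V : Type} [NormedAddCommGroup V] [NormedSpace ℂ V] (X K T : Set V) (F : ℂ → V) : Prop where
  ent : Ent X T F
  memK : ∀ z, F z ∈ K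

/-- a metric along the entire curves in `K` -/
structure EnU {V : Type} [NormedAddCommGroup V] [NormedSpace ℂ V] (X K T : Set V) (nu rho : V → ℝ) (M : ℕ) (c₀ C δ : ℝ)
    (g : (ℂ → V) → ℂ → ℝ) : Prop where
  c₀_pos : 0 < c₀
  C_pos : 0 < C
  δ_pos : 0 < δ
  nonneg : ∀ F, EntU X K T F → ∀ z, 0 ≤ g F z
  usc : ∀ F, EntU X K T F → ∀ z a, g F z < a → ∀ᶠ w in 𝓝 z, g F w < a
  aff : ∀ F, EntU X K T F → ∀ a b : ℂ, a ≠ 0 → ∀ z, g (fun w => F (a * w + b)) z = ‖a‖ * g F (a * z + b)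
  unit : ∀ F, EntU X K T F → ∀ h : ℂ → ℂ, Differentiable ℂ h → (∀ z, h z ≠ 0) → ∀ z, g (fun w => h w • F w) z = g F z
  sub : ∀ F, EntU X K T F → ∀ z, 0 < g F z → Sub (fun w => g F w * nu (F w) ^ (-c₀)) z (-(C * g F z ^ 2))
  near : ∀ F, EntU X K T F → ∀ z, 0 < g F z → rho (F z) < δ → Sub (fun w => g F w * nu (F w) ^ (-c₀)) z 0
  lower : ∀ F, EntU X K T F → ∀ z, ∃ a : ℂ, rho (F z) ^ M * ‖deriv F z - a • F z‖ ≤ C * ‖F z‖ * g F z
  lim : ∀ (l : Filter ℕ), l.NeBot → ∀ (r A ε : ℝ), 0 < r → 0 < ε → ∀ (F : ℕ → ℂ → V) (H : ℂ → V), (∀ᶠ n in l, EntU X K T (F n)) →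
    (∀ᶠ n in l, ∀ z ∈ ball (0 : ℂ) r, g (F n) z ≤ A) → (∀ᶠ n in l, ε ≤ g (F n) 0) →
    (∃ h : ℕ → ℂ → ℂ, (∀ᶠ n in l, DifferentiableOn ℂ (h n) (ball 0 r) ∧ ∀ z ∈ ball (0 : ℂ) r, h n z ≠ 0) ∧
      TendstoLocallyUniformlyOn (fun n z => h n z • F n z) H l (ball 0 r)) →
    (∀ z ∈ ball (0 : ℂ) r, H z ∈ X) → (∃ z ∈ ball (0 : ℂ) r, H z ∉ T) ∧ ∃ z ∈ ball (0 : ℂ) r, ∃ w ∈ ball (0 : ℂ) r, ¬ Pr (H z) (H w)

/-- no error near the exceptional curve -/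
def NearM {N : ℕ} (K : Set (EN N)) (G : EN N → EN N → ℝ) (ρ : EN N → ℝ) (c₀ δ : ℝ) : Prop :=
  ∀ (F : ℂ → EN N) (z₀ : ℂ), AnalyticAt ℂ F z₀ → (∀ᶠ z in 𝓝 z₀, F z ∈ K) → 0 < mt G F z₀ → ρ (F z₀) < δ →
    Sub (fun z => mt G F z * ‖F z‖ ^ (-c₀)) z₀ 0

/-- An open surface `K` in the closed surface `X`, a curve `T ⊇ X ∖ K` and a section `Ω` of `m (K + D) - j H` without zeros outside `T`, with
poles of order less than `m` along `X ∖ K`. -/
structure ModelL {V : Type} [NormedAddCommGroup V] [NormedSpace ℂ V] (X K T : Set V) (m j : ℕ) (Ω : V → V → V → ℂ) {κ : Type} (Q : κ → V → ℂ)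
    (D : ℕ) : Prop where
  surf : Surface X
  opn : OpenPart X K
  aff : ∃ (M : ℕ) (Φ : V → Fin M → ℂ), AffProper X K Φ
  sub : ∀ x ∈ X, x ∉ K → x ∈ T
  one_m : 1 ≤ m
  one_j : 1 ≤ j
  form : IsForm K m j Ω
  noZeros : NoZeros K T Ω
  pole : PoleLE X K (m - 1) Ω
  eqs : Eqs X T Q D
  thin : ∀ σ τ, IsChart X σ τ → ∃ᶠ p in 𝓝 (0 : ℂ × ℂ), σ p ∉ T

end Pool.Agent.SDA
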