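import Pool.Agent.SY.EiW
import Pool.Agent.SDA.KDefs

/-!
# SDA EW: the lower bound of the metric of the blow-up on the curves in an open surface
-/

set_option autoImplicit false

open Topology Filter Metric

noncomputable section

namespace Pool.Agent.SDA

open Pool.Agent.H36.BP (EN fs wd Sub)
open Pool.Agent.H17BP (Pr Surface IsForm NoZeros Eqs IsChart)
open Pool.Agent.H14.PP (IsCone)
open Pool.Agent.H14.KB (rhoS)
open Pool.Agent.H62.BU (blow total Ker phi)
open Pool.Agent.SY (Ent IsLiftB down exists_liftB rhoS_smul_eq)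

variable {V : Type} [NormedAddCommGroup V] [NormedSpace ℂ V]
variable {ι : Type} [Fintype ι] {l : ι → V →L[ℂ] ℂ} {X K T : Set V} {q : V}

/-- the components of the lift are multiples of the curve -/
private lemma ew_mul (hX : Surface X) (hl : Ker l q) (hT : ∀ x ∈ T, ∀ c : ℂ, c ≠ 0 → c • x ∈ T) (hq : q ∈ T) {F : ℂ → V}
    (hF : Ent X T F) {Φ : ℂ → ι → V} (h1 : IsLiftB l X T F Φ) (z : ℂ) (i : ι) : ∃ c : ℂ, Φ z i = c • F z := by
  have hF0 : ∀ z, F z ≠ 0 := fun z h => hX.zero (h ▸ hF.mem z)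
  obtain ⟨hΦ, h, hh, hhΦ⟩ := h1
  obtain ⟨z₀, hz₀⟩ := hF.out
  obtain ⟨b, hb⟩ : ∃ b, l b (F z₀) ≠ 0 := by
    by_contra hcon
    push Not at hcon
    obtain ⟨c, hc⟩ := (hl (F z₀)).mp hcon
    have hc0 : c ≠ 0 := by
      rintro rfl
      exact hF0 z₀ (by rw [hc, zero_smul])
    exact hz₀ (hc ▸ hT q hq c hc0)
  have hfa : AnalyticOnNhd ℂ (fun z => l b (F z)) Set.univ := fun z _ =>
    ((l b).differentiable.comp hF.diff).analyticAt z
  have hne : ∀ᶠ y in 𝓝[≠] z, l b (F y) ≠ 0 := by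
    rcases (hfa z (Set.mem_univ z)).eventually_eq_zero_or_eventually_ne_zero with hz | hz
    · exact absurd (hfa.eqOn_zero_of_preconnected_of_eventuallyEq_zero isPreconnected_univ (Set.mem_univ z) hz (Set.mem_univ z₀)) hb
    · exact hz
  obtain ⟨L, -, hL⟩ := exists_dual_vector ℂ (F z) (norm_ne_zero_iff.mpr (hF0 z))
  have hL0 : L (F z) ≠ 0 := by
    rw [hL]
    exact Complex.ofReal_ne_zero.mpr (norm_ne_zero_iff.mpr (hF0 z))
  have hΦi : ContinuousAt (fun y => Φ y i) z := (continuous_apply i).continuousAt.comp (hΦ.diff z).continuousAt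
  have hkey : L (F z) • Φ z i = L (Φ z i) • F z := by
    by_contra hcon
    have hc : ContinuousAt (fun y => L (F y) • Φ y i - L (Φ y i) • F y) z :=
      ((L.continuous.continuousAt.comp (hF.diff z).continuousAt).smul hΦi).sub
        ((L.continuous.continuousAt.comp hΦi).smul (hF.diff z).continuousAt)
    have h1 : ∀ᶠ y in 𝓝[≠] z, L (F y) • Φ y i - L (Φ y i) • F y ≠ 0 :=
      (hc.eventually_ne (sub_ne_zero.mpr hcon)).filter_mono nhdsWithin_le_nhds
    obtain ⟨y, hy1, hy2⟩ := (hne.and h1).exists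
    apply hy2
    have hh0 : h y ≠ 0 := by
      intro h0
      have h3 := hhΦ y
      rw [h0, zero_smul] at h3
      have h4 : l b (F y) • F y = 0 := congrFun h3 b
      exact smul_ne_zero hy1 (hF0 y) h4
    have h5 : l i (F y) • F y = h y • Φ y i := congrFun (hhΦ y) i
    have h6 : Φ y i = ((h y)⁻¹ * l i (F y)) • F y := by
      rw [mul_smul, h5, smul_smul, inv_mul_cancel₀ hh0, one_smul]
    rw [h6, map_smul, smul_smul, smul_eq_mul, mul_comm (L (F y)), sub_self]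
  refine ⟨L (Φ z i) / L (F z), ?_⟩
  rw [div_eq_inv_mul, mul_smul, ← hkey, smul_smul, inv_mul_cancel₀ hL0, one_smul]

private lemma ew_lift (hX : Surface X) (hKs : ∀ x ∈ K, ∀ c : ℂ, c ≠ 0 → c • x ∈ K) (hl : Ker l q)
    (hT : ∀ x ∈ T, ∀ c : ℂ, c ≠ 0 → c • x ∈ T) (hq : q ∈ T) {F : ℂ → V}
    (hF : EntU X K T F) {Φ : ℂ → ι → V} (h1 : IsLiftB l X T F Φ) : EntU (blow l X) (total l X K) (total l X T) Φ := by
  refine ⟨h1.1, fun z => ⟨h1.1.mem z, fun i hi => ?_⟩⟩
  obtain ⟨c, hc⟩ := ew_mul hX hl hT hq hF.ent h1 z i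
  have hc0 : c ≠ 0 := by
    rintro rfl
    exact hi (by rw [hc, zero_smul])
  rw [hc]
  exact hKs _ (hF.memK z) c hc0

/-- MODULE K6: the lower bound -/
theorem downU_lower {N' : ℕ} {L' : (ι → V) ≃L[ℂ] EN N'} {κ : Type} [Fintype κ] {Q : κ → V → ℂ} {D : ℕ} {M : ℕ} {c₀ C δ : ℝ}
    {g : (ℂ → ι → V) → ℂ → ℝ} (hX : Surface X) (hKX : K ⊆ X) (hKs : ∀ x ∈ K, ∀ c : ℂ, c ≠ 0 → c • x ∈ K) (hl : Ker l q)
    (he : Eqs X T Q D) (hq : q ∈ T) (hM : 1 ≤ M)
    (E : EnU (blow l X) (total l X K) (total l X T) (fun y => ‖L' y‖) (rhoS (fun (p : κ × ι) (y : ι → V) => Q p.1 (y p.2)) D) M c₀ C δ g)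
    {F : ℂ → V} (hF : EntU X K T F) (z : ℂ) :
    ∃ a : ℂ, rhoS Q D (F z) ^ M * ‖deriv F z - a • F z‖ ≤ C * ‖F z‖ * down l X T g F z := by
  have hTX := he.sub
  have hT : ∀ x ∈ T, ∀ c : ℂ, c ≠ 0 → c • x ∈ T := he.cone hX.smul
  have hex : ∃ Φ, IsLiftB l X T F Φ := exists_liftB hX hl hTX hT hq hF.ent
  have hd : down l X T g F = g hex.choose := by
    unfold down
    exact dif_pos hex
  have hΦU : EntU (blow l X) (total l X K) (total l X T) hex.choose := ew_lift hX hKs hl hT hq hF hex.choose_spec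
  obtain ⟨hΦ, h, hh, hphi⟩ := hex.choose_spec
  rw [hd]
  set Φ := hex.choose
  have hF0 : F z ≠ 0 := fun h0 => hX.zero (h0 ▸ hF.ent.mem z)
  by_cases hFT : F z ∈ T
  · refine ⟨0, ?_⟩
    have h1 : rhoS Q D (F z) = 0 := by
      unfold rhoS
      have h2 : (fun i => Q i (F z)) = 0 := funext fun i => ((he.mem_iff _).1 hFT).2 i
      rw [h2, norm_zero, zero_div]
    rw [h1, zero_pow (by omega), zero_mul]
    exact mul_nonneg (mul_nonneg E.C_pos.le (norm_nonneg _)) (E.nonneg Φ hΦU z)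
  -- some `l b (F z)` is not `0`
  have hlb : ∃ b, l b (F z) ≠ 0 := by
    by_contra hcon
    push Not at hcon
    obtain ⟨c, e⟩ := (hl (F z)).1 hcon
    have hc : c ≠ 0 := by
      rintro rfl
      rw [zero_smul] at e
      exact hF0 e
    exact hFT (e ▸ hT q hq c hc)
  have : Nonempty ι := ⟨hlb.choose⟩
  obtain ⟨b, hbmax⟩ := Finite.exists_max fun b => ‖l b (F z)‖
  have hb : l b (F z) ≠ 0 := by
    obtain ⟨b', hb'⟩ := hlb
    have h3 := hbmax b'
    intro h0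
    rw [h0, norm_zero] at h3
    exact hb' (norm_le_zero_iff.mp h3)
  have hb0 : 0 < ‖l b (F z)‖ := norm_pos_iff.mpr hb
  have hpne : phi l (F z) ≠ 0 := H62.BU.phi_ne ⟨b, hb⟩
  have hhz : h z ≠ 0 := by
    intro h0
    rw [hphi z, h0, zero_smul] at hpne
    exact hpne rfl
  have hhz0 : 0 < ‖h z‖ := norm_pos_iff.mpr hhz
  -- the lower bound upstairs
  obtain ⟨a', ha'⟩ := E.lower Φ hΦU z
  have hFd : HasDerivAt F (deriv F z) z := (hF.ent.diff z).hasDerivAt
  have hhd : HasDerivAt h (deriv h z) z := (hh z).hasDerivAt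
  have hΦd : HasDerivAt Φ (deriv Φ z) z := (hΦ.diff z).hasDerivAt
  have hΦb : HasDerivAt (fun w => Φ w b) (deriv Φ z b) z := (hasDerivAt_pi.1 hΦd) b
  -- the derivative of the identity `l b (F) F = h Φ_b`
  have h3 : l b (deriv F z) • F z + l b (F z) • deriv F z = deriv h z • Φ z b + h z • deriv Φ z b := by
    have h4 : HasDerivAt (fun w => l b (F w) • F w) (l b (F z) • deriv F z + l b (deriv F z) • F z) z := by
      have h5 : HasDerivAt (fun w => l b (F w)) (l b (deriv F z)) z :=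
        (l b).hasFDerivAt.comp_hasDerivAt z hFd
      exact h5.smul hFd
    have h6 : HasDerivAt (fun w => h w • Φ w b) (h z • deriv Φ z b + deriv h z • Φ z b) z :=
      hhd.smul hΦb
    have h7 : (fun w => l b (F w) • F w) = fun w => h w • Φ w b := by
      funext w
      exact congrFun (hphi w) b
    rw [h7] at h4
    have h8 := h4.unique h6
    rw [add_comm, h8, add_comm]
  have hzb : l b (F z) • F z = h z • Φ z b := congrFun (hphi z) b
  refine ⟨a' + deriv h z / h z - l b (deriv F z) / l b (F z), ?_⟩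
  set a : ℂ := a' + deriv h z / h z - l b (deriv F z) / l b (F z) with ha
  have h4 : h z • (deriv Φ z b - a' • Φ z b) = l b (F z) • (deriv F z - a • F z) := by
    have e1 : l b (F z) * a = (a' + deriv h z / h z) * l b (F z) - l b (deriv F z) := by
      rw [ha]
      field_simp
    have e2 : l b (F z) • (deriv F z - a • F z) = l b (F z) • deriv F z + l b (deriv F z) • F z -
        (a' + deriv h z / h z) • (l b (F z) • F z) := by
      rw [smul_sub, smul_smul, e1, smul_smul]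
      module
    rw [e2, add_comm (l b (F z) • deriv F z), h3, hzb, smul_smul]
    have e3 : (a' + deriv h z / h z) * h z = a' * h z + deriv h z := by
      field_simp
    rw [e3]
    module
  have h5 : ‖l b (F z)‖ * ‖deriv F z - a • F z‖ ≤ ‖h z‖ * ‖deriv Φ z - a' • Φ z‖ := by
    rw [← norm_smul, ← h4, norm_smul]
    exact mul_le_mul_of_nonneg_left (norm_le_pi_norm (deriv Φ z - a' • Φ z) b) (norm_nonneg _)
  have h6 : ‖h z‖ * ‖Φ z‖ ≤ ‖l b (F z)‖ * ‖F z‖ := by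
    rw [← norm_smul, ← hphi z]
    refine (pi_norm_le_iff_of_nonneg (by positivity)).mpr fun b' => ?_
    show ‖l b' (F z) • F z‖ ≤ _
    rw [norm_smul]
    exact mul_le_mul_of_nonneg_right (hbmax b') (norm_nonneg _)
  have h7 := H14.KB.rhoS_phi (l := l) he.smul hF0 hb hbmax
  have h8 : rhoS (fun (p : κ × ι) (y : ι → V) => Q p.1 (y p.2)) D (phi l (F z)) =
      rhoS (fun (p : κ × ι) (y : ι → V) => Q p.1 (y p.2)) D (Φ z) := by
    rw [hphi z]
    exact rhoS_smul_eq (fun p c y => he.smul p.1 c (y p.2)) hhz (Φ z)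
  rw [h8] at h7
  have h9 : rhoS Q D (F z) ^ M ≤ rhoS (fun (p : κ × ι) (y : ι → V) => Q p.1 (y p.2)) D (Φ z) ^ M :=
    pow_le_pow_left₀ (H14.KB.rhoS_nonneg _ _ _) h7 M
  have hg0 := E.nonneg Φ hΦU z
  have h10 : ‖l b (F z)‖ * (rhoS Q D (F z) ^ M * ‖deriv F z - a • F z‖) ≤
      ‖l b (F z)‖ * (C * ‖F z‖ * g Φ z) := by
    calc ‖l b (F z)‖ * (rhoS Q D (F z) ^ M * ‖deriv F z - a • F z‖)
        = rhoS Q D (F z) ^ M * (‖l b (F z)‖ * ‖deriv F z - a • F z‖) := by ring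
      _ ≤ rhoS (fun (p : κ × ι) (y : ι → V) => Q p.1 (y p.2)) D (Φ z) ^ M * (‖h z‖ * ‖deriv Φ z - a' • Φ z‖) :=
          mul_le_mul h9 h5 (by positivity) (pow_nonneg (H14.KB.rhoS_nonneg _ _ _) _)
      _ = ‖h z‖ * (rhoS (fun (p : κ × ι) (y : ι → V) => Q p.1 (y p.2)) D (Φ z) ^ M * ‖deriv Φ z - a' • Φ z‖) := by ring
      _ ≤ ‖h z‖ * (C * ‖Φ z‖ * g Φ z) := mul_le_mul_of_nonneg_left ha' hhz0.le
      _ = C * g Φ z * (‖h z‖ * ‖Φ z‖) := by ring
      _ ≤ C * g Φ z * (‖l b (F z)‖ * ‖F z‖) :=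
          mul_le_mul_of_nonneg_left h6 (mul_nonneg E.C_pos.le hg0)
      _ = ‖l b (F z)‖ * (C * ‖F z‖ * g Φ z) := by ring
  exact le_of_mul_le_mul_left h10 hb0

end Pool.Agent.SDA
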