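import Pool.Agent.SDA.EN
import Pool.Agent.SDA.ED
import Pool.Agent.SDA.ES
import Pool.Agent.SDA.EW
import Pool.Agent.SDA.EM
import Pool.Agent.SY.EiQ
import Pool.Agent.SY.EiL
import Pool.Agent.H36.BPL.IndK

/-!
# SDA EI: the induction over the blow-ups for open surfaces
-/

set_option autoImplicit false

open Topology Filter Metric

noncomputable section

namespace Pool.Agent.SDA

open Pool.Agent.H36.BP (EN fs wd Sub Curve)
open Pool.Agent.H17BP (Pr Surface IsForm NoZeros NodalAt Eqs IsChart ResAt eqs_blow thin_blow resAt_blow exists_forms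
  exists_finset_of_isolated exists_resAt)
open Pool.Agent.H14.PP (IsCone)
open Pool.Agent.H14.KB (rhoS)
open Pool.Agent.H36.BPL (OpenPart PoleLE AffProper openPart_blow affProper_blow mem_totalK comp_mem phi_pr)
open Pool.Agent.H62.BU (blow total Ker phi om phi_smul)
open Pool.Agent.SY (Ent IsLiftB down exists_liftB exists_equiv_sum)

/-- The blow-up of a model at a point of the curve is a model. -/
theorem modelL_blow {V : Type} [NormedAddCommGroup V] [NormedSpace ℂ V] [FiniteDimensional ℂ V] {ι : Type} [Fintype ι] {l : ι → V →L[ℂ] ℂ}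
    {X K T : Set V} {q : V} {m j : ℕ} {Ω : V → V → V → ℂ} {κ : Type} {Q : κ → V → ℂ} {D : ℕ} (h : ModelL X K T m j Ω Q D) (hl : Ker l q) (hq : q ∈ T) :
    ModelL (blow l X) (total l X K) (total l X T) (2 * m) j (om l j Ω) (fun (p : κ × ι) (y : ι → V) => Q p.1 (y p.2)) D where
  surf := Pool.Agent.H17BP.surface_iff.1 (Pool.Agent.H62.BU.surface_blow (Pool.Agent.H17BP.surface_iff.2 h.surf) hl (h.eqs.sub hq))
  opn := openPart_blow h.surf h.opn
  aff := by
    obtain ⟨M, Φ, hΦ⟩ := h.aff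
    obtain ⟨Ψ, hΨ⟩ := affProper_blow (l := l) h.surf h.opn hΦ
    exact ⟨M, Ψ, hΨ⟩
  sub y hy hyK := by
    refine ⟨hy, fun b hb => ?_⟩
    have h1 : y b ∉ K := fun h2 => hyK ((mem_totalK h.surf h.opn.smul hy hb).mpr h2)
    exact h.sub _ (comp_mem h.surf hy hb) h1
  one_m := by have := h.one_m; omega
  one_j := h.one_j
  form := Pool.Agent.H62.BU.formK h.opn h.form
  noZeros := Pool.Agent.H62.BU.noZerosK h.surf h.opn h.form (h.eqs.cone h.surf.smul) hl hq h.noZeros
  pole := (Pool.Agent.H62.BU.poleLE_om h.surf h.opn h.form h.pole).mono (by have := h.one_m; omega)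
  eqs := eqs_blow h.surf h.eqs
  thin := fun σ τ h' => thin_blow h.surf h.eqs h.thin hl hq h'

/-- The conclusion. -/
def HasEnU {V : Type} [NormedAddCommGroup V] [NormedSpace ℂ V] (X K T : Set V) {κ : Type} [Fintype κ] (Q : κ → V → ℂ) (D : ℕ) : Prop :=
  ∀ (N : ℕ) (L : V ≃L[ℂ] EN N), ∃ (M : ℕ) (c₀ C δ : ℝ) (g : (ℂ → V) → ℂ → ℝ), 1 ≤ M ∧ EnU X K T (fun x => ‖L x‖) (rhoS Q D) M c₀ C δ g

/-- The descent of the metric from the blow-up. -/
theorem enU_blow {V : Type} [NormedAddCommGroup V] [NormedSpace ℂ V] [FiniteDimensional ℂ V] {r : ℕ} {l : Fin r → V →L[ℂ] ℂ}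
    {X K T : Set V} {q : V} {m j : ℕ} {Ω : V → V → V → ℂ} {κ : Type} [Fintype κ] {Q : κ → V → ℂ} {D : ℕ} (h : ModelL X K T m j Ω Q D)
    (hl : Ker l q) (hq : q ∈ T)
    (H : HasEnU (blow l X) (total l X K) (total l X T) (fun (p : κ × Fin r) (y : Fin r → V) => Q p.1 (y p.2)) D) : HasEnU X K T Q D := by
  intro N L
  have hX := h.surf
  have hKX := h.opn.sub
  have hKs := h.opn.smul
  have hTX : T ⊆ X := h.eqs.sub
  have hT := h.eqs.cone h.surf.smul
  have hr : 0 < r := by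
    rcases Nat.eq_zero_or_pos r with h0 | h0
    · exfalso
      subst h0
      obtain ⟨σ, τ, hσ, hσ0⟩ := hX.chart q (hTX hq)
      obtain ⟨p, hp, hp2⟩ := ((h.thin σ τ hσ).and_eventually hσ.σ_mem).exists
      obtain ⟨c, hc⟩ := (hl (σ p)).1 fun i => i.elim0
      have hc0 : c ≠ 0 := by
        rintro rfl
        rw [zero_smul] at hc
        exact hX.zero (hc ▸ hp2)
      exact hp (hc ▸ hT q hq c hc0)
    · exact h0
  obtain ⟨N', L', hL'⟩ := exists_equiv_sum L r hr
  obtain ⟨M, c₀, C, δ, g, hM, E⟩ := H N' L'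
  refine ⟨M, c₀, C, δ, down l X T g, hM, ?_⟩
  exact
  { c₀_pos := E.c₀_pos
    C_pos := E.C_pos
    δ_pos := E.δ_pos
    nonneg := fun F hF z => by
      obtain ⟨Φ, hΦ⟩ := exists_liftB hX hl hTX hT hq hF.ent
      rw [downU_eq hX hKX hKs hl hTX hT hq E hF hΦ]
      exact E.nonneg Φ (entU_lift hX hKX hKs hl hT hq hF hΦ) z
    usc := fun F hF z a hz => by
      obtain ⟨Φ, hΦ⟩ := exists_liftB hX hl hTX hT hq hF.ent
      rw [downU_eq hX hKX hKs hl hTX hT hq E hF hΦ] at hz ⊢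
      exact E.usc Φ (entU_lift hX hKX hKs hl hT hq hF hΦ) z a hz
    aff := fun F hF a b ha z => downU_aff hX hKX hKs hl hTX hT hq E hF ha z
    unit := fun F hF u hu h0 z => downU_unit hX hKX hKs hl hTX hT hq E hF hu h0 z
    sub := fun F hF z hz => downU_sub hL' hX hKX hKs hl hTX hT hq E hF z hz
    near := fun F hF z hz hρ => downU_near hL' hX hKX hKs hl h.eqs hq E hF z hz hρ
    lower := fun F hF z => downU_lower hX hKX hKs hl h.eqs hq hM E hF z
    lim := fun u hu r' A ε hr' hε F G hF hA hB hc hG => downU_lim hX hKX hKs hl hTX hT hq E u hu r' A ε hr' hε F G hF hA hB hc hG }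

/-- The statement for models which are resolved by `n` blow-ups over every point. -/
def EnUN (n : ℕ) : Prop :=
  ∀ (V : Type) [NormedAddCommGroup V] [NormedSpace ℂ V] [FiniteDimensional ℂ V] (X K T : Set V) (m j : ℕ)
    (Ω : V → V → V → ℂ) (κ : Type) [Fintype κ] (Q : κ → V → ℂ) (D : ℕ), ModelL X K T m j Ω Q D →
    (∀ x ∈ X, ResAt X T x n) → HasEnU X K T Q D

theorem enUN_zero : EnUN 0 := by
  intro V _ _ _ X K T m j Ω κ _ Q D h h0 N L
  exact enU_nodal h (fun x hx => (h0 x hx).nodal) L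

theorem enUN_step {n : ℕ} (ih : EnUN n) : ∀ (k : ℕ) (V : Type) [NormedAddCommGroup V] [NormedSpace ℂ V]
    [FiniteDimensional ℂ V] (X K T : Set V) (m j : ℕ) (Ω : V → V → V → ℂ) (κ : Type) [Fintype κ]
    (Q : κ → V → ℂ) (D : ℕ), ModelL X K T m j Ω Q D → (∀ x ∈ X, ResAt X T x (n + 1)) →
    (∃ F : Finset V, F.card ≤ k ∧ ∀ x ∈ X, ResAt X T x n ∨ ∃ q ∈ F, Pr x q) → HasEnU X K T Q D := by
  intro k
  induction k with
  | zero =>
    intro V _ _ _ X K T m j Ω κ _ Q D h h0 hF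
    obtain ⟨F, hF1, hF2⟩ := hF
    have hF0 : F = ∅ := Finset.card_eq_zero.1 (by omega)
    refine ih V X K T m j Ω κ Q D h fun x hx => ?_
    rcases hF2 x hx with h1 | ⟨q, hq, -⟩
    · exact h1
    · rw [hF0] at hq
      simp at hq
  | succ k ihk =>
    intro V _ _ _ X K T m j Ω κ _ Q D h h0 hF
    obtain ⟨F, hF1, hF2⟩ := hF
    have hX := h.surf.smul
    have hB := h.eqs.cone h.surf.smul
    by_cases hall : ∀ x ∈ X, ResAt X T x n
    · exact ih V X K T m j Ω κ Q D h hall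
    push Not at hall
    obtain ⟨x₀, hx₀, hx₀n⟩ := hall
    rcases hF2 x₀ hx₀ with h1 | ⟨q, hqF, hxq⟩
    · exact absurd h1 hx₀n
    have hqX : q ∈ X := (hxq.mem_iff hX).1 hx₀
    have hqn : ¬ ResAt X T q n := fun h1 => hx₀n (h1.pr hX hB hxq)
    have hq0 : ¬ ResAt X T q 0 := fun h1 => hqn (h1.mono_le (Nat.zero_le n))
    have hqB : q ∈ T := by
      by_contra hqB
      exact hq0 (ResAt.of_notMem h.surf h.eqs hqX hqB)
    have hqne : q ≠ 0 := fun e => h.surf.zero (e ▸ hqX)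
    obtain ⟨r, l, hl⟩ := exists_forms hqne
    classical
    refine enU_blow h hl hqB ?_
    refine ihk (Fin r → V) (blow l X) (total l X K) (total l X T) (2 * m) j (om l j Ω) (κ × Fin r) _ D
      (modelL_blow h hl hqB) ?_ ⟨(F.erase q).image (phi l), ?_, ?_⟩
    · intro y hy
      rcases resAt_blow h.surf h.eqs hl hqB (h0 q hqX) hq0 hy with h1 | ⟨x, hx, -, -, h2⟩
      · exact h1.mono_le (Nat.le_succ n)
      · exact h2 _ (h0 x hx)
    · have h1 := Finset.card_image_le (s := F.erase q) (f := phi l)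
      have h2 := Finset.card_erase_of_mem hqF
      omega
    · intro y hy
      rcases resAt_blow h.surf h.eqs hl hqB (h0 q hqX) hq0 hy with h1 | ⟨x, hx, hxq', hyx, h2⟩
      · exact Or.inl h1
      · rcases hF2 x hx with h3 | ⟨q', hq'F, hxq''⟩
        · exact Or.inl (h2 _ h3)
        · refine Or.inr ⟨phi l q', Finset.mem_image_of_mem _ (Finset.mem_erase.2 ⟨?_, hq'F⟩),
            hyx.trans (phi_pr hxq'')⟩
          rintro rfl
          exact hxq' hxq''

/-- At all but finitely many points the curve is a monomial in local coordinates. -/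
theorem ModelL.exists_finset {V : Type} [NormedAddCommGroup V] [NormedSpace ℂ V] [FiniteDimensional ℂ V]
    {X K T : Set V} {m j : ℕ} {Ω : V → V → V → ℂ} {κ : Type} {Q : κ → V → ℂ} {D : ℕ}
    (h : ModelL X K T m j Ω Q D) :
    ∃ F : Finset V, (∀ q ∈ F, q ∈ X) ∧ ∀ x ∈ X, ResAt X T x 0 ∨ ∃ q ∈ F, Pr x q := by
  have hX := h.surf.smul
  have hB := h.eqs.cone h.surf.smul
  refine exists_finset_of_isolated h.surf (fun x y hxy hy => hy.pr hX hB hxy) fun x hx => ?_
  obtain ⟨n, hn⟩ := exists_resAt h.surf h.eqs h.thin hx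
  exact hn.near hX hB

theorem enUN (n : ℕ) : EnUN n := by
  induction n with
  | zero => exact enUN_zero
  | succ n ih =>
    intro V _ _ _ X K T m j Ω κ _ Q D h h0
    obtain ⟨F, -, hF⟩ := h.exists_finset
    refine enUN_step ih F.card V X K T m j Ω κ Q D h h0 ⟨F, le_rfl, fun x hx => ?_⟩
    rcases hF x hx with h1 | h1
    · exact Or.inl (h1.mono_le (Nat.zero_le n))
    · exact Or.inr h1

/-- The metric along the entire curves of an open surface with a curve in it. -/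
theorem enU_of_model {V : Type} [NormedAddCommGroup V] [NormedSpace ℂ V] {X K T : Set V}
    [FiniteDimensional ℂ V] {m j : ℕ} {Ω : V → V → V → ℂ} {κ : Type} [Fintype κ] {Q : κ → V → ℂ} {D : ℕ}
    (h : ModelL X K T m j Ω Q D) {N : ℕ} (L : V ≃L[ℂ] EN N) :
    ∃ (M : ℕ) (c₀ C δ : ℝ) (g : (ℂ → V) → ℂ → ℝ), 1 ≤ M ∧ EnU X K T (fun x => ‖L x‖) (rhoS Q D) M c₀ C δ g := by
  classical
  have hX := h.surf.smul
  have hB := h.eqs.cone h.surf.smul
  obtain ⟨F, hFX, hF⟩ := h.exists_finset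
  have h1 : ∀ q : V, ∃ n, q ∈ F → ResAt X T q n := by
    intro q
    by_cases hq : q ∈ F
    · obtain ⟨n, hn⟩ := exists_resAt h.surf h.eqs h.thin (hFX q hq)
      exact ⟨n, fun _ => hn⟩
    · exact ⟨0, fun h2 => absurd h2 hq⟩
  choose n hn using h1
  refine enUN (F.sup n) V X K T m j Ω κ Q D h (fun x hx => ?_) N L
  rcases hF x hx with h2 | ⟨q, hq, hxq⟩
  · exact h2.mono_le (Nat.zero_le _)
  · exact ((hn q hq).mono_le (Finset.le_sup (f := n) hq)).pr hX hB hxq

/-! ## the conversion to `EnergyK` -/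

private theorem EI_ent {V : Type} [NormedAddCommGroup V] [NormedSpace ℂ V] {X K T : Set V} (hKX : K ⊆ X) {F : ℂ → V} (hF : Ent K T F) :
    EntU X K T F := ⟨⟨hF.diff, fun z => hKX (hF.mem z), hF.out⟩, hF.mem⟩

/-- MODULE K8 (2): conversion to the structure of `SDA/Defs.lean` -/
theorem energyK_of_enU {N : ℕ} {X K T : Set (EN N)} (hX : IsCone X) (hKX : K ⊆ X) (hKs : ∀ x ∈ K, ∀ c : ℂ, c ≠ 0 → c • x ∈ K)
    (hKT : ∀ x ∈ X, x ∉ K → x ∈ T) {M' : ℕ} {Φ : EN N → Fin M' → ℂ} (hΦ : AffProper X K Φ) {nu rho : EN N → ℝ} {M : ℕ} {c₀ C δ : ℝ}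
    {g : (ℂ → EN N) → ℂ → ℝ} (E : EnU X K T nu rho M c₀ C δ g) : Pool.Agent.SDA.EnergyK X K T nu rho M c₀ C g where
  c₀_pos := E.c₀_pos
  C_pos := E.C_pos
  nonneg F hF := E.nonneg F (EI_ent hKX hF)
  usc F hF := E.usc F (EI_ent hKX hF)
  aff F hF := E.aff F (EI_ent hKX hF)
  unit F hF := E.unit F (EI_ent hKX hF)
  sub F hF := E.sub F (EI_ent hKX hF)
  lower F hF := E.lower F (EI_ent hKX hF)
  lim l hl r A ε hr hε F H hF hA hB hc hH :=
    E.lim l hl r A ε hr hε F H (hF.mono fun n hn => EI_ent hKX hn) hA hB hc fun z hz => hKX (hH z hz)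
  near := ⟨δ, E.δ_pos, fun F hF z h1 h2 => E.near F (EI_ent hKX hF) z h2 h1⟩
  bdy l hl r A ε hr hε F H hF hA hB hc hH := by
    by_contra hK
    obtain ⟨h, hh, hlim⟩ := hc
    have hcl : ∀ x ∈ closure K, x ≠ 0 → x ∈ X := fun x hx hx0 =>
      ((hX.closed.closure_subset_iff.mpr (Set.subset_insert 0 X)) (closure_mono hKX hx)).resolve_left hx0
    have hcur : ∀ᶠ n in l, Curve K (ball 0 r) (fun z => h n z • F n z) := by
      filter_upwards [hF, hh] with n hn hn2
      exact ⟨hn2.1.smul hn.diff.differentiableOn, fun z hz => hKs _ (hn.mem z) _ (hn2.2 z hz)⟩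
    have hHd : DifferentiableOn ℂ H (ball 0 r) := hlim.differentiableOn (hcur.mono fun n hn => hn.1) isOpen_ball
    have h1 := Pool.Agent.H36.BPL.hur_of_affProper hcl hKs hΦ l hl (fun n z => h n z • F n z) H 0 0 r hr hcur hHd
      (by simpa using hlim) (hX.ne_zero (hH 0 (mem_ball_self hr))) hK
    obtain ⟨s, hs, hsub⟩ := Metric.eventually_nhds_iff_ball.1 h1
    set t := min s r with ht
    have ht0 : 0 < t := lt_min hs hr
    have htr : ball (0 : ℂ) t ⊆ ball 0 r := ball_subset_ball (min_le_right _ _)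
    obtain ⟨⟨z, hz, hzT⟩, -⟩ := E.lim l hl t A ε ht0 hε F H (hF.mono fun n hn => EI_ent hKX hn)
      (hA.mono fun n hn z hz => hn z (htr hz)) hB
      ⟨h, hh.mono fun n hn => ⟨hn.1.mono htr, fun z hz => hn.2 z (htr hz)⟩, hlim.mono htr⟩ (fun z hz => hH z (htr hz))
    exact hzT (hKT _ (hH z (htr hz)) (hsub z (ball_subset_ball (min_le_left _ _) hz)))

end Pool.Agent.SDA
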