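import Pool.Agent.SDA.EA
import Pool.Agent.SDA.MetN
import Pool.Agent.SY.EiN
import Pool.Agent.H36.LB.NodalL

/-!
# SDA EN (K3): the metric along entire curves in an open surface, the nodal case

Port of `SY/EiN.lean` and of `nodalL_metric` (`H36/LB/NodalL.lean`) with the field `near`.
-/

set_option autoImplicit false

open Topology Filter Metric

noncomputable section

namespace Pool.Agent.SDA

open Pool.Agent Pool.Agent.H17BP
open Pool.Agent.H36.BP hiding kobayashi_of_bound picard_cone_of_bound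
open Pool.Agent.H36.BPL hiding ModelK
open Pool.Agent.H36.BPB (MD)
open Pool.Agent.H14.KB (rhoS rhoS_nonneg)
open Pool.Agent.H14.PP (IsCone IsOpenPart IsNodal Chart HasType DType Form IsEq)
open Pool.Agent.H36.LB (hur_openPart tlu_comp)

/-- The metric theorem for open surfaces in `ℙ(V)`. -/
theorem nodalK_metric_near {V : Type} [NormedAddCommGroup V] [NormedSpace ℂ V] {N : ℕ} (L : V ≃L[ℂ] EN N)
    {W : Type} [NormedAddCommGroup W] [InnerProductSpace ℂ W] {X K T : Set V} {m j : ℕ}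
    {Ω : V → V → V → ℂ} {Q : V → W} {D : ℕ} (hX : Surface X) (hK : OpenPart X K)
    (hKT : ∀ x ∈ X, x ∉ K → x ∈ T) (hQ : ∀ x, AnalyticAt ℂ Q x)
    (hQs : ∀ (c : ℂ) (x : V), Q (c • x) = c ^ D • Q x) (hT : ∀ x, x ∈ T ↔ x ∈ X ∧ Q x = 0)
    (hn : ∀ x ∈ T, PairNodalAt X K T x) (hm : 1 ≤ m) (hj : 1 ≤ j) (hΩ : IsForm K m j Ω)
    (hz : NoZeros K T Ω) (hpl : PoleLE X K (m - 1) Ω) :
    IsEq (L.symm ⁻¹' X : Set (EN N)) (L.symm ⁻¹' T) (fun y => Q (L.symm y)) D ∧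
    ∃ (M' : ℕ) (c₀ C : ℝ) (G : EN N → EN N → ℝ), MD (L.symm ⁻¹' K : Set (EN N))
      ((L.symm ⁻¹' K : Set (EN N)) ∩ L.symm ⁻¹' T) G
      (Pool.Agent.H14.PP.rho (fun y => Q (L.symm y)) D) M' c₀ C ∧
      ∃ δ₁ : ℝ, 0 < δ₁ ∧ ∀ (F : ℂ → EN N) (z₀ : ℂ), AnalyticAt ℂ F z₀ → (∀ᶠ z in 𝓝 z₀, F z ∈ (L.symm ⁻¹' K : Set (EN N))) →
        0 < mt G F z₀ → Pool.Agent.H14.PP.rho (fun y => Q (L.symm y)) D (F z₀) < δ₁ →
        Sub (fun z => mt G F z * ‖F z‖ ^ (-c₀)) z₀ 0 := by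
  set X' : Set (EN N) := L.symm ⁻¹' X with hX'
  set K' : Set (EN N) := L.symm ⁻¹' K with hK'
  set T' : Set (EN N) := L.symm ⁻¹' T with hT'
  have hTs : ∀ x ∈ T, ∀ c : ℂ, c ≠ 0 → c • x ∈ T := by
    intro x hx c hc
    obtain ⟨h1, h2⟩ := (hT x).mp hx
    exact (hT _).mpr ⟨hX.smul x h1 c hc, by rw [hQs, h2, smul_zero]⟩
  have hTX : T ⊆ X := fun x hx => ((hT x).mp hx).1
  have hcone : IsCone X' := isCone_transport L hX
  have hT's : ∀ x ∈ T', ∀ c : ℂ, c ≠ 0 → c • x ∈ T' := by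
    intro x hx c hc
    show L.symm (c • x) ∈ T
    rw [map_smul]
    exact hTs _ hx c hc
  have hK's : ∀ x ∈ K', ∀ c : ℂ, c ≠ 0 → c • x ∈ K' := by
    intro x hx c hc
    show L.symm (c • x) ∈ K
    rw [map_smul]
    exact hK.smul _ hx c hc
  have hopen : IsOpenPart X' K' := ⟨fun x hx => hK.sub hx, hK's, fun x hx => (L.symm.continuous.tendsto x).eventually (hK.rel _ hx)⟩
  have hnodal : IsNodal X' K' T' := by
    intro x hx
    have hxT : L.symm x ∈ T := hx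
    obtain ⟨σ, τ, hc, h0, nd, d, hnd, hd, hdn⟩ := hn (L.symm x) hxT
    have hg := germ_transport L hc
    have hLσ0 : L (σ 0) = x := by rw [h0, L.apply_symm_apply]
    have hnd' : ∀ᶠ p in 𝓝 (0 : ℂ × ℂ), (L (σ p) ∈ T' ↔ p.1 = 0 ∨ (nd = true ∧ p.2 = 0)) := by
      filter_upwards [hnd] with p hp
      rw [← hp]
      show L.symm (L (σ p)) ∈ T ↔ _
      rw [L.symm_apply_apply]
    have hd' : ∀ᶠ p in 𝓝 (0 : ℂ × ℂ), (L (σ p) ∉ K' ↔ (d.1 = true ∧ p.1 = 0) ∨ (d.2 = true ∧ p.2 = 0)) := by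
      filter_upwards [hd] with p hp
      rw [← hp]
      show L.symm (L (σ p)) ∉ K ↔ _
      rw [L.symm_apply_apply]
    obtain ⟨χ, h2, h3, h4, h5⟩ := exists_chart hcone hK's hT's hg hnd' hd'
    refine ⟨χ, nd, d, ?_, ?_, h4, h5, hdn⟩
    · rwa [hLσ0] at h2
    · rwa [hLσ0] at h3
  have heq : IsEq X' T' (fun y => Q (L.symm y)) D := by
    refine ⟨fun x => (hQ _).comp ((L.symm : EN N →L[ℂ] V).analyticAt x), fun c x => ?_, fun x => ?_⟩
    · show Q (L.symm (c • x)) = _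
      rw [map_smul, hQs]
    · exact hT (L.symm x)
  have hnz : (formT L hΩ).NoZeroOff T' := by
    intro x hx hxT v w hv hw hli
    refine hz (L.symm x) hx hxT _ (tan_transport L hv) _ (tan_transport L hw) ?_
    have h1 := hli.map' ((L.symm : EN N →L[ℂ] V) : EN N →ₗ[ℂ] V) (LinearMap.ker_eq_bot.mpr L.symm.injective)
    have h2 : (((L.symm : EN N →L[ℂ] V) : EN N →ₗ[ℂ] V) ∘ ![x, v, w]) = ![L.symm x, L.symm v, L.symm w] := by
      funext i
      fin_cases i <;> rfl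
    rw [h2] at h1
    exact h1
  have hpole : (formT L hΩ).PoleBound X' := poleBound_transport L hΩ hpl
  have hclX : ∀ x ∈ closure X', x ≠ 0 → x ∈ X' := fun x hx hx0 =>
    (hcone.closed.closure_subset_iff.mpr (Set.subset_insert 0 X') hx).resolve_left hx0
  refine ⟨heq, exists_metricB_near hcone hopen (fun x hx hxn => hKT _ hx hxn) heq hnodal hm hj (formT L hΩ) hnz hpole ?_⟩
  intro l hl F H z₀ s hs hF hH hlim hH0 h0
  have hXc : ∀ x ∈ closure X, x ≠ 0 → x ∈ X := by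
    intro x hx hx0
    have h1 : L x ∈ closure X' := by
      have h2 : closure X' = L.symm ⁻¹' (closure X) := (L.symm.toHomeomorph.preimage_closure X).symm
      rw [h2]
      show L.symm (L x) ∈ closure X
      rwa [L.symm_apply_apply]
    have h2 := hclX _ h1 fun h => hx0 (L.map_eq_zero_iff.mp h)
    have h3 : L.symm (L x) ∈ X := h2
    rwa [L.symm_apply_apply] at h3
  have h1 := hur_openPart hXc hK hl hs (F := fun n z => L.symm (F n z)) (H := fun z => L.symm (H z)) (by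
    filter_upwards [hF] with n hn
    exact ⟨((L.symm : EN N →L[ℂ] V).differentiable).comp_differentiableOn hn.1, fun z hz => hn.2 z hz⟩)
    (((L.symm : EN N →L[ℂ] V).differentiable).comp_differentiableOn hH)
    (tlu_comp hlim hH.continuousOn fun x _ => L.symm.continuous.continuousAt)
    (fun h => hH0 (L.symm.map_eq_zero_iff.mp h)) h0
  exact h1

variable {V : Type} [NormedAddCommGroup V] [NormedSpace ℂ V]

/-- curves in the transported cone -/
theorem entU_transport {N : ℕ} (L : V ≃L[ℂ] EN N) {X K T : Set V} {F : ℂ → V} (hF : EntU X K T F) :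
    EntU (L.symm ⁻¹' X : Set (EN N)) (L.symm ⁻¹' K) (L.symm ⁻¹' T) (fun z => L (F z)) := by
  refine ⟨Pool.Agent.SY.ent_transport L hF.ent, fun z => ?_⟩
  show L.symm (L (F z)) ∈ K
  rw [L.symm_apply_apply]
  exact hF.memK z

/-- transport of the energy by a linear equivalence -/
theorem enU_transport {N : ℕ} (L : V ≃L[ℂ] EN N) {X K T : Set V} {rho' : EN N → ℝ} {rho : V → ℝ} {M : ℕ} {c₀ C δ : ℝ}
    {g' : (ℂ → EN N) → ℂ → ℝ} (E : EnU (L.symm ⁻¹' X : Set (EN N)) (L.symm ⁻¹' K) (L.symm ⁻¹' T) (fun x => ‖x‖) rho' M c₀ C δ g')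
    {A K₁ B : ℝ} (hA : 0 ≤ A) (hB : 0 < B) (hK₁ : 0 ≤ K₁) (hr2 : ∀ x ∈ X, rho' (L x) ≤ B * rho x) (h0 : ∀ x ∈ X, 0 ≤ rho x) (hr' : ∀ x ∈ X, 0 ≤ rho' (L x)) (hr : ∀ x ∈ X, rho x ≤ A * rho' (L x))
    (hb : ∀ x ∈ X, rho x ≤ K₁) :
    ∃ C' : ℝ, EnU X K T (fun x => ‖L x‖) rho (M + 1) c₀ C' (δ / B) (fun F => g' (fun z => L (F z))) := by
  set a₁ : ℝ := ‖(L : V →L[ℂ] EN N)‖ with ha₁
  set a₂ : ℝ := ‖(L.symm : EN N →L[ℂ] V)‖ with ha₂
  have ha₁0 : 0 ≤ a₁ := norm_nonneg _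
  have ha₂0 : 0 ≤ a₂ := norm_nonneg _
  set C' : ℝ := max C (K₁ * (A ^ M * (a₂ * (C * a₁)))) with hC'
  have hCC : C ≤ C' := le_max_left _ _
  refine ⟨C', E.c₀_pos, E.C_pos.trans_le hCC, div_pos E.δ_pos hB, fun F hF z => E.nonneg _ (entU_transport L hF) z,
    fun F hF z a ha => E.usc _ (entU_transport L hF) z a ha, fun F hF a b ha z => E.aff _ (entU_transport L hF) a b ha z, ?_, ?_, ?_, ?_, ?_⟩
  · intro F hF h hh h0' z
    have h1 := E.unit _ (entU_transport L hF) h hh h0' z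
    have h2 : (fun w => L (h w • F w)) = fun w => h w • L (F w) := by
      funext w
      rw [map_smul]
    show g' (fun w => L (h w • F w)) z = _
    rw [h2]
    exact h1
  · intro F hF z hz
    obtain ⟨h1, h2⟩ := E.sub _ (entU_transport L hF) z hz
    refine ⟨h1, fun t ht => h2 t (lt_of_lt_of_le ht ?_)⟩
    have h3 := mul_le_mul_of_nonneg_right hCC (sq_nonneg (g' (fun z => L (F z)) z))
    linarith
  · intro F hF z hz hρ
    refine E.near _ (entU_transport L hF) z hz ?_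
    rw [lt_div_iff₀ hB] at hρ
    have h1 := hr2 _ (hF.ent.mem z)
    linarith
  · intro F hF z
    obtain ⟨a, ha⟩ := E.lower _ (entU_transport L hF) z
    refine ⟨a, ?_⟩
    have hFX := hF.ent.mem z
    have hd : deriv (fun z => L (F z)) z = L (deriv F z) := by
      have h2 : HasDerivAt (fun z => L (F z)) (L (deriv F z)) z :=
        (L : V →L[ℂ] EN N).hasFDerivAt.comp_hasDerivAt z (hF.ent.diff z).hasDerivAt
      exact h2.deriv
    rw [hd] at ha
    have h2 : L (deriv F z) - a • L (F z) = L (deriv F z - a • F z) := by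
      rw [map_sub, map_smul]
    rw [h2] at ha
    have h3 : ‖deriv F z - a • F z‖ ≤ a₂ * ‖L (deriv F z - a • F z)‖ := by
      have := (L.symm : EN N →L[ℂ] V).le_opNorm (L (deriv F z - a • F z))
      have e : (L.symm : EN N →L[ℂ] V) (L (deriv F z - a • F z)) = deriv F z - a • F z :=
        L.symm_apply_apply _
      rwa [e] at this
    have h4 : ‖L (F z)‖ ≤ a₁ * ‖F z‖ := (L : V →L[ℂ] EN N).le_opNorm _
    have h5 := hr _ hFX
    have h6 := hb _ hFX
    have h7 := h0 _ hFX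
    have h8 := hr' _ hFX
    have hg : 0 ≤ g' (fun z => L (F z)) z := E.nonneg _ (entU_transport L hF) z
    have hC0 := E.C_pos.le
    calc rho (F z) ^ (M + 1) * ‖deriv F z - a • F z‖
        = rho (F z) * (rho (F z) ^ M * ‖deriv F z - a • F z‖) := by rw [pow_succ]; ring
      _ ≤ K₁ * ((A * rho' (L (F z))) ^ M * (a₂ * ‖L (deriv F z - a • F z)‖)) := by gcongr
      _ = K₁ * (A ^ M * (a₂ * (rho' (L (F z)) ^ M * ‖L (deriv F z - a • F z)‖))) := by
          rw [mul_pow]; ring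
      _ ≤ K₁ * (A ^ M * (a₂ * (C * ‖L (F z)‖ * g' (fun z => L (F z)) z))) := by gcongr
      _ ≤ K₁ * (A ^ M * (a₂ * (C * (a₁ * ‖F z‖) * g' (fun z => L (F z)) z))) := by gcongr
      _ = K₁ * (A ^ M * (a₂ * (C * a₁))) * ‖F z‖ * g' (fun z => L (F z)) z := by ring
      _ ≤ C' * ‖F z‖ * g' (fun z => L (F z)) z := by
          have h9 : K₁ * (A ^ M * (a₂ * (C * a₁))) ≤ C' := le_max_right _ _
          gcongr
  · intro l hl r A' ε hr0 hε F H hF hA' hB hc hH
    obtain ⟨h, hh, hlim⟩ := hc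
    have hlim' : TendstoLocallyUniformlyOn (fun n z => h n z • L (F n z)) (fun z => L (H z)) l (ball 0 r) := by
      have h1 : TendstoLocallyUniformlyOn (fun n z => L (h n z • F n z)) (fun z => L (H z)) l (ball 0 r) := by
        intro U hU x hx
        have h2 : UniformContinuous (fun y : V => L y) := (L : V →L[ℂ] EN N).uniformContinuous
        obtain ⟨t, ht, h3⟩ := hlim _ (h2 hU) x hx
        exact ⟨t, ht, h3⟩
      have h2 : (fun n z => L (h n z • F n z)) = fun n z => h n z • L (F n z) := by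
        funext n z
        rw [map_smul]
      rwa [h2] at h1
    obtain ⟨⟨z, hz, hzT⟩, ⟨x, hx, y, hy, hxy⟩⟩ := E.lim l hl r A' ε hr0 hε (fun n z => L (F n z)) (fun z => L (H z))
      (hF.mono fun n hn => entU_transport L hn) hA' hB ⟨h, hh, hlim'⟩ (fun z hz => by
        show L.symm (L (H z)) ∈ X
        rw [L.symm_apply_apply]
        exact hH z hz)
    refine ⟨⟨z, hz, fun h1 => hzT ?_⟩, ⟨x, hx, y, hy, fun h1 => hxy ?_⟩⟩
    · show L.symm (L (H z)) ∈ T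
      rwa [L.symm_apply_apply]
    · obtain ⟨c, hc, e⟩ := h1
      exact ⟨c, hc, by show L (H x) = c • L (H y); rw [e, map_smul]⟩

private def EiNK_Q {κ : Type} [Fintype κ] (Q : κ → V → ℂ) (x : V) : EuclideanSpace ℂ κ := WithLp.toLp 2 (fun i => Q i x)

/-- MODULE EiN: the nodal case. -/
theorem enU_nodal [FiniteDimensional ℂ V] {X K T : Set V} {m j : ℕ}
    {Ω : V → V → V → ℂ} {κ : Type} [Fintype κ] {Q : κ → V → ℂ} {D : ℕ} (h : ModelL X K T m j Ω Q D) (hn : ∀ x ∈ X, NodalAt X T x)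
    {N : ℕ} (L : V ≃L[ℂ] EN N) :
    ∃ (M : ℕ) (c₀ C δ : ℝ) (g : (ℂ → V) → ℂ → ℝ), 1 ≤ M ∧ EnU X K T (fun x => ‖L x‖) (rhoS Q D) M c₀ C δ g := by
  have hne : ∀ x ∈ X, x ≠ 0 := fun x hx e => h.surf.zero (e ▸ hx)
  obtain ⟨heq, M, c₀, C, G, hM, δ₁, hδ₁, hnear⟩ := nodalK_metric_near L (Q := EiNK_Q Q) (D := D) h.surf h.opn h.sub (fun x => by
    have h1 : AnalyticAt ℂ (fun x : V => fun i => Q i x) x := by
      rw [analyticAt_pi_iff]
      exact fun i => h.eqs.an i x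
    exact AnalyticAt.comp (g := (WithLp.toLp 2 : (κ → ℂ) → EuclideanSpace ℂ κ))
      (f := fun x : V => fun i => Q i x) ((EuclideanSpace.equiv κ ℂ).symm.analyticAt _) h1)
    (fun c x => by
      unfold EiNK_Q
      rw [← WithLp.toLp_smul]
      congr 1
      funext i
      simp [h.eqs.smul]) (T := T) (fun x => by
      rw [h.eqs.mem_iff]
      unfold EiNK_Q
      constructor
      · rintro ⟨h1, h2⟩
        refine ⟨h1, ?_⟩
        have h3 : (fun i => Q i x) = (0 : κ → ℂ) := funext h2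
        rw [h3]
        rfl
      · rintro ⟨h1, h2⟩
        refine ⟨h1, fun i => ?_⟩
        have h3 := congrFun (congrArg WithLp.ofLp h2) i
        exact h3) (fun x hx => pairNodal_of_nodal h.opn h.sub (h.eqs.sub hx) hx (hn x (h.eqs.sub hx)))
      h.one_m h.one_j h.form h.noZeros h.pole
  have hcone : IsCone (L.symm ⁻¹' X : Set (EN N)) := Pool.Agent.H36.BP.isCone_transport L h.surf
  obtain ⟨K₁, hK₁, hK₁b⟩ := Pool.Agent.H14.PP.exists_rho_bound hcone heq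
  have hK's : ∀ x ∈ (L.symm ⁻¹' K : Set (EN N)), ∀ c : ℂ, c ≠ 0 → c • x ∈ (L.symm ⁻¹' K : Set (EN N)) := by
    intro x hx c hc
    show L.symm (c • x) ∈ K
    rw [map_smul]
    exact h.opn.smul _ hx c hc
  have hopen : IsOpenPart (L.symm ⁻¹' X : Set (EN N)) (L.symm ⁻¹' K) :=
    ⟨fun x hx => h.opn.sub hx, hK's, fun x hx => (L.symm.continuous.tendsto x).eventually (h.opn.rel _ hx)⟩
  obtain ⟨C₁, E⟩ := enU_of_metric (T := (L.symm ⁻¹' T : Set (EN N))) hcone hopen hM hδ₁ hnear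
  set A : ℝ := ‖(L : V →L[ℂ] EN N)‖ with hA
  have hA0 : 0 ≤ A := norm_nonneg _
  have hρ : ∀ x ∈ X, rhoS Q D x ≤ A ^ D * Pool.Agent.H14.PP.rho (fun y => EiNK_Q Q (L.symm y)) D (L x) := by
    intro x hx
    have hx0 : 0 < ‖x‖ := norm_pos_iff.mpr (hne x hx)
    have hLx0 : 0 < ‖L x‖ := norm_pos_iff.mpr fun h0 => hne x hx (L.map_eq_zero_iff.mp h0)
    unfold rhoS Pool.Agent.H14.PP.rho
    simp only
    rw [L.symm_apply_apply, ← mul_div_assoc, div_le_div_iff₀ (by positivity) (by positivity)]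
    have h1 : ‖fun i => Q i x‖ ≤ ‖EiNK_Q Q x‖ := by
      refine (pi_norm_le_iff_of_nonneg (norm_nonneg _)).mpr fun i => ?_
      exact PiLp.norm_apply_le (EiNK_Q Q x) i
    have h2 : ‖L x‖ ≤ A * ‖x‖ := (L : V →L[ℂ] EN N).le_opNorm x
    calc ‖fun i => Q i x‖ * ‖L x‖ ^ D ≤ ‖EiNK_Q Q x‖ * (A * ‖x‖) ^ D := by gcongr
      _ = A ^ D * ‖EiNK_Q Q x‖ * ‖x‖ ^ D := by rw [mul_pow]; ring
  have hρ2 : ∀ x ∈ X, rhoS Q D x ≤ A ^ D * K₁ := by
    intro x hx
    refine (hρ x hx).trans (mul_le_mul_of_nonneg_left (hK₁b _ ?_) (by positivity))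
    show L.symm (L x) ∈ X
    rwa [L.symm_apply_apply]
  set A' : ℝ := ‖(L.symm : EN N →L[ℂ] V)‖ with hA'
  have hA'0 : 0 ≤ A' := norm_nonneg _
  have hρ3 : ∀ x ∈ X, Pool.Agent.H14.PP.rho (fun y => EiNK_Q Q (L.symm y)) D (L x) ≤
      (Real.sqrt (Fintype.card κ) * A' ^ D + 1) * rhoS Q D x := by
    intro x hx
    have hx0 : 0 < ‖x‖ := norm_pos_iff.mpr (hne x hx)
    have hLx0 : 0 < ‖L x‖ := norm_pos_iff.mpr fun h0 => hne x hx (L.map_eq_zero_iff.mp h0)
    have h1 : ‖EiNK_Q Q x‖ ≤ Real.sqrt (Fintype.card κ) * ‖fun i => Q i x‖ := by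
      unfold EiNK_Q
      rw [EuclideanSpace.norm_eq]
      have h2 : ∑ i, ‖(WithLp.toLp 2 (fun i => Q i x) : EuclideanSpace ℂ κ) i‖ ^ 2 ≤
          (Fintype.card κ : ℝ) * ‖fun i => Q i x‖ ^ 2 := by
        calc ∑ i, ‖(WithLp.toLp 2 (fun i => Q i x) : EuclideanSpace ℂ κ) i‖ ^ 2
            ≤ ∑ _i : κ, ‖fun i => Q i x‖ ^ 2 := by
              refine Finset.sum_le_sum fun i _ => ?_
              have : ‖Q i x‖ ≤ ‖fun i => Q i x‖ := norm_le_pi_norm (fun i => Q i x) i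
              exact pow_le_pow_left₀ (norm_nonneg _) this 2
          _ = (Fintype.card κ : ℝ) * ‖fun i => Q i x‖ ^ 2 := by
              rw [Finset.sum_const, Finset.card_univ, nsmul_eq_mul]
      refine (Real.sqrt_le_sqrt h2).trans (le_of_eq ?_)
      rw [Real.sqrt_mul (by positivity), Real.sqrt_sq (norm_nonneg _)]
    have h2 : ‖x‖ ≤ A' * ‖L x‖ := by
      have := (L.symm : EN N →L[ℂ] V).le_opNorm (L x)
      have e : (L.symm : EN N →L[ℂ] V) (L x) = x := L.symm_apply_apply _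
      rwa [e] at this
    have h3 : 0 ≤ rhoS Q D x := rhoS_nonneg Q D x
    have h4 : Pool.Agent.H14.PP.rho (fun y => EiNK_Q Q (L.symm y)) D (L x) ≤
        Real.sqrt (Fintype.card κ) * A' ^ D * rhoS Q D x := by
      unfold rhoS Pool.Agent.H14.PP.rho
      simp only
      rw [L.symm_apply_apply, ← mul_div_assoc, div_le_div_iff₀ (by positivity) (by positivity)]
      calc ‖EiNK_Q Q x‖ * ‖x‖ ^ D ≤ (Real.sqrt (Fintype.card κ) * ‖fun i => Q i x‖) * (A' * ‖L x‖) ^ D := by gcongr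
        _ = Real.sqrt (Fintype.card κ) * A' ^ D * ‖fun i => Q i x‖ * ‖L x‖ ^ D := by rw [mul_pow]; ring
    linarith
  obtain ⟨C', E'⟩ := enU_transport L (rho := rhoS Q D) E (A := A ^ D) (K₁ := A ^ D * K₁)
    (B := Real.sqrt (Fintype.card κ) * A' ^ D + 1) (by positivity) (by positivity) (by positivity) hρ3
    (fun x _ => rhoS_nonneg Q D x) (fun x _ => Pool.Agent.H14.PP.rho_nonneg _ _ _) hρ hρ2
  exact ⟨M + 1, c₀, C', _, _, by omega, E'⟩

end Pool.Agent.SDA
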