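import Pool.Agent.SDA.KDefs
import Pool.Agent.SDA.MetN
import Pool.Agent.H14.KB.KobKNodal
import Pool.Agent.H14.V.MainV

/-!
# SDA KStub: the statements of the modules of the metric half (K1 - K9)
-/

set_option autoImplicit false

open Topology Filter Metric MvPolynomial

noncomputable section

namespace Pool.Agent.SDA.Stub

open Pool.Agent.H36.BP (EN fs wd Sub MetricData mt Curve)
open Pool.Agent.H17BP (Pr Surface IsForm NoZeros NodalAt Eqs IsChart ResAt)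
open Pool.Agent.H36.BPL (OpenPart PoleLE AffProper PairNodalAt)
open Pool.Agent.H14.PP (IsCone IsOpenPart IsNodal IsEq Form)
open Pool.Agent.H14.KB (rhoS)
open Pool.Agent.H62.BU (blow total Ker phi om)
open Pool.Agent.H62.FC (Homog)
open Pool.Agent.H17LG.Variety (FunField OnBoundary IsLogGeneralType)
open Pool.Agent.H13.SM (conTan)
open Pool.Agent.H17EF (coneE)
open Pool.Agent.SY (Ent IsLiftB down)

section metric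

variable {N : ℕ} {W : Type*} [NormedAddCommGroup W] [InnerProductSpace ℂ W] {X K T : Set (EN N)} {m j : ℕ} {Q : EN N → W} {D : ℕ}

-- MODULE K1 (helper68) is on main: `Pool.Agent.SDA.exists_metric_near`, file `MetN.lean`

/-- MODULE K2 (helper68), file EA.lean: the metric of the nodal case on an open cone in `EN N` (compare `SY/EiA.lean`) -/
theorem enU_of_metric {X K T : Set (EN N)} (hX : IsCone X) (hKX : K ⊆ X) (hKT : ∀ x ∈ X, x ∉ K → x ∈ T) {G : EN N → EN N → ℝ}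
    {ρ : EN N → ℝ} {M : ℕ} {c₀ C δ : ℝ} (hδ : 0 < δ) (hM : MetricData K (K ∩ T) G ρ M c₀ C) (hN : NearM K G ρ c₀ δ)
    (hT : ∀ x ∈ T, ∀ c : ℂ, c ≠ 0 → c • x ∈ T) :
    ∃ C' : ℝ, EnU X K T (fun x => ‖x‖) ρ M c₀ C' δ (mt G) := by
  sorry

end metric

section energy

variable {V : Type} [NormedAddCommGroup V] [NormedSpace ℂ V]

/-- MODULE K3 (1), file EN.lean: `H14.KB.nodalK_metric` with the property `NearM` (copy; last line with `exists_metric_near`) -/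
theorem nodalK_metric_near {N : ℕ} (L : V ≃L[ℂ] EN N)
    {W : Type} [NormedAddCommGroup W] [InnerProductSpace ℂ W] {X K T : Set V} {m j M : ℕ}
    {Ω : V → V → V → ℂ} {Q : V → W} {D : ℕ} {Φ : V → Fin M → ℂ} (hX : Surface X) (hK : OpenPart X K)
    (hΦ : AffProper X K Φ) (hKT : ∀ x ∈ X, x ∉ K → x ∈ T) (hQ : ∀ x, AnalyticAt ℂ Q x)
    (hQs : ∀ (c : ℂ) (x : V), Q (c • x) = c ^ D • Q x) (hT : ∀ x, x ∈ T ↔ x ∈ X ∧ Q x = 0)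
    (hn : ∀ x ∈ T, PairNodalAt X K T x) (hm : 1 ≤ m) (hj : 1 ≤ j) (hΩ : IsForm K m j Ω)
    (hz : NoZeros K T Ω) (hpl : PoleLE X K (m - 1) Ω) :
    IsEq (L.symm ⁻¹' X : Set (EN N)) (L.symm ⁻¹' T) (fun y => Q (L.symm y)) D ∧
    ∃ (M' : ℕ) (c₀ C δ₁ : ℝ) (G : EN N → EN N → ℝ), 0 < δ₁ ∧ MetricData (L.symm ⁻¹' K : Set (EN N))
      ((L.symm ⁻¹' K : Set (EN N)) ∩ L.symm ⁻¹' T) G
      (Pool.Agent.H14.PP.rho (fun y => Q (L.symm y)) D) M' c₀ C ∧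
      NearM (L.symm ⁻¹' K : Set (EN N)) G (Pool.Agent.H14.PP.rho (fun y => Q (L.symm y)) D) c₀ δ₁ := by
  sorry

/-- MODULE K3 (2), file EN.lean: the nodal case (compare `SY/EiN.lean`, `energy_transport`, `energy_nodal`). -/
theorem enU_nodal [FiniteDimensional ℂ V] {X K T : Set V} {m j : ℕ}
    {Ω : V → V → V → ℂ} {κ : Type} [Fintype κ] {Q : κ → V → ℂ} {D : ℕ} (h : ModelL X K T m j Ω Q D) (hn : ∀ x ∈ X, NodalAt X T x)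
    {N : ℕ} (L : V ≃L[ℂ] EN N) :
    ∃ (M : ℕ) (c₀ C δ : ℝ) (g : (ℂ → V) → ℂ → ℝ), 1 ≤ M ∧ EnU X K T (fun x => ‖L x‖) (rhoS Q D) M c₀ C δ g := by
  sorry

variable {ι : Type} [Fintype ι] {l : ι → V →L[ℂ] ℂ} {X K T : Set V} {q : V}

/-- MODULE K4 (0), file ED.lean: the lift of a curve in `K` is a curve in `total l X K` -/
theorem entU_lift (hX : Surface X) (hKX : K ⊆ X) (hKs : ∀ x ∈ K, ∀ c : ℂ, c ≠ 0 → c • x ∈ K) (hl : Ker l q)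
    (hT : ∀ x ∈ T, ∀ c : ℂ, c ≠ 0 → c • x ∈ T) (hq : q ∈ T) {F : ℂ → V}
    (hF : EntU X K T F) {Φ : ℂ → ι → V} (h1 : IsLiftB l X T F Φ) : EntU (blow l X) (total l X K) (total l X T) Φ := by
  sorry

/-- MODULE K4 (1): the value on any lift, and the easy fields (compare `SY/EiD.lean`) -/
theorem downU_eq {N' : ℕ} {L' : (ι → V) ≃L[ℂ] EN N'} {rho : (ι → V) → ℝ} {M : ℕ} {c₀ C δ : ℝ} {g : (ℂ → ι → V) → ℂ → ℝ}
    (hX : Surface X) (hKX : K ⊆ X) (hKs : ∀ x ∈ K, ∀ c : ℂ, c ≠ 0 → c • x ∈ K) (hl : Ker l q) (hTX : T ⊆ X)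
    (hT : ∀ x ∈ T, ∀ c : ℂ, c ≠ 0 → c • x ∈ T) (hq : q ∈ T)
    (E : EnU (blow l X) (total l X K) (total l X T) (fun y => ‖L' y‖) rho M c₀ C δ g) {F : ℂ → V} (hF : EntU X K T F) {Φ : ℂ → ι → V}
    (h1 : IsLiftB l X T F Φ) : down l X T g F = g Φ := by
  sorry

/-- MODULE K4 (2) -/
theorem downU_aff {N' : ℕ} {L' : (ι → V) ≃L[ℂ] EN N'} {rho : (ι → V) → ℝ} {M : ℕ} {c₀ C δ : ℝ} {g : (ℂ → ι → V) → ℂ → ℝ}
    (hX : Surface X) (hKX : K ⊆ X) (hKs : ∀ x ∈ K, ∀ c : ℂ, c ≠ 0 → c • x ∈ K) (hl : Ker l q) (hTX : T ⊆ X)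
    (hT : ∀ x ∈ T, ∀ c : ℂ, c ≠ 0 → c • x ∈ T) (hq : q ∈ T)
    (E : EnU (blow l X) (total l X K) (total l X T) (fun y => ‖L' y‖) rho M c₀ C δ g) {F : ℂ → V} (hF : EntU X K T F) {a b : ℂ}
    (ha : a ≠ 0) (z : ℂ) :
    down l X T g (fun w => F (a * w + b)) z = ‖a‖ * down l X T g F (a * z + b) := by
  sorry

/-- MODULE K4 (3) -/
theorem downU_unit {N' : ℕ} {L' : (ι → V) ≃L[ℂ] EN N'} {rho : (ι → V) → ℝ} {M : ℕ} {c₀ C δ : ℝ} {g : (ℂ → ι → V) → ℂ → ℝ}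
    (hX : Surface X) (hKX : K ⊆ X) (hKs : ∀ x ∈ K, ∀ c : ℂ, c ≠ 0 → c • x ∈ K) (hl : Ker l q) (hTX : T ⊆ X)
    (hT : ∀ x ∈ T, ∀ c : ℂ, c ≠ 0 → c • x ∈ T) (hq : q ∈ T)
    (E : EnU (blow l X) (total l X K) (total l X T) (fun y => ‖L' y‖) rho M c₀ C δ g) {F : ℂ → V} (hF : EntU X K T F) {h : ℂ → ℂ}
    (hh : Differentiable ℂ h) (h0 : ∀ z, h z ≠ 0) (z : ℂ) :
    down l X T g (fun w => h w • F w) z = down l X T g F z := by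
  sorry

/-- MODULE K5 (1), file ES.lean: the curvature (compare `SY/EiS.lean`) -/
theorem downU_sub {N N' : ℕ} {L : V ≃L[ℂ] EN N} {L' : (ι → V) ≃L[ℂ] EN N'} (hL : ∀ y, ‖L' y‖ ^ 2 = ∑ b, ‖L (y b)‖ ^ 2)
    {rho : (ι → V) → ℝ} {M : ℕ} {c₀ C δ : ℝ} {g : (ℂ → ι → V) → ℂ → ℝ}
    (hX : Surface X) (hKX : K ⊆ X) (hKs : ∀ x ∈ K, ∀ c : ℂ, c ≠ 0 → c • x ∈ K) (hl : Ker l q) (hTX : T ⊆ X)
    (hT : ∀ x ∈ T, ∀ c : ℂ, c ≠ 0 → c • x ∈ T) (hq : q ∈ T)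
    (E : EnU (blow l X) (total l X K) (total l X T) (fun y => ‖L' y‖) rho M c₀ C δ g) {F : ℂ → V} (hF : EntU X K T F) (z : ℂ)
    (hz : 0 < down l X T g F z) :
    Sub (fun w => down l X T g F w * ‖L (F w)‖ ^ (-c₀)) z (-(C * down l X T g F z ^ 2)) := by
  sorry

/-- MODULE K5 (2): no error near the exceptional curve -/
theorem downU_near {N N' : ℕ} {L : V ≃L[ℂ] EN N} {L' : (ι → V) ≃L[ℂ] EN N'} (hL : ∀ y, ‖L' y‖ ^ 2 = ∑ b, ‖L (y b)‖ ^ 2)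
    {κ : Type} [Fintype κ] {Q : κ → V → ℂ} {D : ℕ} {M : ℕ} {c₀ C δ : ℝ} {g : (ℂ → ι → V) → ℂ → ℝ}
    (hX : Surface X) (hKX : K ⊆ X) (hKs : ∀ x ∈ K, ∀ c : ℂ, c ≠ 0 → c • x ∈ K) (hl : Ker l q) (he : Eqs X T Q D) (hq : q ∈ T)
    (E : EnU (blow l X) (total l X K) (total l X T) (fun y => ‖L' y‖) (rhoS (fun (p : κ × ι) (y : ι → V) => Q p.1 (y p.2)) D) M c₀ C δ g)
    {F : ℂ → V} (hF : EntU X K T F) (z : ℂ) (hz : 0 < down l X T g F z) (hρ : rhoS Q D (F z) < δ) :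
    Sub (fun w => down l X T g F w * ‖L (F w)‖ ^ (-c₀)) z 0 := by
  sorry

/-- MODULE K6, file EW.lean: the lower bound (compare `SY/EiW.lean`) -/
theorem downU_lower {N' : ℕ} {L' : (ι → V) ≃L[ℂ] EN N'} {κ : Type} [Fintype κ] {Q : κ → V → ℂ} {D : ℕ} {M : ℕ} {c₀ C δ : ℝ}
    {g : (ℂ → ι → V) → ℂ → ℝ} (hX : Surface X) (hKX : K ⊆ X) (hKs : ∀ x ∈ K, ∀ c : ℂ, c ≠ 0 → c • x ∈ K) (hl : Ker l q)
    (he : Eqs X T Q D) (hq : q ∈ T) (hM : 1 ≤ M)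
    (E : EnU (blow l X) (total l X K) (total l X T) (fun y => ‖L' y‖) (rhoS (fun (p : κ × ι) (y : ι → V) => Q p.1 (y p.2)) D) M c₀ C δ g)
    {F : ℂ → V} (hF : EntU X K T F) (z : ℂ) :
    ∃ a : ℂ, rhoS Q D (F z) ^ M * ‖deriv F z - a • F z‖ ≤ C * ‖F z‖ * down l X T g F z := by
  sorry

/-- MODULE K7, file EM.lean: limits (compare `SY/EiM.lean`) -/
theorem downU_lim [FiniteDimensional ℂ V] {N' : ℕ} {L' : (ι → V) ≃L[ℂ] EN N'} {rho : (ι → V) → ℝ} {M : ℕ} {c₀ C δ : ℝ}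
    {g : (ℂ → ι → V) → ℂ → ℝ}
    (hX : Surface X) (hKX : K ⊆ X) (hKs : ∀ x ∈ K, ∀ c : ℂ, c ≠ 0 → c • x ∈ K) (hl : Ker l q) (hTX : T ⊆ X)
    (hT : ∀ x ∈ T, ∀ c : ℂ, c ≠ 0 → c • x ∈ T) (hq : q ∈ T)
    (E : EnU (blow l X) (total l X K) (total l X T) (fun y => ‖L' y‖) rho M c₀ C δ g)
    (u : Filter ℕ) (hu : u.NeBot) (r A ε : ℝ) (hr : 0 < r) (hε : 0 < ε) (F : ℕ → ℂ → V) (H : ℂ → V) (hF : ∀ᶠ n in u, EntU X K T (F n))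
    (hA : ∀ᶠ n in u, ∀ z ∈ ball (0 : ℂ) r, down l X T g (F n) z ≤ A) (hB : ∀ᶠ n in u, ε ≤ down l X T g (F n) 0)
    (hc : ∃ h : ℕ → ℂ → ℂ, (∀ᶠ n in u, DifferentiableOn ℂ (h n) (ball 0 r) ∧ ∀ z ∈ ball (0 : ℂ) r, h n z ≠ 0) ∧
      TendstoLocallyUniformlyOn (fun n z => h n z • F n z) H u (ball 0 r))
    (hH : ∀ z ∈ ball (0 : ℂ) r, H z ∈ X) :
    (∃ z ∈ ball (0 : ℂ) r, H z ∉ T) ∧ ∃ z ∈ ball (0 : ℂ) r, ∃ w ∈ ball (0 : ℂ) r, ¬ Pr (H z) (H w) := by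
  sorry

/-- MODULE K8, file EI.lean: the induction over the blow-ups (compare `SY/EiI.lean`, `H36/BPL/IndK.lean`) -/
theorem enU_of_model [FiniteDimensional ℂ V] {m j : ℕ} {Ω : V → V → V → ℂ} {κ : Type} [Fintype κ] {Q : κ → V → ℂ} {D : ℕ}
    (h : ModelL X K T m j Ω Q D) {N : ℕ} (L : V ≃L[ℂ] EN N) :
    ∃ (M : ℕ) (c₀ C δ : ℝ) (g : (ℂ → V) → ℂ → ℝ), 1 ≤ M ∧ EnU X K T (fun x => ‖L x‖) (rhoS Q D) M c₀ C δ g := by
  sorry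

end energy

/-- MODULE K8 (2), file EI.lean: conversion to the structure of `SDA/Defs.lean` (`bdy`: if `H 0 ∉ K` then `H ∉ K` near `0` by Hurwitz,
`H36.BPL.hur_of_affProper`, so `H ∈ T` on a small disc, against `lim`) -/
theorem energyK_of_enU {N : ℕ} {X K T : Set (EN N)} (hX : IsCone X) (hKX : K ⊆ X) (hKs : ∀ x ∈ K, ∀ c : ℂ, c ≠ 0 → c • x ∈ K)
    (hKT : ∀ x ∈ X, x ∉ K → x ∈ T) {M' : ℕ} {Φ : EN N → Fin M' → ℂ} (hΦ : AffProper X K Φ) {nu rho : EN N → ℝ} {M : ℕ} {c₀ C δ : ℝ}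
    {g : (ℂ → EN N) → ℂ → ℝ} (E : EnU X K T nu rho M c₀ C δ g) : Pool.Agent.SDA.EnergyK X K T nu rho M c₀ C g := by
  sorry

/-! ## projective surfaces -/

section surface

variable {N : ℕ} {P : Ideal (MvPolynomial (Fin (N + 1)) ℂ)}

/-- MODULE K9 (1), file EP.lean: the metric on the complement of a hypersurface section of a smooth projective surface, of log general type
(compare `SY/EiP.lean`, `H36/BPL/Start.lean`, `H36/BPL/Final.lean`).  `R` is a given form. -/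
theorem enU_surface [P.IsPrime] {z : Fin 2 → FunField P} (hP : Homog P) (hz : IsTranscendenceBasis ℂ z)
    (hsm : ∀ y : Fin (N + 1) → ℂ, y ≠ 0 → (∀ Q ∈ P, eval y Q = 0) → Module.finrank ℂ (conTan P y) ≤ 3)
    {e : ℕ} {H₀ : MvPolynomial (Fin (N + 1)) ℂ} (hH₀ : H₀.IsHomogeneous e) (hH₀P : H₀ ∉ P)
    (hgt : IsLogGeneralType (K := FunField P) (k := 2) (OnBoundary P fun _ : Fin 1 => H₀))
    {R : MvPolynomial (Fin (N + 1)) ℂ} {d : ℕ} (hR : R.IsHomogeneous d) (hRP : R ∉ P) :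
    ∃ (Q : MvPolynomial (Fin (N + 1)) ℂ) (D M : ℕ) (c₀ C δ : ℝ) (g : (ℂ → EN N) → ℂ → ℝ), Q.IsHomogeneous D ∧ Q ∉ P ∧
      (∀ x : EN N, eval x.ofLp R = 0 → eval x.ofLp Q = 0) ∧ (∀ x : EN N, eval x.ofLp H₀ = 0 → eval x.ofLp Q = 0) ∧ 1 ≤ M ∧
      EnU (coneE P) {x | x ∈ coneE P ∧ eval x.ofLp H₀ ≠ 0} {x | x ∈ coneE P ∧ eval x.ofLp Q = 0} (fun x => ‖x‖)
        (fun x => ‖eval x.ofLp Q‖ / ‖x‖ ^ D) M c₀ C δ g := by
  sorry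

/-- MODULE K9 (2), file EP.lean: the form which is used (from `enU_surface`, `energyK_of_enU`, `H36.BPL.affProper_coneK`) -/
theorem energyK_surface [P.IsPrime] {z : Fin 2 → FunField P} (hP : Homog P) (hz : IsTranscendenceBasis ℂ z)
    (hsm : ∀ y : Fin (N + 1) → ℂ, y ≠ 0 → (∀ Q ∈ P, eval y Q = 0) → Module.finrank ℂ (conTan P y) ≤ 3)
    {k : ℕ} {H : Fin k → MvPolynomial (Fin (N + 1)) ℂ} {e : Fin k → ℕ} (hH : ∀ i, (H i).IsHomogeneous (e i)) (he : ∀ i, 1 ≤ e i)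
    (hk : 1 ≤ k) (hHP : ∀ i, H i ∉ P)
    (hgt : IsLogGeneralType (K := FunField P) (k := 2) (OnBoundary P fun _ : Fin 1 => ∏ i, H i))
    {R : MvPolynomial (Fin (N + 1)) ℂ} {d : ℕ} (hR : R.IsHomogeneous d) (hRP : R ∉ P) :
    ∃ (Q : MvPolynomial (Fin (N + 1)) ℂ) (D M : ℕ) (c₀ C : ℝ) (g : (ℂ → EN N) → ℂ → ℝ), Q.IsHomogeneous D ∧ Q ∉ P ∧
      (∀ x : EN N, eval x.ofLp R = 0 → eval x.ofLp Q = 0) ∧ (∀ (i : Fin k) (x : EN N), eval x.ofLp (H i) = 0 → eval x.ofLp Q = 0) ∧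
      1 ≤ M ∧
      Pool.Agent.SDA.EnergyK (coneE P) {x | x ∈ coneE P ∧ ∀ i, eval x.ofLp (H i) ≠ 0} {x | x ∈ coneE P ∧ eval x.ofLp Q = 0} (fun x => ‖x‖)
        (fun x => ‖eval x.ofLp Q‖ / ‖x‖ ^ D) M c₀ C g := by
  sorry

end surface

end Pool.Agent.SDA.Stub
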