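import Pool.Agent.SDA.Defs
import Pool.Agent.SDA.RDefs
import Pool.Agent.SDA.KStub

/-!
# SDA EStub: the statements of the last modules
-/

set_option autoImplicit false

open Topology Filter Metric MvPolynomial

noncomputable section

namespace Pool.Agent.SDA.Stub

open Pool.Agent.H36.BP (EN fs OrdTwo)
open Pool.Agent.H14.PP (IsCone Tan)
open Pool.Agent.H17 (PN VanishesAt HolomorphicInto ZariskiClosedIn)
open Pool.Agent.H62.FC (Homog)
open Pool.Agent.H62.SA (locVar OnBd)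
open Pool.Agent.H62.Qe (IsEtaleOver)
open Pool.Agent.H7.Bir (GGLOpen)
open Pool.Agent.H7.Qup (IsDominantMap)
open Pool.Agent.H17LG.Variety (FunField IsLogGeneralType)
open Pool.Agent.H17EF (projVar coneE)
open Pool.Agent.H14.KB (KobayashiHyperbolicModulo)
open Pool.Agent.H13.SM (conTan)
open Pool.Agent.H13.OT (OrderTwo)
open Pool.Agent.AD (SymDiff TangentTo)
open Pool.Agent.SDA

variable {N k : ℕ} {P : Ideal (MvPolynomial (Fin (N + 1)) ℂ)} {H : Fin k → MvPolynomial (Fin (N + 1)) ℂ} {e : Fin k → ℕ}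

/-- MODULE E1: the functions `H i` on the cone -/
theorem affOpen (hP : Homog P) (hk : 1 ≤ k) (hH : ∀ i, (H i).IsHomogeneous (e i)) (he : ∀ i, 1 ≤ e i) :
    AffOpen (coneE P) (openCone P H) (fun i (x : EN N) => eval x.ofLp (H i)) e := by
  sorry

/-- MODULE E2: the symmetric differentials of the statement are `LogForm`s (`Tan (openCone P H) x v` is `Tan (coneE P) x v` for `x` in the open cone;
`cont`: template `H22/W/Sym` `symDiff_continuousOn`, `eq_coef`, the part of the surface over `U`) -/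
theorem logForm [P.IsPrime] {z : Fin 2 → FunField P} (hP : Homog P) (hz : IsTranscendenceBasis ℂ z)
    (hsm : ∀ y : Fin (N + 1) → ℂ, y ≠ 0 → (∀ Q ∈ P, eval y Q = 0) → Module.finrank ℂ (conTan P y) ≤ 3)
    (hk : 1 ≤ k) (hH : ∀ i, (H i).IsHomogeneous (e i)) (he : ∀ i, 1 ≤ e i) {m : ℕ} (hm : 1 ≤ m) (θ : SymDiff (openCone P H) m)
    (hθ : VanishesOnStatic e θ) :
    LogForm (coneE P) (openCone P H) (fun i (x : EN N) => eval x.ofLp (H i)) e m θ.toFun := by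
  sorry

/-- MODULE E3: the hypotheses of the function theory (`energyK_surface`, `affOpen`, `logForm`, `gauge_forms`; the other fields as in `SY/F1G`) -/
theorem exists_setup [P.IsPrime] {z : Fin 2 → FunField P} (hP : Homog P) (hz : IsTranscendenceBasis ℂ z)
    (hsm : ∀ y : Fin (N + 1) → ℂ, y ≠ 0 → (∀ Q ∈ P, eval y Q = 0) → Module.finrank ℂ (conTan P y) ≤ 3)
    (hk : 1 ≤ k) (hH : ∀ i, (H i).IsHomogeneous (e i)) (he : ∀ i, 1 ≤ e i) (hHP : ∀ i, H i ∉ P)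
    (hgt : IsLogGeneralType (K := FunField P) (k := 2) (OnBd P fun _ : Fin 1 => ∏ i, H i))
    {s : ℕ} {m : Fin s → ℕ} (hm : ∀ j, 1 ≤ m j) (θ : ∀ j, SymDiff (openCone P H) (m j)) (hθ : ∀ j, VanishesOnStatic e (θ j))
    {R : MvPolynomial (Fin (N + 1)) ℂ} {d : ℕ} (hR : R.IsHomogeneous d) (hRP : R ∉ P)
    (hnull : ∀ f : ℂ → PN N, HolomorphicInto f Set.univ → OrderTwo f → (∀ z, f z ∈ locVar P fun _ : Fin 1 => ∏ i, H i) →
      (∃ z w, f z ≠ f w) → (∀ j, TangentTo (θ j) f) → ∀ z, VanishesAt R (f z)) :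
    ∃ (Q : MvPolynomial (Fin (N + 1)) ℂ) (D M : ℕ) (c₀ C : ℝ) (g : (ℂ → EN N) → ℂ → ℝ), Q.IsHomogeneous D ∧ Q ∉ P ∧
      Setup (coneE P) (openCone P H) {x | x ∈ coneE P ∧ eval x.ofLp Q = 0} (fun i (x : EN N) => eval x.ofLp (H i)) e
        (fun x => ‖eval x.ofLp Q‖ / ‖x‖ ^ D) M c₀ C g (nForms m fun j => (θ j).toFun) := by
  sorry

/-- MODULE E4: from the curves of order two on the cone to the four properties and the bound for the Kobayashi metric (`Ξ` is the zero set of `Q` in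
`U`; `H36.LB.lim_main`, `limModPN_of_proper` with the forms `X j ^ (∑ e i)`, `H13.CV.strongly_of_brodyL`; order two: `SY/F1G`) -/
theorem four_of_orderTwo [P.IsPrime] {z : Fin 2 → FunField P} (hP : Homog P) (hz : IsTranscendenceBasis ℂ z)
    (hsm : ∀ y : Fin (N + 1) → ℂ, y ≠ 0 → (∀ Q ∈ P, eval y Q = 0) → Module.finrank ℂ (conTan P y) ≤ 3)
    (hk : 1 ≤ k) (hH : ∀ i, (H i).IsHomogeneous (e i)) (he : ∀ i, 1 ≤ e i) (hHP : ∀ i, H i ∉ P)
    (hgt : IsLogGeneralType (K := FunField P) (k := 2) (OnBd P fun _ : Fin 1 => ∏ i, H i))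
    {Q : MvPolynomial (Fin (N + 1)) ℂ} {D : ℕ} (hQ : Q.IsHomogeneous D) (hQP : Q ∉ P)
    (h : ∀ F : ℂ → EN N, Differentiable ℂ F → (∀ z, F z ∈ openCone P H) → OrdTwo F →
      (∀ z, eval (F z).ofLp Q = 0) ∨ ∀ z w, ∃ c : ℂ, F z = c • F w) :
    (∃ Ξ : Set (PN N), GGLOpen P (fun _ : Fin 1 => ∏ i, H i) Ξ) ∧
      ∃ (Q : MvPolynomial (Fin (N + 1)) ℂ) (D : ℕ), Q.IsHomogeneous D ∧ (∃ x ∈ locVar P fun _ : Fin 1 => ∏ i, H i, ¬ VanishesAt Q x) ∧
        KobayashiHyperbolicModulo (locVar P fun _ : Fin 1 => ∏ i, H i) Q D := by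
  sorry

/-- MODULE E5: surfaces which dominate or virtually dominate `U` (`H7.Qup.open_dominant`, `H62.Qe.etaleOver_open`) -/
theorem hyperbolicOpen_of [P.IsPrime] (hP : Homog P) (hdim : ∃ z : Fin 2 → FunField P, IsTranscendenceBasis ℂ z) {s : ℕ}
    {G : Fin s → MvPolynomial (Fin (N + 1)) ℂ} (hG : ∀ i, ∃ n, (G i).IsHomogeneous n) (h : ∃ Ξ : Set (PN N), GGLOpen P G Ξ)
    (hkob : ∃ (Q : MvPolynomial (Fin (N + 1)) ℂ) (D : ℕ), Q.IsHomogeneous D ∧ (∃ x ∈ locVar P G, ¬ VanishesAt Q x) ∧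
      KobayashiHyperbolicModulo (locVar P G) Q D) : IsHyperbolicOpen P G := by
  sorry

end Pool.Agent.SDA.Stub
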