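import Pool.Agent.SDA.F0
import Pool.Agent.SDA.Ab
import Pool.Agent.SDA.Nn
import Pool.Agent.SDA.Ha
import Pool.Agent.H36.BP.SubB
import Pool.Agent.H36.BP.SubC

/-!
# SDA F1a: a curve of the class without good points does not exist
-/

set_option autoImplicit false

open Topology Filter Metric

noncomputable section

namespace Pool.Agent.SDA

open Pool.Agent.H36.BP (EN fs wd Sub OrdTwo)
open Pool.Agent.H14.PP (IsCone Tan CurveAt)
open Pool.Agent.SY (Ent Energy)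

variable {N : ℕ} {ι : Type} [Fintype ι] {X K T : Set (EN N)} {P : ι → EN N → ℂ} {d : ι → ℕ} {rho : EN N → ℝ} {M : ℕ} {c₀ C : ℝ}
  {g : (ℂ → EN N) → ℂ → ℝ} {n : EN N → EN N → ℝ}

/-- the metric is bounded on the class -/
theorem F1_bound (S : Setup X K T P d rho M c₀ C g n) : ∃ C₁ : ℝ, 0 < C₁ ∧ ∀ F, Cl K T P n F → ∀ z, g F z ≤ C₁ := by
  obtain ⟨C₁, hC₁, hb⟩ := bound_local S
  refine ⟨C₁, hC₁, fun F hF z => ?_⟩
  have h1 := hb _ (F1_ent hF.1 z) (fun w _ => by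
    have h2 := n_aff (X := X) (P := P) (d := d) S.gauge (F1_KX S) hF.1.diff hF.1.mem 1 z w
    rw [h2, norm_one, one_mul, hF.2.2])
  have h2 := S.en.aff F hF.1 1 z one_ne_zero 0
  rw [h2, norm_one, one_mul, mul_zero, zero_add] at h1
  exact h1

/-- MODULE F1a: a curve of the class without good points does not exist -/
theorem exists_good (S : Setup X K T P d rho M c₀ C g n) {δ : ℝ} (hδ : 0 < δ) (hnear : Near K T (fun x => ‖x‖) rho c₀ g δ) {F : ℂ → EN N}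
    (hF : Cl K T P n F) : ∃ p, δ ≤ rho (F p) := by
  by_contra hcon
  have hbad : ∀ z, rho (F z) < δ := fun z => not_le.1 fun h => hcon ⟨z, h⟩
  obtain ⟨C₁, hC₁, hg⟩ := F1_bound S
  obtain ⟨z₀, hz₀⟩ := F1_pos S hF
  obtain ⟨c, hc, -, hlow⟩ := norm_lower (N := N) S.aff
  have hFc : ∀ z, c ≤ ‖F z‖ := fun z => hlow _ (hF.2.1 z)
  have hc0 : ‖((c : ℂ))⁻¹‖ = c⁻¹ := by rw [norm_inv, Complex.norm_real, Real.norm_eq_abs, abs_of_pos hc]
  obtain ⟨F₁, hF₁⟩ : ∃ F₁ : ℂ → EN N, F₁ = fun z => ((c : ℂ))⁻¹ • F z := ⟨_, rfl⟩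
  have hn : ∀ z, ‖F₁ z‖ = c⁻¹ * ‖F z‖ := fun z => by
    rw [hF₁]
    simp only
    rw [norm_smul, hc0]
  have h1 : ∀ z, 1 ≤ ‖F₁ z‖ := fun z => by
    rw [hn]
    have := mul_le_mul_of_nonneg_left (hFc z) (inv_nonneg.2 hc.le)
    rwa [inv_mul_cancel₀ hc.ne'] at this
  have hd : Differentiable ℂ F₁ := by
    rw [hF₁]
    exact hF.1.diff.const_smul ((c : ℂ))⁻¹
  have hpos : ∀ z, 0 < ‖F₁ z‖ ^ (-c₀) := fun z => Real.rpow_pos_of_pos (lt_of_lt_of_le one_pos (h1 z)) _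
  have hcont : Continuous fun z => ‖F₁ z‖ ^ (-c₀) :=
    hd.continuous.norm.rpow_const fun z => Or.inl (lt_of_lt_of_le one_pos (h1 z)).ne'
  have hsub : ∀ z, 0 < g F z * ‖F₁ z‖ ^ (-c₀) → Sub (fun w => g F w * ‖F₁ w‖ ^ (-c₀)) z 0 := fun z hz => by
    have hgz : 0 < g F z := by
      rcases (S.en.nonneg F hF.1 z).lt_or_eq with h | h
      · exact h
      · rw [← h, zero_mul] at hz
        exact absurd hz (lt_irrefl _)
    have h2 := hnear F hF.1 z (hbad z) hgz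
    have h3 := h2.const_mul (a := (c⁻¹) ^ (-c₀)) (Real.rpow_pos_of_pos (inv_pos.2 hc) _)
    refine h3.congr (Filter.Eventually.of_forall fun w => ?_)
    show (c⁻¹) ^ (-c₀) * (g F w * ‖F w‖ ^ (-c₀)) = g F w * ‖F₁ w‖ ^ (-c₀)
    rw [hn, Real.mul_rpow (inv_nonneg.2 hc.le) (norm_nonneg _)]
    ring
  obtain ⟨b, hb⟩ : ∃ b : ℝ, b = -Real.log (g F z₀ * ‖F₁ z₀‖ ^ (-c₀)) := ⟨_, rfl⟩
  have key : ∀ z, c₀ * Real.log ‖F₁ z‖ ≤ 3 * (Real.log C₁ + b) := by
    intro z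
    have hR : (0 : ℝ) < 2 * ‖z - z₀‖ + 1 := by positivity
    have h4 := harnack (N := N) (c := z₀) (z₀ := z₀) (R := 2 * ‖z - z₀‖ + 1) (a := Real.log C₁) (b := b) S.en.c₀_pos (mem_ball_self hR) hd h1
      (v := fun z => g F z * ‖F₁ z‖ ^ (-c₀)) (F1_usc (S.en.usc F hF.1) hcont hpos _)
      (fun w _ => mul_nonneg (S.en.nonneg F hF.1 w) (hpos w).le) (fun w _ hw => hsub w hw)
      (fun w _ => by
        rw [Real.exp_log hC₁]
        exact mul_le_mul_of_nonneg_right (hg F hF w) (hpos w).le)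
      (by
        rw [hb, neg_neg, Real.exp_log (mul_pos hz₀ (hpos z₀))])
      z (by
        rw [mem_closedBall, dist_eq_norm]
        linarith [norm_nonneg (z - z₀)])
    rw [sub_self, norm_zero, add_zero, sub_zero, div_self hR.ne', mul_one] at h4
    exact h4
  obtain ⟨z, hz⟩ := F1_unbounded S hF (c * Real.exp (3 * (Real.log C₁ + b) / c₀))
  have h5 := key z
  have h6 : Real.exp (3 * (Real.log C₁ + b) / c₀) < ‖F₁ z‖ := by
    rw [hn]
    have h7 := mul_lt_mul_of_pos_left hz (inv_pos.2 hc)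
    rwa [← mul_assoc, inv_mul_cancel₀ hc.ne', one_mul] at h7
  have h7 := (Real.lt_log_iff_exp_lt (lt_of_lt_of_le one_pos (h1 z))).2 h6
  rw [div_lt_iff₀ S.en.c₀_pos] at h7
  linarith

end Pool.Agent.SDA
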