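import Pool.Agent.SDA.F1a
import Pool.Agent.SDA.Th

/-!
# SDA F1b: near a good point the lift is bounded
-/

set_option autoImplicit false

open Topology Filter Metric

noncomputable section

namespace Pool.Agent.SDA

open Pool.Agent.H36.BP (EN fs wd Sub OrdTwo)
open Pool.Agent.H14.PP (IsCone Tan CurveAt)
open Pool.Agent.SY (Ent Energy)

variable {N : ℕ} {ι : Type} [Fintype ι] {X K T : Set (EN N)} {P : ι → EN N → ℂ} {d : ι → ℕ} {rho : EN N → ℝ} {M : ℕ} {c₀ C : ℝ}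
  {g : (ℂ → EN N) → ℂ → ℝ} {n : EN N → EN N → ℝ}

/-- MODULE F1b: near a good point the lift is bounded -/
theorem bounded_near (S : Setup X K T P d rho M c₀ C g n) {δ : ℝ} (hδ : 0 < δ) (R : ℝ) :
    ∃ B : ℝ, ∀ F, Cl K T P n F → ∀ p, δ ≤ rho (F p) → ∀ z, ‖z - p‖ ≤ R → ‖F z‖ ≤ B := by
  obtain ⟨C₁, hC₁, hg⟩ := F1_bound S
  obtain ⟨d₁, C₂, hd₁, hth, hlog⟩ := thick S hδ
  obtain ⟨c, hc, -, hlow⟩ := norm_lower (N := N) S.aff
  have hC0 := S.en.C_pos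
  have hc₀ := S.en.c₀_pos
  -- the radius
  obtain ⟨r, hr, hRr⟩ : ∃ r : ℝ, 0 < r ∧ R ≤ r := ⟨max 1 R, lt_of_lt_of_le one_pos (le_max_left _ _), le_max_right _ _⟩
  obtain ⟨κ, hκ⟩ : ∃ κ : ℝ, κ = C * C₁ ^ 2 := ⟨_, rfl⟩
  have hκ0 : 0 ≤ κ := by rw [hκ]; positivity
  obtain ⟨a, ha⟩ : ∃ a : ℝ, a = Real.log C₁ + κ * (2 * r) ^ 2 := ⟨_, rfl⟩
  obtain ⟨b, hb⟩ : ∃ b : ℝ, b = -Real.log d₁ + c₀ * (C₂ - Real.log c) := ⟨_, rfl⟩
  refine ⟨c * Real.exp (3 * (a + b) / c₀), fun F hF p hp z hz => ?_⟩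
  have hFc : ∀ z, c ≤ ‖F z‖ := fun z => hlow _ (hF.2.1 z)
  have hc0 : ‖((c : ℂ))⁻¹‖ = c⁻¹ := by rw [norm_inv, Complex.norm_real, Real.norm_eq_abs, abs_of_pos hc]
  obtain ⟨F₁, hF₁⟩ : ∃ F₁ : ℂ → EN N, F₁ = fun z => ((c : ℂ))⁻¹ • F z := ⟨_, rfl⟩
  have hn : ∀ z, ‖F₁ z‖ = c⁻¹ * ‖F z‖ := fun z => by
    rw [hF₁]
    simp only
    rw [norm_smul, hc0]
  have h1 : ∀ z, 1 ≤ ‖F₁ z‖ := fun z => by
    rw [hn]
    have := mul_le_mul_of_nonneg_left (hFc z) (inv_nonneg.2 hc.le)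
    rwa [inv_mul_cancel₀ hc.ne'] at this
  have hd : Differentiable ℂ F₁ := by
    rw [hF₁]
    exact hF.1.diff.const_smul ((c : ℂ))⁻¹
  have hpos : ∀ z, 0 < ‖F₁ z‖ ^ (-c₀) := fun z => Real.rpow_pos_of_pos (lt_of_lt_of_le one_pos (h1 z)) _
  have hcont : Continuous fun z => ‖F₁ z‖ ^ (-c₀) :=
    hd.continuous.norm.rpow_const fun z => Or.inl (lt_of_lt_of_le one_pos (h1 z)).ne'
  have hcont' : Continuous fun z => ‖F₁ z‖ ^ (-c₀) * Real.exp (κ * ‖z - p‖ ^ 2) := hcont.mul (by fun_prop)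
  have hpos' : ∀ z, 0 < ‖F₁ z‖ ^ (-c₀) * Real.exp (κ * ‖z - p‖ ^ 2) := fun z => mul_pos (hpos z) (Real.exp_pos _)
  have hsub : ∀ z, 0 < g F z * (‖F₁ z‖ ^ (-c₀) * Real.exp (κ * ‖z - p‖ ^ 2)) →
      Sub (fun w => g F w * (‖F₁ w‖ ^ (-c₀) * Real.exp (κ * ‖w - p‖ ^ 2))) z 0 := fun z hz => by
    have hgz : 0 < g F z := by
      rcases (S.en.nonneg F hF.1 z).lt_or_eq with h | h
      · exact h
      · rw [← h, zero_mul] at hz
        exact absurd hz (lt_irrefl _)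
    have h2 := S.en.sub F hF.1 z hgz
    have h3 := h2.const_mul (a := (c⁻¹) ^ (-c₀)) (Real.rpow_pos_of_pos (inv_pos.2 hc) _)
    have h4 := Sub.exp_sq (t := fun w => w - p) (z₀ := z) (analyticAt_id.sub analyticAt_const) κ
    have h5 : deriv (fun w : ℂ => w - p) z = 1 := by
      rw [deriv_sub_const]
      exact deriv_id z
    rw [h5, norm_one, one_pow, mul_one] at h4
    have h6 := (h3.mul h4).anti (d := 0) (by
      have h7 : g F z ^ 2 ≤ C₁ ^ 2 := pow_le_pow_left₀ hgz.le (hg F hF z) 2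
      have h8 := mul_le_mul_of_nonneg_left h7 hC0.le
      rw [hκ]
      linarith)
    refine h6.congr (Filter.Eventually.of_forall fun w => ?_)
    show (c⁻¹) ^ (-c₀) * (g F w * ‖F w‖ ^ (-c₀)) * Real.exp (κ * ‖w - p‖ ^ 2) = g F w * (‖F₁ w‖ ^ (-c₀) * Real.exp (κ * ‖w - p‖ ^ 2))
    rw [hn, Real.mul_rpow (inv_nonneg.2 hc.le) (norm_nonneg _)]
    ring
  have h2r : (0 : ℝ) < 2 * r := by positivity
  have hFp : g F p * (‖F₁ p‖ ^ (-c₀) * Real.exp (κ * ‖p - p‖ ^ 2)) ≥ Real.exp (-b) := by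
    have h2 := hth F hF.1 p hp (hF.2.2 p).ge
    have h3 := hlog (F p) (hF.1.mem p) (hF.2.1 p) hp
    have h4 : ‖F₁ p‖ ^ (-c₀) = Real.exp (-(c₀ * Real.log ‖F₁ p‖)) := by
      rw [Real.rpow_def_of_pos (lt_of_lt_of_le one_pos (h1 p))]
      congr 1
      ring
    have h5 : Real.log ‖F₁ p‖ ≤ C₂ - Real.log c := by
      rw [hn, Real.log_mul (inv_pos.2 hc).ne' (lt_of_lt_of_le hc (hFc p)).ne', Real.log_inv]
      linarith
    have h6 : Real.exp (-(c₀ * (C₂ - Real.log c))) ≤ ‖F₁ p‖ ^ (-c₀) := by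
      rw [h4]
      refine Real.exp_le_exp.2 ?_
      have := mul_le_mul_of_nonneg_left h5 hc₀.le
      linarith
    rw [sub_self, norm_zero]
    have h7 : Real.exp (κ * 0 ^ 2) = 1 := by simp
    rw [h7, mul_one, ge_iff_le]
    calc Real.exp (-b) = d₁ * Real.exp (-(c₀ * (C₂ - Real.log c))) := by
          rw [hb, neg_add, neg_neg, Real.exp_add, Real.exp_log hd₁]
      _ ≤ g F p * ‖F₁ p‖ ^ (-c₀) := mul_le_mul h2 h6 (Real.exp_pos _).le (S.en.nonneg F hF.1 p)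
  have h4 := harnack (N := N) (c := p) (z₀ := p) (R := 2 * r) (a := a) (b := b) hc₀ (mem_ball_self h2r) hd h1
      (v := fun z => g F z * (‖F₁ z‖ ^ (-c₀) * Real.exp (κ * ‖z - p‖ ^ 2))) (F1_usc (S.en.usc F hF.1) hcont' hpos' _)
      (fun w _ => mul_nonneg (S.en.nonneg F hF.1 w) (hpos' w).le) (fun w _ hw => hsub w hw)
      (fun w hw => by
        have h5 : ‖w - p‖ ≤ 2 * r := by rwa [mem_closedBall, dist_eq_norm] at hw
        have h6 : Real.exp (κ * ‖w - p‖ ^ 2) ≤ Real.exp (κ * (2 * r) ^ 2) :=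
          Real.exp_le_exp.2 (mul_le_mul_of_nonneg_left (pow_le_pow_left₀ (norm_nonneg _) h5 2) hκ0)
        rw [ha, Real.exp_add, Real.exp_log hC₁]
        calc g F w * (‖F₁ w‖ ^ (-c₀) * Real.exp (κ * ‖w - p‖ ^ 2)) ≤ C₁ * (‖F₁ w‖ ^ (-c₀) * Real.exp (κ * (2 * r) ^ 2)) :=
              mul_le_mul (hg F hF w) (mul_le_mul_of_nonneg_left h6 (hpos w).le) (hpos' w).le hC₁.le
          _ = C₁ * Real.exp (κ * (2 * r) ^ 2) * ‖F₁ w‖ ^ (-c₀) := by ring)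
      hFp z (by
        rw [mem_closedBall, dist_eq_norm]
        linarith)
  rw [sub_self, norm_zero, add_zero, sub_zero, div_self h2r.ne', mul_one] at h4
  have h5 : Real.log ‖F₁ z‖ ≤ 3 * (a + b) / c₀ := by
    rw [le_div_iff₀ hc₀]
    linarith
  have h6 := (Real.log_le_iff_le_exp (lt_of_lt_of_le one_pos (h1 z))).1 h5
  rw [hn] at h6
  have h7 := mul_le_mul_of_nonneg_left h6 hc.le
  rwa [← mul_assoc, mul_inv_cancel₀ hc.ne', one_mul] at h7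

end Pool.Agent.SDA
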