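import Pool.Agent.SDA.F1a
import Pool.Agent.SDA.F1b
import Pool.Agent.SDA.Co

/-!
# SDA F1c: the class is empty
-/

set_option autoImplicit false

open Topology Filter Metric

noncomputable section

namespace Pool.Agent.SDA

open Pool.Agent.H36.BP (EN fs wd Sub OrdTwo)
open Pool.Agent.H14.PP (IsCone Tan)
open Pool.Agent.SY (Ent Energy)

variable {N : ℕ} {ι : Type} [Fintype ι] {X K T : Set (EN N)} {P : ι → EN N → ℂ} {d : ι → ℕ} {rho : EN N → ℝ} {M : ℕ} {c₀ C : ℝ}
  {g : (ℂ → EN N) → ℂ → ℝ} {n : EN N → EN N → ℝ}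

/-- MODULE F1c: the class is empty, (5) of the note: the good points are everywhere, so a curve of the class is bounded. -/
theorem cl_empty (S : Setup X K T P d rho M c₀ C g n) (F : ℂ → EN N) : ¬ Cl K T P n F := by
  intro hF
  obtain ⟨δ, hδ, hnear⟩ := S.en.near
  obtain ⟨R₁, -, hcov⟩ := cover S hδ hnear
  obtain ⟨B, hB⟩ := bounded_near S hδ R₁
  obtain ⟨z, hz⟩ := F1_unbounded S hF B
  obtain ⟨p, hp, hr⟩ := hcov F hF (exists_good S hδ hnear hF) z
  refine absurd hz (not_lt.2 (hB F hF p hr z ?_))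
  rw [norm_sub_rev]
  exact hp

end Pool.Agent.SDA
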