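import Pool.Agent.SDA.Defs

/-!
# SDA FStub: the statements of the function theory modules

One module per theorem; each module is a file `Pool/Agent/SDA/<Name>.lean` which proves the theorem in the namespace `Pool.Agent.SDA` with exactly
this statement (import `Pool.Agent.SDA.Defs`, the library, and the other modules which are used; as long as these are missing, `FStub`).
-/

set_option autoImplicit false

open Topology Filter Metric

noncomputable section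

namespace Pool.Agent.SDA.Stub

open Pool.Agent.H36.BP (EN fs wd Sub OrdTwo)
open Pool.Agent.H14.PP (IsCone Tan)
open Pool.Agent.SY (Ent Energy)
open Pool.Agent.SDA

variable {N : ℕ} {ι : Type} [Fintype ι] {X K T : Set (EN N)} {P : ι → EN N → ℂ} {d : ι → ℕ} {rho : EN N → ℝ} {M : ℕ} {c₀ C : ℝ}
  {g : (ℂ → EN N) → ℂ → ℝ} {n : EN N → EN N → ℝ}

/-! ## general facts -/

/-- MODULE Nn (1): the normalised lift.  `∏ P i (F z)` is entire without zeros and homogeneous of degree `∑ d i ≥ 1` in `F`. -/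
theorem exists_norm (h : AffOpen X K P d) {F : ℂ → EN N} (hF : Differentiable ℂ F) (hK : ∀ z, F z ∈ K) :
    ∃ u : ℂ → ℂ, Differentiable ℂ u ∧ (∀ z, u z ≠ 0) ∧ Nm P (fun z => u z • F z) := by
  sorry

/-- MODULE Nn (2): the length does not depend on the lift -/
theorem n_unit (hX : IsCone X) (h : AffOpen X K P d) (hn : Gauge X K P d n) {F : ℂ → EN N} (hF : Differentiable ℂ F) (hK : ∀ z, F z ∈ K) {u : ℂ → ℂ}
    (hu : Differentiable ℂ u) (h0 : ∀ z, u z ≠ 0) (z : ℂ) :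
    n (u z • F z) (deriv (fun w => u w • F w) z) = n (F z) (deriv F z) := by
  sorry

/-- MODULE Nn (3): affine changes of the parameter -/
theorem n_aff (hn : Gauge X K P d n) (hKX : K ⊆ X) {F : ℂ → EN N} (hF : Differentiable ℂ F) (hK : ∀ z, F z ∈ K) (a b z : ℂ) :
    n (F (a * z + b)) (deriv (fun w => F (a * w + b)) z) = ‖a‖ * n (F (a * z + b)) (deriv F (a * z + b)) := by
  sorry

/-- MODULE Nn (4): normalised vectors are bounded below (`|P i x| ≤ C |x| ^ d i` by compactness of the sphere) -/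
theorem norm_lower (h : AffOpen X K P d) : ∃ c : ℝ, 0 < c ∧ c ≤ 1 ∧ ∀ x : EN N, ∏ i, P i x = 1 → c ≤ ‖x‖ := by
  sorry

/-- MODULE Nn (5): continuity of the length along converging curves in `K` -/
theorem n_tendsto (hn : Gauge X K P d n) (hKX : K ⊆ X) {l : Filter ℕ} {F : ℕ → ℂ → EN N} {H : ℂ → EN N}
    (hF : ∀ᶠ k in l, Differentiable ℂ (F k) ∧ ∀ z, F k z ∈ K) (hH : Differentiable ℂ H) (hHK : ∀ z, H z ∈ K)
    (hc : TendstoLocallyUniformlyOn F H l Set.univ) (z : ℂ) :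
    Tendsto (fun k => n (F k z) (deriv (F k) z)) l (𝓝 (n (H z) (deriv H z))) := by
  sorry

/-- MODULE Ha: Harnack's inequality.  For `η > 0` take a polynomial `p` with `|Re p - c₀ log |F|| ≤ η` on the circle (see `SY/ChM`, `H36/BP/CirA`);
inside `c₀ log |F| ≤ Re p + η` (`‖exp (-p / c₀) • F‖`, maximum modulus), so `Re p ≥ -η`; `v exp (Re p) ≤ exp (a + η)` on the circle, so inside
(maximum principle, `H36/BP/MaxP`); so `Re p (z₀) ≤ a + b + η`; Harnack twice for `Re p + η ≥ 0` (`(R - r) / (R + r) u c ≤ u z ≤ (R + r) / (R - r) u c`). -/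
theorem harnack {c z₀ : ℂ} {R a b : ℝ} (hc₀ : 0 < c₀) (hz₀ : z₀ ∈ ball c R) {F : ℂ → EN N} (hF : Differentiable ℂ F)
    (hF1 : ∀ z, 1 ≤ ‖F z‖) {v : ℂ → ℝ} (hv : UpperSemicontinuousOn v (closedBall c R)) (hv0 : ∀ z ∈ closedBall c R, 0 ≤ v z)
    (hs : ∀ z ∈ ball c R, 0 < v z → Sub v z 0) (hva : ∀ z ∈ closedBall c R, v z ≤ Real.exp a * ‖F z‖ ^ (-c₀))
    (hb : Real.exp (-b) ≤ v z₀) :
    ∀ z ∈ closedBall c (R / 2), c₀ * Real.log ‖F z‖ ≤ 3 * ((R + ‖z₀ - c‖) / (R - ‖z₀ - c‖)) * (a + b) := by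
  sorry

/-- MODULE La (1) -/
theorem exists_lam_bound (hX : IsCone X) (h : AffOpen X K P d) : ∃ κ : ℝ, 1 ≤ κ ∧ ∀ i, ∀ x ∈ K, 1 ≤ κ + lam P d i x := by
  sorry

/-- MODULE La (2) -/
theorem sum_lam (hX : IsCone X) (h : AffOpen X K P d) {x : EN N} (hx : x ∈ K) (h1 : ∏ i, P i x = 1) :
    ∑ i, lam P d i x = (∑ i, (d i : ℝ)) * Real.log ‖x‖ := by
  sorry

/-- MODULE La (3): `Lap (lam ^ 2) ≥ 2 |grad lam| ^ 2`, `Lap lam = 2 d fs ^ 2` -/
theorem sub_phi (hX : IsCone X) (h : AffOpen X K P d) {κ R : ℝ} (hκ : ∀ i, ∀ x ∈ K, 1 ≤ κ + lam P d i x) (hR : 0 ≤ R) {F : ℂ → EN N} {z : ℂ}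
    (hF : AnalyticAt ℂ F z) (hFK : ∀ᶠ w in 𝓝 z, F w ∈ K) :
    Sub (fun w => Real.exp (∑ i, ((κ + lam P d i (F w)) ^ 2 + R * (κ + lam P d i (F w))))) z
      (1 / 2 * ∑ i, ‖ell P d i (F z) (deriv F z)‖ ^ 2 + R * (∑ i, (d i : ℝ)) * fs (F z) (deriv F z) ^ 2 / 2) := by
  sorry

/-- MODULE Ll: Lemma L, (3) of the note -/
theorem lemma_L (hX : IsCone X) (h : AffOpen X K P d) (hn : Gauge X K P d n) {A : ℝ} (hA : 0 ≤ A) :
    ∃ R₀ : ℝ, 0 < R₀ ∧ ∀ F : ℂ → EN N, Differentiable ℂ F → (∀ z, F z ∈ K) → Nm P F → ∀ (c : ℂ) (R : ℝ), R₀ ≤ R →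
      (∀ z ∈ ball c R, 1 ≤ n (F z) (deriv F z)) → ∃ z ∈ ball c R, A * R < Real.log ‖F z‖ := by
  sorry

/-- MODULE Oo (1): order two, growth of the normalised lift.  (`harnack` with `v = |c|`, where `c F` is the lift of the definition of `OrdTwo`.) -/
theorem growth_of_ordTwo (hX : IsCone X) (h : AffOpen X K P d) {F : ℂ → EN N} (hF : Differentiable ℂ F) (hK : ∀ z, F z ∈ K) (hN : Nm P F)
    (ho : OrdTwo F) : ∃ A : ℝ, 0 ≤ A ∧ ∀ z, Real.log ‖F z‖ ≤ A * (1 + ‖z‖ ^ 2) := by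
  sorry

/-- MODULE Oo (2) -/
theorem ordTwo_of_growth {F : ℂ → EN N} (hF : Differentiable ℂ F) {c A : ℝ} (hc : 0 < c) (hl : ∀ z, c ≤ ‖F z‖)
    (hg : ∀ z, Real.log ‖F z‖ ≤ A * (1 + ‖z‖ ^ 2)) : OrdTwo F := by
  sorry

/-! ## the class -/

/-- MODULE Cc: compactness.  `SY.char_fun` gives units `exp (v n)` with `‖exp (v n) • F n‖ ≤ 1` near `0`, `≥ c'` at `0`; the limit is in `K` at `0` by
`bdy`, so `‖F n 0‖` is bounded along `𝒰` (`∏ P i (F n 0) = 1`); then `harnack` (`v = g (F n) ‖F n‖ ^ (-c₀) exp (κ |z| ^ 2)`, `z₀ = c = 0`) bounds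
`F n` on every disc, `log ‖F n z‖ ≤ A' (1 + R ^ 2)`; `H17.montel_ultrafilter`; the limit is in `K` since `∏ P i (H z) = 1`; `lim` of `Energy`. -/
theorem compactness (S : Setup X K T P d rho M c₀ C g n) (𝒰 : Ultrafilter ℕ) (h𝒰 : (𝒰 : Filter ℕ) ≤ atTop) (F : ℕ → ℂ → EN N)
    (hF : ∀ k, Ent K T (F k)) (hN : ∀ k, Nm P (F k)) {A δ : ℝ} (hδ : 0 < δ) (hA : ∀ k : ℕ, ∀ z ∈ ball (0 : ℂ) (k + 1), g (F k) z ≤ A)
    (h0 : ∀ k, δ ≤ g (F k) 0) :
    ∃ H : ℂ → EN N, Ent K T H ∧ Nm P H ∧ OrdTwo H ∧ (∃ z w, ∀ c : ℂ, H z ≠ c • H w) ∧ TendstoLocallyUniformlyOn F H 𝒰 Set.univ := by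
  sorry

/-- MODULE Ab: the local bound, (1) of the note (compare `SY/A`: `rescale_g`, `bound_g`) -/
theorem bound_local (S : Setup X K T P d rho M c₀ C g n) :
    ∃ C₁ : ℝ, 0 < C₁ ∧ ∀ F, Ent K T F → (∀ z ∈ ball (0 : ℂ) 1, n (F z) (deriv F z) ≤ 1) → g F 0 ≤ C₁ := by
  sorry

/-- MODULE Th: where `rho ≥ δ`: `F z` is in a compact part of the surface, `Lg ≤ C fs` there, so `fs ≥ c` by `growth`, and `lower` -/
theorem thick (S : Setup X K T P d rho M c₀ C g n) {δ : ℝ} (hδ : 0 < δ) :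
    ∃ d₁ C₂ : ℝ, 0 < d₁ ∧ (∀ F, Ent K T F → ∀ z, δ ≤ rho (F z) → 1 ≤ n (F z) (deriv F z) → d₁ ≤ g F z) ∧
      ∀ x ∈ K, ∏ i, P i x = 1 → δ ≤ rho x → Real.log ‖x‖ ≤ C₂ := by
  sorry

/-- MODULE Td: tangent discs, (4) of the note -/
theorem tangent (S : Setup X K T P d rho M c₀ C g n) {δ : ℝ} (hδ : 0 < δ) (hnear : Near K T (fun x => ‖x‖) rho c₀ g δ) :
    ∃ R₁ : ℝ, 0 < R₁ ∧ ∀ F, Cl K T P n F → ∀ z p : ℂ, δ ≤ rho (F p) → (∀ w, ‖w - z‖ < ‖p - z‖ → rho (F w) < δ) → ‖p - z‖ ≤ R₁ := by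
  sorry

/-- MODULE Co: the good points are everywhere (the set of the good points is closed; nearest good point) -/
theorem cover (S : Setup X K T P d rho M c₀ C g n) {δ : ℝ} (hδ : 0 < δ) (hnear : Near K T (fun x => ‖x‖) rho c₀ g δ) :
    ∃ R₁ : ℝ, 0 < R₁ ∧ ∀ F, Cl K T P n F → (∃ p, δ ≤ rho (F p)) → ∀ z, ∃ p, ‖p - z‖ ≤ R₁ ∧ δ ≤ rho (F p) := by
  sorry

/-- MODULE F1a: a curve of the class without good points does not exist -/
theorem exists_good (S : Setup X K T P d rho M c₀ C g n) {δ : ℝ} (hδ : 0 < δ) (hnear : Near K T (fun x => ‖x‖) rho c₀ g δ) {F : ℂ → EN N}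
    (hF : Cl K T P n F) : ∃ p, δ ≤ rho (F p) := by
  sorry

/-- MODULE F1b: near a good point the lift is bounded -/
theorem bounded_near (S : Setup X K T P d rho M c₀ C g n) {δ : ℝ} (hδ : 0 < δ) (R : ℝ) :
    ∃ B : ℝ, ∀ F, Cl K T P n F → ∀ p, δ ≤ rho (F p) → ∀ z, ‖z - p‖ ≤ R → ‖F z‖ ≤ B := by
  sorry

/-- MODULE F1c: the class is empty, (5) of the note -/
theorem cl_empty (S : Setup X K T P d rho M c₀ C g n) (F : ℂ → EN N) : ¬ Cl K T P n F := by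
  sorry

/-- MODULE T1 (1): tame curves, (6) (i) of the note -/
theorem tame_bound (S : Setup X K T P d rho M c₀ C g n) {F : ℂ → EN N} (hF : Ent K T F) (ht : Tame fun z => n (F z) (deriv F z)) :
    ∃ C₂ : ℝ, 0 < C₂ ∧ ∀ᶠ z in cocompact ℂ, g F z ≤ C₂ * n (F z) (deriv F z) := by
  sorry

/-- MODULE T1 (2): (6) (ii) of the note -/
theorem tame_bad (S : Setup X K T P d rho M c₀ C g n) {F : ℂ → EN N} (hF : Ent K T F) (hN : Nm P F) (ht : Tame fun z => n (F z) (deriv F z))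
    {δ : ℝ} (hδ : 0 < δ) : ∀ᶠ z in cocompact ℂ, rho (F z) < δ := by
  sorry

/-- MODULE T2: (6) (iii) of the note -/
theorem not_tame (S : Setup X K T P d rho M c₀ C g n) {F : ℂ → EN N} (hF : Ent K T F) (hN : Nm P F) :
    ¬ Tame fun z => n (F z) (deriv F z) := by
  sorry

/-- MODULE Mn: the curves of order two -/
theorem main (S : Setup X K T P d rho M c₀ C g n)
    (hQ : ∀ F : ℂ → EN N, Differentiable ℂ F → (∀ z, F z ∈ K) → Nm P F → OrdTwo F →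
      (∃ c : ℝ, ∀ z, n (F z) (deriv F z) = c) ∨ Tame fun z => n (F z) (deriv F z))
    {F : ℂ → EN N} (hF : Differentiable ℂ F) (hK : ∀ z, F z ∈ K) (ho : OrdTwo F) : (∀ z, F z ∈ T) ∨ ∀ z w, ∃ c : ℂ, F z = c • F w := by
  sorry

/-! ## logarithmic symmetric differentials -/

/-- MODULE Q1: mean value inequality (compare `H22/W/Liou`, `H15/V/Liou`: averages over the rotations by the roots of unity; `Sub` of products and
powers; `SY.decay`) -/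
theorem mean_bound {q : ℂ → ℂ} (hq : Differentiable ℂ q) {m : ℕ} (hm : 1 ≤ m) {z₀ : ℂ} {R a B : ℝ} (hR : 0 < R) (ha : 0 < a) {φ : ℂ → ℝ}
    (hφ : ContinuousOn φ (closedBall z₀ R)) (hs : ∀ z ∈ ball z₀ R, Sub (fun w => Real.exp (φ w)) z (a * ‖q z‖ ^ ((2 : ℝ) / m)))
    (hB : ∀ z ∈ closedBall z₀ R, 0 ≤ φ z ∧ φ z ≤ B) : ‖q z₀‖ ^ ((2 : ℝ) / m) ≤ 4 * B / (a * R ^ 2) := by
  sorry

/-- MODULE Q2: along a curve of order two the forms are polynomials (`mean_bound`, `sub_phi`, `growth_of_ordTwo`) -/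
theorem exists_poly (hX : IsCone X) (h : AffOpen X K P d) {m : ℕ} {w : EN N → EN N → ℂ} (hw : LogForm X K P d m w) {F : ℂ → EN N}
    (hF : Differentiable ℂ F) (hK : ∀ z, F z ∈ K) (hN : Nm P F) (ho : OrdTwo F) :
    ∃ p : Polynomial ℂ, ∀ z, w (F z) (deriv F z) = p.eval z := by
  sorry

variable {J : Type} [Fintype J] {m : J → ℕ} {w : J → EN N → EN N → ℂ}

/-- MODULE Q3 (1) -/
theorem gauge_forms (hw : ∀ j, LogForm X K P d (m j) (w j)) : Gauge X K P d (nForms m w) := by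
  sorry

/-- MODULE Q3 (2) -/
theorem tame_poly (p : J → Polynomial ℂ) (hm : ∀ j, 1 ≤ m j) {b : ℝ} (hb : 0 ≤ b) :
    (∃ c : ℝ, ∀ z : ℂ, b + ∑ j, ‖(p j).eval z‖ ^ ((m j : ℝ)⁻¹) = c) ∨ Tame fun z => b + ∑ j, ‖(p j).eval z‖ ^ ((m j : ℝ)⁻¹) := by
  sorry

/-- MODULE Q3 (3) -/
theorem forms_const_or_tame (hX : IsCone X) (h : AffOpen X K P d) (hw : ∀ j, LogForm X K P d (m j) (w j)) {F : ℂ → EN N}
    (hF : Differentiable ℂ F) (hK : ∀ z, F z ∈ K) (hN : Nm P F) (ho : OrdTwo F) :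
    (∃ c : ℝ, ∀ z, nForms m w (F z) (deriv F z) = c) ∨ Tame fun z => nForms m w (F z) (deriv F z) := by
  sorry

end Pool.Agent.SDA.Stub
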