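import Pool.Agent.SDA.Q2
import Pool.Agent.SDA.Q3b

/-!
# SDA Q3c: the pseudo-length of a family of forms is constant or tame along a curve of order two
-/

set_option autoImplicit false

open Topology Filter Metric

noncomputable section

namespace Pool.Agent.SDA

open Pool.Agent.H36.BP (EN fs wd Sub OrdTwo)
open Pool.Agent.H14.PP (IsCone Tan)
open Pool.Agent.SY (Ent Energy)

variable {N : ℕ} {ι : Type} [Fintype ι] {X K T : Set (EN N)} {P : ι → EN N → ℂ} {d : ι → ℕ}

variable {J : Type} [Fintype J] {m : J → ℕ} {w : J → EN N → EN N → ℂ}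

/-- MODULE Q3 (3) -/
theorem forms_const_or_tame (hX : IsCone X) (h : AffOpen X K P d) (hw : ∀ j, LogForm X K P d (m j) (w j)) {F : ℂ → EN N}
    (hF : Differentiable ℂ F) (hK : ∀ z, F z ∈ K) (hN : Nm P F) (ho : OrdTwo F) :
    (∃ c : ℝ, ∀ z, nForms m w (F z) (deriv F z) = c) ∨ Tame fun z => nForms m w (F z) (deriv F z) := by
  choose p hp using fun j => exists_poly hX h (hw j) hF hK hN ho
  have e : ∀ z : ℂ, nForms m w (F z) (deriv F z) = 0 + ∑ j, ‖(p j).eval z‖ ^ ((m j : ℝ)⁻¹) := by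
    intro z
    unfold nForms
    rw [zero_add]
    exact Finset.sum_congr rfl fun j _ => by rw [hp j z]
  have e' : (fun z => nForms m w (F z) (deriv F z)) = fun z => 0 + ∑ j, ‖(p j).eval z‖ ^ ((m j : ℝ)⁻¹) := funext e
  rw [e']
  rcases tame_poly (m := m) p (fun j => (hw j).one_m) le_rfl with ⟨c, hc⟩ | ht
  · exact Or.inl ⟨c, fun z => by rw [e z, hc z]⟩
  · exact Or.inr ht

end Pool.Agent.SDA
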