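import Pool.Agent.SDA.Mn
import Pool.Agent.SDA.Q3c

import Pool.Agent.SDA.E3
import Pool.Agent.SDA.E4
import Pool.Agent.SDA.E5
import Pool.Agent.SDA.X4
import Pool.Agent.SDA.RDefs2
import Pool.Agent.AD.T.NCProof

/-!
# SDA Fin: the main theorem
-/

set_option autoImplicit false

open MvPolynomial

noncomputable section

namespace Pool.Agent.SDA

open Pool.Agent.H36.BP (EN)
open Pool.Agent.H17 (PN VanishesAt HolomorphicInto)
open Pool.Agent.H62.FC (Homog)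
open Pool.Agent.H62.SA (locVar OnBd)
open Pool.Agent.H17LG.Variety (FunField IsLogGeneralType)
open Pool.Agent.H13.OT (OrderTwo)
open Pool.Agent.AD (SymDiff TangentTo)
open Pool.Agent.AD.NC (IsSmooth IsOfLogGeneralType complement complement_eq)


variable {N k : ℕ}

/-- **Main theorem.** -/
theorem main_log (P : Ideal (MvPolynomial (Fin (N + 1)) ℂ)) [P.IsPrime] (hP : Homog P)
    (hdim : ∃ z : Fin 2 → FunField P, IsTranscendenceBasis ℂ z) (hsmooth : IsSmooth P 2) (hk : 1 ≤ k)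
    (H : Fin k → MvPolynomial (Fin (N + 1)) ℂ) (e : Fin k → ℕ) (hH : ∀ i, (H i).IsHomogeneous (e i)) (he : ∀ i, 1 ≤ e i) (hHP : ∀ i, H i ∉ P)
    (hgt : IsOfLogGeneralType P H 2)
    {s : ℕ} (m : Fin s → ℕ) (hm : ∀ j, 1 ≤ m j) (θ : ∀ j, SymDiff (openCone P H) (m j)) (hθ : ∀ j, VanishesOnStatic e (θ j))
    (R : MvPolynomial (Fin (N + 1)) ℂ) (d : ℕ) (hR : R.IsHomogeneous d) (hRP : R ∉ P)
    (hnull : ∀ f : ℂ → PN N, HolomorphicInto f Set.univ → OrderTwo f → (∀ z, f z ∈ complement P H) → (∃ z w, f z ≠ f w) →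
      (∀ j, TangentTo (θ j) f) → ∀ z, VanishesAt R (f z)) :
    IsHyperbolicOpen P (fun _ : Fin 1 => ∏ i, H i) := by
  obtain ⟨z, hz⟩ := id hdim
  obtain ⟨Q, D, M, c₀, C, g, hQ, hQP, S⟩ := exists_setup hP hz hsmooth hk hH he hHP hgt hm θ hθ hR hRP
    (fun f hf hfo hfU hfn ht => hnull f hf hfo (fun z => by rw [complement_eq]; exact hfU z) hfn ht)
  have hor : ∀ F : ℂ → EN N, Differentiable ℂ F → (∀ z, F z ∈ openCone P H) → Pool.Agent.H36.BP.OrdTwo F →
      (∀ z, eval (F z).ofLp Q = 0) ∨ ∀ z w, ∃ c : ℂ, F z = c • F w := by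
    intro F hF hK ho
    have hw : ∀ j, LogForm (Pool.Agent.H17EF.coneE P) (openCone P H) (fun i (x : EN N) => eval x.ofLp (H i)) e (m j) (θ j).toFun :=
      fun j => logForm hP hz hsmooth hk hH he (hm j) (θ j) (hθ j)
    rcases main S (fun F hF hK hN ho => forms_const_or_tame S.cone S.aff hw hF hK hN ho) hF hK ho with h | h
    · exact Or.inl fun z => (h z).2
    · exact Or.inr h
  obtain ⟨h1, h2⟩ := four_of_orderTwo hP hz hsmooth hk hH he hHP hgt hQ hQP hor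
  exact hyperbolicOpen_of hP hdim (fun _ => ⟨_, MvPolynomial.IsHomogeneous.prod _ _ _ fun i _ => hH i⟩) h1 h2

/-- **Main theorem**, with the second form of the condition on the tangent curves. -/
theorem main_few (P : Ideal (MvPolynomial (Fin (N + 1)) ℂ)) [P.IsPrime] (hP : Homog P)
    (hdim : ∃ z : Fin 2 → FunField P, IsTranscendenceBasis ℂ z) (hsmooth : IsSmooth P 2) (hk : 1 ≤ k)
    (H : Fin k → MvPolynomial (Fin (N + 1)) ℂ) (e : Fin k → ℕ) (hH : ∀ i, (H i).IsHomogeneous (e i)) (he : ∀ i, 1 ≤ e i) (hHP : ∀ i, H i ∉ P)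
    (hgt : IsOfLogGeneralType P H 2)
    {s : ℕ} (m : Fin s → ℕ) (hm : ∀ j, 1 ≤ m j) (θ : ∀ j, SymDiff (openCone P H) (m j)) (hθ : ∀ j, VanishesOnStatic e (θ j))
    (hf : FewTangent P H θ) : IsHyperbolicOpen P (fun _ : Fin 1 => ∏ i, H i) := by
  rcases hf with ⟨R, d, hR, hRP, h⟩ | ⟨i, j, h⟩
  · exact main_log P hP hdim hsmooth hk H e hH he hHP hgt m hm θ hθ R d hR hRP h
  · obtain ⟨z, hz⟩ := id hdim
    obtain ⟨R, d, hR, hRP, h1⟩ := exists_R_log hP hz hsmooth hH hHP (hm i) (hm j) (θ i) (θ j) (hθ i) (hθ j) h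
    exact main_log P hP hdim hsmooth hk H e hH he hHP hgt m hm θ hθ R d hR hRP fun f hf _ hfU hfn ht => h1 f hf hfU hfn (ht i) (ht j)

end Pool.Agent.SDA
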