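import Pool.Agent.SDA.Defs
import Pool.Agent.SDA.La
import Pool.Agent.SY.PotM
import Pool.Agent.H22.W.Def

/-!
# SDA Ll: Lemma L

A normalised entire curve of length at least one on a large disc of radius `R` has `log ‖F‖ > A R` somewhere on the disc.
-/

set_option autoImplicit false

open Topology Filter Metric

noncomputable section

namespace Pool.Agent.SDA

open Pool.Agent.H36.BP (EN fs wd Sub OrdTwo)
open Pool.Agent.H14.PP (IsCone Tan)

variable {N : ℕ} {ι : Type} [Fintype ι] {X K T : Set (EN N)} {P : ι → EN N → ℂ} {d : ι → ℕ} {n : EN N → EN N → ℝ}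

omit [Fintype ι] in
theorem Ll.lam_cont (hX : IsCone X) (h : AffOpen X K P d) {F : ℂ → EN N} (hF : Differentiable ℂ F) (hK : ∀ z, F z ∈ K) (i : ι) :
    Continuous fun w => lam P d i (F w) := by
  have h1 : Continuous (P i) := continuous_iff_continuousAt.2 fun x => (h.an i x).continuousAt
  have h2 : ∀ w, ‖F w‖ ≠ 0 := fun w => norm_ne_zero_iff.2 fun h0 => hX.zero_notMem (h0 ▸ ((h.mem _).1 (hK w)).1)
  have h3 : ∀ w, ‖P i (F w)‖ ≠ 0 := fun w => norm_ne_zero_iff.2 (((h.mem _).1 (hK w)).2 i)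
  have h4 : Continuous fun w => Real.log ‖F w‖ := hF.continuous.norm.log h2
  have h5 : Continuous fun w => Real.log ‖P i (F w)‖ := (h1.comp hF.continuous).norm.log h3
  exact (continuous_const.mul h4).sub h5

/-- a numerical step: one of the two terms is large -/
theorem Ll.num {k Y f L R h c s : ℝ} (hk : 1 ≤ k) (hY : 0 ≤ Y) (hR1 : 1 ≤ R) (hh : 1 ≤ h) (hc : 0 < c) (hf : 0 ≤ f)
    (hs : L ^ 2 ≤ k * s) (hRc : Y ^ 2 ≤ 4 * R * c ^ 2) (hor : Y ≤ f + L ∨ c ≤ f) :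
    Y ^ 2 / (8 * k) ≤ 1 / 2 * s + R * h * f ^ 2 / 2 := by
  have hs0 : 0 ≤ s := by
    by_contra hcon
    push Not at hcon
    nlinarith [sq_nonneg L]
  have hk0 : 0 < k := by linarith
  have hRh : 1 ≤ R * h := by nlinarith
  have h8 : Y ^ 2 / (8 * k) ≤ Y ^ 2 / 8 := by
    apply div_le_div_of_nonneg_left (sq_nonneg Y) (by norm_num)
    linarith
  rcases hor with h1 | h1
  · by_cases h2 : Y / 2 ≤ f
    · have h3 : (Y / 2) ^ 2 ≤ f ^ 2 := pow_le_pow_left₀ (by linarith) h2 2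
      have h4 : f ^ 2 ≤ R * h * f ^ 2 := le_mul_of_one_le_left (sq_nonneg f) hRh
      linarith
    · push Not at h2
      have h3 : Y / 2 ≤ L := by linarith
      have h4 : (Y / 2) ^ 2 ≤ L ^ 2 := pow_le_pow_left₀ (by linarith) h3 2
      have h5 : Y ^ 2 / (8 * k) ≤ 1 / 2 * s := by
        rw [div_le_iff₀ (by positivity)]
        nlinarith
      have h6 : 0 ≤ R * h * f ^ 2 := by positivity
      linarith
  · have h3 : c ^ 2 ≤ f ^ 2 := pow_le_pow_left₀ hc.le h1 2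
    have h4 : R * c ^ 2 ≤ R * h * f ^ 2 := by
      calc R * c ^ 2 ≤ R * f ^ 2 := mul_le_mul_of_nonneg_left h3 (by linarith)
        _ ≤ R * f ^ 2 * h := le_mul_of_one_le_right (by positivity) hh
        _ = R * h * f ^ 2 := by ring
    have h5 : 0 ≤ 1 / 2 * s := by positivity
    linarith

/-- **Ll**: Lemma L -/
theorem lemma_L (hX : IsCone X) (h : AffOpen X K P d) (hn : Gauge X K P d n) {A : ℝ} (hA : 0 ≤ A) :
    ∃ R₀ : ℝ, 0 < R₀ ∧ ∀ F : ℂ → EN N, Differentiable ℂ F → (∀ z, F z ∈ K) → Nm P F → ∀ (c : ℂ) (R : ℝ), R₀ ≤ R →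
      (∀ z ∈ ball c R, 1 ≤ n (F z) (deriv F z)) → ∃ z ∈ ball c R, A * R < Real.log ‖F z‖ := by
  obtain ⟨κ, hκ1, hκ⟩ := exists_lam_bound hX h
  obtain ⟨hd, hhd⟩ : ∃ hd : ℝ, hd = ∑ i, (d i : ℝ) := ⟨_, rfl⟩
  obtain ⟨k, hk⟩ : ∃ k : ℝ, k = Fintype.card ι := ⟨_, rfl⟩
  obtain ⟨i₀⟩ := h.ne
  have hk1 : 1 ≤ k := by
    rw [hk]
    have : 0 < Fintype.card ι := Fintype.card_pos_iff.2 h.ne
    exact_mod_cast this
  have hhd1 : 1 ≤ hd := by
    rw [hhd]
    have h1 : (1 : ℝ) ≤ (d i₀ : ℝ) := by exact_mod_cast h.pos i₀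
    exact h1.trans (Finset.single_le_sum (f := fun i => (d i : ℝ)) (fun i _ => Nat.cast_nonneg _) (Finset.mem_univ i₀))
  obtain ⟨B, hB⟩ : ∃ B : ℝ, B = k * κ + hd * A := ⟨_, rfl⟩
  have hB0 : 0 ≤ B := by rw [hB]; positivity
  obtain ⟨Y, hY⟩ : ∃ Y : ℝ, Y = 8 * k * (B + 1) := ⟨_, rfl⟩
  have hY0 : 0 < Y := by rw [hY]; positivity
  obtain ⟨Cg, hCg0, hg⟩ := hn.growth (1 / (2 * Y)) (by positivity)
  obtain ⟨c', hc'⟩ : ∃ c' : ℝ, c' = 1 / (2 * (Cg + 1)) := ⟨_, rfl⟩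
  have hc'0 : 0 < c' := by rw [hc']; positivity
  refine ⟨max 1 (Y ^ 2 / (4 * c' ^ 2)), by positivity, fun F hF hFK hN c R hR hone => ?_⟩
  by_contra hcon
  push Not at hcon
  have hR1 : 1 ≤ R := (le_max_left _ _).trans hR
  have hRY : Y ^ 2 ≤ 4 * R * c' ^ 2 := by
    have h1 : Y ^ 2 / (4 * c' ^ 2) ≤ R := (le_max_right _ _).trans hR
    rw [div_le_iff₀ (by positivity)] at h1
    linarith
  have hFX : ∀ z, F z ∈ X := fun z => ((h.mem _).1 (hFK z)).1
  obtain ⟨φ, hφ⟩ : ∃ φ : ℂ → ℝ, φ = fun w => ∑ i, ((κ + lam P d i (F w)) ^ 2 + R * (κ + lam P d i (F w))) := ⟨_, rfl⟩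
  have hφc : Continuous φ := by
    rw [hφ]
    refine continuous_finsetSum _ fun i _ => ?_
    have h1 := Ll.lam_cont hX h hF hFK i
    exact ((continuous_const.add h1).pow 2).add (continuous_const.mul (continuous_const.add h1))
  have hpos : ∀ w i, 0 ≤ κ + lam P d i (F w) := fun w i => by linarith [hκ i _ (hFK w)]
  have hφ0 : ∀ w, 0 ≤ φ w := by
    intro w
    rw [hφ]
    refine Finset.sum_nonneg fun i _ => ?_
    have := hpos w i
    positivity
  -- the upper bound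
  have hball : closedBall c (R / 2) ⊆ ball c R := closedBall_subset_ball (by linarith)
  have hφB : ∀ w ∈ closedBall c (R / 2), φ w ≤ (B ^ 2 + B) * R ^ 2 := by
    intro w hw
    have h1 : Real.log ‖F w‖ ≤ A * R := hcon w (hball hw)
    have h2 : ∑ i, (κ + lam P d i (F w)) = k * κ + hd * Real.log ‖F w‖ := by
      rw [Finset.sum_add_distrib, sum_lam hX h (hFK w) (hN w), Finset.sum_const, Finset.card_univ, nsmul_eq_mul, hk, hhd]
    have h3 : ∑ i, (κ + lam P d i (F w)) ≤ B * R := by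
      rw [h2, hB]
      have h4 : hd * Real.log ‖F w‖ ≤ hd * (A * R) := mul_le_mul_of_nonneg_left h1 (by linarith)
      have h5 : k * κ ≤ k * κ * R := le_mul_of_one_le_right (by positivity) hR1
      nlinarith
    have h6 : 0 ≤ ∑ i, (κ + lam P d i (F w)) := Finset.sum_nonneg fun i _ => hpos w i
    have h7 : ∑ i, (κ + lam P d i (F w)) ^ 2 ≤ (∑ i, (κ + lam P d i (F w))) ^ 2 :=
      Finset.sum_sq_le_sq_sum_of_nonneg fun i _ => hpos w i
    have h8 : φ w = ∑ i, (κ + lam P d i (F w)) ^ 2 + R * ∑ i, (κ + lam P d i (F w)) := by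
      rw [hφ, Finset.mul_sum, ← Finset.sum_add_distrib]
    rw [h8]
    have h9 : (∑ i, (κ + lam P d i (F w))) ^ 2 ≤ (B * R) ^ 2 := pow_le_pow_left₀ h6 h3 2
    have h10 : R * ∑ i, (κ + lam P d i (F w)) ≤ R * (B * R) := mul_le_mul_of_nonneg_left h3 (by linarith)
    nlinarith
  -- the lower bound of the Laplacian
  have hsub : ∀ z ∈ ball c (R / 2), 0 < Real.exp (φ z) → Sub (fun w => Real.exp (φ w)) z (Y ^ 2 / (8 * k)) := by
    intro z hz _
    have h1 := sub_phi hX h hκ (by linarith : 0 ≤ R) (hF.analyticAt z) (Eventually.of_forall hFK)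
    have h2 : 1 ≤ n (F z) (deriv F z) := hone z (ball_subset_ball (by linarith) hz)
    have h3 := hg (F z) (hFK z) _ (Pool.Agent.H22.W.tan_entire hF hFX z)
    have h4 : (∑ i, ‖ell P d i (F z) (deriv F z)‖) ^ 2 ≤ k * ∑ i, ‖ell P d i (F z) (deriv F z)‖ ^ 2 := by
      have h5 := sq_sum_le_card_mul_sum_sq (s := Finset.univ) (f := fun i => ‖ell P d i (F z) (deriv F z)‖)
      rw [Finset.card_univ, ← hk] at h5
      exact h5
    have hfs : 0 ≤ fs (F z) (deriv F z) := Pool.Agent.H36.BP.fs_nonneg _ _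
    have h6 : Lg P d (F z) (deriv F z) = fs (F z) (deriv F z) + ∑ i, ‖ell P d i (F z) (deriv F z)‖ := rfl
    have hor : Y ≤ fs (F z) (deriv F z) + ∑ i, ‖ell P d i (F z) (deriv F z)‖ ∨ c' ≤ fs (F z) (deriv F z) := by
      by_contra hno
      push Not at hno
      rw [h6] at h3
      have h7 : 1 / (2 * Y) * (fs (F z) (deriv F z) + ∑ i, ‖ell P d i (F z) (deriv F z)‖) < 1 / (2 * Y) * Y :=
        mul_lt_mul_of_pos_left hno.1 (by positivity)
      have h8 : 1 / (2 * Y) * Y = 1 / 2 := by field_simp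
      have h9 : Cg * fs (F z) (deriv F z) ≤ Cg * c' := mul_le_mul_of_nonneg_left hno.2.le hCg0
      have h10 : Cg * c' < 1 / 2 := by
        rw [hc', mul_one_div, div_lt_iff₀ (by positivity)]
        linarith
      linarith
    rw [hφ]
    refine h1.anti ?_
    rw [← hhd]
    exact Ll.num hk1 hY0.le hR1 hhd1 hc'0 hfs h4 hRY hor
  have hdec := Pool.Agent.SY.decay (m := fun w => Real.exp (φ w)) (z₀ := c) (R := R / 2) (A := Real.exp ((B ^ 2 + B) * R ^ 2))
    (κ := Y ^ 2 / (8 * k)) (by linarith) (by positivity) (Real.exp_pos _).le (Real.continuous_exp.comp hφc).continuousOn.upperSemicontinuousOn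
    (fun w hw => Real.exp_le_exp.2 (hφB w hw)) hsub c (mem_closedBall_self (by linarith))
  rw [sub_self, norm_zero, ← Real.exp_add] at hdec
  have h1 := Real.exp_le_exp.1 hdec
  have h2 := hφ0 c
  have h3 : Y ^ 2 / (8 * k) = 8 * k * (B + 1) ^ 2 := by
    rw [hY]
    field_simp
  rw [h3] at h1
  have h4 : (B ^ 2 + B) * R ^ 2 < k * (B + 1) ^ 2 * R ^ 2 := by
    apply mul_lt_mul_of_pos_right _ (by positivity)
    nlinarith [sq_nonneg (B + 1)]
  nlinarith

end Pool.Agent.SDA
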