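import Pool.Agent.SDA.T1
import Pool.Agent.SDA.Ll
import Pool.Agent.SDA.Ha
import Pool.Agent.SDA.Nn
import Pool.Agent.SDA.F1a

/-!
# SDA T2: there are no tame curves

Near infinity the metric has no curvature error and is bounded by a power of `|z|`.  Harnack's inequality on discs of radius `R` which are tangent
to a fixed disc gives `log |F| ≤ A R` there, and the length is large: this contradicts `lemma_L`.
-/

set_option autoImplicit false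

open Topology Filter Metric

noncomputable section

namespace Pool.Agent.SDA

open Pool.Agent.H36.BP (EN fs wd Sub OrdTwo)
open Pool.Agent.H14.PP (IsCone Tan)
open Pool.Agent.SY (Ent Energy)

variable {N : ℕ} {ι : Type} [Fintype ι] {X K T : Set (EN N)} {P : ι → EN N → ℂ} {d : ι → ℕ} {rho : EN N → ℝ} {M : ℕ} {c₀ C : ℝ}
  {g : (ℂ → EN N) → ℂ → ℝ} {n : EN N → EN N → ℝ}

/-- the eventual statements near infinity hold outside a disc -/
private theorem T2_out {p : ℂ → Prop} (h : ∀ᶠ z in cocompact ℂ, p z) : ∃ r : ℝ, ∀ z : ℂ, r ≤ ‖z‖ → p z := by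
  obtain ⟨r, hr⟩ := (hasBasis_cobounded_norm (E := ℂ)).eventually_iff.1 (Metric.cobounded_eq_cocompact (α := ℂ) ▸ h)
  exact ⟨r, fun z hz => hr.2 hz⟩

/-- the metric is positive at some points near infinity -/
private theorem T2_pos (S : Setup X K T P d rho M c₀ C g n) {F : ℂ → EN N} (hF : Ent K T F) {r : ℝ}
    (hr : ∀ z : ℂ, r ≤ ‖z‖ → 0 < n (F z) (deriv F z)) : ∃ z : ℂ, r ≤ ‖z‖ ∧ 1 < ‖z‖ ∧ 0 < g F z := by
  have hKX := F1_KX S
  obtain ⟨s, hs⟩ : ∃ s : ℝ, s = |r| + 2 := ⟨_, rfl⟩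
  have hs0 : 0 < s := by
    rw [hs]
    positivity
  have hns : ‖(s : ℂ)‖ = s := by rw [Complex.norm_real, Real.norm_of_nonneg hs0.le]
  have h1 := S.Ti F hF.diff (fun z => hKX (hF.mem z)) hF.out (s : ℂ)
  have h2 : ∀ᶠ z in 𝓝[≠] (s : ℂ), |r| + 1 < ‖z‖ := by
    refine Filter.Eventually.filter_mono nhdsWithin_le_nhds ?_
    refine continuous_norm.continuousAt.eventually (lt_mem_nhds ?_)
    show |r| + 1 < ‖(s : ℂ)‖
    rw [hns, hs]
    linarith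
  obtain ⟨z, hz1, hz2⟩ := (h1.and h2).exists
  have hrz : r ≤ ‖z‖ := by
    have := le_abs_self r
    linarith
  refine ⟨z, hrz, by have := abs_nonneg r; linarith, ?_⟩
  have hX := hKX (hF.mem z)
  have hrho : 0 < rho (F z) := lt_of_le_of_ne (S.rho0 _ hX) fun h => hz1 ((S.rhoT _ hX).1 h.symm)
  obtain ⟨a, ha⟩ := S.en.lower F hF z
  rcases (S.en.nonneg F hF z).lt_or_eq with h | h
  · exact h
  · exfalso
    rw [← h, mul_zero] at ha
    have h4 : ‖deriv F z - a • F z‖ = 0 := by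
      have h5 : 0 < rho (F z) ^ M := pow_pos hrho M
      by_contra h6
      have h7 : 0 < ‖deriv F z - a • F z‖ := lt_of_le_of_ne (norm_nonneg _) (Ne.symm h6)
      exact absurd ha (not_le.2 (mul_pos h5 h7))
    have h5 : deriv F z = a • F z := sub_eq_zero.1 (norm_eq_zero.1 h4)
    have h6 := hr z hrz
    rw [h5, F1_n_self S (hF.mem z)] at h6
    exact lt_irrefl _ h6

/-- Harnack's inequality on the discs near infinity -/
private theorem T2_harnack (S : Setup X K T P d rho M c₀ C g n) {F : ℂ → EN N} (hF : Ent K T F) (hN : Nm P F) {δ : ℝ}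
    (hnear : Near K T (fun x => ‖x‖) rho c₀ g δ) {r A : ℝ} {k : ℕ} (hA : 0 < A) (hbad : ∀ z : ℂ, r ≤ ‖z‖ → rho (F z) < δ)
    (hg : ∀ z : ℂ, r ≤ ‖z‖ → g F z ≤ A * ‖z‖ ^ k) {z₁ : ℂ} (hz₁ : r ≤ ‖z₁‖ - 1) (hz₁' : 1 < ‖z₁‖) (hpos : 0 < g F z₁) :
    ∃ B : ℝ, 0 ≤ B ∧ ∀ R : ℝ, 1 ≤ R → ∀ z ∈ closedBall (z₁ + ((R - 1 : ℝ) : ℂ) * (z₁ / (‖z₁‖ : ℂ))) (R / 2), Real.log ‖F z‖ ≤ B * R := by
  have hc₀ := S.en.c₀_pos
  obtain ⟨c, hc, hc1, hlow⟩ := norm_lower S.aff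
  have hlow' : ∀ z, c ≤ ‖F z‖ := fun z => hlow _ (hN z)
  have hFpos : ∀ z, 0 < ‖F z‖ := fun z => hc.trans_le (hlow' z)
  have hcc : (c : ℂ) ≠ 0 := by exact_mod_cast hc.ne'
  have hnF : ∀ z, ‖(c : ℂ)⁻¹ • F z‖ = c⁻¹ * ‖F z‖ := fun z => by
    rw [norm_smul, norm_inv, Complex.norm_real, Real.norm_of_nonneg hc.le]
  have hpw : ∀ z, ‖(c : ℂ)⁻¹ • F z‖ ^ (-c₀) = c ^ c₀ * ‖F z‖ ^ (-c₀) := fun z => by
    rw [hnF, Real.mul_rpow (inv_nonneg.2 hc.le) (norm_nonneg _), Real.inv_rpow hc.le, Real.rpow_neg hc.le, inv_inv]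
  have hcp : 0 < c ^ c₀ := Real.rpow_pos_of_pos hc _
  have hcontF : Continuous F := hF.diff.continuous
  have hrc : Continuous fun z => ‖F z‖ ^ (-c₀) := hcontF.norm.rpow_const fun z => Or.inl (hFpos z).ne'
  have hdF : Differentiable ℂ (fun z => (c : ℂ)⁻¹ • F z) := hF.diff.const_smul ((c : ℂ)⁻¹)
  obtain ⟨v, hv⟩ : ∃ v : ℂ → ℝ, v = fun z => g F z * (c ^ c₀ * ‖F z‖ ^ (-c₀) * ‖(z ^ k)⁻¹‖) := ⟨_, rfl⟩
  have hn1 : 0 < ‖z₁‖ := by linarith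
  have hz₁0 : z₁ ≠ 0 := norm_pos_iff.1 hn1
  have hv₁ : 0 < v z₁ := by
    rw [hv]
    refine mul_pos hpos (mul_pos (mul_pos hcp (Real.rpow_pos_of_pos (hFpos _) _)) (norm_pos_iff.2 (inv_ne_zero (pow_ne_zero _ hz₁0))))
  obtain ⟨b, hb⟩ : ∃ b : ℝ, b = -Real.log (v z₁) := ⟨_, rfl⟩
  refine ⟨6 * |Real.log A + b| / c₀, by positivity, fun R hR z hz => ?_⟩
  have hR0 : 0 < R := by linarith
  set cc : ℂ := z₁ + ((R - 1 : ℝ) : ℂ) * (z₁ / (‖z₁‖ : ℂ)) with hcdef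
  have hnc : (‖z₁‖ : ℂ) ≠ 0 := by exact_mod_cast hn1.ne'
  have hun : ‖z₁ / (‖z₁‖ : ℂ)‖ = 1 := by
    rw [norm_div, Complex.norm_real, Real.norm_of_nonneg hn1.le]
    exact div_self hn1.ne'
  have hdist : ‖z₁ - cc‖ = R - 1 := by
    have h1 : z₁ - cc = -(((R - 1 : ℝ) : ℂ) * (z₁ / (‖z₁‖ : ℂ))) := by rw [hcdef]; ring
    rw [h1, norm_neg, norm_mul, hun, mul_one, Complex.norm_real, Real.norm_of_nonneg (by linarith)]
  have hncc : ‖cc‖ = ‖z₁‖ + (R - 1) := by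
    have h1 : cc = ((‖z₁‖ + (R - 1) : ℝ) : ℂ) * (z₁ / (‖z₁‖ : ℂ)) := by
      rw [hcdef]
      push_cast
      field_simp
    rw [h1, norm_mul, hun, mul_one, Complex.norm_real, Real.norm_of_nonneg (by linarith)]
  have hout : ∀ w ∈ closedBall cc R, ‖z₁‖ - 1 ≤ ‖w‖ := by
    intro w hw
    have h1 : ‖w - cc‖ ≤ R := by rwa [mem_closedBall, dist_eq_norm] at hw
    have h2 : ‖cc‖ ≤ ‖w‖ + ‖w - cc‖ := by
      have h3 : cc = w - (w - cc) := by ring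
      calc ‖cc‖ = ‖w - (w - cc)‖ := by rw [← h3]
        _ ≤ ‖w‖ + ‖w - cc‖ := norm_sub_le _ _
    rw [hncc] at h2
    linarith
  have hw0 : ∀ w ∈ closedBall cc R, w ≠ 0 := by
    intro w hw h
    have h1 := hout w hw
    rw [h, norm_zero] at h1
    linarith
  have hrad : 2 * R - 1 = (R + ‖z₁ - cc‖) / (R - ‖z₁ - cc‖) := by
    rw [hdist]
    rw [eq_div_iff (by norm_num)]
    ring
  have key := harnack (c := cc) (z₀ := z₁) (R := R) (a := Real.log A) (b := b) hc₀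
    (by
      rw [mem_ball, dist_eq_norm, hdist]
      linarith) (F := fun z => (c : ℂ)⁻¹ • F z) hdF
    (fun z => by
      rw [hnF, inv_mul_eq_div, one_le_div hc]
      exact hlow' z)
    (v := v)
    (by
      intro x hx y hy
      have hx0 := hw0 x hx
      set h : ℂ → ℝ := fun z => c ^ c₀ * ‖F z‖ ^ (-c₀) * ‖(z ^ k)⁻¹‖ with hh
      have hhx : 0 < h x := mul_pos (mul_pos hcp (Real.rpow_pos_of_pos (hFpos _) _)) (norm_pos_iff.2 (inv_ne_zero (pow_ne_zero _ hx0)))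
      have hhc : ContinuousAt h x := by
        refine (continuousAt_const.mul hrc.continuousAt).mul ?_
        exact (((continuous_pow k).continuousAt).inv₀ (pow_ne_zero _ hx0)).norm
      rw [hv] at hy ⊢
      have h1 : g F x < y / h x := (lt_div_iff₀ hhx).2 hy
      obtain ⟨a, ha1, ha2⟩ := exists_between h1
      have h2 : a * h x < y := (lt_div_iff₀ hhx).1 ha2
      have h3 : ∀ᶠ z in 𝓝 x, a * h z < y := ((continuousAt_const.mul hhc).tendsto).eventually (gt_mem_nhds h2)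
      have h4 : ∀ᶠ z in 𝓝 x, 0 < h z := hhc.eventually (lt_mem_nhds hhx)
      refine Filter.Eventually.filter_mono nhdsWithin_le_nhds ?_
      filter_upwards [S.en.usc F hF x a ha1, h3, h4] with z hz1 hz2 hz3
      exact (mul_lt_mul_of_pos_right hz1 hz3).trans hz2)
    (fun z hz => by
      rw [hv]
      exact mul_nonneg (S.en.nonneg F hF z) (mul_nonneg (mul_nonneg hcp.le (Real.rpow_nonneg (norm_nonneg _) _)) (norm_nonneg _)))
    (by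
      intro z hz hz0
      have hzc := ball_subset_closedBall hz
      have hq : 0 < c ^ c₀ * ‖F z‖ ^ (-c₀) * ‖(z ^ k)⁻¹‖ :=
        mul_pos (mul_pos hcp (Real.rpow_pos_of_pos (hFpos z) _)) (norm_pos_iff.2 (inv_ne_zero (pow_ne_zero _ (hw0 z hzc))))
      rw [hv] at hz0
      have hg0 : 0 < g F z := by
        by_contra h3
        exact absurd hz0 (not_lt.2 (mul_nonpos_of_nonpos_of_nonneg (not_lt.1 h3) hq.le))
      have hs1 := (hnear F hF z (hbad z (hz₁.trans (hout z hzc))) hg0).const_mul hcp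
      have hs2 : Sub (fun w : ℂ => ‖(w ^ k)⁻¹‖) z 0 :=
        Sub.of_holo ((analyticAt_id.pow k).inv (pow_ne_zero _ (hw0 z hzc))) (inv_ne_zero (pow_ne_zero _ (hw0 z hzc)))
      have hs3 := hs1.mul hs2
      rw [add_zero] at hs3
      rw [hv]
      refine hs3.congr (Eventually.of_forall fun w => ?_)
      show c ^ c₀ * (g F w * ‖F w‖ ^ (-c₀)) * ‖(w ^ k)⁻¹‖ = g F w * (c ^ c₀ * ‖F w‖ ^ (-c₀) * ‖(w ^ k)⁻¹‖)
      ring)
    (by
      intro z hz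
      rw [hv, hpw, Real.exp_log hA]
      show g F z * (c ^ c₀ * ‖F z‖ ^ (-c₀) * ‖(z ^ k)⁻¹‖) ≤ _
      have h1 := hg z (hz₁.trans (hout z hz))
      have h2 : 0 < ‖z‖ ^ k := pow_pos (norm_pos_iff.2 (hw0 z hz)) _
      have h4 : 0 ≤ c ^ c₀ * ‖F z‖ ^ (-c₀) := mul_nonneg hcp.le (Real.rpow_nonneg (norm_nonneg _) _)
      rw [norm_inv, norm_pow]
      calc g F z * (c ^ c₀ * ‖F z‖ ^ (-c₀) * (‖z‖ ^ k)⁻¹) ≤ A * ‖z‖ ^ k * (c ^ c₀ * ‖F z‖ ^ (-c₀) * (‖z‖ ^ k)⁻¹) :=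
            mul_le_mul_of_nonneg_right h1 (mul_nonneg h4 (inv_nonneg.2 h2.le))
        _ = A * (c ^ c₀ * ‖F z‖ ^ (-c₀)) := by
          field_simp)
    (by
      rw [hb, neg_neg, Real.exp_log hv₁])
  have h1 := key z hz
  rw [← hrad, hnF, Real.log_mul (inv_ne_zero hc.ne') (hFpos z).ne', Real.log_inv] at h1
  have h2 : Real.log c ≤ 0 := Real.log_nonpos hc.le hc1
  have h3 : Real.log A + b ≤ |Real.log A + b| := le_abs_self _
  have h4 : 0 ≤ |Real.log A + b| := abs_nonneg _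
  rw [div_mul_eq_mul_div, le_div_iff₀ hc₀]
  nlinarith [mul_nonneg hc₀.le (neg_nonneg.2 h2), mul_nonneg h4 hR0.le, mul_le_mul_of_nonneg_left h3 (by linarith : (0 : ℝ) ≤ 3 * (2 * R - 1))]

/-- **T2**: there are no tame curves -/
theorem not_tame (S : Setup X K T P d rho M c₀ C g n) {F : ℂ → EN N} (hF : Ent K T F) (hN : Nm P F) :
    ¬ Tame fun z => n (F z) (deriv F z) := by
  intro ht
  have hKX := F1_KX S
  obtain ⟨C₂, hC₂, hb⟩ := tame_bound S hF ht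
  obtain ⟨δ, hδ, hnear⟩ := S.en.near
  obtain ⟨r₁, hr₁⟩ := T2_out hb
  obtain ⟨r₂, hr₂⟩ := T2_out (tame_bad S hF hN ht hδ)
  obtain ⟨r₃, hr₃⟩ := T2_out (ht.1.eventually_gt_atTop 0)
  obtain ⟨C₃, k, hC₃⟩ := ht.2.1
  obtain ⟨r, hr⟩ : ∃ r : ℝ, r = max (max r₁ r₂) (max r₃ 1) := ⟨_, rfl⟩
  have hrr₁ : r₁ ≤ r := by rw [hr]; exact (le_max_left _ _).trans (le_max_left _ _)
  have hrr₂ : r₂ ≤ r := by rw [hr]; exact (le_max_right _ _).trans (le_max_left _ _)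
  have hrr₃ : r₃ ≤ r := by rw [hr]; exact (le_max_left _ _).trans (le_max_right _ _)
  have hr1 : 1 ≤ r := by rw [hr]; exact (le_max_right _ _).trans (le_max_right _ _)
  obtain ⟨z₁, hz₁, hz₁', hpos⟩ := T2_pos S hF (r := r + 1) (fun z hz => hr₃ z (by linarith))
  have hg : ∀ z : ℂ, r ≤ ‖z‖ → g F z ≤ (C₂ * (|C₃| + 1) * 2 ^ k) * ‖z‖ ^ k := by
    intro z hz
    have h1 := hr₁ z (hrr₁.trans hz)
    have h2 : n (F z) (deriv F z) ≤ C₃ * (1 + ‖z‖) ^ k := hC₃ z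
    have h3 : (1 + ‖z‖) ^ k ≤ (2 * ‖z‖) ^ k := pow_le_pow_left₀ (by positivity) (by linarith) k
    have h4 : C₃ * (1 + ‖z‖) ^ k ≤ (|C₃| + 1) * (2 * ‖z‖) ^ k :=
      mul_le_mul (by have := le_abs_self C₃; linarith) h3 (by positivity) (by positivity)
    calc g F z ≤ C₂ * n (F z) (deriv F z) := h1
      _ ≤ C₂ * ((|C₃| + 1) * (2 * ‖z‖) ^ k) := mul_le_mul_of_nonneg_left (h2.trans h4) hC₂.le
      _ = (C₂ * (|C₃| + 1) * 2 ^ k) * ‖z‖ ^ k := by rw [mul_pow]; ring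
  obtain ⟨B, hB, hhar⟩ := T2_harnack S hF hN hnear (r := r) (A := C₂ * (|C₃| + 1) * 2 ^ k) (k := k) (by positivity)
    (fun z hz => hr₂ z (hrr₂.trans hz)) hg (z₁ := z₁) (by linarith) hz₁' hpos
  obtain ⟨R₀, hR₀, hL⟩ := lemma_L S.cone S.aff S.gauge (A := 1) zero_le_one
  obtain ⟨m, hm⟩ : ∃ m : ℝ, m = 2 * B + 1 := ⟨_, rfl⟩
  have hm1 : 1 ≤ m := by rw [hm]; linarith
  have hm0 : 0 < m := by linarith
  obtain ⟨r₄, hr₄⟩ := T2_out (ht.1.eventually_ge_atTop m)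
  obtain ⟨R, hR⟩ : ∃ R : ℝ, R = max 1 (max (2 * r₄) (2 * R₀)) := ⟨_, rfl⟩
  have hR1 : 1 ≤ R := by rw [hR]; exact le_max_left _ _
  have hRr : 2 * r₄ ≤ R := by rw [hR]; exact (le_max_left _ _).trans (le_max_right _ _)
  have hRR : 2 * R₀ ≤ R := by rw [hR]; exact (le_max_right _ _).trans (le_max_right _ _)
  have hn1 : 0 < ‖z₁‖ := by linarith
  obtain ⟨cc, hcc⟩ : ∃ cc : ℂ, cc = z₁ + ((R - 1 : ℝ) : ℂ) * (z₁ / (‖z₁‖ : ℂ)) := ⟨_, rfl⟩
  have hun : ‖z₁ / (‖z₁‖ : ℂ)‖ = 1 := by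
    rw [norm_div, Complex.norm_real, Real.norm_of_nonneg hn1.le]
    exact div_self hn1.ne'
  have hncc : ‖cc‖ = ‖z₁‖ + (R - 1) := by
    have hnc : (‖z₁‖ : ℂ) ≠ 0 := by exact_mod_cast hn1.ne'
    have h1 : cc = ((‖z₁‖ + (R - 1) : ℝ) : ℂ) * (z₁ / (‖z₁‖ : ℂ)) := by
      rw [hcc]
      push_cast
      field_simp
    rw [h1, norm_mul, hun, mul_one, Complex.norm_real, Real.norm_of_nonneg (by linarith)]
  have hmc : ((m⁻¹ : ℝ) : ℂ) ≠ 0 := by exact_mod_cast inv_ne_zero hm0.ne'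
  have hnm : ‖((m⁻¹ : ℝ) : ℂ)‖ = m⁻¹ := by rw [Complex.norm_real, Real.norm_of_nonneg (inv_nonneg.2 hm0.le)]
  have hin : ∀ w ∈ ball (0 : ℂ) (R * m / 2), ((m⁻¹ : ℝ) : ℂ) * w + cc ∈ closedBall cc (R / 2) := by
    intro w hw
    have h1 : ‖w‖ < R * m / 2 := by rwa [mem_ball_zero_iff] at hw
    rw [mem_closedBall, dist_eq_norm, add_sub_cancel_right, norm_mul, hnm, inv_mul_le_iff₀ hm0]
    linarith
  have hRm : R₀ ≤ R * m / 2 := by nlinarith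
  obtain ⟨w, hw, hw2⟩ := hL (fun w => F (((m⁻¹ : ℝ) : ℂ) * w + cc)) (hF.diff.comp ((differentiable_id.const_mul _).add_const _))
    (fun z => hF.mem _) (fun z => hN _) 0 (R * m / 2) hRm (by
      intro w hw
      rw [n_aff S.gauge hKX hF.diff hF.mem, hnm]
      have h1 := hin w hw
      rw [mem_closedBall, dist_eq_norm] at h1
      have h2 : ‖cc‖ ≤ ‖((m⁻¹ : ℝ) : ℂ) * w + cc‖ + ‖((m⁻¹ : ℝ) : ℂ) * w + cc - cc‖ := by
        have h3 : cc = (((m⁻¹ : ℝ) : ℂ) * w + cc) - (((m⁻¹ : ℝ) : ℂ) * w + cc - cc) := by ring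
        calc ‖cc‖ = ‖(((m⁻¹ : ℝ) : ℂ) * w + cc) - (((m⁻¹ : ℝ) : ℂ) * w + cc - cc)‖ := by rw [← h3]
          _ ≤ _ := norm_sub_le _ _
      rw [hncc] at h2
      have h4 := hr₄ (((m⁻¹ : ℝ) : ℂ) * w + cc) (by linarith)
      rw [inv_mul_eq_div, one_le_div hm0]
      exact h4)
  have h1 := hhar R hR1 (((m⁻¹ : ℝ) : ℂ) * w + cc) (by rw [← hcc]; exact hin w hw)
  have h2 : 1 * (R * m / 2) < B * R := lt_of_lt_of_le hw2 h1
  rw [hm] at h2
  nlinarith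

end Pool.Agent.SDA
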