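import Pool.Agent.SDA.F1c
import Pool.Agent.SDA.T2
import Pool.Agent.SDA.Nn

/-!
# SDA Mn: the curves of order two
-/

set_option autoImplicit false

open Topology Filter Metric

noncomputable section

namespace Pool.Agent.SDA

open Pool.Agent.H36.BP (EN fs wd Sub OrdTwo)
open Pool.Agent.H14.PP (IsCone Tan)
open Pool.Agent.SY (Ent Energy)

variable {N : ℕ} {ι : Type} [Fintype ι] {X K T : Set (EN N)} {P : ι → EN N → ℂ} {d : ι → ℕ} {rho : EN N → ℝ} {M : ℕ} {c₀ C : ℝ}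
  {g : (ℂ → EN N) → ℂ → ℝ} {n : EN N → EN N → ℝ}

/-- the open cone is closed under multiplication by nonzero scalars -/
theorem Mn_smul_mem (hX : IsCone X) (h : AffOpen X K P d) {x : EN N} (hx : x ∈ K) {c : ℂ} (hc : c ≠ 0) : c • x ∈ K := by
  obtain ⟨h1, h2⟩ := (h.mem x).1 hx
  refine (h.mem _).2 ⟨hX.smul_mem x h1 c hc, fun i => ?_⟩
  rw [h.smul i c x]
  exact mul_ne_zero (pow_ne_zero _ hc) (h2 i)

/-- a normalised entire curve of constant length zero or not of constant length -/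
theorem Mn_norm (S : Setup X K T P d rho M c₀ C g n)
    (hQ : ∀ F : ℂ → EN N, Differentiable ℂ F → (∀ z, F z ∈ K) → Nm P F → OrdTwo F →
      (∃ c : ℝ, ∀ z, n (F z) (deriv F z) = c) ∨ Tame fun z => n (F z) (deriv F z))
    {F : ℂ → EN N} (hF : Differentiable ℂ F) (hK : ∀ z, F z ∈ K) (hN : Nm P F) (ho : OrdTwo F) :
    (∀ z, F z ∈ T) ∨ ∀ z w, ∃ c : ℂ, F z = c • F w := by
  have hKX : K ⊆ X := fun x hx => ((S.aff.mem x).1 hx).1
  by_cases hT : ∀ z, F z ∈ T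
  · exact Or.inl hT
  push Not at hT
  have hE : Ent K T F := ⟨hF, hK, hT⟩
  rcases hQ F hF hK hN ho with ⟨c, hc⟩ | ht
  · have hc0 : 0 ≤ c := by
      rw [← hc 0]
      exact S.gauge.nonneg _ (hK 0) _ (F1_tan hF (fun z => hKX (hK z)) 0)
    rcases hc0.eq_or_lt with h0 | h0
    · exact S.null F hF hK ho fun z => by rw [hc z, ← h0]
    · exfalso
      have hcne : ((c⁻¹ : ℝ) : ℂ) ≠ 0 := by exact_mod_cast (inv_pos.2 h0).ne'
      have hd : Differentiable ℂ fun z : ℂ => F (((c⁻¹ : ℝ) : ℂ) * z + 0) :=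
        hF.comp ((differentiable_id.const_mul _).add_const _)
      refine cl_empty S (fun z => F (((c⁻¹ : ℝ) : ℂ) * z + 0)) ⟨⟨hd, fun z => hK _, ?_⟩, fun z => hN _, fun z => ?_⟩
      · obtain ⟨z, hz⟩ := hT
        refine ⟨z / ((c⁻¹ : ℝ) : ℂ), ?_⟩
        rwa [add_zero, mul_div_cancel₀ _ hcne]
      · rw [n_aff S.gauge hKX hF hK, hc, Complex.norm_real, Real.norm_of_nonneg (inv_pos.2 h0).le, inv_mul_cancel₀ h0.ne']
  · exact absurd ht (not_tame S hE hN)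

/-- MODULE Mn: the curves of order two -/
theorem main (S : Setup X K T P d rho M c₀ C g n)
    (hQ : ∀ F : ℂ → EN N, Differentiable ℂ F → (∀ z, F z ∈ K) → Nm P F → OrdTwo F →
      (∃ c : ℝ, ∀ z, n (F z) (deriv F z) = c) ∨ Tame fun z => n (F z) (deriv F z))
    {F : ℂ → EN N} (hF : Differentiable ℂ F) (hK : ∀ z, F z ∈ K) (ho : OrdTwo F) : (∀ z, F z ∈ T) ∨ ∀ z w, ∃ c : ℂ, F z = c • F w := by
  obtain ⟨u, hu, hu0, hN⟩ := exists_norm S.aff hF hK
  have hG : Differentiable ℂ fun z => u z • F z := hu.smul hF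
  have hGK : ∀ z, u z • F z ∈ K := fun z => Mn_smul_mem S.cone S.aff (hK z) (hu0 z)
  have hGo : OrdTwo fun z => u z • F z := ho.congr fun z => ⟨u z, hu0 z, rfl⟩
  rcases Mn_norm S hQ hG hGK hN hGo with h | h
  · left
    intro z
    have h1 := S.Ts _ (h z) (u z)⁻¹ (inv_ne_zero (hu0 z))
    rwa [smul_smul, inv_mul_cancel₀ (hu0 z), one_smul] at h1
  · right
    intro z w
    obtain ⟨c, hc⟩ := h z w
    refine ⟨(u z)⁻¹ * (c * u w), ?_⟩
    have h1 : F z = (u z)⁻¹ • (u z • F z) := by rw [smul_smul, inv_mul_cancel₀ (hu0 z), one_smul]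
    rw [h1, hc, smul_smul, smul_smul, mul_assoc]

end Pool.Agent.SDA
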