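import Pool.Agent.SDA.Defs
import Pool.Agent.H15.V.Liou
import Pool.Agent.H22.W.Pow

/-!
# SDA Q1: a mean value inequality

`φ` is continuous on a disc of radius `R` with `0 ≤ φ ≤ B` and `Lap φ ≥ 4 a ‖q‖ ^ (2 / m)`, `q` entire.  Then `‖q z₀‖ ^ (2 / m) ≤ B / (a R ^ 2)`.
The average of `φ` over many rotations around the centre is compared with `b ‖z - z₀‖ ^ 2`.
-/

set_option autoImplicit false

open Topology Filter Metric

noncomputable section

namespace Pool.Agent.SDA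

open Pool.Agent.H36.BP (EN fs wd Sub OrdTwo)
open Pool.Agent.H15.V (rot norm_rot riemann Sub_prod)

/-- `Sub` along an isometric change of the parameter -/
theorem Sub_rot {u : ℂ → ℝ} {z₀ ρ : ℂ} (hρ : ‖ρ‖ = 1) {w₀ : ℂ} {c : ℝ} (h : Sub u (z₀ + ρ * w₀) c) :
    Sub (fun w => u (z₀ + ρ * w)) w₀ c := by
  refine ⟨h.1, fun c' hc' => ?_⟩
  obtain ⟨f, hf, hf0, hfe⟩ := h.2 c' hc'
  have haff : AnalyticAt ℂ (fun w : ℂ => z₀ + ρ * w) w₀ := by fun_prop
  refine ⟨fun w => f (z₀ + ρ * w), ?_, hf0, ?_⟩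
  · exact hf.comp_of_eq haff rfl
  · have h1 : Tendsto (fun w : ℂ => z₀ + ρ * w) (𝓝 w₀) (𝓝 (z₀ + ρ * w₀)) := haff.continuousAt
    filter_upwards [h1.eventually hfe] with w hw
    have h2 : ‖z₀ + ρ * w - (z₀ + ρ * w₀)‖ = ‖w - w₀‖ := by
      rw [add_sub_add_left_eq_sub, ← mul_sub, norm_mul, hρ, one_mul]
    rwa [h2] at hw

/-- MODULE Q1: the mean value inequality -/
theorem mean_bound {q : ℂ → ℂ} (hq : Differentiable ℂ q) {m : ℕ} (hm : 1 ≤ m) {z₀ : ℂ} {R a B : ℝ} (hR : 0 < R) (ha : 0 < a) {φ : ℂ → ℝ}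
    (hφ : ContinuousOn φ (closedBall z₀ R)) (hs : ∀ z ∈ ball z₀ R, Sub (fun w => Real.exp (φ w)) z (a * ‖q z‖ ^ ((2 : ℝ) / m)))
    (hB : ∀ z ∈ closedBall z₀ R, 0 ≤ φ z ∧ φ z ≤ B) : ‖q z₀‖ ^ ((2 : ℝ) / m) ≤ 4 * B / (a * R ^ 2) := by
  have hm0 : (0 : ℝ) < m := by exact_mod_cast hm
  obtain ⟨p, hp⟩ : ∃ p : ℝ, p = (2 : ℝ) / m := ⟨_, rfl⟩
  have hp0 : 0 < p := by rw [hp]; positivity
  rw [← hp] at hs ⊢
  have hB0 : 0 ≤ B := (hB z₀ (mem_closedBall_self hR.le)).1.trans (hB z₀ (mem_closedBall_self hR.le)).2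
  have hcq : Continuous fun z => ‖q (z₀ + z)‖ ^ p :=
    ((hq.continuous.comp (continuous_const.add continuous_id)).norm).rpow_const fun z => Or.inr hp0.le
  -- the value at the centre is at most the mean
  have hmean : ∀ z : ℂ, ‖q z₀‖ ^ p ≤ Real.circleAverage (fun z => ‖q (z₀ + z)‖ ^ p) 0 ‖z‖ := by
    intro z
    rcases eq_or_ne z 0 with rfl | hz
    · rw [norm_zero, Real.circleAverage_zero, add_zero]
    · have h1 := Pool.Agent.H22.W.rpow_le_avg (h := fun z => q (z₀ + z)) (c := 0) (r := ‖z‖) (p := p) (norm_pos_iff.2 hz) hp0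
        (fun x _ => (hq.comp ((differentiable_const z₀).add differentiable_id)).analyticAt x)
      simpa using h1
  have key : ∀ δ : ℝ, 0 < δ → ‖q z₀‖ ^ p ≤ B / (a * R ^ 2) + 2 * δ := by
    intro δ hδ
    obtain ⟨n, hn, hnr⟩ := riemann hcq hR hδ
    have hn0 : (0 : ℝ) < n := by exact_mod_cast hn
    by_contra hcon
    push Not at hcon
    obtain ⟨b, hb⟩ : ∃ b : ℝ, b = a * (‖q z₀‖ ^ p - 2 * δ) := ⟨_, rfl⟩
    obtain ⟨u, hu⟩ : ∃ u : ℂ → ℝ, ∀ z, u z = (∏ j ∈ Finset.range n, Real.exp (φ (z₀ + rot n j * z)) ^ ((n : ℝ)⁻¹)) *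
        Real.exp (-b * ‖z‖ ^ 2) := ⟨_, fun _ => rfl⟩
    have hmemc : ∀ z ∈ closedBall (0 : ℂ) R, ∀ j, z₀ + rot n j * z ∈ closedBall z₀ R := by
      intro z hz j
      rw [mem_closedBall_zero_iff] at hz
      rw [mem_closedBall_iff_norm, add_sub_cancel_left, norm_mul, norm_rot, one_mul]
      exact hz
    have hmemb : ∀ z ∈ ball (0 : ℂ) R, ∀ j, z₀ + rot n j * z ∈ ball z₀ R := by
      intro z hz j
      rw [mem_ball_zero_iff] at hz
      rw [mem_ball_iff_norm, add_sub_cancel_left, norm_mul, norm_rot, one_mul]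
      exact hz
    have hulog : ∀ z, u z = Real.exp ((n : ℝ)⁻¹ * ∑ j ∈ Finset.range n, φ (z₀ + rot n j * z) - b * ‖z‖ ^ 2) := by
      intro z
      rw [hu]
      have h1 : ∏ j ∈ Finset.range n, Real.exp (φ (z₀ + rot n j * z)) ^ ((n : ℝ)⁻¹) =
          Real.exp ((n : ℝ)⁻¹ * ∑ j ∈ Finset.range n, φ (z₀ + rot n j * z)) := by
        rw [Finset.mul_sum, Real.exp_sum]
        refine Finset.prod_congr rfl fun j _ => ?_
        rw [← Real.exp_mul, mul_comm]
      rw [h1, ← Real.exp_add]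
      congr 1
      ring
    have huc : ContinuousOn u (closedBall 0 R) := by
      have e : u = fun z => Real.exp ((n : ℝ)⁻¹ * ∑ j ∈ Finset.range n, φ (z₀ + rot n j * z) - b * ‖z‖ ^ 2) := funext hulog
      rw [e]
      refine Real.continuous_exp.comp_continuousOn (ContinuousOn.sub (continuousOn_const.mul
        (continuousOn_finsetSum _ fun j _ => hφ.comp (by fun_prop) fun z hz => hmemc z hz j)) ?_)
      exact (continuous_const.mul (continuous_norm.pow 2)).continuousOn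
    have hsub : ∀ z ∈ ball (0 : ℂ) R, 0 < u z → ∃ c, 0 < c ∧ Sub u z c := by
      intro z₁ hz₁ _
      have hj : ∀ j ∈ Finset.range n, Sub (fun z => Real.exp (φ (z₀ + rot n j * z)) ^ ((n : ℝ)⁻¹)) z₁
          ((n : ℝ)⁻¹ * (a * ‖q (z₀ + rot n j * z₁)‖ ^ p)) := by
        intro j _
        exact (Sub_rot (norm_rot n j) (hs _ (hmemb z₁ hz₁ j))).rpow (inv_nonneg.2 hn0.le)
      have h1 := Sub_prod (Finset.range n) hj
      have h2 : Sub (fun z : ℂ => Real.exp (-b * ‖z‖ ^ 2)) z₁ (-b) := by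
        have h := Pool.Agent.H36.BP.Sub.exp_sq (t := fun z : ℂ => z) (z₀ := z₁) analyticAt_id (-b)
        simpa using h
      refine ⟨_, ?_, (h1.mul h2).congr (Filter.Eventually.of_forall fun z => (hu z).symm)⟩
      have h3 : ∑ j ∈ Finset.range n, ((n : ℝ)⁻¹ * (a * ‖q (z₀ + rot n j * z₁)‖ ^ p)) =
          a * ((n : ℝ)⁻¹ * ∑ j ∈ Finset.range n, ‖q (z₀ + rot n j * z₁)‖ ^ p) := by
        rw [Finset.mul_sum, Finset.mul_sum]
        exact Finset.sum_congr rfl fun j _ => by ring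
      rw [h3, hb]
      have h4 := (abs_le.1 (hnr z₁ (by
        rw [mem_ball_zero_iff] at hz₁
        exact hz₁.le))).1
      have h5 := hmean z₁
      have h6 : a * (‖q z₀‖ ^ p - δ) ≤ a * ((n : ℝ)⁻¹ * ∑ j ∈ Finset.range n, ‖q (z₀ + rot n j * z₁)‖ ^ p) :=
        mul_le_mul_of_nonneg_left (by linarith) ha.le
      have h7 : 0 < a * δ := by positivity
      linarith
    have hmax := Pool.Agent.H36.BP.max_principle (isCompact_closedBall (0 : ℂ) R) isOpen_ball ball_subset_closedBall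
      huc.upperSemicontinuousOn hsub (A := Real.exp (B - b * R ^ 2)) (Real.exp_pos _).le (by
        rintro z ⟨hz1, hz2⟩
        have hzr : ‖z‖ = R := by
          rw [mem_closedBall_zero_iff] at hz1
          rw [mem_ball_zero_iff, not_lt] at hz2
          exact le_antisymm hz1 hz2
        rw [hulog, hzr, Real.exp_le_exp]
        have h1 : ∑ j ∈ Finset.range n, φ (z₀ + rot n j * z) ≤ ∑ _j ∈ Finset.range n, B :=
          Finset.sum_le_sum fun j _ => (hB _ (hmemc z hz1 j)).2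
        rw [Finset.sum_const, Finset.card_range, nsmul_eq_mul] at h1
        have h2 : (n : ℝ)⁻¹ * ∑ j ∈ Finset.range n, φ (z₀ + rot n j * z) ≤ B := by
          rw [inv_mul_le_iff₀ hn0]
          exact h1
        linarith)
    have h0 := hmax 0 (mem_closedBall_self hR.le)
    rw [hulog, Real.exp_le_exp] at h0
    have h1 : (n : ℝ)⁻¹ * ∑ j ∈ Finset.range n, φ (z₀ + rot n j * 0) = φ z₀ := by
      simp only [mul_zero, add_zero, Finset.sum_const, Finset.card_range, nsmul_eq_mul]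
      field_simp
    rw [h1, norm_zero] at h0
    have h2 := (hB z₀ (mem_closedBall_self hR.le)).1
    have h3 : b * R ^ 2 ≤ B := by linarith
    have h4 : B / (a * R ^ 2) < ‖q z₀‖ ^ p - 2 * δ := by linarith
    rw [div_lt_iff₀ (by positivity)] at h4
    rw [hb] at h3
    linarith
  have h1 : ‖q z₀‖ ^ p ≤ B / (a * R ^ 2) := by
    refine le_of_forall_pos_le_add fun δ hδ => ?_
    have := key (δ / 2) (by positivity)
    linarith
  refine h1.trans ?_
  have h2 : 0 ≤ B / (a * R ^ 2) := by positivity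
  have h3 : 4 * B / (a * R ^ 2) = 4 * (B / (a * R ^ 2)) := by ring
  rw [h3]
  linarith

end Pool.Agent.SDA
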