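import Pool.Agent.SDA.Defs
import Pool.Agent.SDA.La
import Pool.Agent.SDA.Oo
import Pool.Agent.SDA.Q1
import Pool.Agent.SY.NBa

/-!
# SDA Q2: along a curve of order two a logarithmic form without residues is a polynomial
-/

set_option autoImplicit false

open Topology Filter Metric

noncomputable section

namespace Pool.Agent.SDA

open Pool.Agent.H36.BP (EN fs wd Sub OrdTwo)
open Pool.Agent.H14.PP (IsCone Tan CurveAt)

variable {N : ℕ} {ι : Type} [Fintype ι] {X K T : Set (EN N)} {P : ι → EN N → ℂ} {d : ι → ℕ}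

/-- the derivative of an entire curve in `X` is tangent -/
theorem tan_curve {F : ℂ → EN N} (hF : Differentiable ℂ F) (hX : ∀ z, F z ∈ X) (z : ℂ) : Tan X (F z) (deriv F z) := by
  refine ⟨fun w => F (w + z), ⟨?_, Eventually.of_forall fun w => hX _⟩, by simp, ?_⟩
  · have h1 : Differentiable ℂ (fun w => F (w + z)) := hF.comp (differentiable_id.add_const z)
    exact h1.analyticAt 0
  · have h1 := deriv_comp_add_const F z 0
    rw [h1, zero_add]

/-- the logarithmic part of the length and the Fubini–Study part -/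
theorem Lg_sq {x v : EN N} {C : ℝ} (hC : 0 ≤ C) {t : ℝ} (ht0 : 0 ≤ t) (ht : t ≤ 1 * Lg P d x v + C * fs x v) (hfs : 0 ≤ fs x v) :
    t ^ 2 ≤ 2 * (1 + C) ^ 2 * fs x v ^ 2 + 2 * (Fintype.card ι : ℝ) * ∑ i, ‖ell P d i x v‖ ^ 2 := by
  have h1 : Lg P d x v = fs x v + ∑ i, ‖ell P d i x v‖ := rfl
  set e : ℝ := ∑ i, ‖ell P d i x v‖ with he
  have he0 : 0 ≤ e := Finset.sum_nonneg fun i _ => norm_nonneg _
  have h2 : e ^ 2 ≤ (Fintype.card ι : ℝ) * ∑ i, ‖ell P d i x v‖ ^ 2 := by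
    have := sq_sum_le_card_mul_sum_sq (s := (Finset.univ : Finset ι)) (f := fun i => ‖ell P d i x v‖)
    simpa using this
  have h3 : t ≤ (1 + C) * fs x v + e := by rw [h1] at ht; linarith
  have h4 : 0 ≤ (1 + C) * fs x v := by positivity
  have h5 : t ^ 2 ≤ ((1 + C) * fs x v + e) ^ 2 := pow_le_pow_left₀ ht0 h3 2
  nlinarith [sq_nonneg ((1 + C) * fs x v - e)]

/-- MODULE Q2: along a curve of order two the forms are polynomials -/
theorem exists_poly (hX : IsCone X) (h : AffOpen X K P d) {m : ℕ} {w : EN N → EN N → ℂ} (hw : LogForm X K P d m w) {F : ℂ → EN N}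
    (hF : Differentiable ℂ F) (hK : ∀ z, F z ∈ K) (hN : Nm P F) (ho : OrdTwo F) :
    ∃ p : Polynomial ℂ, ∀ z, w (F z) (deriv F z) = p.eval z := by
  classical
  obtain ⟨A, hA, hgr⟩ := growth_of_ordTwo hX h hF hK hN ho
  obtain ⟨κ, hκ1, hκ⟩ := exists_lam_bound hX h
  obtain ⟨C, hC, hwg⟩ := hw.growth 1 one_pos
  have hKX : ∀ x ∈ K, x ∈ X := fun x hx => ((h.mem x).mp hx).1
  have hKP : ∀ x ∈ K, ∀ i, P i x ≠ 0 := fun x hx => ((h.mem x).mp hx).2
  have hF0 : ∀ z, F z ≠ 0 := fun z h0 => hX.zero_notMem (h0 ▸ hKX _ (hK z))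
  have hm := hw.one_m
  have hm0 : (0 : ℝ) < m := by exact_mod_cast hm
  set q : ℂ → ℂ := fun z => w (F z) (deriv F z) with hqd
  have hq : Differentiable ℂ q := hw.hol F hF hK
  set k : ℝ := (Fintype.card ι : ℝ) with hk
  have hk1 : 1 ≤ k := by
    have := h.ne
    rw [hk]
    exact_mod_cast Fintype.card_pos
  set D : ℝ := ∑ i, (d i : ℝ) with hD
  have hD1 : 1 ≤ D := by
    obtain ⟨i₀⟩ := h.ne
    have h1 : (1 : ℝ) ≤ d i₀ := by exact_mod_cast h.pos i₀
    exact h1.trans (Finset.single_le_sum (f := fun i => (d i : ℝ)) (fun i _ => Nat.cast_nonneg _) (Finset.mem_univ i₀))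
  set R₀ : ℝ := (1 + C) ^ 2 with hR₀
  have hR₀0 : 0 ≤ R₀ := by positivity
  set a : ℝ := 1 / (4 * k) with ha
  have ha0 : 0 < a := by positivity
  set φ : ℂ → ℝ := fun z => ∑ i, ((κ + lam P d i (F z)) ^ 2 + R₀ * (κ + lam P d i (F z))) with hφ
  have hs1 : ∀ z i, 1 ≤ κ + lam P d i (F z) := fun z i => hκ i _ (hK z)
  have hsum : ∀ z, ∑ i, (κ + lam P d i (F z)) = k * κ + D * Real.log ‖F z‖ := by
    intro z
    rw [Finset.sum_add_distrib, sum_lam hX h (hK z) (hN z), Finset.sum_const, Finset.card_univ, nsmul_eq_mul]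
  -- continuity
  have hφc : Continuous φ := by
    refine continuous_finsetSum _ fun i _ => ?_
    have h1 : Continuous fun z => lam P d i (F z) := by
      refine Continuous.sub (continuous_const.mul (Continuous.log hF.continuous.norm fun z => norm_ne_zero_iff.mpr (hF0 z)))
        (Continuous.log (Continuous.norm ?_) fun z => norm_ne_zero_iff.mpr (hKP _ (hK z) i))
      exact continuous_iff_continuousAt.mpr fun z => ((h.an i (F z)).continuousAt).comp hF.continuous.continuousAt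
    exact ((continuous_const.add h1).pow 2).add (continuous_const.mul (continuous_const.add h1))
  -- the lower bound of the Laplacian
  have hsub : ∀ z, Sub (fun w => Real.exp (φ w)) z (a * ‖q z‖ ^ ((2 : ℝ) / m)) := by
    intro z
    have h1 := sub_phi hX h hκ hR₀0 (hF.analyticAt z) (Eventually.of_forall hK)
    refine h1.anti ?_
    have htan := tan_curve hF (fun z => hKX _ (hK z)) z
    have h2 := hwg _ (hK z) _ htan
    have hfs : 0 ≤ fs (F z) (deriv F z) := by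
      unfold fs wd
      positivity
    have hLg : 0 ≤ 1 * Lg P d (F z) (deriv F z) + C * fs (F z) (deriv F z) := by
      have : 0 ≤ Lg P d (F z) (deriv F z) := add_nonneg hfs (Finset.sum_nonneg fun i _ => norm_nonneg _)
      positivity
    set t : ℝ := ‖q z‖ ^ ((1 : ℝ) / m) with ht
    have ht0 : 0 ≤ t := by positivity
    have h3 : t ≤ 1 * Lg P d (F z) (deriv F z) + C * fs (F z) (deriv F z) := by
      have h4 := Real.rpow_le_rpow (norm_nonneg _) h2 (by positivity : (0 : ℝ) ≤ (1 : ℝ) / m)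
      rw [← Real.rpow_natCast, ← Real.rpow_mul hLg, mul_one_div_cancel hm0.ne', Real.rpow_one] at h4
      exact h4
    have h5 := Lg_sq (P := P) (d := d) hC ht0 h3 hfs
    have h6 : ‖q z‖ ^ ((2 : ℝ) / m) = t ^ 2 := by
      rw [ht, ← Real.rpow_natCast, ← Real.rpow_mul (norm_nonneg _)]
      congr 1
      push_cast
      ring
    rw [h6]
    have hE : 0 ≤ ∑ i, ‖ell P d i (F z) (deriv F z)‖ ^ 2 := Finset.sum_nonneg fun i _ => by positivity
    have h7 : a * (2 * k) = 1 / 2 := by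
      rw [ha]
      field_simp
      norm_num
    have h8 : a ≤ 1 / 4 := by
      rw [ha]
      exact one_div_le_one_div_of_le (by norm_num) (by linarith)
    have h9 : a * t ^ 2 ≤ a * (2 * (1 + C) ^ 2 * fs (F z) (deriv F z) ^ 2 + 2 * k * ∑ i, ‖ell P d i (F z) (deriv F z)‖ ^ 2) :=
      mul_le_mul_of_nonneg_left h5 ha0.le
    have h10 : a * (2 * (1 + C) ^ 2 * fs (F z) (deriv F z) ^ 2) ≤ R₀ * D * fs (F z) (deriv F z) ^ 2 / 2 := by
      have h11 : 0 ≤ (1 + C) ^ 2 * fs (F z) (deriv F z) ^ 2 := by positivity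
      have h12 : a * (2 * (1 + C) ^ 2 * fs (F z) (deriv F z) ^ 2) ≤ 1 / 4 * (2 * (1 + C) ^ 2 * fs (F z) (deriv F z) ^ 2) :=
        mul_le_mul_of_nonneg_right h8 (by positivity)
      have h13 : (1 + C) ^ 2 * fs (F z) (deriv F z) ^ 2 * 1 ≤ (1 + C) ^ 2 * fs (F z) (deriv F z) ^ 2 * D :=
        mul_le_mul_of_nonneg_left hD1 h11
      rw [hR₀]
      linarith
    calc a * t ^ 2 ≤ a * (2 * (1 + C) ^ 2 * fs (F z) (deriv F z) ^ 2) + a * (2 * k) * ∑ i, ‖ell P d i (F z) (deriv F z)‖ ^ 2 := by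
          rw [mul_add] at h9
          linarith
      _ ≤ R₀ * D * fs (F z) (deriv F z) ^ 2 / 2 + 1 / 2 * ∑ i, ‖ell P d i (F z) (deriv F z)‖ ^ 2 := by
          rw [h7]
          linarith
      _ = _ := by ring
  -- the bound
  set S₁ : ℝ := k * κ + 5 * (D * A) with hS₁
  have hS₁0 : 0 ≤ S₁ := by positivity
  set E : ℝ := max 1 (4 * (S₁ ^ 2 + R₀ * S₁) / a) with hE
  have hE1 : 1 ≤ E := le_max_left _ _
  have hbound : ∀ z, ‖q z‖ ^ ((2 : ℝ) / m) ≤ E * (1 + ‖z‖) ^ 2 := by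
    intro z₀
    set r : ℝ := 1 + ‖z₀‖ with hr
    have hr1 : 1 ≤ r := by rw [hr]; linarith [norm_nonneg z₀]
    have hr0 : 0 < r := by linarith
    have h1 := mean_bound hq hm hr0 ha0 (z₀ := z₀) (φ := φ) (B := (S₁ ^ 2 + R₀ * S₁) * r ^ 4) hφc.continuousOn (fun z _ => hsub z) (by
      intro z hz
      rw [mem_closedBall, dist_eq_norm] at hz
      have h2 : ‖z‖ ≤ 2 * r := by
        have h3 : ‖z‖ ≤ ‖z - z₀‖ + ‖z₀‖ := by simpa using norm_add_le (z - z₀) z₀
        rw [hr] at hz ⊢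
        linarith
      have h4 : ∑ i, (κ + lam P d i (F z)) ≤ S₁ * r ^ 2 := by
        rw [hsum, hS₁]
        have h5 : Real.log ‖F z‖ ≤ A * (5 * r ^ 2) := by
          refine (hgr z).trans (mul_le_mul_of_nonneg_left ?_ hA)
          have h6 : ‖z‖ ^ 2 ≤ (2 * r) ^ 2 := pow_le_pow_left₀ (norm_nonneg _) h2 2
          nlinarith
        have h7 : D * Real.log ‖F z‖ ≤ D * (A * (5 * r ^ 2)) := mul_le_mul_of_nonneg_left h5 (by linarith)
        have h8 : k * κ * 1 ≤ k * κ * r ^ 2 := mul_le_mul_of_nonneg_left (one_le_pow₀ hr1) (by positivity)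
        nlinarith
      have hterm : ∀ i, 0 ≤ κ + lam P d i (F z) := fun i => zero_le_one.trans (hs1 z i)
      have hle : ∀ i, κ + lam P d i (F z) ≤ S₁ * r ^ 2 := fun i =>
        (Finset.single_le_sum (f := fun i => κ + lam P d i (F z)) (fun i _ => hterm i) (Finset.mem_univ i)).trans h4
      refine ⟨Finset.sum_nonneg fun i _ => add_nonneg (sq_nonneg _) (mul_nonneg hR₀0 (hterm i)), ?_⟩
      have h9 : φ z ≤ ∑ i, (S₁ * r ^ 2 + R₀) * (κ + lam P d i (F z)) := by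
        refine Finset.sum_le_sum fun i _ => ?_
        nlinarith [mul_le_mul_of_nonneg_right (hle i) (hterm i)]
      rw [← Finset.mul_sum] at h9
      have h10 : (S₁ * r ^ 2 + R₀) * ∑ i, (κ + lam P d i (F z)) ≤ (S₁ * r ^ 2 + R₀) * (S₁ * r ^ 2) :=
        mul_le_mul_of_nonneg_left h4 (by positivity)
      have h11 : r ^ 2 ≤ r ^ 4 := pow_le_pow_right₀ hr1 (by norm_num)
      have h12 : R₀ * S₁ * r ^ 2 ≤ R₀ * S₁ * r ^ 4 := mul_le_mul_of_nonneg_left h11 (by positivity)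
      calc φ z ≤ (S₁ * r ^ 2 + R₀) * (S₁ * r ^ 2) := h9.trans h10
        _ = S₁ ^ 2 * r ^ 4 + R₀ * S₁ * r ^ 2 := by ring
        _ ≤ (S₁ ^ 2 + R₀ * S₁) * r ^ 4 := by linarith [h12])
    refine h1.trans ?_
    have h13 : 4 * ((S₁ ^ 2 + R₀ * S₁) * r ^ 4) / (a * r ^ 2) = 4 * (S₁ ^ 2 + R₀ * S₁) / a * r ^ 2 := by
      field_simp
    rw [h13]
    exact mul_le_mul_of_nonneg_right (le_max_right _ _) (by positivity)
  refine Pool.Agent.SY.exists_poly_of_growth (2 * m) q (E ^ m) hq fun z => ?_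
  have hY1 : 1 ≤ E * (1 + ‖z‖) ^ 2 := one_le_mul_of_one_le_of_one_le hE1 (one_le_pow₀ (by linarith [norm_nonneg z]))
  have h1 : ‖q z‖ = (‖q z‖ ^ ((2 : ℝ) / m)) ^ ((m : ℝ) / 2) := by
    rw [← Real.rpow_mul (norm_nonneg _)]
    have : (2 : ℝ) / m * (m / 2) = 1 := by field_simp
    rw [this, Real.rpow_one]
  rw [h1]
  calc (‖q z‖ ^ ((2 : ℝ) / m)) ^ ((m : ℝ) / 2) ≤ (E * (1 + ‖z‖) ^ 2) ^ ((m : ℝ) / 2) :=
        Real.rpow_le_rpow (by positivity) (hbound z) (by positivity)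
    _ ≤ (E * (1 + ‖z‖) ^ 2) ^ (m : ℝ) := Real.rpow_le_rpow_of_exponent_le hY1 (by linarith)
    _ = E ^ m * (1 + ‖z‖) ^ (2 * m) := by
        rw [Real.rpow_natCast, mul_pow, ← pow_mul]

end Pool.Agent.SDA
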