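import Pool.Agent.SDA.Nn
import Pool.Agent.SDA.Ab
import Pool.Agent.SDA.Th
import Pool.Agent.SDA.Cc
import Pool.Agent.SDA.F1c
import Pool.Agent.SY.A

/-!
# SDA T1: tame curves

A curve of tame length: the metric is bounded by a multiple of the length, and there are no good points near infinity.
-/

set_option autoImplicit false

open Topology Filter Metric

noncomputable section

namespace Pool.Agent.SDA

open Pool.Agent.H36.BP (EN fs wd Sub OrdTwo)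
open Pool.Agent.H14.PP (IsCone Tan)
open Pool.Agent.SY (Ent Energy)

variable {N : ℕ} {ι : Type} [Fintype ι] {X K T : Set (EN N)} {P : ι → EN N → ℂ} {d : ι → ℕ} {rho : EN N → ℝ} {M : ℕ} {c₀ C : ℝ}
  {g : (ℂ → EN N) → ℂ → ℝ} {n : EN N → EN N → ℝ}

/-- **T1** (1): tame curves, (6) (i) of the note -/
theorem tame_bound (S : Setup X K T P d rho M c₀ C g n) {F : ℂ → EN N} (hF : Ent K T F) (ht : Tame fun z => n (F z) (deriv F z)) :
    ∃ C₂ : ℝ, 0 < C₂ ∧ ∀ᶠ z in cocompact ℂ, g F z ≤ C₂ * n (F z) (deriv F z) := by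
  obtain ⟨C₁, hC₁, hb⟩ := bound_local S
  have hKX : K ⊆ X := fun x hx => ((S.aff.mem x).1 hx).1
  refine ⟨2 * C₁, by positivity, ?_⟩
  filter_upwards [ht.1.eventually_gt_atTop 0, ht.2.2 1 1 one_pos] with z hz0 hz
  obtain ⟨μ, hμ⟩ : ∃ μ : ℂ → ℝ, μ = fun z => n (F z) (deriv F z) := ⟨_, rfl⟩
  have hμz : n (F z) (deriv F z) = μ z := by rw [hμ]
  have hz0' : 0 < μ z := by rw [← hμz]; exact hz0
  obtain ⟨t, ht'⟩ : ∃ t : ℝ, t = (2 * μ z)⁻¹ := ⟨_, rfl⟩
  have ht0 : 0 < t := by rw [ht']; positivity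
  have hat : (t : ℂ) ≠ 0 := by exact_mod_cast ht0.ne'
  have h1 := hb (fun w => F ((t : ℂ) * w + z)) (hF.comp_affine hat z) fun w hw => by
    rw [n_aff S.gauge hKX hF.diff hF.mem (t : ℂ) z w, Complex.norm_real, Real.norm_of_nonneg ht0.le]
    have hw' : ‖w‖ < 1 := by rwa [mem_ball, dist_zero_right] at hw
    have h3 := hz (w / 2) (by rw [norm_div, Complex.norm_ofNat]; linarith)
    have h4 : z + w / 2 / ((n (F z) (deriv F z) : ℝ) : ℂ) = (t : ℂ) * w + z := by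
      rw [hμz, ht', Complex.ofReal_inv, Complex.ofReal_mul]
      have : (μ z : ℂ) ≠ 0 := by exact_mod_cast hz0'.ne'
      push_cast
      field_simp
      ring
    rw [h4, hμz] at h3
    have h5 := (abs_le.1 h3).2
    have h6 : n (F ((t : ℂ) * w + z)) (deriv F ((t : ℂ) * w + z)) / μ z ≤ 2 := by linarith
    rw [div_le_iff₀ hz0'] at h6
    rw [ht'] at h6
    rw [ht', inv_mul_le_iff₀ (by positivity)]
    linarith
  rw [S.en.aff F hF (t : ℂ) z hat 0, mul_zero, zero_add, Complex.norm_real, Real.norm_of_nonneg ht0.le, ht',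
    inv_mul_le_iff₀ (by positivity)] at h1
  rw [hμz]
  linarith

/-- **T1** (2): (6) (ii) of the note -/
theorem tame_bad (S : Setup X K T P d rho M c₀ C g n) {F : ℂ → EN N} (hF : Ent K T F) (hN : Nm P F) (ht : Tame fun z => n (F z) (deriv F z))
    {δ : ℝ} (hδ : 0 < δ) : ∀ᶠ z in cocompact ℂ, rho (F z) < δ := by
  by_contra hcon
  rw [not_eventually] at hcon
  obtain ⟨C₂, hC₂, hg⟩ := tame_bound S hF ht
  obtain ⟨d₁, C₃, hd₁, hthick, -⟩ := thick S hδ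
  have hKX : K ⊆ X := fun x hx => ((S.aff.mem x).1 hx).1
  obtain ⟨μ, hμ⟩ : ∃ μ : ℂ → ℝ, μ = fun z => n (F z) (deriv F z) := ⟨_, rfl⟩
  have hμz : ∀ z, n (F z) (deriv F z) = μ z := by intro z; rw [hμ]
  -- the points
  have hex : ∀ k : ℕ, ∃ z : ℂ, δ ≤ rho (F z) ∧ 1 ≤ μ z ∧
      (∀ w : ℂ, ‖w‖ ≤ k + 1 → |μ (z + w / (μ z : ℂ)) / μ z - 1| ≤ 1 / ((k : ℝ) + 1)) ∧
      ∀ w : ℂ, ‖w‖ ≤ k + 1 → g F (z + w / (μ z : ℂ)) ≤ C₂ * μ (z + w / (μ z : ℂ)) := by
    intro k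
    obtain ⟨r, hr⟩ : ∃ r : ℝ, ∀ z : ℂ, r ≤ ‖z‖ → g F z ≤ C₂ * n (F z) (deriv F z) := by
      rw [← Metric.cobounded_eq_cocompact, ← comap_norm_atTop, eventually_comap, eventually_atTop] at hg
      obtain ⟨r, hr⟩ := hg
      exact ⟨r, fun z hz => hr _ hz z rfl⟩
    have h1 : ∀ᶠ z : ℂ in cocompact ℂ, r + k + 1 ≤ ‖z‖ := (tendsto_norm_cocompact_atTop (E := ℂ)).eventually_ge_atTop _
    obtain ⟨z, hz, hz1, hz2, hz3⟩ := (hcon.and_eventually (h1.and ((ht.1.eventually_ge_atTop 1).and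
      (ht.2.2 (k + 1) (1 / ((k : ℝ) + 1)) (by positivity))))).exists
    simp only [hμz] at hz2 hz3
    refine ⟨z, not_lt.1 hz, hz2, hz3, fun w hw => ?_⟩
    have h2 : ‖w / (μ z : ℂ)‖ ≤ k + 1 := by
      rw [norm_div, Complex.norm_real, Real.norm_of_nonneg (by linarith)]
      exact (div_le_self (norm_nonneg _) hz2).trans hw
    have h3 : r ≤ ‖z + w / (μ z : ℂ)‖ := by
      have := norm_sub_le_norm_add z (w / (μ z : ℂ))
      linarith
    have h4 := hr _ h3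
    rwa [hμz] at h4
  choose z hz hz1 hz2 hz3 using hex
  obtain ⟨G, hG⟩ : ∃ G : ℕ → ℂ → EN N, G = fun k w => F (((μ (z k))⁻¹ : ℝ) * w + z k) := ⟨_, rfl⟩
  have hpos : ∀ k, 0 < (μ (z k))⁻¹ := fun k => inv_pos.2 (by linarith [hz1 k])
  have hne : ∀ k, (((μ (z k))⁻¹ : ℝ) : ℂ) ≠ 0 := fun k => by exact_mod_cast (hpos k).ne'
  have harg : ∀ (k : ℕ) (w : ℂ), (((μ (z k))⁻¹ : ℝ) : ℂ) * w + z k = z k + w / (μ (z k) : ℂ) := by
    intro k w
    rw [Complex.ofReal_inv, div_eq_mul_inv]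
    ring
  have hGE : ∀ k, Ent K T (G k) := by
    intro k
    rw [hG]
    exact hF.comp_affine (hne k) (z k)
  have hGN : ∀ k, Nm P (G k) := by
    intro k w
    rw [hG]
    exact hN _
  have hGn : ∀ k w, n (G k w) (deriv (G k) w) = μ (z k + w / (μ (z k) : ℂ)) / μ (z k) := by
    intro k w
    have h1 := n_aff S.gauge hKX hF.diff hF.mem (((μ (z k))⁻¹ : ℝ) : ℂ) (z k) w
    rw [Complex.norm_real, Real.norm_of_nonneg (hpos k).le, hμz, harg] at h1
    rw [hG]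
    simp only [harg] at h1 ⊢
    rw [h1]
    ring
  have hGg : ∀ k w, g (G k) w = (μ (z k))⁻¹ * g F (z k + w / (μ (z k) : ℂ)) := by
    intro k w
    have h1 := S.en.aff F hF (((μ (z k))⁻¹ : ℝ) : ℂ) (z k) (hne k) w
    rw [Complex.norm_real, Real.norm_of_nonneg (hpos k).le, harg] at h1
    rw [hG]
    exact h1
  have hGA : ∀ k : ℕ, ∀ w ∈ ball (0 : ℂ) (k + 1), g (G k) w ≤ 2 * C₂ := by
    intro k w hw
    have hw' : ‖w‖ ≤ k + 1 := by
      rw [mem_ball, dist_zero_right] at hw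
      exact hw.le
    have h1 := hz3 k w hw'
    have h2 := (abs_le.1 (hz2 k w hw')).2
    have h3 : (1 : ℝ) / ((k : ℝ) + 1) ≤ 1 := by
      rw [div_le_one (by positivity)]
      have : (0 : ℝ) ≤ k := Nat.cast_nonneg k
      linarith
    have h4 : μ (z k + w / (μ (z k) : ℂ)) / μ (z k) ≤ 2 := by linarith
    rw [hGg]
    calc (μ (z k))⁻¹ * g F (z k + w / (μ (z k) : ℂ)) ≤ (μ (z k))⁻¹ * (C₂ * μ (z k + w / (μ (z k) : ℂ))) :=
          mul_le_mul_of_nonneg_left h1 (hpos k).le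
      _ = C₂ * (μ (z k + w / (μ (z k) : ℂ)) / μ (z k)) := by rw [div_eq_mul_inv]; ring
      _ ≤ C₂ * 2 := mul_le_mul_of_nonneg_left h4 hC₂.le
      _ = 2 * C₂ := by ring
  have hG0 : ∀ k, d₁ ≤ g (G k) 0 := by
    intro k
    refine hthick (G k) (hGE k) 0 ?_ ?_
    · rw [hG]
      simpa using hz k
    · rw [hGn]
      simp only [zero_div, add_zero]
      rw [div_self (by linarith [hz1 k] : μ (z k) ≠ 0)]
  -- the limit
  have h𝒰 : ((hyperfilter ℕ : Ultrafilter ℕ) : Filter ℕ) ≤ atTop := by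
    rw [← Nat.cofinite_eq_atTop]
    exact hyperfilter_le_cofinite
  obtain ⟨H, hHE, hHN, -, -, hHc⟩ := compactness S (hyperfilter ℕ) h𝒰 G hGE hGN hd₁ hGA hG0
  refine cl_empty S H ⟨hHE, hHN, fun w => ?_⟩
  have h1 := n_tendsto S.gauge hKX (Eventually.of_forall fun k => ⟨(hGE k).diff, (hGE k).mem⟩) hHE.diff hHE.mem hHc w
  have h2 : Tendsto (fun k : ℕ => n (G k w) (deriv (G k) w)) atTop (𝓝 1) := by
    rw [tendsto_iff_dist_tendsto_zero]
    refine squeeze_zero' (Eventually.of_forall fun k => dist_nonneg) ?_ (tendsto_one_div_add_atTop_nhds_zero_nat (𝕜 := ℝ))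
    filter_upwards [eventually_ge_atTop ⌈‖w‖⌉₊] with k hk
    rw [Real.dist_eq, hGn]
    refine hz2 k w ?_
    have h3 : ‖w‖ ≤ (k : ℝ) := (Nat.le_ceil _).trans (by exact_mod_cast hk)
    linarith
  exact tendsto_nhds_unique h1 (h2.mono_left h𝒰)

end Pool.Agent.SDA
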