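import Pool.Agent.SDA.Ll
import Pool.Agent.SDA.Ha
import Pool.Agent.SDA.Nn
import Pool.Agent.SDA.Ab
import Pool.Agent.SDA.Th
import Pool.Agent.SY.A

/-!
# SDA Td: tangent discs

A disc without good points which touches a good point has a bounded radius.
-/

set_option autoImplicit false

open Topology Filter Metric

noncomputable section

namespace Pool.Agent.SDA

open Pool.Agent.H36.BP (EN fs wd Sub OrdTwo)
open Pool.Agent.H14.PP (IsCone Tan)
open Pool.Agent.SY (Ent Energy)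

variable {N : ℕ} {ι : Type} [Fintype ι] {X K T : Set (EN N)} {P : ι → EN N → ℂ} {d : ι → ℕ} {rho : EN N → ℝ} {M : ℕ} {c₀ C : ℝ}
  {g : (ℂ → EN N) → ℂ → ℝ} {n : EN N → EN N → ℝ}

/-- product of a nonnegative upper semicontinuous function and a nonnegative continuous function -/
theorem Td.usc_mul {α : Type*} [TopologicalSpace α] {S : Set α} {u k : α → ℝ} (hu : UpperSemicontinuousOn u S)
    (hk : ContinuousOn k S) (hu0 : ∀ x ∈ S, 0 ≤ u x) (hk0 : ∀ x ∈ S, 0 ≤ k x) :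
    UpperSemicontinuousOn (fun x => u x * k x) S := by
  intro x hx y hy
  have ht : Tendsto (fun ε : ℝ => (u x + ε) * (k x + ε)) (𝓝[>] 0) (𝓝 ((u x + 0) * (k x + 0))) := by
    apply tendsto_nhdsWithin_of_tendsto_nhds
    have hc : Continuous (fun ε : ℝ => (u x + ε) * (k x + ε)) := by fun_prop
    exact hc.tendsto 0
  have hy' : (u x + 0) * (k x + 0) < y := by simpa using hy
  obtain ⟨ε, hε1, hε2⟩ := ((ht.eventually_lt_const hy').and self_mem_nhdsWithin).exists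
  have hε : (0 : ℝ) < ε := hε2
  have h1 : ∀ᶠ x' in 𝓝[S] x, u x' < u x + ε := hu x hx _ (by linarith)
  have h2 : ∀ᶠ x' in 𝓝[S] x, k x' < k x + ε := (hk x hx).eventually_lt_const (by linarith)
  filter_upwards [h1, h2, self_mem_nhdsWithin] with x' h1' h2' hx'
  refine lt_of_le_of_lt ?_ hε1
  exact mul_le_mul h1'.le h2'.le (hk0 x' hx') (by linarith [hu0 x hx])

/-- the exponential of the square of the real part of a holomorphic function -/
theorem Td.sub_exp_re {m : ℂ → ℂ} {z₀ : ℂ} (hm : AnalyticAt ℂ m z₀) (k : ℝ) :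
    Sub (fun z => Real.exp (k * (m z).re ^ 2)) z₀ (k / 2 * ‖deriv m z₀‖ ^ 2) := by
  have h1 := Pool.Agent.H36.BP.Sub.exp_sq hm (k / 2)
  have h2 : AnalyticAt ℂ (fun z => Complex.exp (((k / 2 : ℝ) : ℂ) * (m z) ^ 2)) z₀ := (analyticAt_const.mul (hm.pow 2)).cexp
  have h3 := Pool.Agent.H36.BP.Sub.of_holo h2 (Complex.exp_ne_zero _)
  have h4 := h1.mul h3
  rw [add_zero] at h4
  refine h4.congr (Eventually.of_forall fun z => ?_)
  show Real.exp (k / 2 * ‖m z‖ ^ 2) * ‖Complex.exp (((k / 2 : ℝ) : ℂ) * (m z) ^ 2)‖ = Real.exp (k * (m z).re ^ 2)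
  rw [Complex.norm_exp, ← Real.exp_add, Complex.sq_norm, Complex.normSq_apply]
  congr 1
  rw [Complex.re_ofReal_mul, sq, sq, Complex.mul_re]
  ring

/-- the lift multiplied by a constant -/
theorem Td.ent_smul (S : Setup X K T P d rho M c₀ C g n) {F : ℂ → EN N} (hF : Ent K T F) {a : ℂ} (ha : a ≠ 0) : Ent K T (fun z => a • F z) := by
  refine ⟨hF.diff.const_smul a, fun z => ?_, ?_⟩
  · have h1 := (S.aff.mem _).1 (hF.mem z)
    refine (S.aff.mem _).2 ⟨S.cone.smul_mem _ h1.1 a ha, fun i => ?_⟩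
    rw [S.aff.smul]
    exact mul_ne_zero (pow_ne_zero _ ha) (h1.2 i)
  · obtain ⟨z, hz⟩ := hF.out
    refine ⟨z, fun h => hz ?_⟩
    have h1 := S.Ts _ h a⁻¹ (inv_ne_zero ha)
    rwa [smul_smul, inv_mul_cancel₀ ha, one_smul] at h1

/-- the bound of the metric along the curves of the class -/
theorem Td.bound (S : Setup X K T P d rho M c₀ C g n) : ∃ C₁ : ℝ, 0 < C₁ ∧ ∀ F, Cl K T P n F → ∀ z, g F z ≤ C₁ := by
  obtain ⟨C₁, hC₁, h⟩ := bound_local S
  refine ⟨C₁, hC₁, fun F hF z => ?_⟩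
  have hKX : K ⊆ X := fun x hx => ((S.aff.mem x).1 hx).1
  have h1 := h (fun w => F (1 * w + z)) (hF.1.comp_affine one_ne_zero z) fun w _ => by
    have h2 := n_aff S.gauge hKX hF.1.diff hF.1.mem 1 z w
    rw [hF.2.2, norm_one, mul_one] at h2
    exact h2.le
  rw [S.en.aff F hF.1 1 z one_ne_zero 0] at h1
  simpa using h1

/-- **Td**: tangent discs -/
theorem tangent (S : Setup X K T P d rho M c₀ C g n) {δ : ℝ} (hδ : 0 < δ) (hnear : Near K T (fun x => ‖x‖) rho c₀ g δ) :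
    ∃ R₁ : ℝ, 0 < R₁ ∧ ∀ F, Cl K T P n F → ∀ z p : ℂ, δ ≤ rho (F p) → (∀ w, ‖w - z‖ < ‖p - z‖ → rho (F w) < δ) → ‖p - z‖ ≤ R₁ := by
  obtain ⟨cl, hcl, hcl1, hclow⟩ := norm_lower S.aff
  obtain ⟨C₁, hC₁, hg⟩ := Td.bound S
  obtain ⟨d₁, C₂, hd₁, hthick, hC₂⟩ := thick S hδ
  have hc₀ : 0 < c₀ := S.en.c₀_pos
  have hCpos : 0 < C := S.en.C_pos
  obtain ⟨k, hk⟩ : ∃ k : ℝ, k = 2 * (C * C₁ ^ 2) := ⟨_, rfl⟩
  have hk0 : 0 < k := by rw [hk]; positivity
  obtain ⟨a, ha⟩ : ∃ a : ℝ, a = Real.log C₁ + 4 * k := ⟨_, rfl⟩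
  obtain ⟨b, hb⟩ : ∃ b : ℝ, b = c₀ * (C₂ - Real.log cl) - Real.log d₁ := ⟨_, rfl⟩
  obtain ⟨A, hA⟩ : ∃ A : ℝ, A = 12 * max (a + b) 0 / c₀ := ⟨_, rfl⟩
  have hA0 : 0 ≤ A := by
    rw [hA]
    have := le_max_right (a + b) 0
    positivity
  obtain ⟨R₀, hR₀, hL⟩ := lemma_L S.cone S.aff S.gauge hA0
  refine ⟨4 * R₀ + 2, by positivity, fun F hF z p hp hfree => ?_⟩
  by_contra hcon
  push Not at hcon
  -- the disc
  obtain ⟨R, hR⟩ : ∃ R : ℝ, R = ‖p - z‖ / 2 := ⟨_, rfl⟩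
  have hR2 : ‖p - z‖ = 2 * R := by rw [hR]; ring
  have hR1 : 1 < R := by linarith
  have hR4 : R₀ ≤ R / 2 := by linarith
  obtain ⟨u, hu⟩ : ∃ u : ℂ, u = (z - p) / ((2 * R : ℝ) : ℂ) := ⟨_, rfl⟩
  have hRc : ((2 * R : ℝ) : ℂ) ≠ 0 := by exact_mod_cast (by linarith : (2 * R : ℝ) ≠ 0)
  have hu1 : ‖u‖ = 1 := by
    rw [hu, norm_div, Complex.norm_real, Real.norm_of_nonneg (by linarith), norm_sub_rev, hR2]
    exact div_self (by linarith)
  have hz : z = p + ((2 * R : ℝ) : ℂ) * u := by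
    rw [hu]
    field_simp
    ring
  obtain ⟨c, hc⟩ : ∃ c : ℂ, c = p + ((R - 1 : ℝ) : ℂ) * u := ⟨_, rfl⟩
  have huu : (starRingEnd ℂ) u * u = 1 := by
    rw [mul_comm, Complex.mul_conj, Complex.normSq_eq_norm_sq, hu1]
    norm_num
  -- the coordinate `ζ w = (w - p) / u`
  obtain ⟨L, hL'⟩ : ∃ L : ℂ → ℂ, L = fun w => (w - p) * (starRingEnd ℂ) u := ⟨_, rfl⟩
  have hLnorm : ∀ (w : ℂ) (t : ℝ), ‖w - (p + (t : ℂ) * u)‖ = ‖L w - t‖ := by
    intro w t
    have h1 : w - (p + (t : ℂ) * u) = (L w - t) * u := by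
      rw [hL']
      show w - (p + (t : ℂ) * u) = ((w - p) * (starRingEnd ℂ) u - t) * u
      rw [sub_mul, mul_assoc, huu]
      ring
    rw [h1, norm_mul, hu1, mul_one]
  have hsq : ∀ (w : ℂ) (t : ℝ), ‖w - (p + (t : ℂ) * u)‖ ^ 2 = ((L w).re - t) ^ 2 + (L w).im ^ 2 := by
    intro w t
    rw [hLnorm, Complex.sq_norm, Complex.normSq_apply, Complex.sub_re, Complex.sub_im, Complex.ofReal_re, Complex.ofReal_im]
    ring
  have hLd : ∀ w, AnalyticAt ℂ (fun w => 1 - L w) w := by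
    intro w
    rw [hL']
    fun_prop
  have hLderiv : ∀ w, ‖deriv (fun w => 1 - L w) w‖ = 1 := by
    intro w
    have h1 : HasDerivAt (fun w => 1 - L w) (0 - 1 * (starRingEnd ℂ) u) w := by
      rw [hL']
      exact (hasDerivAt_const w (1 : ℂ)).sub (((hasDerivAt_id w).sub_const p).mul_const _)
    rw [h1.deriv, zero_sub, one_mul, norm_neg, RCLike.norm_conj, hu1]
  have hLc : Continuous L := by
    rw [hL']
    fun_prop
  -- the lift of norm at least one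
  have hclc : ((cl⁻¹ : ℝ) : ℂ) ≠ 0 := by exact_mod_cast (inv_ne_zero hcl.ne')
  obtain ⟨F₁, hF₁⟩ : ∃ F₁ : ℂ → EN N, F₁ = fun w => ((cl⁻¹ : ℝ) : ℂ) • F w := ⟨_, rfl⟩
  have hF₁E : Ent K T F₁ := by rw [hF₁]; exact Td.ent_smul S hF.1 hclc
  have hKX : K ⊆ X := fun x hx => ((S.aff.mem x).1 hx).1
  have hgF₁ : ∀ w, g F₁ w = g F w := by
    intro w
    rw [hF₁]
    exact S.en.unit F hF.1 (fun _ => ((cl⁻¹ : ℝ) : ℂ)) (differentiable_const _) (fun _ => hclc) w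
  have hrF₁ : ∀ w, rho (F₁ w) = rho (F w) := by
    intro w
    rw [hF₁]
    exact S.rhos _ (hKX (hF.1.mem w)) _ hclc
  have hnF₁ : ∀ w, ‖F₁ w‖ = cl⁻¹ * ‖F w‖ := by
    intro w
    rw [hF₁, norm_smul, Complex.norm_real, Real.norm_of_nonneg (inv_nonneg.2 hcl.le)]
  have hFl : ∀ w, cl ≤ ‖F w‖ := fun w => hclow _ (hF.2.1 w)
  have hF₁1 : ∀ w, 1 ≤ ‖F₁ w‖ := by
    intro w
    rw [hnF₁, ← inv_mul_cancel₀ hcl.ne']
    exact mul_le_mul_of_nonneg_left (hFl w) (inv_nonneg.2 hcl.le)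
  have hlog : ∀ w, Real.log ‖F₁ w‖ = Real.log ‖F w‖ - Real.log cl := by
    intro w
    rw [hnF₁, Real.log_mul (inv_ne_zero hcl.ne') (lt_of_lt_of_le hcl (hFl w)).ne', Real.log_inv]
    ring
  have hrpow : ∀ w, ‖F₁ w‖ ^ (-c₀) = Real.exp (-(c₀ * Real.log ‖F₁ w‖)) := by
    intro w
    rw [Real.rpow_def_of_pos (lt_of_lt_of_le one_pos (hF₁1 w))]
    congr 1
    ring
  -- the function `v`
  obtain ⟨E, hE⟩ : ∃ E : ℂ → ℝ, E = fun w => Real.exp (k * (max (1 - (L w).re) 0) ^ 2) := ⟨_, rfl⟩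
  have hEc : Continuous E := by
    rw [hE]
    have : Continuous fun w => (L w).re := Complex.continuous_re.comp hLc
    fun_prop
  have hEpos : ∀ w, 0 < E w := by
    intro w
    rw [hE]
    exact Real.exp_pos _
  have hE1 : ∀ w, 1 ≤ E w := by
    intro w
    rw [hE]
    exact Real.one_le_exp (by positivity)
  obtain ⟨v, hv⟩ : ∃ v : ℂ → ℝ, v = fun w => g F₁ w * (‖F₁ w‖ ^ (-c₀) * E w) := ⟨_, rfl⟩
  have hpowpos : ∀ w, 0 < ‖F₁ w‖ ^ (-c₀) := fun w => Real.rpow_pos_of_pos (lt_of_lt_of_le one_pos (hF₁1 w)) _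
  have hg0 : ∀ w, 0 ≤ g F₁ w := S.en.nonneg F₁ hF₁E
  have hball : ∀ w ∈ closedBall c R, E w ≤ Real.exp (4 * k) := by
    intro w hw
    have h1 : ‖w - c‖ ≤ R := by rwa [mem_closedBall, dist_eq_norm] at hw
    have h2 : ‖w - c‖ ^ 2 ≤ R ^ 2 := by
      have := norm_nonneg (w - c)
      nlinarith
    rw [hc, hsq] at h2
    have h3 : -1 ≤ (L w).re := by nlinarith [sq_nonneg (L w).im]
    have h4 : max (1 - (L w).re) 0 ≤ 2 := max_le (by linarith) (by norm_num)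
    have h5 : 0 ≤ max (1 - (L w).re) 0 := le_max_right _ _
    rw [hE]
    apply Real.exp_le_exp.2
    have h6 : (max (1 - (L w).re) 0) ^ 2 ≤ 4 := by nlinarith
    nlinarith
  have hsub : ∀ w ∈ ball c R, 0 < v w → Sub v w 0 := by
    intro w hw hvw
    have h1 : ‖w - c‖ < R := by rwa [mem_ball, dist_eq_norm] at hw
    have hgpos : 0 < g F₁ w := by
      rcases (hg0 w).lt_or_eq with h | h
      · exact h
      · rw [hv] at hvw
        simp only [← h, zero_mul, lt_irrefl] at hvw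
    by_cases hs : (L w).re < 1
    · have h2 := S.en.sub F₁ hF₁E w hgpos
      have h3 := Td.sub_exp_re (hLd w) k
      rw [hLderiv, one_pow, mul_one] at h3
      have h4 := (h2.mul h3).anti (d := 0) (by
        have h5 : g F₁ w ≤ C₁ := by rw [hgF₁]; exact hg F hF w
        have h6 : g F₁ w ^ 2 ≤ C₁ ^ 2 := pow_le_pow_left₀ (hg0 w) h5 2
        rw [hk]
        nlinarith)
      refine h4.congr ?_
      have h7 : ∀ᶠ z in 𝓝 w, (L z).re < 1 := ((Complex.continuous_re.comp hLc).continuousAt).eventually (gt_mem_nhds hs)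
      filter_upwards [h7] with z hz
      rw [hv, hE]
      show g F₁ z * ‖F₁ z‖ ^ (-c₀) * Real.exp (k * (1 - L z).re ^ 2) =
        g F₁ z * (‖F₁ z‖ ^ (-c₀) * Real.exp (k * (max (1 - (L z).re) 0) ^ 2))
      rw [max_eq_left (by linarith), Complex.sub_re, Complex.one_re, mul_assoc]
    · push Not at hs
      have h2 : rho (F₁ w) < δ := by
        rw [hrF₁]
        apply hfree
        have h3 : ‖w - c‖ ^ 2 < R ^ 2 := by
          have := norm_nonneg (w - c)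
          nlinarith
        rw [hc, hsq] at h3
        have h4 : ‖w - z‖ ^ 2 < ‖p - z‖ ^ 2 := by
          rw [hR2, hz, hsq]
          nlinarith
        exact lt_of_pow_lt_pow_left₀ 2 (norm_nonneg _) h4
      have h3 := hnear F₁ hF₁E w h2 hgpos
      refine h3.mono ?_ (Eventually.of_forall fun z => ?_)
      · rw [hv, hE]
        show g F₁ w * ‖F₁ w‖ ^ (-c₀) = g F₁ w * (‖F₁ w‖ ^ (-c₀) * Real.exp (k * (max (1 - (L w).re) 0) ^ 2))
        rw [max_eq_right (by linarith)]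
        simp
      · rw [hv]
        show g F₁ z * ‖F₁ z‖ ^ (-c₀) ≤ g F₁ z * (‖F₁ z‖ ^ (-c₀) * E z)
        exact mul_le_mul_of_nonneg_left (le_mul_of_one_le_right (hpowpos z).le (hE1 z)) (hg0 z)
  have husc : UpperSemicontinuousOn v (closedBall c R) := by
    rw [hv]
    refine Td.usc_mul ?_ ?_ (fun w _ => hg0 w) (fun w _ => (mul_pos (hpowpos w) (hEpos w)).le)
    · intro w _ y hy
      exact mem_nhdsWithin_of_mem_nhds (S.en.usc F₁ hF₁E w y hy)
    · have h1 : Continuous fun w => ‖F₁ w‖ := hF₁E.diff.continuous.norm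
      have h2 : Continuous fun w => ‖F₁ w‖ ^ (-c₀) :=
        h1.rpow_const fun w => Or.inl (lt_of_lt_of_le one_pos (hF₁1 w)).ne'
      exact (h2.mul hEc).continuousOn
  have hva : ∀ w ∈ closedBall c R, v w ≤ Real.exp a * ‖F₁ w‖ ^ (-c₀) := by
    intro w hw
    have h1 := hball w hw
    have h2 : g F₁ w ≤ C₁ := by rw [hgF₁]; exact hg F hF w
    have h3 : Real.exp a = C₁ * Real.exp (4 * k) := by rw [ha, Real.exp_add, Real.exp_log hC₁]
    rw [hv, h3]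
    calc g F₁ w * (‖F₁ w‖ ^ (-c₀) * E w) ≤ C₁ * (‖F₁ w‖ ^ (-c₀) * Real.exp (4 * k)) :=
          mul_le_mul h2 (mul_le_mul_of_nonneg_left h1 (hpowpos w).le) (mul_pos (hpowpos w) (hEpos w)).le hC₁.le
      _ = C₁ * Real.exp (4 * k) * ‖F₁ w‖ ^ (-c₀) := by ring
  have hvb : Real.exp (-b) ≤ v p := by
    have h1 : d₁ ≤ g F₁ p := by
      rw [hgF₁]
      exact hthick F hF.1 p hp (hF.2.2 p).ge
    have h2 : Real.log ‖F p‖ ≤ C₂ := hC₂ _ (hF.1.mem p) (hF.2.1 p) hp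
    have h3 : Real.exp (-b) = d₁ * Real.exp (-(c₀ * (C₂ - Real.log cl))) := by
      rw [hb, neg_sub, sub_eq_add_neg, Real.exp_add, Real.exp_log hd₁]
    have h4 : Real.exp (-(c₀ * (C₂ - Real.log cl))) ≤ ‖F₁ p‖ ^ (-c₀) := by
      rw [hrpow, hlog]
      apply Real.exp_le_exp.2
      nlinarith
    rw [h3, hv]
    show _ ≤ g F₁ p * (‖F₁ p‖ ^ (-c₀) * E p)
    refine mul_le_mul h1 ?_ (Real.exp_pos _).le (hg0 p)
    calc Real.exp (-(c₀ * (C₂ - Real.log cl))) ≤ ‖F₁ p‖ ^ (-c₀) := h4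
      _ ≤ ‖F₁ p‖ ^ (-c₀) * E p := le_mul_of_one_le_right (hpowpos p).le (hE1 p)
  -- Harnack
  have hpc : ‖p - c‖ = R - 1 := by
    rw [hc, sub_add_cancel_left, norm_neg, norm_mul, hu1, mul_one, Complex.norm_real, Real.norm_of_nonneg (by linarith)]
  have hpb : p ∈ ball c R := by
    rw [mem_ball, dist_eq_norm, hpc]
    linarith
  have hH := harnack hc₀ hpb hF₁E.diff hF₁1 husc (fun w _ => by rw [hv]; exact mul_nonneg (hg0 w) (mul_pos (hpowpos w) (hEpos w)).le)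
    hsub hva hvb
  obtain ⟨w, hw, hwA⟩ := hL F hF.1.diff hF.1.mem hF.2.1 c (R / 2) hR4 fun w _ => (hF.2.2 w).ge
  have h1 := hH w (ball_subset_closedBall hw)
  rw [hpc, hlog] at h1
  have h2 : (R + (R - 1)) / (R - (R - 1)) = 2 * R - 1 := by
    rw [show R - (R - 1) = 1 by ring, div_one]
    ring
  rw [h2] at h1
  have h3 : Real.log cl ≤ 0 := Real.log_nonpos hcl.le hcl1
  have h4 : a + b ≤ max (a + b) 0 := le_max_left _ _
  have h5 : 0 ≤ max (a + b) 0 := le_max_right _ _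
  have h6 : 3 * (2 * R - 1) * (a + b) ≤ 6 * R * max (a + b) 0 := by
    calc 3 * (2 * R - 1) * (a + b) ≤ 3 * (2 * R - 1) * max (a + b) 0 := mul_le_mul_of_nonneg_left h4 (by linarith)
      _ ≤ 6 * R * max (a + b) 0 := mul_le_mul_of_nonneg_right (by linarith) h5
  have h7 : c₀ * Real.log ‖F w‖ ≤ 6 * R * max (a + b) 0 := by nlinarith
  have h8 : A * (R / 2) * c₀ = 6 * R * max (a + b) 0 := by
    rw [hA]
    field_simp
    ring
  have h9 : A * (R / 2) * c₀ < Real.log ‖F w‖ * c₀ := mul_lt_mul_of_pos_right hwA hc₀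
  linarith

end Pool.Agent.SDA
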