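import Pool.Agent.SDA.RDefs
import Pool.Agent.E1.Defs
import Pool.Agent.H17BP.Surf
import Pool.Agent.H17EF.Bridge

/-!
# SDA XStub: two coprime logarithmic symmetric differentials (statements of the modules; never import this file in a hand-in)

The common null directions of two logarithmic symmetric differentials: the union of the set of the points with a common null direction with the
boundary is given locally by one equation (the resultant times a power of `∏ H i`), thus it lies in an algebraic curve.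
-/

set_option autoImplicit false

open Topology Filter Metric MvPolynomial

noncomputable section

namespace Pool.Agent.SDA.Stub

open Pool.Agent.H36.BP (EN)
open Pool.Agent.H14.PP (IsCone Tan)
open Pool.Agent.H17 (PN VanishesAt HolomorphicInto)
open Pool.Agent.H17BP (Surface IsChart LocalEq)
open Pool.Agent.H62.FC (Homog)
open Pool.Agent.H17LG.Variety (FunField)
open Pool.Agent.H17EF (coneE)
open Pool.Agent.H13.SM (conTan)
open Pool.Agent.AD (SymDiff TangentTo)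
open Pool.Agent.AD.NC (complement)
open Pool.Agent.E1 (ComNull)
open Pool.Agent.SDA

variable {N k : ℕ} {P : Ideal (MvPolynomial (Fin (N + 1)) ℂ)} {H : Fin k → MvPolynomial (Fin (N + 1)) ℂ} {e : Fin k → ℕ}

/-- MODULE X1: Riemann's extension theorem, for functions which are `O (h)` (`TN/Osg` `osgood_pi`; one variable: removable singularities) -/
theorem analyticAt_of_bound {E : Type} [NormedAddCommGroup E] [NormedSpace ℂ E] [FiniteDimensional ℂ E] {h u : E → ℂ} {x : E}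
    (hh : AnalyticAt ℂ h x) (hu : ∀ᶠ y in 𝓝 x, h y ≠ 0 → AnalyticAt ℂ u y) {C : ℝ} (hb : ∀ᶠ y in 𝓝 x, ‖u y‖ ≤ C * ‖h y‖) :
    AnalyticAt ℂ u x := by
  sorry

/-- MODULE X2: the common zeros of two families of binary forms (the resultant, with the formal degrees `m₁`, `m₂`) -/
theorem localEq_common {m₁ m₂ : ℕ} (h₁ : 1 ≤ m₁) (h₂ : 1 ≤ m₂) {a b : (ℂ × ℂ) × (ℂ × ℂ) → ℂ} (ha : ∀ v, AnalyticAt ℂ a (0, v))
    (hb : ∀ v, AnalyticAt ℂ b (0, v)) (has : ∀ᶠ p in 𝓝 (0 : ℂ × ℂ), ∀ (c : ℂ) (v : ℂ × ℂ), a (p, c • v) = c ^ m₁ * a (p, v))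
    (hbs : ∀ᶠ p in 𝓝 (0 : ℂ × ℂ), ∀ (c : ℂ) (v : ℂ × ℂ), b (p, c • v) = c ^ m₂ * b (p, v)) :
    ∃ g : ℂ × ℂ → ℂ, AnalyticAt ℂ g 0 ∧ ∀ᶠ p in 𝓝 (0 : ℂ × ℂ), g p = 0 ↔ ∃ v : ℂ × ℂ, v ≠ 0 ∧ a (p, v) = 0 ∧ b (p, v) = 0 := by
  sorry

/-- MODULE X3: the local equation.  `h p = ∏ i, eval (σ p) (H i)`, `a (p, v) = h p ^ (m₁ + 1) * θ₁ (σ p) (fderiv ℂ σ p v)` for `h p ≠ 0` and `0`
otherwise, is analytic by `analyticAt_of_bound` (`logLength ≤ C / |h p|`); `g` is `h` times the function of `localEq_common`. -/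
theorem localEq_log (hX : Surface (coneE P)) (hH : ∀ i, (H i).IsHomogeneous (e i)) {m₁ m₂ : ℕ} (h₁ : 1 ≤ m₁) (h₂ : 1 ≤ m₂)
    (θ₁ : SymDiff (openCone P H) m₁) (θ₂ : SymDiff (openCone P H) m₂) (hθ₁ : VanishesOnStatic e θ₁) (hθ₂ : VanishesOnStatic e θ₂)
    {σ : ℂ × ℂ → EN N} {τ : EN N → ℂ × ℂ} (hσ : IsChart (coneE P) σ τ) :
    ∃ g : ℂ × ℂ → ℂ, LocalEq (ComNull θ₁ θ₂ ∪ {x | x ∈ coneE P ∧ ∃ i, eval x.ofLp (H i) = 0}) σ g := by
  sorry

/-- MODULE X4: two coprime logarithmic symmetric differentials (`localEq_log`, `E1` `exists_form_of_analytic`, `vanishes_of_tangent`) -/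
theorem exists_R_log [P.IsPrime] {z : Fin 2 → FunField P} (hP : Homog P) (hz : IsTranscendenceBasis ℂ z)
    (hsm : ∀ y : Fin (N + 1) → ℂ, y ≠ 0 → (∀ Q ∈ P, eval y Q = 0) → Module.finrank ℂ (conTan P y) ≤ 3)
    (hH : ∀ i, (H i).IsHomogeneous (e i)) (hHP : ∀ i, H i ∉ P) {m₁ m₂ : ℕ} (h₁ : 1 ≤ m₁) (h₂ : 1 ≤ m₂)
    (θ₁ : SymDiff (openCone P H) m₁) (θ₂ : SymDiff (openCone P H) m₂) (hθ₁ : VanishesOnStatic e θ₁) (hθ₂ : VanishesOnStatic e θ₂)
    (hd : openCone P H ⊆ closure (openCone P H \ ComNull θ₁ θ₂)) :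
    ∃ (R : MvPolynomial (Fin (N + 1)) ℂ) (d : ℕ), R.IsHomogeneous d ∧ R ∉ P ∧ ∀ f : ℂ → PN N, HolomorphicInto f Set.univ →
      (∀ z, f z ∈ complement P H) → (∃ z w, f z ≠ f w) → TangentTo θ₁ f → TangentTo θ₂ f → ∀ z, VanishesAt R (f z) := by
  sorry

end Pool.Agent.SDA.Stub
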